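import Pool.Agent.Work.MP_03d391_sc.Interface2

/-!
# Block EX2: exact forms in a graded algebra whose generators have large degrees
-/

set_option autoImplicit false

noncomputable section

open MvPolynomial TensorProduct

namespace Pool.SC

namespace EX2

section abstract

variable (k : Type) [Field k] {B : Type} [CommRing B] [Algebra (Pol k) B] {m : ℕ}

/-- Homogeneous monomials in the generators. -/
inductive Mon (δ : Fin m → ℤ) (ε : Fin m → B) : ℤ → B → Prop
  | base (n : ℤ) (f : Pol k) : HZ n f → Mon δ ε n (algebraMap (Pol k) B f)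
  | mul (i : Fin m) (n : ℤ) (z : B) : Mon δ ε n z → Mon δ ε (δ i + n) (ε i * z)

/-- Sums of homogeneous monomials of the same degree. -/
def MM (δ : Fin m → ℤ) (ε : Fin m → B) (n : ℤ) : AddSubgroup B :=
  AddSubgroup.closure {z | Mon k δ ε n z}

variable {k} {δ : Fin m → ℤ} {ε : Fin m → B}

theorem HZ_mul {ι R : Type} [CommRing R] {n j : ℤ} {p q : MvPolynomial ι R} (hp : HZ n p)
    (hq : HZ j q) : HZ (n + j) (p * q) := by
  rcases hp with rfl | ⟨a, ha, hp⟩
  · left; simp
  · rcases hq with rfl | ⟨b, hb, hq⟩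
    · left; simp
    · right
      exact ⟨a + b, by push_cast; rw [ha, hb], hp.mul hq⟩

theorem Mon.neg_deg (hδ : ∀ i, 0 ≤ δ i) {n : ℤ} {z : B} (h : Mon k δ ε n z) (hn : n < 0) :
    z = 0 := by
  induction h with
  | base n f hf =>
    rcases hf with rfl | ⟨a, ha, _⟩
    · simp
    · omega
  | mul i n z _ ih =>
    rw [ih (by have := hδ i; omega), mul_zero]

theorem Mon.form {n j : ℤ} {z : B} {f : Pol k} (hf : HZ j f) (h : Mon k δ ε n z) :
    Mon k δ ε (j + n) (algebraMap (Pol k) B f * z) := by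
  induction h with
  | base n g hg =>
    rw [← map_mul]
    exact Mon.base _ _ (HZ_mul hf hg)
  | mul i n z _ ih =>
    have e1 : algebraMap (Pol k) B f * (ε i * z) = ε i * (algebraMap (Pol k) B f * z) := by ring
    have e2 : j + (δ i + n) = δ i + (j + n) := by ring
    rw [e1, e2]
    exact Mon.mul i _ _ ih

theorem Mon.mem {ℳ : ℤ → AddSubgroup B}
    (hmul : ∀ (n j : ℤ) (z w : B), z ∈ ℳ n → w ∈ ℳ j → z * w ∈ ℳ (n + j))
    (hS : ∀ (n : ℤ) (f : Pol k), HZ n f → algebraMap (Pol k) B f ∈ ℳ n)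
    (hε : ∀ i, ε i ∈ ℳ (δ i)) {n : ℤ} {z : B} (h : Mon k δ ε n z) : z ∈ ℳ n := by
  induction h with
  | base n f hf => exact hS n f hf
  | mul i n z _ ih => exact hmul _ _ _ _ (hε i) ih

theorem MM_form {n j : ℤ} {z : B} {f : Pol k} (hf : HZ j f) (h : z ∈ MM k δ ε n) :
    algebraMap (Pol k) B f * z ∈ MM k δ ε (j + n) := by
  refine AddSubgroup.closure_induction (p := fun z _ => algebraMap (Pol k) B f * z ∈
    MM k δ ε (j + n)) ?_ ?_ ?_ ?_ h
  · intro z hz
    exact AddSubgroup.subset_closure (Mon.form hf hz)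
  · rw [mul_zero]
    exact zero_mem _
  · intro x y _ _ hx hy
    rw [mul_add]
    exact add_mem hx hy
  · intro x _ hx
    rw [mul_neg]
    exact neg_mem hx

theorem iSup_smul (a : Pol k) {x : B} (h : x ∈ ⨆ n, MM k δ ε n) :
    algebraMap (Pol k) B a * x ∈ ⨆ n, MM k δ ε n := by
  rw [← sum_homogeneousComponent a, map_sum, Finset.sum_mul]
  refine sum_mem fun j _ => ?_
  refine AddSubgroup.iSup_induction (S := fun n => MM k δ ε n)
    (C := fun x => algebraMap (Pol k) B (homogeneousComponent j a) * x ∈ ⨆ n, MM k δ ε n)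
    h ?_ ?_ ?_
  · intro n x hx
    exact AddSubgroup.mem_iSup_of_mem ((j : ℤ) + n)
      (MM_form (Or.inr ⟨j, rfl, homogeneousComponent_isHomogeneous j a⟩) hx)
  · rw [mul_zero]
    exact zero_mem _
  · intro x y hx hy
    rw [mul_add]
    exact add_mem hx hy

theorem iSup_top (hadj : Algebra.adjoin (Pol k) (Set.range ε) = ⊤) (x : B) :
    x ∈ ⨆ n, MM k δ ε n := by
  have h : x ∈ Algebra.adjoin (Pol k) (Set.range ε) := by
    rw [hadj]
    exact Algebra.mem_top
  rw [← Subalgebra.mem_toSubmodule, Algebra.adjoin_eq_span] at h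
  refine Submodule.span_induction (p := fun x _ => x ∈ ⨆ n, MM k δ ε n) ?_ ?_ ?_ ?_ h
  · intro w hw
    have : ∃ n, Mon k δ ε n w := by
      refine Submonoid.closure_induction_left (motive := fun w _ => ∃ n, Mon k δ ε n w) ?_ ?_ hw
      · refine ⟨0, ?_⟩
        have := Mon.base (k := k) (δ := δ) (ε := ε) 0 1
          (Or.inr ⟨0, rfl, isHomogeneous_one (Fin 4) k⟩)
        rwa [map_one] at this
      · rintro _ ⟨i, rfl⟩ y _ ⟨n, hn⟩
        exact ⟨_, Mon.mul i n y hn⟩
    obtain ⟨n, hn⟩ := this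
    exact AddSubgroup.mem_iSup_of_mem n (AddSubgroup.subset_closure hn)
  · exact zero_mem _
  · intro x y _ _ hx hy
    exact add_mem hx hy
  · intro a x _ hx
    rw [Algebra.smul_def]
    exact iSup_smul a hx

theorem iSup_dec {N : ℤ → AddSubgroup B} {x : B} (h : x ∈ ⨆ n, N n) :
    ∃ (s : Finset ℤ) (v : ℤ → B), (∀ n, v n ∈ N n) ∧ (∀ n, n ∉ s → v n = 0) ∧
      x = ∑ n ∈ s, v n := by
  refine AddSubgroup.iSup_induction (S := N)
    (C := fun x => ∃ (s : Finset ℤ) (v : ℤ → B), (∀ n, v n ∈ N n) ∧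
      (∀ n, n ∉ s → v n = 0) ∧ x = ∑ n ∈ s, v n) h ?_ ?_ ?_
  · intro n x hx
    refine ⟨{n}, fun d => if d = n then x else 0, fun d => ?_, fun d hd => ?_, ?_⟩
    · by_cases hd : d = n
      · subst hd; simpa using hx
      · simp [hd]
    · simp only [Finset.mem_singleton] at hd
      simp [hd]
    · simp
  · exact ⟨∅, fun _ => 0, fun _ => zero_mem _, fun _ _ => rfl, by simp⟩
  · rintro x y ⟨s, v, hv, hv0, rfl⟩ ⟨t, w, hw, hw0, rfl⟩
    refine ⟨s ∪ t, fun n => v n + w n, fun n => add_mem (hv n) (hw n), fun n hn => ?_, ?_⟩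
    · rw [Finset.mem_union, not_or] at hn
      simp [hv0 n hn.1, hw0 n hn.2]
    · rw [Finset.sum_add_distrib]
      congr 1
      · exact Finset.sum_subset Finset.subset_union_left fun n _ hn => hv0 n hn
      · exact Finset.sum_subset Finset.subset_union_right fun n _ hn => hw0 n hn

/-- A homogeneous element is a sum of homogeneous monomials of its degree. -/
theorem mem_MM {ℳ : ℤ → AddSubgroup B} (hG : Grd ℳ)
    (hmul : ∀ (n j : ℤ) (z w : B), z ∈ ℳ n → w ∈ ℳ j → z * w ∈ ℳ (n + j))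
    (hS : ∀ (n : ℤ) (f : Pol k), HZ n f → algebraMap (Pol k) B f ∈ ℳ n)
    (hε : ∀ i, ε i ∈ ℳ (δ i)) (hadj : Algebra.adjoin (Pol k) (Set.range ε) = ⊤)
    {n : ℤ} {x : B} (hx : x ∈ ℳ n) : x ∈ MM k δ ε n := by
  have hle : ∀ d, MM k δ ε d ≤ ℳ d := fun d => by
    refine (AddSubgroup.closure_le _).mpr fun z hz => ?_
    exact Mon.mem hmul hS hε hz
  obtain ⟨s, v, hv, hv0, hxs⟩ := iSup_dec (iSup_top (δ := δ) hadj x)
  have h1 := hG.ind (insert n s) (fun d => v d - if d = n then x else 0) (fun d => by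
    refine sub_mem (hle d (hv d)) ?_
    by_cases hd : d = n
    · subst hd; simpa using hx
    · simp [hd]) (by
    rw [Finset.sum_sub_distrib, Finset.sum_ite_eq' (insert n s) n (fun _ => x),
      if_pos (Finset.mem_insert_self n s), sub_eq_zero]
    rw [hxs]
    symm
    exact Finset.sum_subset (Finset.subset_insert n s) fun d _ hd => hv0 d hd) n
    (Finset.mem_insert_self n s)
  simp only [if_true, sub_eq_zero] at h1
  rw [← h1]
  exact hv n

/-- Monomials of small degree are powers of `ε i`. -/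
theorem Mon.small (hδ : ∀ i, 0 ≤ δ i) (i : Fin m) {n : ℤ} {z : B} (h : Mon k δ ε n z)
    (hn : ∀ j, i ≠ j → n < δ j) :
    ∃ (f : Pol k) (a : ℕ), z = algebraMap (Pol k) B f * ε i ^ a := by
  induction h with
  | base n f hf => exact ⟨f, 0, by simp⟩
  | mul j n z hz ih =>
    obtain ⟨f, a, hfa⟩ := ih fun l hl => by
      have := hn l hl
      have := hδ j
      omega
    by_cases hij : i = j
    · subst hij
      exact ⟨f, a + 1, by rw [hfa]; ring⟩
    · have h1 := hn j hij
      have h2 := hz.neg_deg hδ (by omega)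
      exact ⟨0, 0, by rw [h2]; simp⟩

/-- `f ε^a dε` is exact. -/
theorem pow_exact [CharZero k] (f : Pol k) (a : ℕ) (x : B) :
    ∃ z : B, (algebraMap (Pol k) B f * x ^ a) • KaehlerDifferential.D (Pol k) B x =
      KaehlerDifferential.D (Pol k) B z := by
  refine ⟨(C ((a + 1 : k)⁻¹) * f) • x ^ (a + 1), ?_⟩
  have h1 : (C ((a + 1 : k)⁻¹) * f) * ((a + 1 : ℕ) : Pol k) = f := by
    have h2 : ((a + 1 : ℕ) : Pol k) = C (a + 1 : k) := by
      push_cast
      simp
    have h3 : (a + 1 : k) ≠ 0 := by exact_mod_cast Nat.succ_ne_zero a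
    rw [h2, mul_comm (C _) f, mul_assoc, ← C_mul, inv_mul_cancel₀ h3, C_1, mul_one]
  rw [Derivation.map_smul, Derivation.leibniz_pow, Nat.add_sub_cancel,
    ← Nat.cast_smul_eq_nsmul (Pol k), smul_smul, h1, mul_smul, algebraMap_smul]

theorem main [CharZero k] {ℳ : ℤ → AddSubgroup B} (hG : Grd ℳ)
    (hmul : ∀ (n j : ℤ) (z w : B), z ∈ ℳ n → w ∈ ℳ j → z * w ∈ ℳ (n + j))
    (hS : ∀ (n : ℤ) (f : Pol k), HZ n f → algebraMap (Pol k) B f ∈ ℳ n)
    (hδ : ∀ i, 0 ≤ δ i)
    (hε : ∀ i, ε i ∈ ℳ (δ i)) (hadj : Algebra.adjoin (Pol k) (Set.range ε) = ⊤)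
    (e : ℤ) (hij : ∀ i j, i ≠ j → e < δ i + δ j) (n j : ℤ) (hnj : n + j = e) (x y : B)
    (hx : x ∈ ℳ n) (hy : y ∈ ℳ j) :
    y • KaehlerDifferential.D (Pol k) B x ∈
      (KaehlerDifferential.D (Pol k) B).toLinearMap.range := by
  have hB : ∀ (i : Fin m) (z : B), z ∈ ℳ (e - δ i) →
      z • KaehlerDifferential.D (Pol k) B (ε i) ∈
        (KaehlerDifferential.D (Pol k) B).toLinearMap.range := by
    intro i z hz
    have h1 := mem_MM hG hmul hS hε hadj hz
    refine AddSubgroup.closure_induction (p := fun z _ =>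
      z • KaehlerDifferential.D (Pol k) B (ε i) ∈
        (KaehlerDifferential.D (Pol k) B).toLinearMap.range) ?_ ?_ ?_ ?_ h1
    · intro z hz
      obtain ⟨f, a, rfl⟩ := Mon.small hδ i hz fun l hl => by
        have := hij i l hl
        omega
      obtain ⟨w, hw⟩ := pow_exact f a (ε i)
      exact ⟨w, hw.symm⟩
    · rw [zero_smul]
      exact zero_mem _
    · intro x y _ _ hx hy
      rw [add_smul]
      exact add_mem hx hy
    · intro x _ hx
      rw [neg_smul]
      exact neg_mem hx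
  have hM : ∀ (n : ℤ) (x : B), Mon k δ ε n x → ∀ y ∈ ℳ (e - n),
      y • KaehlerDifferential.D (Pol k) B x ∈
        (KaehlerDifferential.D (Pol k) B).toLinearMap.range := by
    intro n x h
    induction h with
    | base n f hf =>
      intro y _
      rw [Derivation.map_algebraMap, smul_zero]
      exact zero_mem _
    | mul i n z hz ih =>
      intro y hy
      rw [Derivation.leibniz, smul_add, smul_smul, smul_smul]
      refine add_mem (ih _ ?_) (hB i _ ?_)
      · have := hmul _ _ _ _ hy (hε i)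
        have e1 : e - (δ i + n) + δ i = e - n := by ring
        rwa [e1] at this
      · have := hmul _ _ _ _ hy (Mon.mem hmul hS hε hz)
        have e1 : e - (δ i + n) + n = e - δ i := by ring
        rwa [e1] at this
  have h1 := mem_MM hG hmul hS hε hadj hx
  have hy' : y ∈ ℳ (e - n) := by
    have : e - n = j := by omega
    rwa [this]
  refine AddSubgroup.closure_induction (p := fun x _ =>
    y • KaehlerDifferential.D (Pol k) B x ∈
      (KaehlerDifferential.D (Pol k) B).toLinearMap.range) ?_ ?_ ?_ ?_ h1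
  · intro z hz
    exact hM n z hz y hy'
  · rw [map_zero, smul_zero]
    exact zero_mem _
  · intro x y _ _ hx hy
    rw [map_add, smul_add]
    exact add_mem hx hy
  · intro x _ hx
    rw [map_neg, smul_neg]
    exact neg_mem hx

end abstract

end EX2

theorem p_EX2 (hGRB : Stmt_GRB) : Stmt_EX2 := by
  intro k _ _ P e hP hH hX m δ ε hδ hε hij hadj
  obtain ⟨ℳ, hG, hM, hmul, hS, _⟩ := hGRB k P hP hH hX
  intro n j hnj x y hx hy
  have h := EX2.main (k := k) (B := secRing P) hG
    (fun n j z w hz hw => (hM _ _).mpr (hmul n j z w ((hM _ _).mp hz) ((hM _ _).mp hw)))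
    (fun n f hf => (hM _ _).mpr (hS n f hf)) hδ (fun i => (hM _ _).mpr (hε i)) hadj e hij n j hnj
    x y ((hM _ _).mpr hx) ((hM _ _).mpr hy)
  obtain ⟨z, hz⟩ := h
  exact ⟨z, hz.symm⟩

end Pool.SC

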