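import Pool.Agent.Work.MP_03d391_sc.Interface2

/-!
# MP_03d391_ag, THEOREM SC: block EX3 (exact forms)
-/

set_option autoImplicit false

noncomputable section

open MvPolynomial TensorProduct

namespace Pool.SC

namespace EX3

/-- The component of degree `d ∈ ℤ`. -/
def comp {k : Type} [Field k] (d : ℤ) (p : Pol k) : Pol k :=
  if 0 ≤ d then homogeneousComponent d.toNat p else 0

theorem comp_hz {k : Type} [Field k] (d : ℤ) (p : Pol k) : HZ d (comp d p) := by
  unfold comp
  split_ifs with h
  · exact Or.inr ⟨d.toNat, Int.toNat_of_nonneg h, homogeneousComponent_isHomogeneous _ _⟩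
  · exact Or.inl rfl

theorem comp_sum {k : Type} [Field k] (p : Pol k) (c : ℤ) (B : ℕ) (h1 : -(B : ℤ) ≤ c)
    (h2 : c + p.totalDegree ≤ B) : ∑ d ∈ Finset.Icc (-(B : ℤ)) B, comp (d - c) p = p := by
  classical
  conv_rhs => rw [← MvPolynomial.sum_homogeneousComponent p]
  symm
  have hinj : Function.Injective (fun i : ℕ => c + (i : ℤ)) := by
    intro i j hij
    have : (i : ℤ) = j := by simpa using hij
    exact_mod_cast this
  have h3 : ∑ i ∈ Finset.range (p.totalDegree + 1), homogeneousComponent i p =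
      ∑ d ∈ (Finset.range (p.totalDegree + 1)).map ⟨fun i : ℕ => c + (i : ℤ), hinj⟩,
        comp (d - c) p := by
    rw [Finset.sum_map]
    apply Finset.sum_congr rfl
    intro i _
    show homogeneousComponent i p = comp (c + (i : ℤ) - c) p
    have : c + (i : ℤ) - c = i := by ring
    rw [this]
    unfold comp
    rw [if_pos (by positivity), Int.toNat_natCast]
  rw [h3]
  apply Finset.sum_subset
  · intro d hd
    rw [Finset.mem_map] at hd
    obtain ⟨i, hi, rfl⟩ := hd
    rw [Finset.mem_range] at hi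
    show c + (i : ℤ) ∈ _
    rw [Finset.mem_Icc]
    constructor <;> omega
  · intro d _ hd
    unfold comp
    split_ifs with h
    · apply homogeneousComponent_eq_zero
      by_contra hcon
      apply hd
      rw [Finset.mem_map]
      refine ⟨(d - c).toNat, ?_, ?_⟩
      · rw [Finset.mem_range]
        omega
      · show c + (((d - c).toNat : ℕ) : ℤ) = d
        rw [Int.toNat_of_nonneg h]
        ring
    · rfl

/-- Homogeneous coefficients. -/
theorem coeffs (hGRB : Stmt_GRB) {k : Type} [Field k] {P : Ideal (Pol k)} (hP : P.IsPrime)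
    (hH : HomI P) (hX : X 0 ∉ P) {m : ℕ} {δ : Fin m → ℤ} {ε : Fin m → secRing P}
    (hε : ∀ i, IsSec P (δ i) (ε i : FF P))
    (hgen : ∀ z : secRing P, ∃ (f : Pol k) (g : Fin m → Pol k),
      z = algebraMap (Pol k) (secRing P) f + ∑ i, algebraMap (Pol k) (secRing P) (g i) * ε i)
    (n : ℤ) (x : secRing P) (hx : IsSec P n (x : FF P)) :
    ∃ (f : Pol k) (g : Fin m → Pol k), HZ n f ∧ (∀ i, HZ (n - δ i) (g i)) ∧
      x = algebraMap (Pol k) (secRing P) f +
        ∑ i, algebraMap (Pol k) (secRing P) (g i) * ε i := by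
  classical
  obtain ⟨ℳ, hG, hM, hmul, hal, -⟩ := hGRB k P hP hH hX
  obtain ⟨f, g, hfg⟩ := hgen x
  have hmem : ∀ d : ℤ, algebraMap (Pol k) (secRing P) (comp d f) +
      ∑ i, algebraMap (Pol k) (secRing P) (comp (d - δ i) (g i)) * ε i ∈ ℳ d := by
    intro d
    apply (ℳ d).add_mem
    · rw [hM]
      exact hal d _ (comp_hz d f)
    · apply (ℳ d).sum_mem
      intro i _
      rw [hM]
      have h1 := hmul (d - δ i) (δ i) _ _ (hal (d - δ i) _ (comp_hz (d - δ i) (g i))) (hε i)
      rw [sub_add_cancel] at h1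
      exact h1
  obtain ⟨B, hB⟩ : ∃ B : ℕ, f.totalDegree ≤ B ∧ n.natAbs ≤ B ∧
      ∀ i, (δ i).natAbs + (g i).totalDegree ≤ B := by
    refine ⟨f.totalDegree + n.natAbs + ∑ i, ((δ i).natAbs + (g i).totalDegree), by omega,
      by omega, fun i => ?_⟩
    have := Finset.single_le_sum (f := fun i => (δ i).natAbs + (g i).totalDegree)
      (fun i _ => Nat.zero_le _) (Finset.mem_univ i)
    omega
  obtain ⟨hB1, hB2, hB3⟩ := hB
  have hsum : ∑ d ∈ Finset.Icc (-(B : ℤ)) B, (algebraMap (Pol k) (secRing P) (comp d f) +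
      ∑ i, algebraMap (Pol k) (secRing P) (comp (d - δ i) (g i)) * ε i) = x := by
    rw [Finset.sum_add_distrib, Finset.sum_comm, ← map_sum]
    have h1 : ∑ d ∈ Finset.Icc (-(B : ℤ)) B, comp d f = f := by
      have := comp_sum f 0 B (by omega) (by omega)
      simpa using this
    rw [h1, hfg]
    congr 1
    apply Finset.sum_congr rfl
    intro i _
    rw [← Finset.sum_mul, ← map_sum, comp_sum (g i) (δ i) B _ _]
    · have := hB3 i
      omega
    · have := hB3 i
      omega
  have hn : n ∈ Finset.Icc (-(B : ℤ)) B := by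
    rw [Finset.mem_Icc]
    omega
  have hind := hG.ind (Finset.Icc (-(B : ℤ)) B)
    (fun d => (algebraMap (Pol k) (secRing P) (comp d f) +
      ∑ i, algebraMap (Pol k) (secRing P) (comp (d - δ i) (g i)) * ε i) -
        if d = n then x else 0) (fun d => by
      apply (ℳ d).sub_mem (hmem d)
      split_ifs with h
      · rw [h, hM]
        exact hx
      · exact (ℳ d).zero_mem) (by
      rw [Finset.sum_sub_distrib, hsum, Finset.sum_ite_eq' _ n, if_pos hn, sub_self]) n hn
  simp only [if_true] at hind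
  exact ⟨comp n f, fun i => comp (n - δ i) (g i), comp_hz _ _, fun i => comp_hz _ _,
    (sub_eq_zero.mp hind).symm⟩

theorem hz_mul_zero {k : Type} [Field k] {a b : ℤ} {p q : Pol k} (hp : HZ a p) (hq : HZ b q)
    (h : a + b < 0) : p * q = 0 := by
  rcases hp with rfl | ⟨m, hm, -⟩
  · rw [zero_mul]
  · rcases hq with rfl | ⟨m', hm', -⟩
    · rw [mul_zero]
    · omega

/-- The computation with differentials. -/
theorem key {A B : Type} [CommRing A] [CommRing B] [Algebra A B] {m : ℕ} (u v : Fin m → A)
    (u0 v0 h : A) (ε : Fin m → B) (x y : B) (hh : algebraMap A B h * 2 = 1)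
    (hx : x = algebraMap A B u0 + ∑ i, algebraMap A B (u i) * ε i)
    (hy : y = algebraMap A B v0 + ∑ i, algebraMap A B (v i) * ε i)
    (hoff : ∀ i j, i ≠ j → v j * u i = 0) :
    ∃ z : B, y • KaehlerDifferential.D A B x = KaehlerDifferential.D A B z := by
  have hD : ∀ (p : A) (z : B), KaehlerDifferential.D A B (algebraMap A B p * z) =
      algebraMap A B p • KaehlerDifferential.D A B z := by
    intro p z
    rw [Derivation.leibniz, Derivation.map_algebraMap, smul_zero, add_zero]
  refine ⟨∑ i, (algebraMap A B (v0 * u i) * ε i +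
    algebraMap A B (h * (v i * u i)) * (ε i * ε i)), ?_⟩
  rw [map_sum]
  have hDx : KaehlerDifferential.D A B x =
      ∑ i, algebraMap A B (u i) • KaehlerDifferential.D A B (ε i) := by
    rw [hx, map_add, Derivation.map_algebraMap, zero_add, map_sum]
    exact Finset.sum_congr rfl fun i _ => hD _ _
  rw [hDx, Finset.smul_sum]
  apply Finset.sum_congr rfl
  intro i _
  rw [map_add, hD, hD, Derivation.leibniz, ← add_smul, smul_smul, smul_smul, ← add_smul]
  congr 1
  have h4 : y * algebraMap A B (u i) =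
      algebraMap A B v0 * algebraMap A B (u i) +
        algebraMap A B (v i) * algebraMap A B (u i) * ε i := by
    rw [hy, add_mul, Finset.sum_mul]
    congr 1
    rw [Finset.sum_eq_single i]
    · ring
    · intro j _ hji
      have h5 : algebraMap A B (v j) * ε j * algebraMap A B (u i) =
          (algebraMap A B (v j) * algebraMap A B (u i)) * ε j := by
        ring
      rw [h5, ← map_mul, hoff i j (Ne.symm hji), map_zero, zero_mul]
    · intro h
      exact absurd (Finset.mem_univ i) h
  rw [h4, map_mul, map_mul, map_mul]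
  linear_combination (-(algebraMap A B (v i) * algebraMap A B (u i) * ε i)) * hh

end EX3

open EX3 in
theorem p_EX3 (hGRB : Stmt_GRB) : Stmt_EX3 := by
  intro k _ P e hP hH hX h2 m δ ε hε hδ hgen n n' hnn x y hx hy
  obtain ⟨u0, u, -, hu, hxu⟩ := coeffs hGRB hP hH hX hε hgen n x hx
  obtain ⟨v0, v, -, hv, hyv⟩ := coeffs hGRB hP hH hX hε hgen n' y hy
  have hoff : ∀ i j, i ≠ j → v j * u i = 0 := fun i j hij =>
    hz_mul_zero (hv j) (hu i) (by have := hδ i j hij; omega)
  have hhalf : algebraMap (Pol k) (secRing P) (C (2⁻¹ : k)) * 2 = 1 := by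
    have h3 : (2 : secRing P) = algebraMap (Pol k) (secRing P) (C (2 : k)) := by
      rw [map_ofNat, map_ofNat]
    rw [h3, ← map_mul, ← C_mul, inv_mul_cancel₀ h2, C_1, map_one]
  exact key u v u0 v0 (C (2⁻¹ : k)) ε x y hhalf hxu hyv hoff

end Pool.SC
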