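import Pool.Agent.Work.MP_03d391_sc.Interface3
import Pool.Agent.Work.MP_03d391_sc.B_EX2
import Pool.Agent.Work.MP_03d391_sc.B_EX3

/-!
# MP_03d391_ag, THEOREM SC: block EX5 (exact forms, almost monomial section rings)
-/

set_option autoImplicit false

noncomputable section

open MvPolynomial TensorProduct

namespace Pool.SC

namespace EX5

section abstract

variable {k : Type} [Field k] {B : Type} [CommRing B] [Algebra (Pol k) B] {m : ℕ}
  {δ : Fin m → ℤ} {ε : Fin m → B}

theorem coeffs1 {ℳ : ℤ → AddSubgroup B} (hG : Grd ℳ)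
    (hmul : ∀ (n j : ℤ) (z w : B), z ∈ ℳ n → w ∈ ℳ j → z * w ∈ ℳ (n + j))
    (hS : ∀ (n : ℤ) (f : Pol k), HZ n f → algebraMap (Pol k) B f ∈ ℳ n)
    (hε : ∀ i, ε i ∈ ℳ (δ i)) (n : ℤ) (x : B) (hx : x ∈ ℳ n) (f : Pol k) (g : Fin m → Pol k)
    (hfg : x = algebraMap (Pol k) B f + ∑ i, algebraMap (Pol k) B (g i) * ε i) :
    ∃ (f : Pol k) (g : Fin m → Pol k), HZ n f ∧ (∀ i, HZ (n - δ i) (g i)) ∧
      x = algebraMap (Pol k) B f + ∑ i, algebraMap (Pol k) B (g i) * ε i := by
  classical
  have hmem : ∀ d : ℤ, algebraMap (Pol k) B (EX3.comp d f) +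
      ∑ i, algebraMap (Pol k) B (EX3.comp (d - δ i) (g i)) * ε i ∈ ℳ d := by
    intro d
    refine add_mem (hS d _ (EX3.comp_hz d f)) (sum_mem fun i _ => ?_)
    have h1 := hmul (d - δ i) (δ i) _ _ (hS (d - δ i) _ (EX3.comp_hz (d - δ i) (g i))) (hε i)
    rw [sub_add_cancel] at h1
    exact h1
  obtain ⟨A, hB⟩ : ∃ A : ℕ, f.totalDegree ≤ A ∧ n.natAbs ≤ A ∧
      ∀ i, (δ i).natAbs + (g i).totalDegree ≤ A := by
    refine ⟨f.totalDegree + n.natAbs + ∑ i, ((δ i).natAbs + (g i).totalDegree), by omega,
      by omega, fun i => ?_⟩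
    have := Finset.single_le_sum (f := fun i => (δ i).natAbs + (g i).totalDegree)
      (fun i _ => Nat.zero_le _) (Finset.mem_univ i)
    omega
  obtain ⟨hB1, hB2, hB3⟩ := hB
  have hsum : ∑ d ∈ Finset.Icc (-(A : ℤ)) A, (algebraMap (Pol k) B (EX3.comp d f) +
      ∑ i, algebraMap (Pol k) B (EX3.comp (d - δ i) (g i)) * ε i) = x := by
    rw [Finset.sum_add_distrib, Finset.sum_comm, ← map_sum]
    have h1 : ∑ d ∈ Finset.Icc (-(A : ℤ)) A, EX3.comp d f = f := by
      have := EX3.comp_sum f 0 A (by omega) (by omega)
      simpa using this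
    rw [h1, hfg]
    congr 1
    apply Finset.sum_congr rfl
    intro i _
    rw [← Finset.sum_mul, ← map_sum, EX3.comp_sum (g i) (δ i) A _ _]
    · have := hB3 i
      omega
    · have := hB3 i
      omega
  have hn : n ∈ Finset.Icc (-(A : ℤ)) A := by
    rw [Finset.mem_Icc]
    omega
  have hind := hG.ind (Finset.Icc (-(A : ℤ)) A)
    (fun d => (algebraMap (Pol k) B (EX3.comp d f) +
      ∑ i, algebraMap (Pol k) B (EX3.comp (d - δ i) (g i)) * ε i) -
        if d = n then x else 0) (fun d => by
      apply (ℳ d).sub_mem (hmem d)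
      split_ifs with h
      · rw [h]
        exact hx
      · exact (ℳ d).zero_mem) (by
      rw [Finset.sum_sub_distrib, hsum, Finset.sum_ite_eq' _ n, if_pos hn, sub_self]) n hn
  simp only [if_true] at hind
  exact ⟨EX3.comp n f, fun i => EX3.comp (n - δ i) (g i), EX3.comp_hz _ _, fun i => EX3.comp_hz _ _,
    (sub_eq_zero.mp hind).symm⟩

/-- Monomials as products over multisets. -/
theorem mon_ms {n : ℤ} {z : B} (h : EX2.Mon k δ ε n z) : ∃ (w : Multiset (Fin m)) (f : Pol k),
    HZ (n - (w.map δ).sum) f ∧ z = algebraMap (Pol k) B f * (w.map ε).prod := by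
  induction h with
  | base n f hf =>
    refine ⟨0, f, ?_, ?_⟩
    · simpa using hf
    · simp
  | mul i n z _ ih =>
    obtain ⟨w, f, hf, hz⟩ := ih
    refine ⟨i ::ₘ w, f, ?_, ?_⟩
    · rw [Multiset.map_cons, Multiset.sum_cons]
      have e1 : δ i + n - (δ i + (w.map δ).sum) = n - (w.map δ).sum := by ring
      rwa [e1]
    · rw [Multiset.map_cons, Multiset.prod_cons, hz]
      ring

theorem hz_cast {n n' : ℤ} {f : Pol k} (h : HZ n f) (e : n = n') : HZ n' f := e ▸ h

theorem sum_nonneg (hδ : ∀ i, 0 < δ i) (w : Multiset (Fin m)) : 0 ≤ (w.map δ).sum := by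
  induction w using Multiset.induction with
  | empty => simp
  | cons i w ih =>
    rw [Multiset.map_cons, Multiset.sum_cons]
    have := hδ i
    omega

theorem claim [CharZero k] (e : ℤ) (hδ : ∀ i, 0 < δ i)
    (hrel : ∀ i j, i ≠ j → δ i + δ j ≤ e →
      (∃ (f : Pol k) (g : Fin m → Pol k), HZ (δ i + δ j) f ∧ (∀ l, HZ (δ i + δ j - δ l) (g l)) ∧
        ε i * ε j = algebraMap (Pol k) B f + ∑ l, algebraMap (Pol k) B (g l) * ε l) ∧
      ∀ h : Pol k, HZ (e - δ i - δ j) h → ∃ h1 h2 f1 f2 : Pol k, h = h1 + h2 ∧
        algebraMap (Pol k) B h1 * ε i = algebraMap (Pol k) B f1 ∧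
        algebraMap (Pol k) B h2 * ε j = algebraMap (Pol k) B f2) :
    ∀ (N : ℕ) (w : Multiset (Fin m)), Multiset.card w ≤ N → ∀ (l : Fin m) (s : Pol k),
      HZ (e - (w.map δ).sum - δ l) s →
      (algebraMap (Pol k) B s * (w.map ε).prod) • KaehlerDifferential.D (Pol k) B (ε l) ∈
        (KaehlerDifferential.D (Pol k) B).toLinearMap.range := by
  intro N
  induction N with
  | zero =>
    intro w hw l s hs
    have hw0 : w = 0 := Multiset.card_eq_zero.mp (by omega)
    subst hw0
    obtain ⟨z, hz⟩ := EX2.pow_exact (k := k) s 0 (ε l)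
    refine ⟨z, ?_⟩
    rw [Multiset.map_zero, Multiset.prod_zero]
    rw [pow_zero] at hz
    exact hz.symm
  | succ N ih =>
    intro w hw l s hs
    by_cases hs0 : s = 0
    · subst hs0
      rw [map_zero, zero_mul, zero_smul]
      exact zero_mem _
    have hdeg : (w.map δ).sum + δ l ≤ e := by
      rcases hs with h | ⟨a, ha, -⟩
      · exact absurd h hs0
      · omega
    by_cases h1 : ∀ i ∈ w, i = l
    · have h2 : w = Multiset.replicate (Multiset.card w) l := Multiset.eq_replicate.mpr ⟨rfl, h1⟩
      obtain ⟨z, hz⟩ := EX2.pow_exact (k := k) s (Multiset.card w) (ε l)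
      refine ⟨z, ?_⟩
      rw [h2, Multiset.map_replicate, Multiset.prod_replicate]
      exact hz.symm
    · push Not at h1
      obtain ⟨i, hi, hil⟩ := h1
      obtain ⟨w1, rfl⟩ := Multiset.exists_cons_of_mem hi
      rw [Multiset.map_cons, Multiset.sum_cons] at hs hdeg
      rw [Multiset.card_cons] at hw
      have hw1 := sum_nonneg hδ w1
      by_cases h2 : ∀ j ∈ w1, j = i
      · have h3 : w1 = Multiset.replicate (Multiset.card w1) i :=
          Multiset.eq_replicate.mpr ⟨rfl, h2⟩
        obtain ⟨⟨f, g, hf, hg, hfg⟩, hh⟩ := hrel i l hil (by omega)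
        rcases Nat.eq_zero_or_pos (Multiset.card w1) with h4 | h4
        · -- one factor
          have h5 : w1 = 0 := Multiset.card_eq_zero.mp h4
          subst h5
          obtain ⟨p1, p2, f1, f2, hp, hp1, hp2⟩ := hh s (hz_cast hs (by
            rw [Multiset.map_zero, Multiset.sum_zero]; ring))
          refine ⟨algebraMap (Pol k) B f1 * ε l, ?_⟩
          have hD : ∀ (p : Pol k) (z : B), KaehlerDifferential.D (Pol k) B
              (algebraMap (Pol k) B p * z) =
              algebraMap (Pol k) B p • KaehlerDifferential.D (Pol k) B z := by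
            intro p z
            rw [Derivation.leibniz, Derivation.map_algebraMap, smul_zero, add_zero]
          have h6 : algebraMap (Pol k) B p2 • KaehlerDifferential.D (Pol k) B (ε l) = 0 := by
            rw [← hD, hp2, Derivation.map_algebraMap]
          show KaehlerDifferential.D (Pol k) B (algebraMap (Pol k) B f1 * ε l) = _
          rw [hD, Multiset.map_cons, Multiset.map_zero, Multiset.prod_cons, Multiset.prod_zero,
            mul_one, hp, map_add, add_mul, add_smul, hp1]
          rw [mul_comm (algebraMap (Pol k) B p2), mul_smul, h6, smul_zero, add_zero]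
        · -- at least two factors
          obtain ⟨a, ha⟩ : ∃ a, Multiset.card w1 = a + 1 := ⟨Multiset.card w1 - 1, by omega⟩
          rw [ha] at h3
          subst h3
          rw [Multiset.map_cons, Multiset.map_replicate, Multiset.prod_cons,
            Multiset.prod_replicate]
          rw [Multiset.map_replicate, Multiset.sum_replicate] at hs
          have hD : ε i • KaehlerDifferential.D (Pol k) B (ε l) +
              ε l • KaehlerDifferential.D (Pol k) B (ε i) =
              ∑ q, algebraMap (Pol k) B (g q) • KaehlerDifferential.D (Pol k) B (ε q) := by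
            rw [← Derivation.leibniz, hfg, map_add, Derivation.map_algebraMap, zero_add, map_sum]
            refine Finset.sum_congr rfl fun q _ => ?_
            rw [Derivation.leibniz, Derivation.map_algebraMap, smul_zero, add_zero]
          have hD2 : (algebraMap (Pol k) B s * (ε i * ε i ^ (a + 1))) •
              KaehlerDifferential.D (Pol k) B (ε l) =
              ∑ q, (algebraMap (Pol k) B (s * g q) * ε i ^ (a + 1)) •
                KaehlerDifferential.D (Pol k) B (ε q) -
              (algebraMap (Pol k) B (s * f) * ε i ^ a) • KaehlerDifferential.D (Pol k) B (ε i) -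
              ∑ q, (algebraMap (Pol k) B (s * g q) * (ε q * ε i ^ a)) •
                KaehlerDifferential.D (Pol k) B (ε i) := by
            have e1 : (algebraMap (Pol k) B s * (ε i * ε i ^ (a + 1))) •
                KaehlerDifferential.D (Pol k) B (ε l) =
                (algebraMap (Pol k) B s * ε i ^ (a + 1)) •
                  (ε i • KaehlerDifferential.D (Pol k) B (ε l)) := by
              rw [smul_smul]
              congr 1
              ring
            rw [e1, eq_sub_of_add_eq hD, smul_sub, Finset.smul_sum, smul_smul]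
            rw [sub_sub]
            congr 1
            · refine Finset.sum_congr rfl fun q _ => ?_
              rw [smul_smul, map_mul]
              congr 1
              ring
            · rw [← Finset.sum_smul, ← add_smul]
              congr 1
              have e2 : algebraMap (Pol k) B s * ε i ^ (a + 1) * ε l =
                  algebraMap (Pol k) B s * ε i ^ a * (ε i * ε l) := by ring
              rw [e2, hfg, mul_add, Finset.mul_sum, map_mul]
              congr 1
              · ring
              · refine Finset.sum_congr rfl fun q _ => ?_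
                rw [map_mul]
                ring
          rw [hD2]
          have hcard : Multiset.card (Multiset.replicate (a + 1) i) = a + 1 :=
            Multiset.card_replicate _ _
          rw [hcard] at hw
          refine sub_mem (sub_mem (sum_mem fun q _ => ?_) ?_) (sum_mem fun q _ => ?_)
          · have h5 := ih (Multiset.replicate (a + 1) i) (by
              rw [Multiset.card_replicate]; omega) q (s * g q) (hz_cast (EX2.HZ_mul hs (hg q)) (by
              rw [Multiset.map_replicate, Multiset.sum_replicate]; ring))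
            rw [Multiset.map_replicate, Multiset.prod_replicate] at h5
            exact h5
          · have h5 := ih (Multiset.replicate a i) (by
              rw [Multiset.card_replicate]; omega) i (s * f) (hz_cast (EX2.HZ_mul hs hf) (by
              rw [Multiset.map_replicate, Multiset.sum_replicate, succ_nsmul]; ring))
            rw [Multiset.map_replicate, Multiset.prod_replicate] at h5
            exact h5
          · have h5 := ih (q ::ₘ Multiset.replicate a i) (by
              rw [Multiset.card_cons, Multiset.card_replicate]; omega) i (s * g q)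
              (hz_cast (EX2.HZ_mul hs (hg q)) (by
              rw [Multiset.map_cons, Multiset.sum_cons, Multiset.map_replicate,
                Multiset.sum_replicate, succ_nsmul]; ring))
            rw [Multiset.map_cons, Multiset.prod_cons, Multiset.map_replicate,
              Multiset.prod_replicate] at h5
            exact h5
      · push Not at h2
        obtain ⟨j, hj, hji⟩ := h2
        obtain ⟨w2, rfl⟩ := Multiset.exists_cons_of_mem hj
        rw [Multiset.map_cons, Multiset.sum_cons] at hs hdeg
        rw [Multiset.card_cons] at hw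
        have hw2 := sum_nonneg hδ w2
        have hl := hδ l
        obtain ⟨⟨f, g, hf, hg, hfg⟩, -⟩ := hrel i j hji.symm (by omega)
        have e1 : algebraMap (Pol k) B s * (((i ::ₘ j ::ₘ w2).map ε).prod) =
            algebraMap (Pol k) B (s * f) * (w2.map ε).prod +
            ∑ q, algebraMap (Pol k) B (s * g q) * ((q ::ₘ w2).map ε).prod := by
          rw [Multiset.map_cons, Multiset.map_cons, Multiset.prod_cons, Multiset.prod_cons,
            ← mul_assoc (ε i), hfg, add_mul, mul_add, Finset.sum_mul, Finset.mul_sum, map_mul]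
          congr 1
          · ring
          · refine Finset.sum_congr rfl fun q _ => ?_
            rw [map_mul, Multiset.map_cons, Multiset.prod_cons]
            ring
        rw [e1, add_smul, Finset.sum_smul]
        refine add_mem (ih w2 (by omega) l (s * f) (hz_cast (EX2.HZ_mul hs hf) (by ring)))
          (sum_mem fun q _ => ih (q ::ₘ w2) (by rw [Multiset.card_cons]; omega) l (s * g q)
            (hz_cast (EX2.HZ_mul hs (hg q)) (by
              rw [Multiset.map_cons, Multiset.sum_cons]; ring)))

theorem main [CharZero k] {ℳ : ℤ → AddSubgroup B} (hG : Grd ℳ)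
    (hmul : ∀ (n j : ℤ) (z w : B), z ∈ ℳ n → w ∈ ℳ j → z * w ∈ ℳ (n + j))
    (hS : ∀ (n : ℤ) (f : Pol k), HZ n f → algebraMap (Pol k) B f ∈ ℳ n)
    (hδ : ∀ i, 0 < δ i)
    (hε : ∀ i, ε i ∈ ℳ (δ i)) (hadj : Algebra.adjoin (Pol k) (Set.range ε) = ⊤)
    (e : ℤ) (hij : ∀ i j, i ≠ j → e < δ i + δ j ∨
      ((∃ (f : Pol k) (g : Fin m → Pol k), ε i * ε j = algebraMap (Pol k) B f +
          ∑ l, algebraMap (Pol k) B (g l) * ε l) ∧
        ∀ h : Pol k, HZ (e - δ i - δ j) h → ∃ h1 h2 f1 f2 : Pol k, h = h1 + h2 ∧
          algebraMap (Pol k) B h1 * ε i = algebraMap (Pol k) B f1 ∧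
          algebraMap (Pol k) B h2 * ε j = algebraMap (Pol k) B f2))
    (n j : ℤ) (hnj : n + j = e) (x y : B)
    (hx : x ∈ ℳ n) (hy : y ∈ ℳ j) :
    y • KaehlerDifferential.D (Pol k) B x ∈
      (KaehlerDifferential.D (Pol k) B).toLinearMap.range := by
  have hB : ∀ (i : Fin m) (z : B), z ∈ ℳ (e - δ i) →
      z • KaehlerDifferential.D (Pol k) B (ε i) ∈
        (KaehlerDifferential.D (Pol k) B).toLinearMap.range := by
    intro i z hz
    have h1 := EX2.mem_MM hG hmul hS hε hadj hz
    refine AddSubgroup.closure_induction (p := fun z _ =>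
      z • KaehlerDifferential.D (Pol k) B (ε i) ∈
        (KaehlerDifferential.D (Pol k) B).toLinearMap.range) ?_ ?_ ?_ ?_ h1
    · intro z hz
      obtain ⟨w, f, hf, rfl⟩ := mon_ms hz
      refine claim e hδ ?_ (Multiset.card w) w le_rfl i f (hz_cast hf (by ring))
      intro i' j' hij' hle
      rcases hij i' j' hij' with h2 | ⟨⟨f, g, hfg⟩, h3⟩
      · omega
      · exact ⟨coeffs1 hG hmul hS hε (δ i' + δ j') (ε i' * ε j')
          (hmul _ _ _ _ (hε i') (hε j')) f g hfg, h3⟩
    · rw [zero_smul]
      exact zero_mem _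
    · intro x y _ _ hx hy
      rw [add_smul]
      exact add_mem hx hy
    · intro x _ hx
      rw [neg_smul]
      exact neg_mem hx
  have hM : ∀ (n : ℤ) (x : B), EX2.Mon k δ ε n x → ∀ y ∈ ℳ (e - n),
      y • KaehlerDifferential.D (Pol k) B x ∈
        (KaehlerDifferential.D (Pol k) B).toLinearMap.range := by
    intro n x h
    induction h with
    | base n f hf =>
      intro y _
      rw [Derivation.map_algebraMap, smul_zero]
      exact zero_mem _
    | mul i n z hz ih =>
      intro y hy
      rw [Derivation.leibniz, smul_add, smul_smul, smul_smul]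
      refine add_mem (ih _ ?_) (hB i _ ?_)
      · have := hmul _ _ _ _ hy (hε i)
        have e1 : e - (δ i + n) + δ i = e - n := by ring
        rwa [e1] at this
      · have := hmul _ _ _ _ hy (EX2.Mon.mem hmul hS hε hz)
        have e1 : e - (δ i + n) + n = e - δ i := by ring
        rwa [e1] at this
  have h1 := EX2.mem_MM hG hmul hS hε hadj hx
  have hy' : y ∈ ℳ (e - n) := by
    have : e - n = j := by omega
    rwa [this]
  refine AddSubgroup.closure_induction (p := fun x _ =>
    y • KaehlerDifferential.D (Pol k) B x ∈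
      (KaehlerDifferential.D (Pol k) B).toLinearMap.range) ?_ ?_ ?_ ?_ h1
  · intro z hz
    exact hM n z hz y hy'
  · rw [map_zero, smul_zero]
    exact zero_mem _
  · intro x y _ _ hx hy
    rw [map_add, smul_add]
    exact add_mem hx hy
  · intro x _ hx
    rw [map_neg, smul_neg]
    exact neg_mem hx

end abstract

end EX5

theorem p_EX5 (hGRB : Stmt_GRB) : Stmt_EX5 := by
  intro k _ _ P e hP hH hX ham
  obtain ⟨m, δ, ε, hδ, hε, hadj, hij⟩ := ham
  obtain ⟨ℳ, hG, hM, hmul, hS, _⟩ := hGRB k P hP hH hX
  intro n j hnj x y hx hy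
  have h := EX5.main (k := k) (B := secRing P) hG
    (fun n j z w hz hw => (hM _ _).mpr (hmul n j z w ((hM _ _).mp hz) ((hM _ _).mp hw)))
    (fun n f hf => (hM _ _).mpr (hS n f hf)) hδ (fun i => (hM _ _).mpr (hε i)) hadj e hij n j hnj
    x y ((hM _ _).mpr hx) ((hM _ _).mpr hy)
  obtain ⟨z, hz⟩ := h
  exact ⟨z, hz.symm⟩

end Pool.SC
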