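import Pool.Agent.Work.MP_03d391_sc.B_EX3

/-!
# MP_03d391_ag, THEOREM SC: block EX6 (exact forms, section ring generated as a module)
-/

set_option autoImplicit false

noncomputable section

open MvPolynomial TensorProduct

namespace Pool.SC

/-- The section ring `B` of `P` is generated as a module over `S = k[x_0,..,x_3]` by `1` and
homogeneous elements `ε_1, .., ε_m` of degrees `δ_i`, and for `i ≠ j` every form of degree
`e - δ_i - δ_j` is the sum of a form `h₁` with `h₁ ε_i ∈ S` and a form `h₂` with `h₂ ε_j ∈ S`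
(this is empty if `δ_i + δ_j > e`). -/
def AlmostCyclic {k : Type} [Field k] (P : Ideal (Pol k)) (e : ℤ) : Prop :=
  ∃ (m : ℕ) (δ : Fin m → ℤ) (ε : Fin m → secRing P), (∀ i, IsSec P (δ i) (ε i : FF P)) ∧
    (∀ z : secRing P, ∃ (f : Pol k) (g : Fin m → Pol k),
      z = algebraMap (Pol k) (secRing P) f + ∑ i, algebraMap (Pol k) (secRing P) (g i) * ε i) ∧
    ∀ i j, i ≠ j → ∀ h : Pol k, HZ (e - δ i - δ j) h → ∃ h1 h2 f1 f2 : Pol k, h = h1 + h2 ∧
      algebraMap (Pol k) (secRing P) h1 * ε i = algebraMap (Pol k) (secRing P) f1 ∧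
      algebraMap (Pol k) (secRing P) h2 * ε j = algebraMap (Pol k) (secRing P) f2

namespace EX6

/-- The computation with differentials. -/
theorem key {A B : Type} [CommRing A] [CommRing B] [Algebra A B] {m : ℕ} (u v : Fin m → A)
    (u0 v0 h : A) (ε : Fin m → B) (x y : B) (hh : algebraMap A B h * 2 = 1)
    (hx : x = algebraMap A B u0 + ∑ i, algebraMap A B (u i) * ε i)
    (hy : y = algebraMap A B v0 + ∑ i, algebraMap A B (v i) * ε i)
    (hoff : ∀ i j, i ≠ j → ∃ h1 h2 f1 f2 : A, v j * u i = h1 + h2 ∧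
      algebraMap A B h1 * ε i = algebraMap A B f1 ∧
      algebraMap A B h2 * ε j = algebraMap A B f2) :
    ∃ z : B, y • KaehlerDifferential.D A B x = KaehlerDifferential.D A B z := by
  classical
  have hD : ∀ (p : A) (z : B), KaehlerDifferential.D A B (algebraMap A B p * z) =
      algebraMap A B p • KaehlerDifferential.D A B z := by
    intro p z
    rw [Derivation.leibniz, Derivation.map_algebraMap, smul_zero, add_zero]
  -- the terms
  have hterm : ∀ i j, ∃ z : B, (algebraMap A B (v j * u i) * ε j) • KaehlerDifferential.D A B (ε i) =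
      KaehlerDifferential.D A B z := by
    intro i j
    by_cases hij : i = j
    · subst hij
      refine ⟨algebraMap A B (h * (v i * u i)) * (ε i * ε i), ?_⟩
      rw [hD, Derivation.leibniz, ← add_smul, smul_smul]
      congr 1
      simp only [map_mul]
      linear_combination (-(algebraMap A B (v i) * algebraMap A B (u i) * ε i)) * hh
    · obtain ⟨h1, h2, f1, f2, e0, e1, e2⟩ := hoff i j hij
      refine ⟨algebraMap A B f2 * ε i, ?_⟩
      have e3 : algebraMap A B h1 • KaehlerDifferential.D A B (ε i) = 0 := by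
        rw [← hD, e1, Derivation.map_algebraMap]
      rw [hD, e0, map_add, add_mul, add_smul, e2]
      have e4 : (algebraMap A B h1 * ε j) • KaehlerDifferential.D A B (ε i) = 0 := by
        rw [mul_comm, mul_smul, e3, smul_zero]
      rw [e4, zero_add]
  choose w hw using hterm
  refine ⟨∑ i, algebraMap A B (v0 * u i) * ε i + ∑ i, ∑ j, w i j, ?_⟩
  have hDx : KaehlerDifferential.D A B x =
      ∑ i, algebraMap A B (u i) • KaehlerDifferential.D A B (ε i) := by
    rw [hx, map_add, Derivation.map_algebraMap, zero_add, map_sum]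
    exact Finset.sum_congr rfl fun i _ => hD _ _
  rw [hDx, Finset.smul_sum, map_add, map_sum, map_sum, ← Finset.sum_add_distrib]
  apply Finset.sum_congr rfl
  intro i _
  rw [map_sum, hD, smul_smul]
  have h4 : y * algebraMap A B (u i) =
      algebraMap A B (v0 * u i) + ∑ j, algebraMap A B (v j * u i) * ε j := by
    rw [hy, add_mul, Finset.sum_mul, map_mul]
    congr 1
    refine Finset.sum_congr rfl fun j _ => ?_
    rw [map_mul]
    ring
  rw [h4, add_smul, Finset.sum_smul]
  congr 1
  exact Finset.sum_congr rfl fun j _ => hw i j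

end EX6

open EX3 in
theorem p_EX6 (hGRB : Stmt_GRB) (k : Type) [Field k] (P : Ideal (Pol k)) (e : ℤ)
    (hP : P.IsPrime) (hH : HomI P) (hX : X 0 ∉ P) (h2 : (2 : k) ≠ 0) (h : AlmostCyclic P e) :
    ExactDeg P e := by
  obtain ⟨m, δ, ε, hε, hgen, hoff⟩ := h
  intro n n' hnn x y hx hy
  obtain ⟨u0, u, -, hu, hxu⟩ := coeffs hGRB hP hH hX hε hgen n x hx
  obtain ⟨v0, v, -, hv, hyv⟩ := coeffs hGRB hP hH hX hε hgen n' y hy
  have hhalf : algebraMap (Pol k) (secRing P) (C (2⁻¹ : k)) * 2 = 1 := by
    have h3 : (2 : secRing P) = algebraMap (Pol k) (secRing P) (C (2 : k)) := by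
      rw [map_ofNat, map_ofNat]
    rw [h3, ← map_mul, ← C_mul, inv_mul_cancel₀ h2, C_1, map_one]
  refine EX6.key u v u0 v0 (C (2⁻¹ : k)) ε x y hhalf hxu hyv fun i j hij => ?_
  apply hoff i j hij
  rcases hv j with h0 | ⟨a, ha, ha'⟩
  · left
    rw [h0, zero_mul]
  · rcases hu i with h0 | ⟨b, hb, hb'⟩
    · left
      rw [h0, mul_zero]
    · right
      refine ⟨a + b, ?_, ha'.mul hb'⟩
      push_cast
      rw [ha, hb, ← hnn]
      ring

end Pool.SC
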