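import Pool.Agent.Work.MP_03d391_sc.Interface2

/-!
# MP_03d391_ag, THEOREM SC: the blocks, part 3 (strengthening found by helper28)
-/

set_option autoImplicit false

noncomputable section

open MvPolynomial TensorProduct

namespace Pool.SC

/-- The section ring `B` of `P` is generated over `S = k[x_0,..,x_3]` by homogeneous elements
`ε_1, .., ε_m` of positive degrees `δ_i`, and for `i ≠ j` either `δ_i + δ_j > e`, or `ε_i ε_j` is in
`S + Σ S ε_l` and every form of degree `e - δ_i - δ_j` is the sum of a form `h₁` with `h₁ ε_i ∈ S`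
and a form `h₂` with `h₂ ε_j ∈ S`. -/
def AlmostMono {k : Type} [Field k] (P : Ideal (Pol k)) (e : ℤ) : Prop :=
  ∃ (m : ℕ) (δ : Fin m → ℤ) (ε : Fin m → secRing P), (∀ i, 0 < δ i) ∧
    (∀ i, IsSec P (δ i) (ε i : FF P)) ∧ Algebra.adjoin (Pol k) (Set.range ε) = ⊤ ∧
    ∀ i j, i ≠ j → e < δ i + δ j ∨
      ((∃ (f : Pol k) (g : Fin m → Pol k), ε i * ε j = algebraMap (Pol k) (secRing P) f +
          ∑ l, algebraMap (Pol k) (secRing P) (g l) * ε l) ∧
        ∀ h : Pol k, HZ (e - δ i - δ j) h → ∃ h1 h2 f1 f2 : Pol k, h = h1 + h2 ∧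
          algebraMap (Pol k) (secRing P) h1 * ε i = algebraMap (Pol k) (secRing P) f1 ∧
          algebraMap (Pol k) (secRing P) h2 * ε j = algebraMap (Pol k) (secRing P) f2)

/-- EX5 (250 lines), from GRB. `S = Pol k`, `B = secRing P`, `d = KaehlerDifferential.D S B`;
`Ex = {d z}` is an `S`-submodule of `Ω`. `ε^α = Π ε_i^(α_i)`, `|α| = Σ α_i`.
CLAIM: for all `α`, `l` and every form `s` of degree `e - Σ α_i δ_i - δ_l`, `s ε^α dε_l ∈ Ex`. Induction
on `|α|`; we may suppose `s ≠ 0`, so `Σ α_i δ_i + δ_l ≤ e`.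
(a) `ε^α = ε_l^j`: `s ε_l^j dε_l = d (s ε_l^(j+1) / (j+1))` (characteristic `0`).
(b) There are `i ≠ j` in the support of `α`: then `δ_i + δ_j ≤ e`, so `ε_i ε_j = f + Σ g_q ε_q`, and by
`Grd` we may take `f`, `g_q` homogeneous of degrees `δ_i + δ_j`, `δ_i + δ_j - δ_q` (components).
Replacing this in `ε^α` we get terms with `|α| - 2` or `|α| - 1` factors.
(c) `ε^α = ε_i^j`, `i ≠ l`, `j ≥ 1`; `δ_i + δ_l ≤ e`, `ε_i ε_l = f + Σ g_q ε_q` as in (b).
`j = 1`: `s` has degree `e - δ_i - δ_l`, `s = h1 + h2`, `h1 ε_i = f1`, `h2 ε_l = f2` with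
`f1, f2 ∈ S`, so `s ε_i dε_l = f1 dε_l + ε_i d(h2 ε_l) = d (f1 ε_l) + 0`.
`j ≥ 2`: `ε_i dε_l = d (ε_i ε_l) - ε_l dε_i = Σ g_q dε_q - ε_l dε_i`, so
`s ε_i^j dε_l = Σ s g_q ε_i^(j-1) dε_q - s ε_i^(j-2) (f + Σ g_q ε_q) dε_i`: terms with `≤ j - 1` factors.
Now let `x`, `y` be homogeneous, `deg x + deg y = e`: `x` is a sum of `s ε^α` and `y` of `s' ε^γ` with
`s`, `s'` forms of the right degrees (`Algebra.adjoin`, `Grd`), and
`y d(s ε^α) = Σ_i α_i s y ε^(α - 1_i) dε_i ∈ Ex` by the CLAIM. -/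
def Stmt_EX5 : Prop := ∀ (k : Type) [Field k] [CharZero k] (P : Ideal (Pol k)) (e : ℤ),
  P.IsPrime → HomI P → X 0 ∉ P → AlmostMono P e → ExactDeg P e

end Pool.SC
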