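import Pool.Agent.Work.MP_03d391_sc.Statement
import Pool.Agent.Work.MP_03d391_sc.Interface3
import Pool.Agent.Work.MP_03d391_sc.B_EX6

set_option autoImplicit false

noncomputable section

open MvPolynomial

namespace Pool.SCS

open Pool.SC

theorem subst_exact {A L : Type} [CommRing A] [CommRing L] [Algebra A L] (S1 S2 : Subalgebra A L)
    (h : S1 = S2) (H : ℤ → L → Prop) (e : ℤ) :
    Exact A S1 (fun n z => H n z.val) e ↔ Exact A S2 (fun n z => H n z.val) e := by
  subst h
  exact Iff.rfl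

theorem subst_mono {A L : Type} [CommRing A] [CommRing L] [Algebra A L] (S1 S2 : Subalgebra A L)
    (h : S1 = S2) (HA : ℤ → A → Prop) (H : ℤ → L → Prop) (e : ℤ) :
    AlmostMono A S1 HA (fun n z => H n z.val) e ↔
      AlmostMono A S2 HA (fun n z => H n z.val) e := by
  subst h
  exact Iff.rfl

theorem subst_cyclic {A L : Type} [CommRing A] [CommRing L] [Algebra A L]
    (S1 S2 : Subalgebra A L) (h : S1 = S2) (HA : ℤ → A → Prop) (H : ℤ → L → Prop) (e : ℤ) :
    AlmostCyclic A S1 HA (fun n z => H n z.val) e ↔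
      AlmostCyclic A S2 HA (fun n z => H n z.val) e := by
  subst h
  exact Iff.rfl

theorem sat_eq {k : Type} [Field k] (P : Ideal (Pol k)) :
    (satAlg (Pol k) (FF P) X : Subalgebra (Pol k) (FF P)) = secRing P := rfl

theorem exact1 {k : Type} [Field k] (P : Ideal (Pol k)) (e : ℤ) :
    Exact (Pol k) (SecRing P) (IsSection P) e ↔
      Exact (Pol k) (satAlg (Pol k) (FracRing P) X)
        (fun n z => HomFrac (Pol k) (FracRing P) X HZ n z.val) e := Iff.rfl

theorem exact2 {k : Type} [Field k] (P : Ideal (Pol k)) (e : ℤ) :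
    Exact (Pol k) (satAlg (Pol k) (FracRing P) X)
      (fun n z => HomFrac (Pol k) (FracRing P) X HZ n z.val) e ↔
    Exact (Pol k) (satAlg (Pol k) (FF P) X)
      (fun n z => HomFrac (Pol k) (FF P) X HZ n z.val) e := Iff.rfl

theorem exact3 {k : Type} [Field k] (P : Ideal (Pol k)) (e : ℤ) :
    Exact (Pol k) (secRing P) (fun n z => HomFrac (Pol k) (FF P) X HZ n z.val) e ↔
      ExactDeg P e := Iff.rfl

theorem exact_iff {k : Type} [Field k] (P : Ideal (Pol k)) (e : ℤ) :
    Exact (Pol k) (SecRing P) (IsSection P) e ↔ ExactDeg P e :=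
  ((exact1 P e).trans (exact2 P e)).trans
    ((subst_exact _ _ (sat_eq P) (HomFrac (Pol k) (FF P) X HZ) e).trans (exact3 P e))

theorem mono1 {k : Type} [Field k] (P : Ideal (Pol k)) (e : ℤ) :
    AlmostMono (Pol k) (SecRing P) HZ (IsSection P) e ↔
      AlmostMono (Pol k) (satAlg (Pol k) (FracRing P) X) HZ
        (fun n z => HomFrac (Pol k) (FracRing P) X HZ n z.val) e := Iff.rfl

theorem mono2 {k : Type} [Field k] (P : Ideal (Pol k)) (e : ℤ) :
    AlmostMono (Pol k) (satAlg (Pol k) (FracRing P) X) HZ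
      (fun n z => HomFrac (Pol k) (FracRing P) X HZ n z.val) e ↔
    AlmostMono (Pol k) (satAlg (Pol k) (FF P) X) HZ
      (fun n z => HomFrac (Pol k) (FF P) X HZ n z.val) e := Iff.rfl

theorem mono3 {k : Type} [Field k] (P : Ideal (Pol k)) (e : ℤ) :
    AlmostMono (Pol k) (secRing P) HZ (fun n z => HomFrac (Pol k) (FF P) X HZ n z.val) e ↔
      Pool.SC.AlmostMono P e := Iff.rfl

theorem mono_iff {k : Type} [Field k] (P : Ideal (Pol k)) (e : ℤ) :
    AlmostMono (Pol k) (SecRing P) HZ (IsSection P) e ↔ Pool.SC.AlmostMono P e :=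
  ((mono1 P e).trans (mono2 P e)).trans
    ((subst_mono _ _ (sat_eq P) HZ (HomFrac (Pol k) (FF P) X HZ) e).trans (mono3 P e))

theorem cyclic1 {k : Type} [Field k] (P : Ideal (Pol k)) (e : ℤ) :
    AlmostCyclic (Pol k) (SecRing P) HZ (IsSection P) e ↔
      AlmostCyclic (Pol k) (satAlg (Pol k) (FracRing P) X) HZ
        (fun n z => HomFrac (Pol k) (FracRing P) X HZ n z.val) e := Iff.rfl

theorem cyclic2 {k : Type} [Field k] (P : Ideal (Pol k)) (e : ℤ) :
    AlmostCyclic (Pol k) (satAlg (Pol k) (FracRing P) X) HZ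
      (fun n z => HomFrac (Pol k) (FracRing P) X HZ n z.val) e ↔
    AlmostCyclic (Pol k) (satAlg (Pol k) (FF P) X) HZ
      (fun n z => HomFrac (Pol k) (FF P) X HZ n z.val) e := Iff.rfl

theorem cyclic3 {k : Type} [Field k] (P : Ideal (Pol k)) (e : ℤ) :
    AlmostCyclic (Pol k) (secRing P) HZ (fun n z => HomFrac (Pol k) (FF P) X HZ n z.val) e ↔
      Pool.SC.AlmostCyclic P e := Iff.rfl

theorem cyclic_iff {k : Type} [Field k] (P : Ideal (Pol k)) (e : ℤ) :
    AlmostCyclic (Pol k) (SecRing P) HZ (IsSection P) e ↔ Pool.SC.AlmostCyclic P e :=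
  ((cyclic1 P e).trans (cyclic2 P e)).trans
    ((subst_cyclic _ _ (sat_eq P) HZ (HomFrac (Pol k) (FF P) X HZ) e).trans (cyclic3 P e))

end Pool.SCS
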