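import Pool.Agent.Work.MP_03d391_sc.Defs

/-!
# MP_03d391_ag, THEOREM SC: the definitions used in the statement
-/

set_option autoImplicit false

noncomputable section

open MvPolynomial

namespace Pool.SCS

open Pool.SC (Pol HZ HomI κ red toK)

/-- `A / I` has no `R`-torsion. -/
def TorsionFree (R A : Type) [CommRing R] [CommRing A] [Algebra R A] (I : Ideal A) : Prop :=
  ∀ (r : R) (f : A), r ≠ 0 → algebraMap R A r * f ∈ I → f ∈ I

/-- The ideal `J` is generated by two forms of degrees `a`, `b`. -/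
def IsCIType {k : Type} [Field k] (a b : ℕ) (J : Ideal (Pol k)) : Prop :=
  ∃ F G : Pol k, F.IsHomogeneous a ∧ G.IsHomogeneous b ∧ J = Ideal.span {F, G}

/-- `P` is prime and it is the saturation of `J` with respect to `x_0, .., x_3`. -/
structure IsPrimeSaturation (A : Type) [CommRing A] (x : Fin 4 → A) (J P : Ideal A) : Prop where
  prime : P.IsPrime
  le : J ≤ P
  sat : ∃ N : ℕ, ∀ f ∈ P, ∀ i : Fin 4, x i ^ N * f ∈ J

/-- The projective scheme with ideal `J` does not meet the line `x_0 = x_1 = 0`. -/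
def MissesLine (A : Type) [CommRing A] (x : Fin 4 → A) (J : Ideal A) : Prop :=
  ∃ N : ℕ, x 2 ^ N ∈ J ⊔ Ideal.span {x 0, x 1} ∧ x 3 ^ N ∈ J ⊔ Ideal.span {x 0, x 1}

/-- The ideal of the special member of the family with ideal `I` over the local ring `R`. -/
def specialIdeal (R : Type) [CommRing R] [IsLocalRing R] (I : Ideal (Pol R)) : Ideal (Pol (κ R)) :=
  I.map (red R)

/-- The ideal of the generic member of the family with ideal `I` over the domain `R`. -/
def genericIdeal (R : Type) [CommRing R] [IsDomain R] (I : Ideal (Pol R)) :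
    Ideal (Pol (FractionRing R)) :=
  I.map (toK R (FractionRing R))

/-- A flat family of curves in `ℙ³` over a discrete valuation ring with a complete intersection of
type `(a, b)` as generic member and with an integral special member with homogeneous ideal `P`;
the line `x_0 = x_1 = 0` does not meet the special member. -/
structure Family (R : Type) [CommRing R] [IsDomain R] [IsDiscreteValuationRing R]
    (I : Ideal (Pol R)) (P : Ideal (Pol (κ R))) (a b : ℕ) : Prop where
  hom : HomI I
  flat : TorsionFree R (Pol R) I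
  gen : IsCIType a b (genericIdeal R I)
  special : IsPrimeSaturation (Pol (κ R)) X (specialIdeal R I) P
  line : MissesLine (Pol (κ R)) X (specialIdeal R I)

/-- The total ring of fractions of `k[x_0,..,x_3]/P`. -/
def FracRing {k : Type} [Field k] (P : Ideal (Pol k)) : Type := FractionRing (Pol k ⧸ P)

instance FracRing.commRing {k : Type} [Field k] (P : Ideal (Pol k)) : CommRing (FracRing P) :=
  (inferInstance : CommRing (FractionRing (Pol k ⧸ P)))

instance FracRing.algebra {k : Type} [Field k] (P : Ideal (Pol k)) : Algebra (Pol k) (FracRing P) :=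
  (inferInstance : Algebra (Pol k) (FractionRing (Pol k ⧸ P)))

/-- The elements `z` of `L` with `x_i^N z ∈ A` for all `i`, for some `N`. -/
def satAlg (A L : Type) [CommRing A] [CommRing L] [Algebra A L] (x : Fin 4 → A) :
    Subalgebra A L where
  carrier := {z | ∃ N : ℕ, ∀ i : Fin 4, ∃ f : A, algebraMap A L (x i) ^ N * z = algebraMap A L f}
  mul_mem' := by
    rintro z w ⟨N, hz⟩ ⟨M, hw⟩
    refine ⟨N + M, fun i => ?_⟩
    obtain ⟨f, hf⟩ := hz i
    obtain ⟨g, hg⟩ := hw i
    exact ⟨f * g, by rw [map_mul, ← hf, ← hg]; ring⟩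
  add_mem' := by
    rintro z w ⟨N, hz⟩ ⟨M, hw⟩
    refine ⟨N + M, fun i => ?_⟩
    obtain ⟨f, hf⟩ := hz i
    obtain ⟨g, hg⟩ := hw i
    exact ⟨x i ^ M * f + x i ^ N * g, by
      rw [map_add, map_mul, map_mul, map_pow, map_pow, ← hf, ← hg]; ring⟩
  algebraMap_mem' := fun f => ⟨0, fun i => ⟨f, by simp⟩⟩

/-- The section ring `B = ⊕ H⁰(C, O(n))` of the projective scheme `C` with homogeneous ideal `P`:
the fractions `z` with `x_i^N z ∈ k[x_0,..,x_3]/P` for all `i`, for some `N`. -/
def SecRing {k : Type} [Field k] (P : Ideal (Pol k)) : Type := satAlg (Pol k) (FracRing P) X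

instance SecRing.commRing {k : Type} [Field k] (P : Ideal (Pol k)) : CommRing (SecRing P) :=
  (inferInstance : CommRing (satAlg (Pol k) (FracRing P) X))

instance SecRing.algebra {k : Type} [Field k] (P : Ideal (Pol k)) : Algebra (Pol k) (SecRing P) :=
  (inferInstance : Algebra (Pol k) (satAlg (Pol k) (FracRing P) X))

/-- `x_i^N z` is homogeneous of degree `n + N` for all `i`, for some `N`. -/
def HomFrac (A L : Type) [CommRing A] [CommRing L] [Algebra A L] (x : Fin 4 → A)
    (H : ℤ → A → Prop) (n : ℤ) (z : L) : Prop :=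
  ∃ N : ℕ, ∀ i : Fin 4, ∃ f : A, H (n + N) f ∧ algebraMap A L (x i) ^ N * z = algebraMap A L f

/-- `z ∈ B` is homogeneous of degree `n`: a section of `O(n)`. -/
def IsSection {k : Type} [Field k] (P : Ideal (Pol k)) (n : ℤ) (z : SecRing P) : Prop :=
  HomFrac (Pol k) (FracRing P) X HZ n z.val

/-- For homogeneous `x`, `y ∈ B` (`H n` = homogeneous of degree `n`) with `deg x + deg y = e` the
relative differential form `y dx ∈ Ω(B/A)` is exact. -/
def Exact (A B : Type) [CommRing A] [CommRing B] [Algebra A B] (H : ℤ → B → Prop) (e : ℤ) : Prop :=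
  ∀ n m : ℤ, n + m = e → ∀ x y : B, H n x → H m y →
    ∃ z : B, y • KaehlerDifferential.D A B x = KaehlerDifferential.D A B z

/-- Every `h ∈ A` homogeneous of degree `n` is the sum of an `h₁` with `h₁ u ∈ A` and an `h₂` with
`h₂ v ∈ A`. -/
def Splits (A B : Type) [CommRing A] [CommRing B] [Algebra A B] (HA : ℤ → A → Prop) (n : ℤ)
    (u v : B) : Prop :=
  ∀ h : A, HA n h → ∃ h1 h2 f1 f2 : A, h = h1 + h2 ∧ algebraMap A B h1 * u = algebraMap A B f1 ∧
    algebraMap A B h2 * v = algebraMap A B f2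

/-- `z ∈ A + Σ A ε_l`. -/
def InSpan (A B : Type) [CommRing A] [CommRing B] [Algebra A B] {m : ℕ} (ε : Fin m → B) (z : B) :
    Prop :=
  ∃ (f : A) (g : Fin m → A), z = algebraMap A B f + ∑ l, algebraMap A B (g l) * ε l

/-- `B` is generated as an algebra over `A` by homogeneous elements `ε_i` of positive degrees `δ_i`,
and for `i ≠ j` either `δ_i + δ_j > e`, or `ε_i ε_j ∈ A + Σ A ε_l` and every element of `A` of
degree `e - δ_i - δ_j` is in `(A : ε_i) + (A : ε_j)`. -/
def AlmostMono (A B : Type) [CommRing A] [CommRing B] [Algebra A B] (HA : ℤ → A → Prop)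
    (HB : ℤ → B → Prop) (e : ℤ) : Prop :=
  ∃ (m : ℕ) (δ : Fin m → ℤ) (ε : Fin m → B), (∀ i, 0 < δ i) ∧ (∀ i, HB (δ i) (ε i)) ∧
    Algebra.adjoin A (Set.range ε) = ⊤ ∧
    ∀ i j, i ≠ j → e < δ i + δ j ∨
      (InSpan A B ε (ε i * ε j) ∧ Splits A B HA (e - δ i - δ j) (ε i) (ε j))

/-- `B` is generated as a module over `A` by `1` and homogeneous elements `ε_i` of degrees `δ_i`, and
for `i ≠ j` every element of `A` of degree `e - δ_i - δ_j` is in `(A : ε_i) + (A : ε_j)`. -/
def AlmostCyclic (A B : Type) [CommRing A] [CommRing B] [Algebra A B] (HA : ℤ → A → Prop)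
    (HB : ℤ → B → Prop) (e : ℤ) : Prop :=
  ∃ (m : ℕ) (δ : Fin m → ℤ) (ε : Fin m → B), (∀ i, HB (δ i) (ε i)) ∧ (∀ z, InSpan A B ε z) ∧
    ∀ i j, i ≠ j → Splits A B HA (e - δ i - δ j) (ε i) (ε j)

/-- All elements of `B` of degree `n` come from `A`. -/
def AllFrom (A B : Type) [CommRing A] [CommRing B] [Algebra A B] (H : ℤ → B → Prop) (n : ℤ) :
    Prop :=
  ∀ z : B, H n z → ∃ f : A, z = algebraMap A B f

/-- The ideal is generated by two forms. -/
def IsCompleteIntersection {k : Type} [Field k] (P : Ideal (Pol k)) : Prop :=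
  ∃ a b : ℕ, IsCIType a b P

end Pool.SCS
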