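import Pool.Agent.Work.MP_03d391_sc.B_AL3

/-! # Block AL2 -/

set_option autoImplicit false

noncomputable section

open MvPolynomial TensorProduct

namespace Pool.SC

namespace AL2

open AL3

variable {R 𝔄 F : Type} [CommRing R] [IsDomain R] [IsDiscreteValuationRing R]
    [CommRing 𝔄] [Field F]

/-- The kernel of the reduction. -/
theorem ker_red (t : R) (ht : Irreducible t) (f : Pol R) (hf : red R f = 0) :
    ∃ h : Pol R, f = C t * h := by
  have h1 : ∀ m, t ∣ coeff m f := by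
    intro m
    have h2 := congrArg (coeff m) hf
    unfold red at h2
    rw [coeff_map, coeff_zero, IsLocalRing.residue_eq_zero_iff,
      ht.maximalIdeal_eq, Ideal.mem_span_singleton] at h2
    exact h2
  have := (C_dvd_iff_dvd_coeff t f).2 h1
  obtain ⟨h, hh⟩ := this
  exact ⟨h, hh⟩

/-- The main step. -/
theorem key (D : Setup R 𝔄 F) (i : Fin 4) (m : ℤ) (f : Pol R) (hf : HZ m f)
    (hq : D.q (D.c f) = 0) :
    ∃ (M : ℕ) (h : Pol R), HZ (m + M) h ∧ D.c (X i) ^ M * D.c f = D.c (C D.t) * D.c h := by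
  rcases hf with rfl | ⟨d, hd, hf⟩
  · exact ⟨0, 0, HZ_zero _, by simp⟩
  rw [D.hq, D.hg] at hq
  obtain ⟨N, hN⟩ := D.sat
  have h1 := hN _ hq i
  rw [Ideal.mem_map_iff_of_surjective (red R) red_surj] at h1
  obtain ⟨p, hp, hpr⟩ := h1
  have h2 : red R (X i ^ N * f - p) = 0 := by
    rw [map_sub, map_mul, map_pow, red_X, hpr, sub_self]
  obtain ⟨h', hh'⟩ := ker_red D.t D.ht _ h2
  have h3 : (X i ^ N * f : Pol R).IsHomogeneous (N + d) := (isHomogeneous_X_pow i N).mul hf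
  have h4 := congrArg (homogeneousComponent (N + d)) hh'
  have h5 : homogeneousComponent (N + d) (X i ^ N * f : Pol R) = X i ^ N * f := by
    have := homogeneousComponent_of_mem (m := N + d) ((mem_homogeneousSubmodule (N + d) _).2 h3)
    rw [this, if_pos rfl]
  rw [map_sub, homogeneousComponent_C_mul, h5] at h4
  have h6 : homogeneousComponent (N + d) p ∈ D.I := D.hI p hp (N + d)
  refine ⟨N, homogeneousComponent (N + d) h',
    Or.inr ⟨N + d, by push_cast; rw [hd]; ring, homogeneousComponent_isHomogeneous _ _⟩, ?_⟩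
  have h7 := congrArg D.c h4
  rw [map_sub, (D.hc _).2 h6, sub_zero, map_mul, map_mul, map_pow] at h7
  exact h7

theorem ah (D : Setup R 𝔄 F) (i : Fin 4) (hi : i = 0 ∨ i = 1) (n : ℤ) (z : 𝔄)
    (hq : D.q z = 0) (hz : D.AH i n z) : ∃ w, D.AH i n w ∧ z = D.c (C D.t) * w := by
  obtain ⟨N, f, hf, hz⟩ := hz
  have h1 : D.q (D.c f) = 0 := by rw [← hz, map_mul, hq, mul_zero]
  obtain ⟨M, h, hh, he⟩ := key D i _ f hf h1
  obtain ⟨w, hw⟩ := inv_spec D i hi (N + M) (D.c h)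
  refine ⟨w, ⟨N + M, h, HZ_cast (by push_cast; ring) hh, hw⟩, ?_⟩
  have hu := (unit_X D i hi).pow (N + M)
  apply hu.mul_left_cancel
  calc D.c (X i) ^ (N + M) * z = D.c (X i) ^ M * (D.c (X i) ^ N * z) := by ring
    _ = D.c (C D.t) * D.c h := by rw [hz, he]
    _ = D.c (X i) ^ (N + M) * (D.c (C D.t) * w) := by rw [← hw]; ring

end AL2

open AL3 AL2 in
theorem p_AL2 : Stmt_AL2 := by
  intro R 𝔄 F _ _ _ _ _ D n z hq
  refine ⟨?_, ah D 0 (Or.inl rfl) n z hq, ah D 1 (Or.inr rfl) n z hq⟩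
  rintro ⟨N, f, hf, hz⟩
  have h1 : D.q (D.c f) = 0 := by rw [← hz, map_mul, hq, mul_zero]
  obtain ⟨M, h, hh, he⟩ := key D 0 _ f hf h1
  have hu : IsUnit ((D.c (X 0) * D.c (X 1)) ^ (N + M)) := (D.u0.mul D.u1).pow _
  obtain ⟨u, hu'⟩ := hu
  have hw : (D.c (X 0) * D.c (X 1)) ^ (N + M) * (↑u⁻¹ * D.c (X 1 ^ M * h)) =
      D.c (X 1 ^ M * h) := by rw [← hu', Units.mul_inv_cancel_left]
  refine ⟨↑u⁻¹ * D.c (X 1 ^ M * h), ⟨N + M, X 1 ^ M * h,
    HZ_cast (by push_cast; ring) (HZ_mul (HZ_Xpow 1 M) hh), hw⟩, ?_⟩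
  apply ((D.u0.mul D.u1).pow (N + M)).mul_left_cancel
  calc (D.c (X 0) * D.c (X 1)) ^ (N + M) * z
      = D.c (X 1) ^ M * (D.c (X 0) ^ M * ((D.c (X 0) * D.c (X 1)) ^ N * z)) := by ring
    _ = D.c (X 1) ^ M * (D.c (C D.t) * D.c h) := by rw [hz, he]
    _ = D.c (C D.t) * ((D.c (X 0) * D.c (X 1)) ^ (N + M) * (↑u⁻¹ * D.c (X 1 ^ M * h))) := by
        rw [hw, map_mul, map_pow]; ring
    _ = (D.c (X 0) * D.c (X 1)) ^ (N + M) * (D.c (C D.t) * (↑u⁻¹ * D.c (X 1 ^ M * h))) := by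
        ring

end Pool.SC
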