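import Pool.Agent.Work.MP_03d391_sc.Interface2

/-! # Block AL3 -/

set_option autoImplicit false

noncomputable section

open MvPolynomial TensorProduct

namespace Pool.SC

namespace AL3

variable {ι S : Type} [CommRing S]

theorem HZ_zero (n : ℤ) : HZ n (0 : MvPolynomial ι S) := Or.inl rfl

theorem HZ_add {n : ℤ} {p r : MvPolynomial ι S} (hp : HZ n p) (hr : HZ n r) : HZ n (p + r) := by
  rcases hp with rfl | ⟨m, hm, hp⟩
  · simpa using hr
  · rcases hr with rfl | ⟨m', hm', hr⟩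
    · right; exact ⟨m, hm, by simpa using hp⟩
    · right
      have : m' = m := by exact_mod_cast hm'.trans hm.symm
      subst this
      exact ⟨m', hm, hp.add hr⟩

theorem HZ_neg {n : ℤ} {p : MvPolynomial ι S} (hp : HZ n p) : HZ n (-p) := by
  rcases hp with rfl | ⟨m, hm, hp⟩
  · left; simp
  · right; exact ⟨m, hm, hp.neg⟩

theorem HZ_mul {n k : ℤ} {p r : MvPolynomial ι S} (hp : HZ n p) (hr : HZ k r) :
    HZ (n + k) (p * r) := by
  rcases hp with rfl | ⟨m, hm, hp⟩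
  · left; simp
  · rcases hr with rfl | ⟨m', hm', hr⟩
    · left; simp
    · right; exact ⟨m + m', by push_cast; rw [hm, hm'], hp.mul hr⟩

theorem HZ_Xpow (i : ι) (N : ℕ) : HZ (N : ℤ) ((X i : MvPolynomial ι S) ^ N) := by
  right
  refine ⟨N, rfl, ?_⟩
  exact isHomogeneous_X_pow i N

theorem HZ_C (a : S) : HZ (0 : ℤ) (C a : MvPolynomial ι S) :=
  Or.inr ⟨0, rfl, isHomogeneous_C _ _⟩

theorem HZ_C_mul {n : ℤ} {p : MvPolynomial ι S} (a : S) (hp : HZ n p) : HZ n (C a * p) := by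
  have := HZ_mul (HZ_C (ι := ι) a) hp
  rwa [zero_add] at this

theorem HZ_cast {n k : ℤ} {p : MvPolynomial ι S} (h : n = k) (hp : HZ n p) : HZ k p := h ▸ hp

variable {R 𝔄 F : Type} [CommRing R] [IsDomain R] [IsDiscreteValuationRing R]
    [CommRing 𝔄] [Field F]

theorem red_surj : Function.Surjective (red R) :=
  MvPolynomial.map_surjective _ IsLocalRing.residue_surjective

theorem red_hc (n : ℕ) (f : Pol R) :
    red R (homogeneousComponent n f) = homogeneousComponent n (red R f) := by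
  ext d
  unfold red
  rw [coeff_map, coeff_homogeneousComponent, coeff_homogeneousComponent, coeff_map]
  split_ifs
  · rfl
  · simp

theorem lift_HZ {n : ℤ} {f : Pol (κ R)} (hf : HZ n f) : ∃ f' : Pol R, HZ n f' ∧ red R f' = f := by
  rcases hf with rfl | ⟨m, hm, hf⟩
  · exact ⟨0, HZ_zero _, by simp⟩
  · obtain ⟨f', hf'⟩ := red_surj (R := R) f
    refine ⟨homogeneousComponent m f', Or.inr ⟨m, hm, homogeneousComponent_isHomogeneous _ _⟩, ?_⟩
    rw [red_hc, hf']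
    have := homogeneousComponent_of_mem (m := m) ((mem_homogeneousSubmodule m f).2 hf)
    rw [this, if_pos rfl]

theorem unit_X (D : Setup R 𝔄 F) (i : Fin 4) (hi : i = 0 ∨ i = 1) : IsUnit (D.c (X i)) := by
  rcases hi with rfl | rfl
  · exact D.u0
  · exact D.u1

theorem red_X (i : Fin 4) : red R (X i) = X i := by
  unfold red; rw [map_X]

theorem qX (D : Setup R 𝔄 F) (i : Fin 4) : D.q (D.c (X i)) = D.g (X i) := by
  rw [D.hq, red_X]

theorem gX (D : Setup R 𝔄 F) (i : Fin 4) (hi : i = 0 ∨ i = 1) : D.g (X i) ≠ 0 := by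
  rcases hi with rfl | rfl
  · exact D.x0
  · exact D.x1

theorem inv_spec (D : Setup R 𝔄 F) (i : Fin 4) (hi : i = 0 ∨ i = 1) (N : ℕ) (y : 𝔄) :
    ∃ z : 𝔄, D.c (X i) ^ N * z = y := by
  obtain ⟨u, hu⟩ := (unit_X D i hi).pow N
  exact ⟨↑u⁻¹ * y, by rw [← hu, Units.mul_inv_cancel_left]⟩

theorem q_of (D : Setup R 𝔄 F) (i : Fin 4) (hi : i = 0 ∨ i = 1) (N : ℕ) (f : Pol R) (z : 𝔄)
    (x : F) (hz : D.c (X i) ^ N * z = D.c f) (hx : D.g (X i) ^ N * x = D.g (red R f)) :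
    D.q z = x := by
  have h1 := congrArg D.q hz
  rw [map_mul, map_pow, qX, D.hq, ← hx] at h1
  exact mul_left_cancel₀ (pow_ne_zero _ (gX D i hi)) h1

end AL3

open AL3 in
theorem p_AL3 : Stmt_AL3 := by
  intro R 𝔄 F _ _ _ _ _ D
  refine ⟨?_, ?_, ?_, ?_, ?_, ?_, ?_, ?_, ?_, ?_, ?_⟩
  · intro i hi x
    constructor
    · rintro ⟨N, f, hf⟩
      obtain ⟨f', rfl⟩ := red_surj (R := R) f
      obtain ⟨z, hz⟩ := inv_spec D i hi N (D.c f')
      exact ⟨z, ⟨N, f', hz⟩, q_of D i hi N f' z x hz hf⟩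
    · rintro ⟨z, ⟨N, f, hz⟩, rfl⟩
      refine ⟨N, red R f, ?_⟩
      have h1 := congrArg D.q hz
      rwa [map_mul, map_pow, qX, D.hq] at h1
  · rintro i hi n x ⟨N, f, hf, hx⟩
    obtain ⟨f', hf', rfl⟩ := lift_HZ (R := R) hf
    obtain ⟨z, hz⟩ := inv_spec D i hi N (D.c f')
    exact ⟨z, ⟨N, f', hf', hz⟩, q_of D i hi N f' z x hz hx⟩
  · rintro i n z w ⟨N, f, hf, hz⟩ ⟨M, h, hh, hw⟩
    refine ⟨N + M, X i ^ M * f + X i ^ N * h, HZ_add ?_ ?_, ?_⟩
    · exact HZ_cast (by push_cast; ring) (HZ_mul (HZ_Xpow i M) hf)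
    · exact HZ_cast (by push_cast; ring) (HZ_mul (HZ_Xpow i N) hh)
    · rw [map_add, map_mul, map_mul, map_pow, map_pow, ← hz, ← hw]; ring
  · rintro i n z a ⟨N, f, hf, hz⟩
    exact ⟨N, C a * f, HZ_C_mul a hf, by rw [map_mul, ← hz]; ring⟩
  · rintro i n z ⟨N, f, hf, hz⟩
    exact ⟨N, -f, HZ_neg hf, by rw [map_neg, ← hz]; ring⟩
  · rintro n z w ⟨N, f, hf, hz⟩ ⟨M, h, hh, hw⟩
    refine ⟨N + M, (X 0 ^ M * X 1 ^ M) * f + (X 0 ^ N * X 1 ^ N) * h, HZ_add ?_ ?_, ?_⟩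
    · exact HZ_cast (by push_cast; ring) (HZ_mul (HZ_mul (HZ_Xpow 0 M) (HZ_Xpow 1 M)) hf)
    · exact HZ_cast (by push_cast; ring) (HZ_mul (HZ_mul (HZ_Xpow 0 N) (HZ_Xpow 1 N)) hh)
    · simp only [map_add, map_mul, map_pow]
      rw [← hz, ← hw]; ring
  · rintro n z a ⟨N, f, hf, hz⟩
    exact ⟨N, C a * f, HZ_C_mul a hf, by rw [map_mul, ← hz]; ring⟩
  · rintro n z ⟨N, f, hf, hz⟩
    exact ⟨N, -f, HZ_neg hf, by rw [map_neg, ← hz]; ring⟩
  · rintro n m z w ⟨N, f, hf, hz⟩ ⟨M, h, hh, hw⟩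
    refine ⟨N + M, f * h, HZ_cast (by push_cast; ring) (HZ_mul hf hh), ?_⟩
    rw [map_mul, ← hz, ← hw]; ring
  · rintro i n z ⟨N, f, hf, hz⟩
    exact ⟨N, f, hz⟩
  · rintro i hi n z ⟨N, f, hf, hz⟩
    rcases hi with rfl | rfl
    · refine ⟨N, X 1 ^ N * f, HZ_cast (by push_cast; ring) (HZ_mul (HZ_Xpow 1 N) hf), ?_⟩
      rw [map_mul, map_pow, ← hz, mul_pow]; ring
    · refine ⟨N, X 0 ^ N * f, HZ_cast (by push_cast; ring) (HZ_mul (HZ_Xpow 0 N) hf), ?_⟩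
      rw [map_mul, map_pow, ← hz, mul_pow]; ring

end Pool.SC
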