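import Pool.Agent.Work.MP_03d391_sc.Interface

/-!
# MP_03d391_ag, THEOREM SC, block B01: membership in the section ring
-/

set_option autoImplicit false

noncomputable section

open MvPolynomial TensorProduct

namespace Pool.SC

namespace B01

theorem comp_mul {R σ : Type} [CommRing R] {p q : MvPolynomial σ R} {m : ℕ}
    (hp : p.IsHomogeneous m) (n : ℕ) :
    homogeneousComponent (m + n) (p * q) = p * homogeneousComponent n q := by
  have h1 : ∀ j, homogeneousComponent (m + n) (p * homogeneousComponent j q) =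
      if j = n then p * homogeneousComponent j q else 0 := by
    intro j
    have h2 : (p * homogeneousComponent j q).IsHomogeneous (m + j) :=
      hp.mul (homogeneousComponent_isHomogeneous j q)
    rw [homogeneousComponent_of_mem ((mem_homogeneousSubmodule _ _).2 h2)]
    by_cases h : j = n
    · subst h
      simp
    · rw [if_neg h, if_neg]
      omega
  conv_lhs => rw [← sum_homogeneousComponent q, Finset.mul_sum, map_sum]
  simp_rw [h1]
  rw [Finset.sum_ite_eq']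
  split_ifs with h
  · rfl
  · rw [homogeneousComponent_eq_zero, mul_zero]
    simpa using h

theorem HZ_mul {ι R : Type} [CommRing R] {n m : ℤ} {p q : MvPolynomial ι R} (hp : HZ n p)
    (hq : HZ m q) : HZ (n + m) (p * q) := by
  rcases hp with rfl | ⟨a, ha, hp⟩
  · left
    rw [zero_mul]
  · rcases hq with rfl | ⟨b, hb, hq⟩
    · left
      rw [mul_zero]
    · right
      exact ⟨a + b, by push_cast; rw [ha, hb], hp.mul hq⟩

theorem HZ_add {ι R : Type} [CommRing R] {n : ℤ} {p q : MvPolynomial ι R} (hp : HZ n p)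
    (hq : HZ n q) : HZ n (p + q) := by
  rcases hp with rfl | ⟨a, ha, hp⟩
  · rw [zero_add]
    exact hq
  · rcases hq with rfl | ⟨b, hb, hq⟩
    · rw [add_zero]
      exact Or.inr ⟨a, ha, hp⟩
    · right
      have : a = b := by exact_mod_cast ha.trans hb.symm
      subst this
      exact ⟨a, ha, hp.add hq⟩

section main

variable {k : Type} [Field k] {P : Ideal (Pol k)}

theorem cl_eq (f : Pol k) : cl P f = algebraMap (Pol k) (FF P) f := by
  rw [IsScalarTower.algebraMap_apply (Pol k) (Pol k ⧸ P) (FF P)]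
  rfl

theorem cl_zero {p : Pol k} (hp : p ∈ P) : cl P p = 0 := by
  change algebraMap (Pol k ⧸ P) (FF P) (Ideal.Quotient.mk P p) = 0
  rw [Ideal.Quotient.eq_zero_iff_mem.2 hp, map_zero]

theorem pow_mem {M : ℕ} {x : Pol k} (h : x ^ M ∈ P ⊔ Ideal.span {X 0, X 1}) (N : ℕ) :
    x ^ (M * (1 + (N + N))) ∈ P ⊔ (Ideal.span {(X 0 : Pol k) ^ N} ⊔
      Ideal.span {(X 1 : Pol k) ^ N}) := by
  rw [pow_mul]
  have h1 := Ideal.pow_mem_pow h (1 + (N + N))
  have h2 := Ideal.sup_pow_add_le_pow_sup_pow h1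
  have h3 : (Ideal.span {(X 0 : Pol k), X 1}) ^ (N + N) ≤
      Ideal.span {(X 0 : Pol k) ^ N} ⊔ Ideal.span {(X 1 : Pol k) ^ N} := by
    rw [Ideal.span_insert, ← Ideal.span_singleton_pow, ← Ideal.span_singleton_pow]
    exact Ideal.sup_pow_add_le_pow_sup_pow
  rw [pow_one] at h2
  exact (sup_le_sup_left h3 P) h2

theorem all {M : ℕ} (h2 : X 2 ^ M ∈ P ⊔ Ideal.span {X 0, X 1})
    (h3 : X 3 ^ M ∈ P ⊔ Ideal.span {X 0, X 1}) (N : ℕ) (i : Fin 4) :
    ∃ p ∈ P, ∃ a b : Pol k,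
      X i ^ (N + M * (1 + (N + N))) = p + (X 0 ^ N * a + X 1 ^ N * b) := by
  have key : X i ^ (N + M * (1 + (N + N))) ∈ P ⊔ (Ideal.span {(X 0 : Pol k) ^ N} ⊔
      Ideal.span {(X 1 : Pol k) ^ N}) := by
    rw [pow_add]
    fin_cases i
    · refine Ideal.mul_mem_right _ _ (Ideal.mem_sup_right (Ideal.mem_sup_left ?_))
      exact Ideal.mem_span_singleton_self _
    · refine Ideal.mul_mem_right _ _ (Ideal.mem_sup_right (Ideal.mem_sup_right ?_))
      exact Ideal.mem_span_singleton_self _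
    · exact Ideal.mul_mem_left _ _ (pow_mem h2 N)
    · exact Ideal.mul_mem_left _ _ (pow_mem h3 N)
  obtain ⟨p, hp, q, hq, hpq⟩ := Submodule.mem_sup.1 key
  obtain ⟨u, hu, v, hv, huv⟩ := Submodule.mem_sup.1 hq
  obtain ⟨a, rfl⟩ := Ideal.mem_span_singleton'.1 hu
  obtain ⟨b, rfl⟩ := Ideal.mem_span_singleton'.1 hv
  refine ⟨p, hp, a, b, ?_⟩
  rw [← hpq, ← huv]
  ring

theorem all_hom (hP : HomI P) {M : ℕ} (h2 : X 2 ^ M ∈ P ⊔ Ideal.span {X 0, X 1})
    (h3 : X 3 ^ M ∈ P ⊔ Ideal.span {X 0, X 1}) (N : ℕ) (i : Fin 4) :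
    ∃ p ∈ P, ∃ a b : Pol k, a.IsHomogeneous (M * (1 + (N + N))) ∧
      b.IsHomogeneous (M * (1 + (N + N))) ∧
      X i ^ (N + M * (1 + (N + N))) = p + (X 0 ^ N * a + X 1 ^ N * b) := by
  obtain ⟨p, hp, a, b, h⟩ := all h2 h3 N i
  refine ⟨homogeneousComponent (N + M * (1 + (N + N))) p, hP p hp _,
    homogeneousComponent (M * (1 + (N + N))) a, homogeneousComponent (M * (1 + (N + N))) b,
    homogeneousComponent_isHomogeneous _ _, homogeneousComponent_isHomogeneous _ _, ?_⟩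
  have h4 := congrArg (homogeneousComponent (N + M * (1 + (N + N)))) h
  rw [map_add, map_add, comp_mul (isHomogeneous_X_pow 0 N), comp_mul (isHomogeneous_X_pow 1 N),
    homogeneousComponent_of_mem ((mem_homogeneousSubmodule _ _).2 (isHomogeneous_X_pow i _)),
    if_pos rfl] at h4
  exact h4

theorem step {N Q : ℕ} {z : FF P} {i : Fin 4} {p a b f g : Pol k} (hp : p ∈ P)
    (h : X i ^ Q = p + (X 0 ^ N * a + X 1 ^ N * b)) (hf : cl P (X 0) ^ N * z = cl P f)
    (hg : cl P (X 1) ^ N * z = cl P g) :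
    algebraMap (Pol k) (FF P) (X i) ^ Q * z = algebraMap (Pol k) (FF P) (a * f + b * g) := by
  rw [← cl_eq, ← cl_eq, ← map_pow, h, map_add, map_add, map_mul, map_mul, cl_zero hp, zero_add,
    map_pow, map_pow, map_add, map_mul, map_mul, ← hf, ← hg]
  ring

theorem shift {N N' : ℕ} {z : FF P} {i : Fin 4} {f : Pol k} (hf : cl P (X i) ^ N * z = cl P f) :
    cl P (X i) ^ (N' + N) * z = cl P (X i ^ N' * f) := by
  rw [map_mul, map_pow, ← hf, pow_add]
  ring

end main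

end B01

open B01 in
/-- B01: membership in the section ring can be tested with `x_0`, `x_1`. -/
theorem p_B01 : Stmt_B01 := by
  intro k _ P M hP h2 h3
  refine ⟨fun z => ⟨?_, ?_⟩, fun n z => ⟨?_, ?_⟩⟩
  · rintro ⟨N, h⟩
    obtain ⟨f, hf⟩ := h 0
    obtain ⟨g, hg⟩ := h 1
    rw [← cl_eq, ← cl_eq] at hf hg
    exact ⟨⟨N, f, hf⟩, ⟨N, g, hg⟩⟩
  · rintro ⟨⟨N, f, hf⟩, ⟨N', g, hg⟩⟩
    refine ⟨(N' + N) + M * (1 + ((N' + N) + (N' + N))), fun i => ?_⟩
    obtain ⟨p, hp, a, b, h⟩ := all h2 h3 (N' + N) i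
    have hg' := shift (N' := N) hg
    rw [add_comm N N'] at hg'
    exact ⟨_, step hp h (shift hf) hg'⟩
  · rintro ⟨N, h⟩
    obtain ⟨f, hf0, hf⟩ := h 0
    obtain ⟨g, hg0, hg⟩ := h 1
    rw [← cl_eq, ← cl_eq] at hf hg
    exact ⟨⟨N, f, hf0, hf⟩, ⟨N, g, hg0, hg⟩⟩
  · rintro ⟨⟨N, f, hf0, hf⟩, ⟨N', g, hg0, hg⟩⟩
    refine ⟨(N' + N) + M * (1 + ((N' + N) + (N' + N))), fun i => ?_⟩
    obtain ⟨p, hp, a, b, ha, hb, h⟩ := all_hom hP h2 h3 (N' + N) i
    have hg' := shift (N' := N) hg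
    rw [add_comm N N'] at hg'
    refine ⟨_, ?_, step hp h (shift hf) hg'⟩
    have hX : ∀ (j : Fin 4) (m : ℕ), HZ (m : ℤ) ((X j : Pol k) ^ m) := fun j m =>
      Or.inr ⟨m, rfl, isHomogeneous_X_pow j m⟩
    have e1 : HZ (n + ((N' + N + M * (1 + (N' + N + (N' + N))) : ℕ) : ℤ)) (a * (X 0 ^ N' * f)) := by
      have := HZ_mul (Or.inr ⟨_, rfl, ha⟩ : HZ ((M * (1 + (N' + N + (N' + N))) : ℕ) : ℤ) a)
        (HZ_mul (hX 0 N') hf0)
      convert this using 1
      push_cast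
      ring
    have e2 : HZ (n + ((N' + N + M * (1 + (N' + N + (N' + N))) : ℕ) : ℤ)) (b * (X 1 ^ N * g)) := by
      have := HZ_mul (Or.inr ⟨_, rfl, hb⟩ : HZ ((M * (1 + (N' + N + (N' + N))) : ℕ) : ℤ) b)
        (HZ_mul (hX 1 N) hg0)
      convert this using 1
      push_cast
      ring
    exact HZ_add e1 e2

end Pool.SC
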