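import Pool.Agent.Work.MP_03d391_sc.Interface

/-! # Block BBA -/

set_option autoImplicit false

noncomputable section

open MvPolynomial TensorProduct

namespace Pool.SC

namespace BBA

theorem emb_X0 (R : Type) [CommRing R] : emb R (X 0) = X 0 := by
  show (rename (![0, 1] : Fin 2 → Fin 4) : Lam R →ₐ[R] Pol R) (X 0) = X 0
  rw [rename_X]
  rfl

/-- Homogeneity in terms of coefficients. -/
theorem hz_iff {ι R : Type} [CommRing R] (n : ℤ) (p : MvPolynomial ι R) :
    HZ n p ↔ ∀ e, coeff e p ≠ 0 → ((e.degree : ℕ) : ℤ) = n := by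
  constructor
  · rintro (h | ⟨m, hm, h⟩) e he
    · exact absurd (by rw [h, coeff_zero]) he
    · rw [← hm]
      have := h he
      rw [← this, Finsupp.degree_eq_weight_one]
      rfl
  · intro h
    by_cases hp : p = 0
    · exact Or.inl hp
    · right
      obtain ⟨e, he⟩ := MvPolynomial.ne_zero_iff.mp hp
      refine ⟨e.degree, h e he, fun e' he' => ?_⟩
      have h1 := h e he
      have h2 := h e' he'
      rw [← h1] at h2
      have h3 := Nat.cast_injective (R := ℤ) h2
      rw [← h3, Finsupp.degree_eq_weight_one]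
      rfl

theorem hz_div {ι R : Type} [CommRing R] (n : ℤ) (i : ι) (N : ℕ) (p : MvPolynomial ι R)
    (h : HZ (n + N) (X i ^ N * p)) : HZ n p := by
  classical
  rw [hz_iff] at h ⊢
  intro e he
  have h1 := h (Finsupp.single i N + e) (by
    rw [MvPolynomial.X_pow_eq_monomial, coeff_monomial_mul, one_mul]
    exact he)
  rw [map_add, Finsupp.degree_single] at h1
  push_cast at h1
  linarith

theorem hz_emb {R : Type} [CommRing R] (n : ℤ) (p : Lam R) (h : HZ n p) : HZ n (emb R p) := by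
  rcases h with h | ⟨m, hm, h⟩
  · left
    rw [h, map_zero]
  · right
    exact ⟨m, hm, h.rename_isHomogeneous⟩

theorem hz_zero_const {ι R : Type} [CommRing R] (p : MvPolynomial ι R) (h : HZ 0 p) :
    p = C (coeff 0 p) := by
  classical
  rw [hz_iff] at h
  ext e
  rw [coeff_C]
  split_ifs with h1
  · rw [← h1]
  · by_contra h2
    have h3 := h e h2
    have h4 : e.degree = 0 := by exact_mod_cast h3
    exact h1 ((Finsupp.degree_eq_zero_iff e).mp h4).symm

theorem cl_eq {k : Type} [Field k] (P : Ideal (Pol k)) (f : Pol k) :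
    cl P f = algebraMap (Pol k) (FF P) f := by
  rw [IsScalarTower.algebraMap_apply (Pol k) (Pol k ⧸ P) (FF P)]
  rfl

theorem alg_eq_zero {k : Type} [Field k] (P : Ideal (Pol k)) (f : Pol k) :
    algebraMap (Pol k) (FF P) f = 0 ↔ f ∈ P := by
  rw [← cl_eq]
  show algebraMap (Pol k ⧸ P) (FF P) (Ideal.Quotient.mk P f) = 0 ↔ _
  rw [← Ideal.Quotient.eq_zero_iff_mem]
  constructor
  · intro h
    exact IsFractionRing.injective (Pol k ⧸ P) (FF P) (by rw [h, map_zero])
  · intro h
    rw [h, map_zero]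

theorem theta_eq_zero {k : Type} [Field k] (P : Ideal (Pol k)) (f : Pol k) :
    algebraMap (Pol k) (secRing P) f = 0 ↔ f ∈ P := by
  rw [← alg_eq_zero P f, Subtype.ext_iff]
  exact Iff.rfl

theorem val_theta {k : Type} [Field k] (P : Ideal (Pol k)) (f : Pol k) :
    ((algebraMap (Pol k) (secRing P) f : secRing P) : FF P) = algebraMap (Pol k) (FF P) f := rfl

/-- Comparing the two linear functions. -/
theorem cmp {r r' : ℕ} (β : Fin r → ℤ) (β' : Fin r' → ℤ) (n : ℤ)
    (h1 : ∑ i, (n - β i + 1) = ∑ i, (n - β' i + 1))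
    (h2 : ∑ i, ((n + 1) - β i + 1) = ∑ i, ((n + 1) - β' i + 1)) :
    r' = r ∧ ∑ i, β' i = ∑ i, β i := by
  simp only [Finset.sum_add_distrib, Finset.sum_sub_distrib, Finset.sum_const, Finset.card_univ,
    Fintype.card_fin, nsmul_eq_mul, mul_one] at h1 h2
  have h3 : (r' : ℤ) = r := by nlinarith
  refine ⟨by exact_mod_cast h3, ?_⟩
  rw [h3] at h1
  linarith

end BBA

open BBA in
theorem p_BBA (hEXT : Stmt_EXT) (hB01 : Stmt_B01) (hGRB : Stmt_GRB) (hBFN : Stmt_BFN)
    (hGFR : Stmt_GFR) (hDNZ : Stmt_DNZ) (hBLG : Stmt_BLG) (hHFX : Stmt_HFX) (hDET : Stmt_DET)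
    (hFGN : Stmt_FGN) : Stmt_BBA := by
  intro k _ P N hP hhom h2 h3 d s hlin hker hdeg hne r β hsum hhil
  obtain ⟨f1, hf1⟩ := hne
  -- `X 0 ∉ P`
  have hX0 : X 0 ∉ P := by
    intro h
    have h4 := hker (X 0 * f1) (Ideal.mul_mem_right _ _ h)
    rw [← emb_X0, hlin] at h4
    rcases mul_eq_zero.mp h4 with h5 | h5
    · exact X_ne_zero _ h5
    · exact hf1 h5
  haveI : IsDomain (Pol k ⧸ P) := Ideal.Quotient.isDomain P
  haveI : IsDomain (FF P) := IsFractionRing.isDomain (Pol k ⧸ P)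
  have hpow : ∀ (i : Fin 4) (M : ℕ) (z : secRing P) (f : Pol k),
      algebraMap (Pol k) (FF P) (X i) ^ M * (z : FF P) = algebraMap (Pol k) (FF P) f →
      algebraMap (Pol k) (secRing P) (X i) ^ M * z = algebraMap (Pol k) (secRing P) f := by
    intro i M z f h
    exact Subtype.ext h
  -- (1)
  obtain ⟨s0, hs0, hs0l⟩ := hEXT k (secRing P) (algebraMap (Pol k) (secRing P)) s hlin (by
      intro f hf
      exact hker f ((theta_eq_zero P f).mp hf)) (by
      intro z
      obtain ⟨M, hM⟩ := z.2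
      obtain ⟨f, hf⟩ := hM 0
      obtain ⟨g, hg⟩ := hM 1
      exact ⟨M, f, g, hpow 0 M z f hf, hpow 1 M z g hg⟩)
  -- (2)
  obtain ⟨m, c, hc⟩ := hBFN k (secRing P) (algebraMap (Pol k) (secRing P)) s0 hs0l
    ⟨f1, by rw [hs0]; exact hf1⟩ (by
      refine ⟨N, fun f => ?_⟩
      have hex : ∀ n : ℕ, ∃ g : Fin N → Fin N → Lam k,
          homogeneousComponent n f -
            ∑ i : Fin N, ∑ j : Fin N, emb k (g i j) * (X 2 ^ (i : ℕ) * X 3 ^ (j : ℕ)) ∈ P := by
        intro n
        obtain ⟨g, _, hg⟩ := hFGN k P N hhom h2 h3 n (homogeneousComponent n f)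
          (Or.inr ⟨n, rfl, homogeneousComponent_isHomogeneous n f⟩)
        exact ⟨g, hg⟩
      choose g hg using hex
      refine ⟨fun i j => ∑ n ∈ Finset.range (f.totalDegree + 1), g n i j, ?_⟩
      have hg' : ∀ n, algebraMap (Pol k) (secRing P) (homogeneousComponent n f) =
          ∑ i : Fin N, ∑ j : Fin N, algebraMap (Pol k) (secRing P) (emb k (g n i j)) *
            algebraMap (Pol k) (secRing P) (X 2 ^ (i : ℕ) * X 3 ^ (j : ℕ)) := by
        intro n
        have h4 := (theta_eq_zero P _).mpr (hg n)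
        rw [map_sub, sub_eq_zero] at h4
        rw [h4, map_sum]
        refine Finset.sum_congr rfl fun i _ => ?_
        rw [map_sum]
        refine Finset.sum_congr rfl fun j _ => ?_
        rw [map_mul]
      conv_lhs => rw [← sum_homogeneousComponent f, map_sum]
      rw [Finset.sum_congr rfl (fun n _ => hg' n), Finset.sum_comm]
      refine Finset.sum_congr rfl fun i _ => ?_
      rw [Finset.sum_comm]
      refine Finset.sum_congr rfl fun j _ => ?_
      rw [map_sum, map_sum, Finset.sum_mul]) (by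
      intro z
      obtain ⟨M, hM⟩ := z.2
      obtain ⟨f, hf⟩ := hM 0
      exact ⟨M, f, hpow 0 M z f hf⟩)
  -- (3)
  obtain ⟨ℳ, hℳ, hmem, hmul, hpol, _⟩ := hGRB k P hP hhom hX0
  obtain ⟨r', β', b, hB, hbm, hbh⟩ := hGFR k (secRing P) (algebraMap (Pol k) (secRing P)) ℳ hℳ (by
      intro n j p z hp hz
      rw [hmem] at hz ⊢
      have h4 := hmul j n _ _ (hpol j (emb k p) (hz_emb j p hp)) hz
      rw [add_comm j n] at h4
      exact h4) ⟨m, c, hc⟩ (by
      intro z hz
      rcases mul_eq_zero.mp hz with h4 | h4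
      · exact absurd ((theta_eq_zero P _).mp h4) hX0
      · exact h4) (by
      intro z z' hz
      have hX0' : IsUnit (cl P (X 0)) := by
        refine IsLocalization.map_units (FF P) (⟨Ideal.Quotient.mk P (X 0), ?_⟩ :
          nonZeroDivisors (Pol k ⧸ P))
        rw [mem_nonZeroDivisors_iff_ne_zero]
        intro h
        exact hX0 (Ideal.Quotient.eq_zero_iff_mem.mp h)
      obtain ⟨v, hv⟩ := hX0'.exists_right_inv
      have hz' : cl P (X 1) * (z : FF P) = cl P (X 0) * (z' : FF P) := by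
        rw [cl_eq, cl_eq]
        exact congrArg Subtype.val hz
      have hu0 : cl P (X 0) * ((z : FF P) * v) = z := by
        rw [mul_left_comm, hv, mul_one]
      have hu1 : cl P (X 1) * ((z : FF P) * v) = z' := by
        rw [← mul_assoc, hz', mul_right_comm, hv, one_mul]
      obtain ⟨M, hM⟩ := z.2
      obtain ⟨f, hf⟩ := hM 0
      obtain ⟨M', hM'⟩ := z'.2
      obtain ⟨f', hf'⟩ := hM' 1
      rw [← cl_eq, ← cl_eq] at hf hf'
      have hu : (z : FF P) * v ∈ secRing P := by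
        refine ((hB01 k P N hhom h2 h3).1 _).mpr ⟨⟨M + 1, f, ?_⟩, ⟨M' + 1, f', ?_⟩⟩
        · rw [pow_succ, mul_assoc, hu0, hf]
        · rw [pow_succ, mul_assoc, hu1, hf']
      refine ⟨⟨(z : FF P) * v, hu⟩, ?_⟩
      apply Subtype.ext
      show (z : FF P) = algebraMap (Pol k) (FF P) (X 0) * ((z : FF P) * v)
      rw [← cl_eq, hu0])
  have hsec : ∀ i, IsSec P (β' i) (b i : FF P) := fun i => (hmem _ _).mp (hbm i)
  -- (4)
  obtain ⟨n1, hn1⟩ := hBLG k P r' β' b hsec
  obtain ⟨n0, hn0⟩ := hhil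
  have hkerP : RingHom.ker (algebraMap (Pol k) (secRing P)) = P := by
    ext f
    rw [RingHom.mem_ker]
    exact theta_eq_zero P f
  have hX : ∀ n : ℕ, (∀ i, β' i ≤ n) → n1 ≤ n → hil P n = ∑ i, ((n : ℤ) - β' i + 1) := by
    intro n hn hn'
    have h4 := hHFX k (secRing P) (algebraMap (Pol k) (secRing P)) r' β' b n hn hB.ind (by
      intro f hf
      obtain ⟨l, hl⟩ := hB.span (algebraMap (Pol k) (secRing P) f)
      refine ⟨l, hbh n l ?_, hl⟩
      rw [← hl, hmem]
      exact hpol n f hf) (by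
      intro l hl
      exact hn1 n hn' l hl)
    rw [hkerP] at h4
    exact h4
  obtain ⟨n2, hn2⟩ : ∃ n2 : ℕ, ∀ i, β' i ≤ n2 := by
    refine ⟨∑ i, (β' i).toNat, fun i => ?_⟩
    refine (Int.self_le_toNat _).trans ?_
    exact_mod_cast Finset.single_le_sum (f := fun i => (β' i).toNat) (fun _ _ => Nat.zero_le _)
      (Finset.mem_univ i)
  have hcmp : ∀ n : ℕ, n0 + n1 + n2 ≤ n →
      ∑ i, ((n : ℤ) - β i + 1) = ∑ i, ((n : ℤ) - β' i + 1) := by
    intro n hn
    rw [← hn0 n (by omega), hX n (fun i => (hn2 i).trans (by exact_mod_cast (by omega : n2 ≤ n)))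
      (by omega)]
  obtain ⟨hr, hβ⟩ := cmp β β' ((n0 + n1 + n2 : ℕ) : ℤ) (hcmp _ le_rfl) (by
    have := hcmp (n0 + n1 + n2 + 1) (by omega)
    rw [Nat.cast_add _ 1, Nat.cast_one] at this
    exact this)
  subst hr
  -- (5)
  have hs0h : ∀ (n : ℤ) (z : secRing P), IsSec P n (z : FF P) → HZ (n - d) (s0 z) := by
    intro n z hz
    obtain ⟨M, hM⟩ := hz
    obtain ⟨f, hf, hf'⟩ := hM 0
    have h4 := hpow 0 M z f hf'
    have h5 : X 0 ^ M * s0 z = s f := by
      rw [← hs0l, map_pow, map_pow, emb_X0, h4, hs0]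
    have h6 := hdeg _ f hf
    rw [← h5] at h6
    refine hz_div (n - d) 0 M (s0 z) ?_
    have h7 : n - d + M = n + M - d := by ring
    rw [h7]
    exact h6
  have hD := hDET k r' β' d (gram s0 b) (by
    intro i j
    exact hs0h _ _ (hmul _ _ _ _ (hsec i) (hsec j)))
  have hsum' : 2 * ∑ i, β' i = r' * d := by rw [hβ, hsum]
  rw [hsum', sub_self] at hD
  have hD' := hDNZ k (secRing P) (algebraMap (Pol k) (secRing P)) s0 hs0l
    ⟨algebraMap (Pol k) (secRing P) f1, by rw [hs0]; exact hf1⟩ r' b hB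
  refine ⟨β', b, s0, hB, hsec, hsum', hs0, hs0l, ?_⟩
  have h4 := hz_zero_const _ hD
  rw [h4]
  refine IsUnit.map C (isUnit_iff_ne_zero.mpr ?_)
  intro h5
  apply hD'
  rw [h4, h5, map_zero]

end Pool.SC
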