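import Pool.Agent.Work.MP_03d391_sc.Interface

set_option autoImplicit false

noncomputable section

open MvPolynomial TensorProduct

namespace Pool.SC

theorem BFN.BFN_emb_X0 (k : Type) [Field k] : emb k (X 0) = X 0 := by
  simp [emb]

/-- In a domain finite over a ring, a nonzero element divides a nonzero element of the ring. -/
theorem BFN.BFN_mult {L A : Type} [CommRing L] [IsDomain L] [CommRing A] [IsDomain A] [Algebra L A]
    [Module.Finite L A] (x : A) (hx : x ≠ 0) : ∃ (y : A) (l : L), l ≠ 0 ∧ y * x = algebraMap L A l := by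
  haveI : Algebra.IsIntegral L A := inferInstance
  have h1 : IsAlgebraic L x := (Algebra.IsIntegral.isIntegral x).isAlgebraic
  obtain ⟨c, d, hd, h⟩ := h1.exists_smul_eq_mul (1 : A) (mem_nonZeroDivisors_of_ne_zero hx)
  refine ⟨c, d, hd, ?_⟩
  rw [Algebra.smul_def, mul_one] at h
  rw [h, mul_comm]

theorem BFN.BFN_main (k : Type) [Field k] (E : Type) [CommRing E] [IsDomain E]
    (θ : Pol k →+* E) [Algebra (Lam k) E]
    (halg : ∀ l : Lam k, algebraMap (Lam k) E l = θ (emb k l))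
    (s0 : E →+ Lam k) (hs0 : ∀ l z, s0 (θ (emb k l) * z) = l * s0 z)
    (hne : ∃ f, s0 (θ f) ≠ 0)
    (hfin : ∃ N : ℕ, ∀ f, ∃ g : Fin N → Fin N → Lam k,
      θ f = ∑ i : Fin N, ∑ j : Fin N, θ (emb k (g i j)) * θ (X 2 ^ (i : ℕ) * X 3 ^ (j : ℕ)))
    (hloc : ∀ z : E, ∃ (N : ℕ) (f : Pol k), θ (X 0) ^ N * z = θ f) :
    Module.Finite (Lam k) E := by
  obtain ⟨f0, hf0⟩ := hne
  obtain ⟨N, hN⟩ := hfin
  have hsm : ∀ (l : Lam k) (z : E), l • z = θ (emb k l) * z := fun l z => by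
    rw [Algebra.smul_def, halg]
  have hinj : ∀ l : Lam k, θ (emb k l) = 0 → l = 0 := by
    intro l hl
    have h1 := hs0 l (θ f0)
    rw [hl, zero_mul, map_zero] at h1
    exact (mul_eq_zero.mp h1.symm).resolve_right hf0
  -- the subalgebra of the values of θ
  let A : Subalgebra (Lam k) E :=
    { carrier := Set.range θ
      mul_mem' := by
        rintro _ _ ⟨f, rfl⟩ ⟨g, rfl⟩
        exact ⟨f * g, map_mul θ f g⟩
      add_mem' := by
        rintro _ _ ⟨f, rfl⟩ ⟨g, rfl⟩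
        exact ⟨f + g, map_add θ f g⟩
      algebraMap_mem' := fun l => ⟨emb k l, (halg l).symm⟩ }
  have hA : ∀ f, θ f ∈ A := fun f => ⟨f, rfl⟩
  haveI : Module.Finite (Lam k) A := by
    classical
    refine ⟨⟨(Finset.univ : Finset (Fin N × Fin N)).image
      (fun ij => (⟨θ (X 2 ^ (ij.1 : ℕ) * X 3 ^ (ij.2 : ℕ)), hA _⟩ : A)), ?_⟩⟩
    rw [eq_top_iff]
    rintro ⟨z, f, rfl⟩ -
    obtain ⟨g, hg⟩ := hN f
    have h1 : (⟨θ f, f, rfl⟩ : A) = ∑ i : Fin N, ∑ j : Fin N,
        g i j • (⟨θ (X 2 ^ (i : ℕ) * X 3 ^ (j : ℕ)), hA _⟩ : A) := by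
      apply Subtype.ext
      rw [AddSubmonoidClass.coe_finsetSum]
      simp only [AddSubmonoidClass.coe_finsetSum]
      rw [hg]
      refine Finset.sum_congr rfl fun i _ => Finset.sum_congr rfl fun j _ => ?_
      rw [← hsm]
      rfl
    rw [h1]
    refine Submodule.sum_mem _ fun i _ => Submodule.sum_mem _ fun j _ => ?_
    refine Submodule.smul_mem _ _ (Submodule.subset_span ?_)
    rw [Finset.coe_image]
    exact ⟨(i, j), Finset.mem_coe.2 (Finset.mem_univ _), rfl⟩
  have hmul : ∀ h : Pol k, θ h ≠ 0 → ∃ (h' : Pol k) (l : Lam k), l ≠ 0 ∧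
      θ h' * θ h = θ (emb k l) := by
    intro h hh
    obtain ⟨y, l, hl, hy⟩ := BFN.BFN_mult (L := Lam k) (A := A) (⟨θ h, hA h⟩ : A)
      (fun h0 => hh (congrArg Subtype.val h0))
    obtain ⟨y, h', rfl⟩ := y
    refine ⟨h', l, hl, ?_⟩
    have h2 := congrArg Subtype.val hy
    have h3 : (algebraMap (Lam k) A l : E) = θ (emb k l) := halg l
    rw [h3] at h2
    exact h2
  -- the linear map
  let φ : E →ₗ[Lam k] (Fin N × Fin N → Lam k) :=
    { toFun := fun y ij => s0 (θ (X 2 ^ (ij.1 : ℕ) * X 3 ^ (ij.2 : ℕ)) * y)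
      map_add' := fun y y' => by
        funext ij
        simp only [Pi.add_apply]
        rw [mul_add, map_add]
      map_smul' := fun l y => by
        funext ij
        simp only [Pi.smul_apply, RingHom.id_apply, smul_eq_mul]
        rw [hsm, ← hs0]
        exact congrArg s0 (by ring) }
  have hφ : Function.Injective φ := by
    rw [injective_iff_map_eq_zero]
    intro y hy
    by_contra hy0
    have h1 : ∀ f, s0 (θ f * y) = 0 := by
      intro f
      obtain ⟨g, hg⟩ := hN f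
      rw [hg, Finset.sum_mul, map_sum]
      refine Finset.sum_eq_zero fun i _ => ?_
      rw [Finset.sum_mul, map_sum]
      refine Finset.sum_eq_zero fun j _ => ?_
      rw [mul_assoc, hs0]
      have h2 : s0 (θ (X 2 ^ (i : ℕ) * X 3 ^ (j : ℕ)) * y) = 0 := congrFun hy (i, j)
      rw [h2, mul_zero]
    obtain ⟨M, h, hh⟩ := hloc y
    have hX : θ (X 0) ≠ 0 := by
      intro h0
      rw [← BFN.BFN_emb_X0 k] at h0
      exact X_ne_zero (R := k) (0 : Fin 2) (hinj _ h0)
    have hh0 : θ h ≠ 0 := by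
      rw [← hh]
      exact mul_ne_zero (pow_ne_zero _ hX) hy0
    obtain ⟨h', l, hl, hl'⟩ := hmul h hh0
    have h3 : l * s0 (θ f0) = 0 := by
      rw [← hs0, ← hl', ← hh]
      have h4 : θ h' * (θ (X 0) ^ M * y) * θ f0 = θ (emb k (X 0 ^ M)) * (θ (f0 * h') * y) := by
        rw [map_pow, BFN.BFN_emb_X0, map_pow, map_mul]
        ring
      rw [h4, hs0, h1, mul_zero]
    exact hf0 ((mul_eq_zero.mp h3).resolve_left hl)
  haveI : IsNoetherian (Lam k) E := isNoetherian_of_injective φ hφ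
  infer_instance

theorem p_BFN : Stmt_BFN := by
  intro k _ E _ _ θ s0 hs0 hne hfin hloc
  letI : Algebra (Lam k) E := (θ.comp (emb k)).toAlgebra
  haveI : Module.Finite (Lam k) E := BFN.BFN_main k E θ (fun l => rfl) s0 hs0 hne hfin hloc
  obtain ⟨s, φ, hφ⟩ := Module.Finite.exists_fin' (Lam k) E
  refine ⟨s, fun i => φ (Pi.single i 1), fun m => ?_⟩
  obtain ⟨l, rfl⟩ := hφ m
  refine ⟨l, ?_⟩
  rw [LinearMap.pi_apply_eq_sum_univ φ l]
  refine Finset.sum_congr rfl fun i _ => ?_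
  rw [Algebra.smul_def]
  have h1 : (fun j => if i = j then (1 : Lam k) else 0) = Pi.single i 1 := by
    funext j
    by_cases h : i = j
    · subst h; simp
    · rw [if_neg h, Pi.single_eq_of_ne (Ne.symm h)]
  rw [h1]
  rfl

end Pool.SC
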