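import Pool.Agent.Work.MP_03d391_sc.Interface

set_option autoImplicit false

noncomputable section

open MvPolynomial TensorProduct

namespace Pool.SC

namespace BLG

variable {ι R : Type} [CommRing R]

theorem HZ_add {n : ℤ} {p q : MvPolynomial ι R} (hp : HZ n p) (hq : HZ n q) : HZ n (p + q) := by
  rcases hp with rfl | ⟨m, hm, hp⟩
  · rw [zero_add]; exact hq
  rcases hq with rfl | ⟨m', hm', hq⟩
  · rw [add_zero]; exact Or.inr ⟨m, hm, hp⟩
  · have : m = m' := by omega
    subst this
    exact Or.inr ⟨m, hm, hp.add hq⟩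

theorem HZ_sum {n : ℤ} {α : Type} (s : Finset α) (f : α → MvPolynomial ι R)
    (hf : ∀ i ∈ s, HZ n (f i)) : HZ n (∑ i ∈ s, f i) := by
  classical
  induction s using Finset.induction_on with
  | empty => exact Or.inl (by simp)
  | insert i s hi ih =>
    rw [Finset.sum_insert hi]
    exact HZ_add (hf i (Finset.mem_insert_self _ _))
      (ih fun j hj => hf j (Finset.mem_insert_of_mem hj))

theorem HZ_mul {n m : ℤ} {p q : MvPolynomial ι R} (hp : HZ n p) (hq : HZ m q) :
    HZ (n + m) (p * q) := by
  rcases hp with rfl | ⟨a, ha, hp⟩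
  · left; simp
  rcases hq with rfl | ⟨b, hb, hq⟩
  · left; simp
  · exact Or.inr ⟨a + b, by push_cast; omega, hp.mul hq⟩

theorem HZ_emb {n : ℤ} {l : Lam R} (hl : HZ n l) : HZ n (emb R l) := by
  rcases hl with rfl | ⟨a, ha, hl⟩
  · left; simp
  · refine Or.inr ⟨a, ha, ?_⟩
    change (rename _ l).IsHomogeneous a
    exact hl.rename_isHomogeneous

theorem emb_X0 : emb R (X 0) = X 0 := by
  change rename _ (X 0) = X 0
  rw [rename_X]; rfl

theorem emb_X1 : emb R (X 1) = X 1 := by
  change rename _ (X 1) = X 1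
  rw [rename_X]; rfl

/-- a form of large degree in two variables -/
theorem split (e : ℤ) (N : ℕ) (he : 2 * (N : ℤ) ≤ e) (l : Lam R) (hl : HZ e l) :
    ∃ p q : Lam R, HZ (e - N) p ∧ HZ (e - N) q ∧ l = p * X 0 ^ N + q * X 1 ^ N := by
  classical
  rcases hl with rfl | ⟨m, hm, hl⟩
  · exact ⟨0, 0, Or.inl rfl, Or.inl rfl, by simp⟩
  have key : ∀ s : Finset (Fin 2 →₀ ℕ), (∀ d ∈ s, d 0 + d 1 = m) → ∃ p q : Lam R,
      HZ (e - N) p ∧ HZ (e - N) q ∧
      ∑ d ∈ s, monomial d (coeff d l) = p * X 0 ^ N + q * X 1 ^ N := by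
    intro s
    induction s using Finset.induction_on with
    | empty => intro _; exact ⟨0, 0, Or.inl rfl, Or.inl rfl, by simp⟩
    | insert d s hd ih =>
      intro hs
      obtain ⟨p, q, hp, hq, h⟩ := ih fun d' hd' => hs d' (Finset.mem_insert_of_mem hd')
      have hdm := hs d (Finset.mem_insert_self _ _)
      rw [Finset.sum_insert hd, h]
      have hcase : N ≤ d 0 ∨ N ≤ d 1 := by omega
      rcases hcase with h0 | h1
      · refine ⟨monomial (d - Finsupp.single 0 N) (coeff d l) + p, q, HZ_add ?_ hp, hq, ?_⟩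
        · right
          refine ⟨m - N, by omega, ?_⟩
          apply isHomogeneous_monomial
          rw [Finsupp.degree_eq_sum, Fin.sum_univ_two]
          simp
          omega
        · have : monomial d (coeff d l) =
              monomial (d - Finsupp.single 0 N) (coeff d l) * (X 0 : Lam R) ^ N := by
            rw [X_pow_eq_monomial, monomial_mul, mul_one,
              tsub_add_cancel_of_le (Finsupp.single_le_iff.2 h0)]
          rw [this]; ring
      · refine ⟨p, monomial (d - Finsupp.single 1 N) (coeff d l) + q, hp, HZ_add ?_ hq, ?_⟩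
        · right
          refine ⟨m - N, by omega, ?_⟩
          apply isHomogeneous_monomial
          rw [Finsupp.degree_eq_sum, Fin.sum_univ_two]
          simp
          omega
        · have : monomial d (coeff d l) =
              monomial (d - Finsupp.single 1 N) (coeff d l) * (X 1 : Lam R) ^ N := by
            rw [X_pow_eq_monomial, monomial_mul, mul_one,
              tsub_add_cancel_of_le (Finsupp.single_le_iff.2 h1)]
          rw [this]; ring
  obtain ⟨p, q, hp, hq, h⟩ := key l.support (by
    intro d hd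
    have h1 := hl (mem_support_iff.1 hd)
    have h2 : Finsupp.degree d = m := by
      rw [Finsupp.degree_eq_weight_one]
      exact h1
    rw [Finsupp.degree_eq_sum, Fin.sum_univ_two] at h2
    exact h2)
  refine ⟨p, q, hp, hq, ?_⟩
  rw [← h]
  exact l.as_sum

end BLG

open BLG in
theorem p_BLG : Stmt_BLG := by
  intro k _ P r β b hb
  choose N h hh using hb
  choose n1 hn1 using fun i : Fin r => (⟨(β i + 2 * N i).toNat, Int.self_le_toNat _⟩ :
    ∃ t : ℕ, β i + 2 * N i ≤ t)
  refine ⟨Finset.univ.sup n1, fun n hn l hl => ?_⟩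
  have hni : ∀ i, β i + 2 * (N i : ℤ) ≤ n := by
    intro i
    have h1 := Finset.le_sup (f := n1) (Finset.mem_univ i)
    have h2 := hn1 i
    have h3 : (n1 i : ℤ) ≤ n := by exact_mod_cast h1.trans hn
    omega
  have key : ∀ i, ∃ f, HZ n f ∧ algebraMap (Pol k) (secRing P) f =
      algebraMap (Pol k) (secRing P) (emb k (l i)) * b i := by
    intro i
    obtain ⟨p, q, hp, hq, hpq⟩ := split (n - β i) (N i) (by have := hni i; omega) (l i) (hl i)
    refine ⟨emb k p * h i 0 + emb k q * h i 1, HZ_add ?_ ?_, ?_⟩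
    · have := HZ_mul (HZ_emb hp) (hh i 0).1
      have e : (n : ℤ) - β i - N i + (β i + N i) = n := by ring
      rwa [e] at this
    · have := HZ_mul (HZ_emb hq) (hh i 1).1
      have e : (n : ℤ) - β i - N i + (β i + N i) = n := by ring
      rwa [e] at this
    · apply Subtype.ext
      have h0 := (hh i 0).2
      have h1 := (hh i 1).2
      rw [hpq, map_add, map_mul, map_mul, map_add, map_mul, map_mul, map_pow, map_pow, map_add,
        map_mul, map_mul, map_pow, map_pow, emb_X0, emb_X1]
      push_cast
      change algebraMap (Pol k) (FF P) (emb k p) * algebraMap (Pol k) (FF P) (h i 0) +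
        algebraMap (Pol k) (FF P) (emb k q) * algebraMap (Pol k) (FF P) (h i 1) =
        (algebraMap (Pol k) (FF P) (emb k p) * algebraMap (Pol k) (FF P) (X 0) ^ N i +
        algebraMap (Pol k) (FF P) (emb k q) * algebraMap (Pol k) (FF P) (X 1) ^ N i) * (b i : FF P)
      rw [← h0, ← h1]
      ring
  choose f hf1 hf2 using key
  refine ⟨∑ i, f i, HZ_sum _ _ fun i _ => hf1 i, ?_⟩
  rw [map_sum]
  exact Finset.sum_congr rfl fun i _ => hf2 i

end Pool.SC
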