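import Pool.Agent.Work.MP_03d391_sc.Interface

/-! Block CON: clearing denominators -/

set_option autoImplicit false

noncomputable section

open MvPolynomial TensorProduct

namespace Pool.SC

namespace CON

theorem clear {σ : Type} (R K : Type) [CommRing R] [IsDomain R] [Field K] [Algebra R K]
    [IsFractionRing R K] (g : MvPolynomial σ K) : ∃ (r : R) (f : MvPolynomial σ R), r ≠ 0 ∧
      MvPolynomial.map (algebraMap R K) f = C (algebraMap R K r) * g := by
  induction g using MvPolynomial.induction_on with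
  | C a =>
    obtain ⟨x, y, hy, rfl⟩ := IsFractionRing.div_surjective (A := R) a
    have hy0 : y ≠ 0 := nonZeroDivisors.ne_zero hy
    refine ⟨y, C x, hy0, ?_⟩
    rw [map_C, ← C_mul]
    congr 1
    have : algebraMap R K y ≠ 0 := IsFractionRing.to_map_ne_zero_of_mem_nonZeroDivisors hy
    field_simp
  | add p q hp hq =>
    obtain ⟨r, f, hr, hf⟩ := hp
    obtain ⟨s, g, hs, hg⟩ := hq
    refine ⟨r * s, C s * f + C r * g, mul_ne_zero hr hs, ?_⟩
    rw [map_add, map_mul, map_mul, map_C, map_C, hf, hg, map_mul, C_mul]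
    ring
  | mul_X p i hp =>
    obtain ⟨r, f, hr, hf⟩ := hp
    refine ⟨r, f * X i, hr, ?_⟩
    rw [map_mul, map_X, hf]
    ring

end CON

open CON in
theorem p_CON : Stmt_CON := by
  intro R K _ _ _ _ _ I hsat
  have h3 : ∀ g ∈ I.map (toK R K), ∃ (r : R) (f : Pol R), r ≠ 0 ∧ f ∈ I ∧
      toK R K f = C (algebraMap R K r) * g := by
    intro g hg
    refine Submodule.span_induction (p := fun g _ => ∃ (r : R) (f : Pol R), r ≠ 0 ∧ f ∈ I ∧
      toK R K f = C (algebraMap R K r) * g) ?_ ?_ ?_ ?_ hg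
    · rintro _ ⟨f, hf, rfl⟩
      exact ⟨1, f, one_ne_zero, hf, by rw [map_one, map_one, one_mul]⟩
    · exact ⟨1, 0, one_ne_zero, I.zero_mem, by rw [map_zero, mul_zero]⟩
    · rintro x y - - ⟨r, f, hr, hfI, hf⟩ ⟨s, g, hs, hgI, hg⟩
      refine ⟨r * s, C s * f + C r * g, mul_ne_zero hr hs,
        I.add_mem (I.mul_mem_left _ hfI) (I.mul_mem_left _ hgI), ?_⟩
      rw [map_add, map_mul, map_mul, hf, hg, map_mul, C_mul]
      unfold toK
      rw [map_C, map_C]
      ring
    · rintro a x - ⟨r, f, hr, hfI, hf⟩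
      obtain ⟨s, g, hs, hg⟩ := clear R K a
      refine ⟨s * r, g * f, mul_ne_zero hs hr, I.mul_mem_left _ hfI, ?_⟩
      have hg' : toK R K g = C (algebraMap R K s) * a := hg
      rw [map_mul, hf, hg', map_mul, C_mul, smul_eq_mul]
      ring
  refine ⟨fun g => clear R K g, fun g => clear R K g, h3, ?_⟩
  intro f
  refine ⟨fun hf => ?_, fun hf => Ideal.mem_map_of_mem _ hf⟩
  obtain ⟨r, f', hr, hfI, h⟩ := h3 _ hf
  have hinj : Function.Injective (toK R K) :=
    MvPolynomial.map_injective _ (IsFractionRing.injective R K)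
  have h4 : toK R K f' = toK R K (C r * f) := by
    rw [h, map_mul]
    unfold toK
    rw [map_C]
  exact hsat r f hr (by rw [← hinj h4]; exact hfI)

end Pool.SC
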