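import Pool.Agent.Work.MP_03d391_sc.Interface2

/-!
# MP_03d391_ag, THEOREM SC: block DER
-/

set_option autoImplicit false

noncomputable section

open MvPolynomial TensorProduct

namespace Pool.SC

namespace DER

variable {S 𝔄 F : Type} [CommRing S] [CommRing 𝔄] [Field F] [Algebra S F]

/-- The `B`-submodule `q(A0) + q(A1)` of `F`. -/
def NN (q : 𝔄 →+* F) (A0 A1 : Subring 𝔄) (B : Subalgebra S F)
    (h5 : ∀ x, x ∈ B ↔ (∃ z ∈ A0, q z = x) ∧ ∃ z ∈ A1, q z = x) : Submodule B F where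
  carrier := {x | ∃ u0 ∈ A0, ∃ u1 ∈ A1, x = q u0 + q u1}
  add_mem' := by
    rintro x y ⟨u0, h0, u1, h1, rfl⟩ ⟨v0, k0, v1, k1, rfl⟩
    exact ⟨u0 + v0, A0.add_mem h0 k0, u1 + v1, A1.add_mem h1 k1, by rw [map_add, map_add]; ring⟩
  zero_mem' := ⟨0, A0.zero_mem, 0, A1.zero_mem, by simp⟩
  smul_mem' := by
    rintro b x ⟨u0, h0, u1, h1, rfl⟩
    obtain ⟨⟨z, hz, e⟩, ⟨z', hz', e'⟩⟩ := (h5 b).1 b.2
    refine ⟨z * u0, A0.mul_mem hz h0, z' * u1, A1.mul_mem hz' h1, ?_⟩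
    rw [map_mul, map_mul, e, e', Subalgebra.smul_def, smul_eq_mul]
    ring

/-- The statement (W). -/
theorem W (q : 𝔄 →+* F) (t : 𝔄) (A0 A1 : Subring 𝔄) (B : Subalgebra S F) (n : ℕ)
    (h1 : ∀ z, t * z = 0 → z = 0) (h2 : ∀ z, q z = 0 ↔ ∃ w, z = t * w)
    (h3 : ∀ z, t * z ∈ A0 → z ∈ A0) (h4 : ∀ z, t * z ∈ A1 → z ∈ A1)
    (h5 : ∀ x, x ∈ B ↔ (∃ z ∈ A0, q z = x) ∧ ∃ z ∈ A1, q z = x)
    (h7 : ∀ x ∈ B, ∃ z0 ∈ A0, ∃ z1 ∈ A1, ∃ w, q z0 = x ∧ q z1 = x ∧ z0 - z1 = t ^ n * w) :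
    ∀ m : ℕ, m < n → ∀ a0 ∈ A0, ∀ a1 ∈ A1, ∀ w, a0 - a1 = t ^ m * w →
      ∃ u0 ∈ A0, ∃ u1 ∈ A1, q w = q u0 + q u1 := by
  intro m
  induction m with
  | zero =>
    intro _ a0 k0 a1 k1 w e
    refine ⟨a0, k0, -a1, A1.neg_mem k1, ?_⟩
    rw [← map_add, ← sub_eq_add_neg, e, pow_zero, one_mul]
  | succ m ih =>
    intro hm a0 k0 a1 k1 w e
    have hq : q a0 = q a1 := by
      have : q (a0 - a1) = 0 := (h2 _).2 ⟨t ^ m * w, by rw [e]; ring⟩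
      rwa [map_sub, sub_eq_zero] at this
    have hx : q a0 ∈ B := (h5 _).2 ⟨⟨a0, k0, rfl⟩, ⟨a1, k1, hq.symm⟩⟩
    obtain ⟨z0, l0, z1, l1, w', e0, e1, e'⟩ := h7 _ hx
    obtain ⟨c0, hc0⟩ := (h2 (a0 - z0)).1 (by rw [map_sub, e0, sub_self])
    obtain ⟨c1, hc1⟩ := (h2 (a1 - z1)).1 (by rw [map_sub, e1, hq, sub_self])
    have m0 : c0 ∈ A0 := h3 _ (hc0 ▸ A0.sub_mem k0 l0)
    have m1 : c1 ∈ A1 := h4 _ (hc1 ▸ A1.sub_mem k1 l1)
    have ht : t ^ n = t * (t ^ m * t ^ (n - (m + 1))) := by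
      rw [← pow_add, ← pow_succ']
      congr 1
      omega
    have key : c0 - c1 = t ^ m * (w - t ^ (n - (m + 1)) * w') := by
      rw [← sub_eq_zero]
      apply h1
      linear_combination -hc0 + hc1 + e - e' - w' * ht
    obtain ⟨u0, v0, u1, v1, e2⟩ := ih (by omega) c0 m0 c1 m1 _ key
    refine ⟨u0, v0, u1, v1, ?_⟩
    rw [← e2, map_sub, map_mul, map_pow, (h2 t).2 ⟨1, by ring⟩, zero_pow (by omega), zero_mul,
      sub_zero]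

/-- Two choices of lifts give the same class. -/
theorem wd (q : 𝔄 →+* F) (t : 𝔄) (A0 A1 : Subring 𝔄) (B : Subalgebra S F) (n : ℕ)
    (h1 : ∀ z, t * z = 0 → z = 0) (h2 : ∀ z, q z = 0 ↔ ∃ w, z = t * w)
    (h3 : ∀ z, t * z ∈ A0 → z ∈ A0) (h4 : ∀ z, t * z ∈ A1 → z ∈ A1)
    (h5 : ∀ x, x ∈ B ↔ (∃ z ∈ A0, q z = x) ∧ ∃ z ∈ A1, q z = x) (hn : 1 ≤ n)
    (h7 : ∀ x ∈ B, ∃ z0 ∈ A0, ∃ z1 ∈ A1, ∃ w, q z0 = x ∧ q z1 = x ∧ z0 - z1 = t ^ n * w)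
    (x : F) (z0 z1 w z0' z1' w' : 𝔄) (k0 : z0 ∈ A0) (k1 : z1 ∈ A1) (k0' : z0' ∈ A0)
    (k1' : z1' ∈ A1) (e0 : q z0 = x) (e1 : q z1 = x) (e : z0 - z1 = t ^ n * w)
    (e0' : q z0' = x) (e1' : q z1' = x) (e' : z0' - z1' = t ^ n * w') :
    q w - q w' ∈ NN q A0 A1 B h5 := by
  obtain ⟨c0, hc0⟩ := (h2 (z0 - z0')).1 (by rw [map_sub, e0, e0', sub_self])
  obtain ⟨c1, hc1⟩ := (h2 (z1 - z1')).1 (by rw [map_sub, e1, e1', sub_self])
  have m0 : c0 ∈ A0 := h3 _ (hc0 ▸ A0.sub_mem k0 k0')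
  have m1 : c1 ∈ A1 := h4 _ (hc1 ▸ A1.sub_mem k1 k1')
  have ht : t ^ n = t * t ^ (n - 1) := by
    rw [← pow_succ']
    congr 1
    omega
  have key : c0 - c1 = t ^ (n - 1) * (w - w') := by
    rw [← sub_eq_zero]
    apply h1
    linear_combination -hc0 + hc1 + e - e' + (w - w') * ht
  obtain ⟨u0, v0, u1, v1, e2⟩ := W q t A0 A1 B n h1 h2 h3 h4 h5 h7 (n - 1) (by omega) c0 m0 c1 m1 _ key
  exact ⟨u0, v0, u1, v1, by rw [← e2, map_sub]⟩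

end DER

open DER in
theorem p_DER : Stmt_DER := by
  intro S 𝔄 F _ _ _ _ q t A0 A1 B n h1 h2 h3 h4 h5 h6 hn h7 x y z hxyz z0 k0 z1 k1 w e0 e1 e
    z0' k0' z1' k1' w' e0' e1' e'
  choose! f0 m0 f1 m1 fw g0 g1 ge using h7
  have h7 : ∀ x ∈ B, ∃ z0 ∈ A0, ∃ z1 ∈ A1, ∃ w, q z0 = x ∧ q z1 = x ∧ z0 - z1 = t ^ n * w :=
    fun x hx => ⟨f0 x, m0 x hx, f1 x, m1 x hx, fw x, g0 x hx, g1 x hx, ge x hx⟩
  let N := NN q A0 A1 B h5
  have key : ∀ (x : F) (hx : x ∈ B) (z0 z1 w : 𝔄), z0 ∈ A0 → z1 ∈ A1 → q z0 = x → q z1 = x →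
      z0 - z1 = t ^ n * w → (N.mkQ (q (fw x)) : F ⧸ N) = N.mkQ (q w) := by
    intro x hx z0 z1 w k0 k1 e0 e1 e
    rw [← sub_eq_zero, ← map_sub, Submodule.mkQ_apply, Submodule.Quotient.mk_eq_zero]
    exact wd q t A0 A1 B n h1 h2 h3 h4 h5 hn h7 x (f0 x) (f1 x) (fw x) z0 z1 w (m0 x hx) (m1 x hx)
      k0 k1 (g0 x hx) (g1 x hx) (ge x hx) e0 e1 e
  let o : B →ₗ[S] F ⧸ N :=
    { toFun := fun x => N.mkQ (q (fw x))
      map_add' := by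
        intro x y
        rw [← map_add, ← map_add]
        apply key _ (x + y).2 (f0 x + f0 y) (f1 x + f1 y) (fw x + fw y)
          (A0.add_mem (m0 x x.2) (m0 y y.2)) (A1.add_mem (m1 x x.2) (m1 y y.2))
        · rw [map_add, g0 x x.2, g0 y y.2]; rfl
        · rw [map_add, g1 x x.2, g1 y y.2]; rfl
        · linear_combination ge x x.2 + ge y y.2
      map_smul' := by
        intro s x
        obtain ⟨a, a0, a1, ea⟩ := h6 s
        have : (N.mkQ (q (fw (s • x : B))) : F ⧸ N) = N.mkQ (q (a * fw x)) := by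
          apply key _ (s • x).2 (a * f0 x) (a * f1 x) (a * fw x)
            (A0.mul_mem a0 (m0 x x.2)) (A1.mul_mem a1 (m1 x x.2))
          · rw [map_mul, g0 x x.2, ea, ← Algebra.smul_def]; rfl
          · rw [map_mul, g1 x x.2, ea, ← Algebra.smul_def]; rfl
          · linear_combination a * ge x x.2
        rw [RingHom.id_apply, this, map_mul, ea, ← Algebra.smul_def]
        rfl }
  have ho : ∀ x y : B, o (x * y) = x • o y + y • o x := by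
    intro x y
    have : (N.mkQ (q (fw (x * y : B))) : F ⧸ N) = N.mkQ (q (f0 x * fw y + fw x * f1 y)) := by
      apply key _ (x * y).2 (f0 x * f0 y) (f1 x * f1 y) (f0 x * fw y + fw x * f1 y)
        (A0.mul_mem (m0 x x.2) (m0 y y.2)) (A1.mul_mem (m1 x x.2) (m1 y y.2))
      · rw [map_mul, g0 x x.2, g0 y y.2]; rfl
      · rw [map_mul, g1 x x.2, g1 y y.2]; rfl
      · linear_combination f0 x * ge y y.2 + f1 y * ge x x.2
    change (N.mkQ (q (fw (x * y : B))) : F ⧸ N) = x • N.mkQ (q (fw y)) + y • N.mkQ (q (fw x))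
    rw [this, ← N.mkQ.map_smul, ← N.mkQ.map_smul, ← N.mkQ.map_add]
    congr 1
    rw [map_add, map_mul, map_mul, g0 x x.2, g1 y y.2, Subalgebra.smul_def, Subalgebra.smul_def,
      smul_eq_mul, smul_eq_mul]
    ring
  let d : Derivation S B (F ⧸ N) := Derivation.mk' o ho
  have hd : ∀ x : B, d.liftKaehlerDifferential (KaehlerDifferential.D S B x) = o x := by
    intro x
    rw [Derivation.liftKaehlerDifferential_comp_D]
    rfl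
  have h := congrArg d.liftKaehlerDifferential hxyz
  rw [map_smul, hd, hd] at h
  have hx : o x = N.mkQ (q w) := key x x.2 z0 z1 w k0 k1 e0 e1 e
  have hz : o z = N.mkQ (q w') := key z z.2 z0' z1' w' k0' k1' e0' e1' e'
  rw [hx, hz, ← N.mkQ.map_smul, ← sub_eq_zero, ← map_sub, Submodule.mkQ_apply,
    Submodule.Quotient.mk_eq_zero] at h
  exact h

end Pool.SC
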