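import Pool.Agent.Work.MP_03d391_sc.Interface

/-!
# Block DET: the determinant of a matrix of forms (helper95)
-/

set_option autoImplicit false

noncomputable section

open MvPolynomial TensorProduct

namespace Pool.SC

namespace DET

variable {ι R : Type} [CommRing R]

theorem hz_add {n : ℤ} {p q : MvPolynomial ι R} (hp : HZ n p) (hq : HZ n q) : HZ n (p + q) := by
  rcases hp with rfl | ⟨m, hm, hp⟩
  · rwa [zero_add]
  · rcases hq with rfl | ⟨m', hm', hq⟩
    · rw [add_zero]; exact Or.inr ⟨m, hm, hp⟩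
    · have h : m' = m := by exact_mod_cast hm'.trans hm.symm
      subst h
      exact Or.inr ⟨m', hm, hp.add hq⟩

theorem hz_neg {n : ℤ} {p : MvPolynomial ι R} (hp : HZ n p) : HZ n (-p) := by
  rcases hp with rfl | ⟨m, hm, hp⟩
  · left; exact neg_zero
  · exact Or.inr ⟨m, hm, (homogeneousSubmodule ι R m).neg_mem hp⟩

theorem hz_mul {n m : ℤ} {p q : MvPolynomial ι R} (hp : HZ n p) (hq : HZ m q) :
    HZ (n + m) (p * q) := by
  rcases hp with rfl | ⟨a, ha, hp⟩
  · left; exact zero_mul _
  · rcases hq with rfl | ⟨b, hb, hq⟩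
    · left; exact mul_zero _
    · exact Or.inr ⟨a + b, by push_cast; rw [ha, hb], hp.mul hq⟩

theorem hz_one : HZ 0 (1 : MvPolynomial ι R) := Or.inr ⟨0, rfl, isHomogeneous_one ι R⟩

theorem hz_sum {n : ℤ} {κ' : Type} (s : Finset κ') (p : κ' → MvPolynomial ι R)
    (h : ∀ i ∈ s, HZ n (p i)) : HZ n (∑ i ∈ s, p i) := by
  classical
  induction s using Finset.induction_on with
  | empty => left; simp
  | insert a s ha ih =>
    rw [Finset.sum_insert ha]
    exact hz_add (h a (Finset.mem_insert_self a s))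
      (ih (fun i hi => h i (Finset.mem_insert_of_mem hi)))

theorem hz_prod {κ' : Type} (s : Finset κ') (e : κ' → ℤ) (p : κ' → MvPolynomial ι R)
    (h : ∀ i ∈ s, HZ (e i) (p i)) : HZ (∑ i ∈ s, e i) (∏ i ∈ s, p i) := by
  classical
  induction s using Finset.induction_on with
  | empty => simpa using hz_one
  | insert a s ha ih =>
    rw [Finset.sum_insert ha, Finset.prod_insert ha]
    exact hz_mul (h a (Finset.mem_insert_self a s))
      (ih (fun i hi => h i (Finset.mem_insert_of_mem hi)))

end DET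

theorem p_DET : Stmt_DET := by
  intro R _ r β d M hM
  rw [Matrix.det_apply]
  refine DET.hz_sum _ _ (fun σ _ => ?_)
  have h1 : HZ (∑ i, (β (σ i) + β i - d)) (∏ i, M (σ i) i) :=
    DET.hz_prod _ _ _ (fun i _ => hM (σ i) i)
  have h2 : ∑ i, (β (σ i) + β i - d) = 2 * ∑ i, β i - r * d := by
    rw [Finset.sum_sub_distrib, Finset.sum_add_distrib, Equiv.sum_comp σ β, Finset.sum_const,
      Finset.card_univ, Fintype.card_fin, nsmul_eq_mul]
    ring
  rw [h2] at h1
  rcases Int.units_eq_one_or (Equiv.Perm.sign σ) with hs | hs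
  · rw [hs, one_smul]; exact h1
  · rw [hs, Units.neg_smul, one_smul]; exact DET.hz_neg h1

end Pool.SC
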