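import Pool.Agent.Work.MP_03d391_sc.Interface

/-!
# Block DNZ: the Gram determinant is not zero (helper95)
-/

set_option autoImplicit false

noncomputable section

open MvPolynomial TensorProduct

namespace Pool.SC

namespace DNZ

variable {k : Type} [Field k] {E : Type} [CommRing E] [IsDomain E] {θ : Pol k →+* E} {r : ℕ}
  {b : Fin r → E}

theorem emb_zero_of (hb : IsB θ b) {m : Lam k} (i : Fin r)
    (h : θ (emb k m) = 0) : m = 0 := by
  classical
  have h1 : ∑ j, θ (emb k (if j = i then m else 0)) * b j = 0 := by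
    refine Finset.sum_eq_zero (fun j _ => ?_)
    split_ifs with hj
    · rw [h, zero_mul]
    · rw [map_zero, map_zero, zero_mul]
  have h2 := hb.ind _ h1 i
  rwa [if_pos rfl] at h2

/-- a nonzero element of `E` divides a nonzero element of `Lam k` -/
theorem dvd_emb (hb : IsB θ b) (i0 : Fin r) {u : E} (hu : u ≠ 0) :
    ∃ (v : E) (m : Lam k), m ≠ 0 ∧ u * v = θ (emb k m) := by
  classical
  -- the matrix of the multiplication by `u`
  have hM : ∀ j, ∃ l : Fin r → Lam k, u * b j = ∑ i, θ (emb k (l i)) * b i := fun j => hb.span _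
  choose M hM using hM
  let A : Matrix (Fin r) (Fin r) (Lam k) := Matrix.of fun i j => M j i
  -- det A ≠ 0
  have hdet : A.det ≠ 0 := by
    intro h0
    obtain ⟨l, hl, hAl⟩ := Matrix.exists_mulVec_eq_zero_iff.2 h0
    have h1 : u * ∑ j, θ (emb k (l j)) * b j = ∑ i, θ (emb k (A.mulVec l i)) * b i := by
      rw [Finset.mul_sum]
      have h2 : ∀ j, u * (θ (emb k (l j)) * b j) =
          ∑ i, θ (emb k (A i j * l j)) * b i := by
        intro j
        rw [mul_left_comm, hM j, Finset.mul_sum]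
        refine Finset.sum_congr rfl (fun i _ => ?_)
        rw [map_mul, map_mul]
        show _ = θ (emb k (M j i)) * _ * b i
        ring
      rw [Finset.sum_congr rfl (fun j _ => h2 j), Finset.sum_comm]
      refine Finset.sum_congr rfl (fun i _ => ?_)
      rw [← Finset.sum_mul, ← map_sum, ← map_sum]
      rfl
    rw [hAl] at h1
    have h3 : ∑ i, θ (emb k ((0 : Fin r → Lam k) i)) * b i = 0 := by
      refine Finset.sum_eq_zero (fun i _ => ?_)
      rw [Pi.zero_apply, map_zero, map_zero, zero_mul]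
    rw [h3] at h1
    rcases mul_eq_zero.1 h1 with h4 | h4
    · exact hu h4
    · exact hl (funext (hb.ind l h4))
  -- the coordinates of `1`
  obtain ⟨e, he⟩ := hb.span 1
  refine ⟨∑ j, θ (emb k (A.adjugate.mulVec e j)) * b j, A.det, hdet, ?_⟩
  rw [Finset.mul_sum]
  have h2 : ∀ j, u * (θ (emb k (A.adjugate.mulVec e j)) * b j) =
      ∑ i, θ (emb k (A i j * A.adjugate.mulVec e j)) * b i := by
    intro j
    rw [mul_left_comm, hM j, Finset.mul_sum]
    refine Finset.sum_congr rfl (fun i _ => ?_)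
    rw [map_mul, map_mul]
    show _ = θ (emb k (M j i)) * _ * b i
    ring
  rw [Finset.sum_congr rfl (fun j _ => h2 j), Finset.sum_comm]
  have h3 : ∀ i, ∑ j, θ (emb k (A i j * A.adjugate.mulVec e j)) * b i =
      θ (emb k A.det) * (θ (emb k (e i)) * b i) := by
    intro i
    rw [← Finset.sum_mul, ← map_sum, ← map_sum]
    have h4 : ∑ j, A i j * A.adjugate.mulVec e j = A.det * e i := by
      have h5 : A.mulVec (A.adjugate.mulVec e) = A.det • e := by
        rw [Matrix.mulVec_mulVec, Matrix.mul_adjugate, Matrix.smul_mulVec, Matrix.one_mulVec]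
      have h6 := congrFun h5 i
      rw [Pi.smul_apply, smul_eq_mul] at h6
      exact h6
    rw [h4, map_mul, map_mul, mul_assoc]
  rw [Finset.sum_congr rfl (fun i _ => h3 i), ← Finset.mul_sum, ← he, mul_one]

end DNZ

theorem p_DNZ : Stmt_DNZ := by
  intro k _ E _ _ θ s0 hs0 hne r b hb h0
  obtain ⟨l, hl, hAl⟩ := Matrix.exists_mulVec_eq_zero_iff.2 h0
  have hi : ∃ i, l i ≠ 0 := by
    by_contra hc
    push Not at hc
    exact hl (funext hc)
  obtain ⟨i0, hi0⟩ := hi
  -- the element `u`
  have hu : ∑ j, θ (emb k (l j)) * b j ≠ 0 := fun h => hi0 (hb.ind l h i0)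
  have hub : ∀ i, s0 ((∑ j, θ (emb k (l j)) * b j) * b i) = 0 := by
    intro i
    have h1 := congrFun hAl i
    rw [Pi.zero_apply] at h1
    rw [← h1, Finset.sum_mul, map_sum]
    refine Finset.sum_congr rfl (fun j _ => ?_)
    rw [mul_assoc, hs0, mul_comm (b j) (b i), mul_comm]
    rfl
  have huy : ∀ y, s0 ((∑ j, θ (emb k (l j)) * b j) * y) = 0 := by
    intro y
    obtain ⟨e, he⟩ := hb.span y
    rw [he, Finset.mul_sum, map_sum]
    refine Finset.sum_eq_zero (fun i _ => ?_)
    rw [mul_left_comm, hs0, hub, mul_zero]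
  obtain ⟨v, m, hm, hv⟩ := DNZ.dvd_emb hb i0 hu
  obtain ⟨z, hz⟩ := hne
  have h2 := huy (v * z)
  rw [← mul_assoc, hv, hs0] at h2
  rcases mul_eq_zero.1 h2 with h3 | h3
  · exact hm h3
  · exact hz h3

end Pool.SC
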