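import Pool.Agent.Work.MP_03d391_sc.Interface

/-!
# Block DUA: the dual basis (helper95)
-/

set_option autoImplicit false

noncomputable section

open MvPolynomial TensorProduct

namespace Pool.SC

namespace DUA

variable {k : Type} [Field k]

/-- a polynomial without monomials of degrees `≤ N` in both variables is in
`(X 0 ^ (N + 1), X 1 ^ (N + 1))` -/
theorem split (N : ℕ) (g : Lam k) (h : ∀ m : Fin 2 →₀ ℕ, m 0 ≤ N → m 1 ≤ N → coeff m g = 0) :
    ∃ a b : Lam k, g = X 0 ^ (N + 1) * a + X 1 ^ (N + 1) * b := by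
  have h1 : g ∈ Ideal.span ({X 0 ^ (N + 1), X 1 ^ (N + 1)} : Set (Lam k)) := by
    rw [g.as_sum]
    refine Ideal.sum_mem _ (fun m hm => ?_)
    rw [mem_support_iff] at hm
    have h2 : N + 1 ≤ m 0 ∨ N + 1 ≤ m 1 := by
      by_contra hc
      rw [not_or] at hc
      exact hm (h m (by omega) (by omega))
    rcases h2 with h2 | h2
    · refine Ideal.mem_of_dvd _ ?_ (Ideal.subset_span (Set.mem_insert _ _))
      rw [X_pow_eq_monomial, monomial_dvd_monomial]
      refine ⟨Or.inr ?_, one_dvd _⟩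
      rw [Finsupp.single_le_iff]
      exact h2
    · refine Ideal.mem_of_dvd _ ?_ (Ideal.subset_span (Set.mem_insert_of_mem _ rfl))
      rw [X_pow_eq_monomial, monomial_dvd_monomial]
      refine ⟨Or.inr ?_, one_dvd _⟩
      rw [Finsupp.single_le_iff]
      exact h2
  obtain ⟨a, b, hab⟩ := Ideal.mem_span_pair.1 h1
  exact ⟨a, b, by rw [← hab]; ring⟩

end DUA

theorem p_DUA : Stmt_DUA := by
  intro k _ E _ θ s0 hs0 r b hb hdet v N hv
  have e0 : emb k (X 0) = X 0 := by
    show rename _ (X 0) = X 0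
    rw [rename_X]; rfl
  have e1 : emb k (X 1) = X 1 := by
    show rename _ (X 1) = X 1
    rw [rename_X]; rfl
  -- the functions g i
  have hg : ∀ i, ∃ a c : Lam k, s0 (b i * v) = X 0 ^ (N + 1) * a + X 1 ^ (N + 1) * c := by
    intro i
    refine DUA.split N _ (fun m h0 h1 => ?_)
    have h2 := hv (θ (emb k (X 0 ^ (N - m 0) * X 1 ^ (N - m 1))) * b i)
    rw [mul_assoc, hs0, mul_assoc] at h2
    rw [X_pow_eq_monomial, X_pow_eq_monomial] at h2
    have h3 : Finsupp.single (0 : Fin 2) N + Finsupp.single 1 N =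
        Finsupp.single 0 (N - m 0) + (Finsupp.single 1 (N - m 1) + m) := by
      ext j
      fin_cases j
      · simp
        omega
      · simp
        omega
    rw [h3, coeff_monomial_mul, coeff_monomial_mul, one_mul, one_mul] at h2
    exact h2
  choose a c hac using hg
  -- the coordinates of `v`
  obtain ⟨l, hl⟩ := hb.span v
  have hgl : ∀ i, ∑ j, gram s0 b i j * l j = s0 (b i * v) := by
    intro i
    conv_rhs => rw [hl, Finset.mul_sum, map_sum]
    refine Finset.sum_congr rfl (fun j _ => ?_)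
    rw [mul_left_comm, hs0, mul_comm]
    rfl
  have hmv : (gram s0 b).mulVec l = fun i => s0 (b i * v) := by
    funext i
    exact hgl i
  have hl2 : l = (gram s0 b)⁻¹.mulVec (fun i => s0 (b i * v)) := by
    rw [← hmv, Matrix.mulVec_mulVec, Matrix.nonsing_inv_mul _ hdet, Matrix.one_mulVec]
  have hl3 : ∀ i, l i = X 0 ^ (N + 1) * ((gram s0 b)⁻¹.mulVec a i) +
      X 1 ^ (N + 1) * ((gram s0 b)⁻¹.mulVec c i) := by
    intro i
    conv_lhs => rw [hl2]
    simp only [Matrix.mulVec, dotProduct]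
    rw [Finset.mul_sum, Finset.mul_sum, ← Finset.sum_add_distrib]
    refine Finset.sum_congr rfl (fun j _ => ?_)
    rw [hac j]
    ring
  refine ⟨∑ i, θ (emb k ((gram s0 b)⁻¹.mulVec a i)) * b i,
    ∑ i, θ (emb k ((gram s0 b)⁻¹.mulVec c i)) * b i, ?_⟩
  conv_lhs => rw [hl]
  rw [Finset.mul_sum, Finset.mul_sum, ← Finset.sum_add_distrib]
  refine Finset.sum_congr rfl (fun i _ => ?_)
  conv_lhs => rw [hl3 i]
  rw [map_add, map_add, map_mul, map_mul, map_mul, map_mul, map_pow, map_pow, map_pow, map_pow,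
    e0, e1]
  ring

end Pool.SC
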