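import Pool.Agent.Work.MP_03d391_sc.Interface2

/-! Block END (helper64). -/

set_option autoImplicit false

noncomputable section

open MvPolynomial TensorProduct

namespace Pool.SC

namespace END

/-- The form `v ⊗ w ↦ ℓ(v) ℓ(w)`. -/
def tau {Λ B κ' : Type} [CommRing Λ] [CommRing B] [Algebra Λ B] [CommRing κ'] [Algebra Λ κ']
    (l : B →ₗ[Λ] κ') : B ⊗[Λ] B →ₗ[Λ] κ' :=
  LinearMap.mul' Λ κ' ∘ₗ TensorProduct.map l l

theorem tau_tmul {Λ B κ' : Type} [CommRing Λ] [CommRing B] [Algebra Λ B] [CommRing κ']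
    [Algebra Λ κ'] (l : B →ₗ[Λ] κ') (v w : B) : tau l (v ⊗ₜ[Λ] w) = l v * l w := by
  simp [tau]

theorem tau_kill {Λ B κ' : Type} [CommRing Λ] [CommRing B] [Algebra Λ B] [CommRing κ']
    [Algebra Λ κ'] (l : B →ₗ[Λ] κ') (J : Ideal B) (hJ : ∀ j ∈ J, l j = 0) (x : B) (hx : x ∈ J)
    (s : B ⊗[Λ] B) : tau l (s * (x ⊗ₜ[Λ] (1 : B) - (1 : B) ⊗ₜ[Λ] x)) = 0 := by
  induction s using TensorProduct.induction_on with
  | zero => rw [zero_mul, map_zero]
  | tmul v w =>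
    rw [mul_sub, Algebra.TensorProduct.tmul_mul_tmul, Algebra.TensorProduct.tmul_mul_tmul, map_sub,
      tau_tmul, tau_tmul, hJ _ (J.mul_mem_left v hx), hJ _ (J.mul_mem_left w hx), zero_mul,
      mul_zero, sub_zero]
  | add a b ha hb => rw [add_mul, map_add, ha, hb, add_zero]

theorem core {Λ B κ' : Type} [CommRing Λ] [CommRing B] [Algebra Λ B] [Field κ']
    [Algebra Λ κ'] (h2 : (2 : κ') ≠ 0) (l : B →ₗ[Λ] κ') (J : Ideal B) (hJ : ∀ j ∈ J, l j = 0)
    (h1 : l 1 = 0) (x y : B) (hx : x ∈ J) (hy : y ∈ J) (u : B)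
    (hu : (u ⊗ₜ[Λ] (1 : B) - (1 : B) ⊗ₜ[Λ] u) ^ 2 ∈
      Ideal.span {x ⊗ₜ[Λ] (1 : B) - (1 : B) ⊗ₜ[Λ] x, y ⊗ₜ[Λ] (1 : B) - (1 : B) ⊗ₜ[Λ] y}) :
    l u = 0 := by
  rw [Ideal.mem_span_pair] at hu
  obtain ⟨s, t, hst⟩ := hu
  have h3 : tau l ((u ⊗ₜ[Λ] (1 : B) - (1 : B) ⊗ₜ[Λ] u) ^ 2) = 0 := by
    rw [← hst, map_add, tau_kill l J hJ x hx, tau_kill l J hJ y hy, add_zero]
  have h4 : (u ⊗ₜ[Λ] (1 : B) - (1 : B) ⊗ₜ[Λ] u) ^ 2 =
      (u * u) ⊗ₜ[Λ] (1 : B) - (u ⊗ₜ[Λ] u + u ⊗ₜ[Λ] u) + (1 : B) ⊗ₜ[Λ] (u * u) := by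
    rw [sq, sub_mul, mul_sub, mul_sub]
    simp only [Algebra.TensorProduct.tmul_mul_tmul, one_mul, mul_one]
    abel
  rw [h4, map_add, map_sub, map_add, tau_tmul, tau_tmul, tau_tmul, h1] at h3
  have h5 : (2 : κ') * (l u * l u) = 0 := by linear_combination -h3
  rcases mul_eq_zero.1 h5 with h | h
  · exact absurd h h2
  · exact mul_self_eq_zero.1 h

end END

theorem p_END : Stmt_END := by
  intro Λ B k _ _ _ _ ε hε h2 x y J hx hy hJ u hu
  let W : Submodule Λ B :=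
    { carrier := {z | ∃ a : Λ, z - algebraMap Λ B a ∈ J}
      add_mem' := by
        rintro z w ⟨a, ha⟩ ⟨b, hb⟩
        refine ⟨a + b, ?_⟩
        have h := J.add_mem ha hb
        have e : z + w - algebraMap Λ B (a + b) =
            z - algebraMap Λ B a + (w - algebraMap Λ B b) := by
          rw [map_add]
          ring
        rwa [e]
      zero_mem' := ⟨0, by simp⟩
      smul_mem' := by
        rintro c z ⟨a, ha⟩
        refine ⟨c * a, ?_⟩
        have h := J.mul_mem_left (algebraMap Λ B c) ha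
        have e : c • z - algebraMap Λ B (c * a) =
            algebraMap Λ B c * (z - algebraMap Λ B a) := by
          rw [map_mul, Algebra.smul_def]
          ring
        rwa [e] }
  by_contra hcon
  have hmax : (RingHom.ker ε).IsMaximal := RingHom.ker_isMaximal_of_surjective ε hε
  letI : Field (Λ ⧸ RingHom.ker ε) := Ideal.Quotient.field _
  have htor : Module.IsTorsionBySet Λ (B ⧸ W) (RingHom.ker ε : Set Λ) := by
    intro z a
    obtain ⟨v, rfl⟩ := Submodule.Quotient.mk_surjective W z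
    have ha : ε (a : Λ) = 0 := a.2
    have h : (a : Λ) • v ∈ W := by
      refine ⟨0, ?_⟩
      rw [map_zero, sub_zero, Algebra.smul_def]
      exact J.mul_mem_right v (hJ _ ha)
    rw [← Submodule.Quotient.mk_smul]
    exact (Submodule.Quotient.mk_eq_zero W).2 h
  letI : Module (Λ ⧸ RingHom.ker ε) (B ⧸ W) := htor.module
  haveI : IsScalarTower Λ (Λ ⧸ RingHom.ker ε) (B ⧸ W) := htor.isScalarTower
  have hune : (Submodule.Quotient.mk u : B ⧸ W) ≠ 0 := by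
    intro h
    exact hcon ((Submodule.Quotient.mk_eq_zero W).1 h)
  have hφ : ∃ φ : (B ⧸ W) →ₗ[Λ ⧸ RingHom.ker ε] (Λ ⧸ RingHom.ker ε),
      φ (Submodule.Quotient.mk u) ≠ 0 := by
    by_contra hall
    push Not at hall
    exact hune ((Module.forall_dual_apply_eq_zero_iff (Λ ⧸ RingHom.ker ε) _).1 hall)
  obtain ⟨φ, hφ⟩ := hφ
  let l : B →ₗ[Λ] (Λ ⧸ RingHom.ker ε) := (φ.restrictScalars Λ) ∘ₗ W.mkQ
  have hlW : ∀ z ∈ W, l z = 0 := by
    intro z hz
    change φ (W.mkQ z) = 0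
    have : W.mkQ z = 0 := (Submodule.Quotient.mk_eq_zero W).2 hz
    rw [this, map_zero]
  have h2' : (2 : Λ ⧸ RingHom.ker ε) ≠ 0 := by
    intro h
    apply h2
    have h3 := congrArg (RingHom.kerLift ε) h
    rw [map_ofNat, map_zero] at h3
    exact h3
  exact hφ (END.core h2' l J (fun j hj => hlW j ⟨0, by simpa using hj⟩) (hlW 1 ⟨1, by simp⟩) x y
    hx hy u hu)

end Pool.SC
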