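import Pool.Agent.Work.MP_03d391_sc.Interface

/-!
# Block EXT: extension of a functional to the section ring (helper95)
-/

set_option autoImplicit false

noncomputable section

open MvPolynomial TensorProduct

namespace Pool.SC

namespace EXT

variable {R : Type} [CommRing R]

theorem reg (N : ℕ) {p q : Lam R} (h : X 0 ^ N * p = X 0 ^ N * q) : p = q := by
  have h1 : IsRegular (X (0 : Fin 2) ^ N : Lam R) := isRegular_X_pow N
  exact h1.left h

/-- divisibility by a power of `X 0` through the coefficients -/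
theorem dvd_iff (N : ℕ) (p : Lam R) :
    X 0 ^ N ∣ p ↔ ∀ m : Fin 2 →₀ ℕ, m 0 < N → coeff m p = 0 := by
  constructor
  · rintro ⟨q, rfl⟩ m hm
    rw [X_pow_eq_monomial, coeff_monomial_mul', if_neg]
    intro hle
    have := hle 0
    rw [Finsupp.single_eq_same] at this
    omega
  · intro h
    rw [X_pow_eq_monomial]
    rw [monomial_one_dvd_iff_modMonomial_eq_zero]
    ext m
    rw [coeff_zero]
    by_cases hle : Finsupp.single 0 N ≤ m
    · exact coeff_modMonomial_of_le _ hle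
    · rw [coeff_modMonomial_of_not_le _ hle]
      refine h m ?_
      by_contra hc
      refine hle ?_
      rw [Finsupp.single_le_iff]
      omega

theorem dvd_of_dvd_mul (N M : ℕ) {p : Lam R} (h : X 0 ^ N ∣ X 1 ^ M * p) : X 0 ^ N ∣ p := by
  rw [dvd_iff] at h ⊢
  intro m hm
  have h1 := h (m + Finsupp.single 1 M) (by
    rw [Finsupp.add_apply, Finsupp.single_apply]
    simpa using hm)
  rwa [X_pow_eq_monomial, add_comm m, coeff_monomial_mul, one_mul] at h1

end EXT

theorem p_EXT : Stmt_EXT := by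
  intro R E _ _ θ s hs hs0 hE
  have e0 : emb R (X 0) = X 0 := by
    show rename _ (X 0) = X 0
    rw [rename_X]; rfl
  have e1 : emb R (X 1) = X 1 := by
    show rename _ (X 1) = X 1
    rw [rename_X]; rfl
  have s0 : ∀ (N : ℕ) (f : Pol R), s (X 0 ^ N * f) = X 0 ^ N * s f := by
    intro N f
    rw [← hs, map_pow, e0]
  have s1 : ∀ (N : ℕ) (f : Pol R), s (X 1 ^ N * f) = X 1 ^ N * s f := by
    intro N f
    rw [← hs, map_pow, e1]
  have key : ∀ f g : Pol R, θ f = θ g → s f = s g := by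
    intro f g h
    have : s (f - g) = 0 := hs0 _ (by rw [map_sub, h, sub_self])
    rw [map_sub] at this
    exact sub_eq_zero.1 this
  -- the value
  have hex : ∀ z : E, ∃ p : Lam R, ∃ (N : ℕ) (f : Pol R), θ (X 0) ^ N * z = θ f ∧
      X 0 ^ N * p = s f := by
    intro z
    obtain ⟨N, f, g, hf, hg⟩ := hE z
    have h1 : θ (X 1 ^ N * f) = θ (X 0 ^ N * g) := by
      rw [map_mul, map_mul, map_pow, map_pow, ← hf, ← hg]
      ring
    have h2 := key _ _ h1
    rw [s0, s1] at h2
    obtain ⟨p, hp⟩ := EXT.dvd_of_dvd_mul N N (p := s f) ⟨s g, h2⟩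
    exact ⟨p, N, f, hf, hp.symm⟩
  have huniq : ∀ (z : E) (N M : ℕ) (f g : Pol R) (p q : Lam R), θ (X 0) ^ N * z = θ f →
      X 0 ^ N * p = s f → θ (X 0) ^ M * z = θ g → X 0 ^ M * q = s g → p = q := by
    intro z N M f g p q hf hp hg hq
    have h1 : θ (X 0 ^ M * f) = θ (X 0 ^ N * g) := by
      rw [map_mul, map_mul, map_pow, map_pow, ← hf, ← hg]
      ring
    have h2 := key _ _ h1
    rw [s0, s0, ← hp, ← hq] at h2
    refine EXT.reg (N + M) ?_
    rw [pow_add]
    calc X 0 ^ N * X 0 ^ M * p = X 0 ^ M * (X 0 ^ N * p) := by ring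
      _ = X 0 ^ N * (X 0 ^ M * q) := h2
      _ = X 0 ^ N * X 0 ^ M * q := by ring
  choose v vN vf hv1 hv2 using hex
  refine ⟨AddMonoidHom.mk' v ?_, ?_, ?_⟩
  · intro x y
    refine huniq (x + y) (vN (x + y)) (vN x + vN y) (vf (x + y))
      (X 0 ^ vN y * vf x + X 0 ^ vN x * vf y) _ _ (hv1 _) (hv2 _) ?_ ?_
    · rw [map_add, map_mul, map_mul, ← hv1 x, ← hv1 y, map_pow, map_pow]
      ring
    · rw [map_add, s0, s0, ← hv2 x, ← hv2 y]
      ring
  · intro f
    rw [AddMonoidHom.mk'_apply]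
    refine huniq (θ f) (vN (θ f)) 0 (vf (θ f)) f _ _ (hv1 _) (hv2 _) ?_ ?_
    · rw [pow_zero, one_mul]
    · rw [pow_zero, one_mul]
  · intro l z
    rw [AddMonoidHom.mk'_apply]
    refine huniq (θ (emb R l) * z) _ (vN z) _ (emb R l * vf z) _ _ (hv1 _) (hv2 _) ?_ ?_
    · rw [map_mul, ← hv1 z]
      ring
    · rw [hs, ← hv2 z]
      ring

end Pool.SC
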