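import Pool.Agent.Work.MP_03d391_sc.Interface

/-! # Block FGN: the quotient is finite over `R[x_0,x_1]`, in a homogeneous way -/

set_option autoImplicit false

noncomputable section

open MvPolynomial TensorProduct

namespace Pool.SC

namespace FGN

section gen

variable {ι R : Type} [CommRing R]

theorem hz_zero (n : ℤ) : HZ n (0 : MvPolynomial ι R) := Or.inl rfl

theorem hz_nat {m : ℕ} {p : MvPolynomial ι R} : HZ (m : ℤ) p ↔ p.IsHomogeneous m := by
  constructor
  · rintro (rfl | ⟨k, hk, hp⟩)
    · exact isHomogeneous_zero _ _ _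
    · have : k = m := by exact_mod_cast hk
      rwa [this] at hp
  · intro h
    exact Or.inr ⟨m, rfl, h⟩

theorem hz_neg {n : ℤ} {p : MvPolynomial ι R} (h : HZ n p) (hn : n < 0) : p = 0 := by
  rcases h with h | ⟨k, hk, -⟩
  · exact h
  · omega

theorem hz_add {n : ℤ} {p q : MvPolynomial ι R} (hp : HZ n p) (hq : HZ n q) : HZ n (p + q) := by
  rcases lt_or_ge n 0 with hn | hn
  · rw [hz_neg hp hn, hz_neg hq hn, add_zero]
    exact hz_zero n
  · obtain ⟨m, rfl⟩ := Int.eq_ofNat_of_zero_le hn
    exact hz_nat.2 ((hz_nat.1 hp).add (hz_nat.1 hq))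

theorem hz_mul {n m : ℤ} {p q : MvPolynomial ι R} (hp : HZ n p) (hq : HZ m q) :
    HZ (n + m) (p * q) := by
  rcases hp with rfl | ⟨k, hk, hp⟩
  · rw [zero_mul]
    exact hz_zero _
  rcases hq with rfl | ⟨l, hl, hq⟩
  · rw [mul_zero]
    exact hz_zero _
  · exact Or.inr ⟨k + l, by push_cast; rw [hk, hl], hp.mul hq⟩

/-- The components of a product with a form. -/
theorem hc_mul (p q : MvPolynomial ι R) (m k : ℕ) (hq : q.IsHomogeneous m) :
    homogeneousComponent k (p * q) =
      if m ≤ k then homogeneousComponent (k - m) p * q else 0 := by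
  conv_lhs => rw [← sum_homogeneousComponent p, Finset.sum_mul, map_sum]
  have h1 : ∀ i ∈ Finset.range (p.totalDegree + 1),
      homogeneousComponent k (homogeneousComponent i p * q) =
        if i + m = k then homogeneousComponent i p * q else 0 := by
    intro i _
    rw [homogeneousComponent_of_mem (m := k) (n := i + m)]
    · simp only [eq_comm]
    · exact (homogeneousComponent_isHomogeneous i p).mul hq
  rw [Finset.sum_congr rfl h1]
  split_ifs with h
  · have h2 : ∀ i ∈ Finset.range (p.totalDegree + 1),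
        (if i + m = k then homogeneousComponent i p * q else 0) =
          if i = k - m then homogeneousComponent i p * q else 0 := by
      intro i _
      have : i + m = k ↔ i = k - m := by omega
      simp only [this]
    rw [Finset.sum_congr rfl h2, Finset.sum_ite_eq']
    split_ifs with h3
    · rfl
    · rw [homogeneousComponent_eq_zero, zero_mul]
      rw [Finset.mem_range] at h3
      omega
  · refine Finset.sum_eq_zero fun i _ => ?_
    rw [if_neg (by omega)]

end gen

variable {R : Type} [CommRing R]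

theorem comp (I : Ideal (Pol R)) (N : ℕ) (hI : HomI I) (j : Fin 4)
    (h : (X j : Pol R) ^ N ∈ I ⊔ Ideal.span {X 0, X 1}) :
    ∃ p ∈ I, ∃ u v : Pol R, HZ ((N : ℤ) - 1) u ∧ HZ ((N : ℤ) - 1) v ∧
      X j ^ N = p + X 0 * u + X 1 * v := by
  obtain ⟨p0, hp0, q0, hq0, h1⟩ := Submodule.mem_sup.1 h
  obtain ⟨a, b, hab⟩ := Ideal.mem_span_pair.1 hq0
  rw [← hab] at h1
  have h2 := congrArg (homogeneousComponent N) h1
  have hX : ((X j : Pol R) ^ N).IsHomogeneous N := isHomogeneous_X_pow j N
  rw [map_add, map_add, hc_mul _ _ 1 N (isHomogeneous_X _ _), hc_mul _ _ 1 N (isHomogeneous_X _ _),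
    homogeneousComponent_eq_self hX] at h2
  rcases Nat.eq_zero_or_pos N with rfl | hN
  · refine ⟨homogeneousComponent 0 p0, hI _ hp0 0, 0, 0, hz_zero _, hz_zero _, ?_⟩
    rw [← h2]
    simp
  · refine ⟨homogeneousComponent N p0, hI _ hp0 N, homogeneousComponent (N - 1) a,
      homogeneousComponent (N - 1) b, ?_, ?_, ?_⟩
    · have h3 : ((N : ℤ) - 1) = ((N - 1 : ℕ) : ℤ) := by omega
      rw [h3]
      exact hz_nat.2 (homogeneousComponent_isHomogeneous _ _)
    · have h3 : ((N : ℤ) - 1) = ((N - 1 : ℕ) : ℤ) := by omega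
      rw [h3]
      exact hz_nat.2 (homogeneousComponent_isHomogeneous _ _)
    · have h1N : 1 ≤ N := hN
      rw [← h2, if_pos h1N, if_pos h1N]
      ring

/-- The property to be proved. -/
def Q (I : Ideal (Pol R)) (N : ℕ) (n : ℤ) (f : Pol R) : Prop :=
  ∃ g : Fin N → Fin N → Lam R, (∀ i j : Fin N, HZ (n - (i : ℕ) - (j : ℕ)) (g i j)) ∧
    f - ∑ i : Fin N, ∑ j : Fin N, emb R (g i j) * (X 2 ^ (i : ℕ) * X 3 ^ (j : ℕ)) ∈ I

theorem Q_mem {I : Ideal (Pol R)} {N : ℕ} {n : ℤ} {f : Pol R} (h : f ∈ I) : Q I N n f := by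
  refine ⟨fun _ _ => 0, fun _ _ => hz_zero _, ?_⟩
  simpa using h

theorem Q_add {I : Ideal (Pol R)} {N : ℕ} {n : ℤ} {f f' : Pol R} (h : Q I N n f)
    (h' : Q I N n f') : Q I N n (f + f') := by
  obtain ⟨g, h1, h2⟩ := h
  obtain ⟨g', h1', h2'⟩ := h'
  refine ⟨fun i j => g i j + g' i j, fun i j => hz_add (h1 i j) (h1' i j), ?_⟩
  have h3 := I.add_mem h2 h2'
  have h4 : f + f' - ∑ i : Fin N, ∑ j : Fin N, emb R (g i j + g' i j) *
      (X 2 ^ (i : ℕ) * X 3 ^ (j : ℕ)) =
      (f - ∑ i : Fin N, ∑ j : Fin N, emb R (g i j) * (X 2 ^ (i : ℕ) * X 3 ^ (j : ℕ))) +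
      (f' - ∑ i : Fin N, ∑ j : Fin N, emb R (g' i j) * (X 2 ^ (i : ℕ) * X 3 ^ (j : ℕ))) := by
    simp only [map_add, add_mul, Finset.sum_add_distrib]
    ring
  rw [h4]
  exact h3

theorem Q_mul {I : Ideal (Pol R)} {N : ℕ} {n : ℤ} {f : Pol R} (l : Lam R) (hl : HZ 1 l)
    (h : Q I N n f) : Q I N (n + 1) (emb R l * f) := by
  obtain ⟨g, h1, h2⟩ := h
  refine ⟨fun i j => l * g i j, fun i j => ?_, ?_⟩
  · have := hz_mul hl (h1 i j)
    have e : n + 1 - (i : ℕ) - (j : ℕ) = 1 + (n - (i : ℕ) - (j : ℕ)) := by ring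
    rw [e]
    exact this
  · have h3 := I.mul_mem_left (emb R l) h2
    have h4 : emb R l * f - ∑ i : Fin N, ∑ j : Fin N, emb R (l * g i j) *
        (X 2 ^ (i : ℕ) * X 3 ^ (j : ℕ)) = emb R l * (f - ∑ i : Fin N, ∑ j : Fin N,
        emb R (g i j) * (X 2 ^ (i : ℕ) * X 3 ^ (j : ℕ))) := by
      simp only [map_mul, mul_sub, Finset.mul_sum, mul_assoc]
    rw [h4]
    exact h3

theorem emb_X0 : emb R (X 0) = X 0 := by
  simp [emb]

theorem emb_X1 : emb R (X 1) = X 1 := by
  simp [emb]

theorem emb_C (r : R) : emb R (C r) = C r := by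
  simp [emb]

/-- Every form is a sum of monomials. -/
theorem hom_ind (k : ℕ) (Pr : Pol R → Prop) (h0 : Pr 0) (hadd : ∀ f g, Pr f → Pr g → Pr (f + g))
    (hmon : ∀ (r : R) (a b c e : ℕ), a + b + c + e = k →
      Pr (C r * (X 0 ^ a * X 1 ^ b * X 2 ^ c * X 3 ^ e))) (f : Pol R) (hf : f.IsHomogeneous k) :
    Pr f := by
  rw [← support_sum_monomial_coeff f]
  refine Finset.sum_induction _ Pr (fun a b => hadd a b) h0 fun d hd => ?_
  have hk : d.degree = k := by
    by_contra h
    exact (mem_support_iff.1 hd) (hf.coeff_eq_zero h)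
  have h1 : monomial d (coeff d f) = C (coeff d f) *
      (X 0 ^ (d 0) * X 1 ^ (d 1) * X 2 ^ (d 2) * X 3 ^ (d 3)) := by
    rw [monomial_eq, Finsupp.prod_fintype _ _ (fun i => pow_zero _), Fin.prod_univ_four]
  rw [h1]
  apply hmon
  rw [← hk, Finsupp.degree_eq_sum, Fin.sum_univ_four]

end FGN

open FGN in
theorem p_FGN : Stmt_FGN := by
  intro R _ I N hI h2 h3
  obtain ⟨p2, hp2, u2, v2, hu2, hv2, e2⟩ := comp I N hI 2 h2
  obtain ⟨p3, hp3, u3, v3, hu3, hv3, e3⟩ := comp I N hI 3 h3
  have hX0 : HZ 1 (X 0 : Lam R) := hz_nat.2 (isHomogeneous_X _ _)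
  have hX1 : HZ 1 (X 1 : Lam R) := hz_nat.2 (isHomogeneous_X _ _)
  have key : ∀ (k : ℕ) (n : ℤ), n < k → ∀ f : Pol R, HZ n f → Q I N n f := by
    intro k
    induction k with
    | zero =>
      intro n hn f hf
      rw [hz_neg hf (by simpa using hn)]
      exact Q_mem I.zero_mem
    | succ k ih =>
      intro n hn f hf
      rcases lt_or_ge n k with hnk | hnk
      · exact ih n hnk f hf
      have hn' : n = (k : ℤ) := by push_cast at hn; omega
      subst hn'
      -- the reduction step
      have step : ∀ (p u v m : Pol R), p ∈ I → HZ ((N : ℤ) - 1) u → HZ ((N : ℤ) - 1) v →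
          HZ ((k : ℤ) - N) m → Q I N k ((p + X 0 * u + X 1 * v) * m) := by
        intro p u v m hp hu hv hm
        have q1 : Q I N ((k : ℤ) - 1) (u * m) := by
          refine ih _ (by omega) _ ?_
          have := hz_mul hu hm
          have e : (N : ℤ) - 1 + (k - N) = k - 1 := by ring
          rwa [e] at this
        have q2 : Q I N ((k : ℤ) - 1) (v * m) := by
          refine ih _ (by omega) _ ?_
          have := hz_mul hv hm
          have e : (N : ℤ) - 1 + (k - N) = k - 1 := by ring
          rwa [e] at this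
        have q3 := Q_mul (X 0) hX0 q1
        have q4 := Q_mul (X 1) hX1 q2
        rw [emb_X0, sub_add_cancel] at q3
        rw [emb_X1, sub_add_cancel] at q4
        have q5 := Q_add (Q_add (Q_mem (N := N) (n := (k : ℤ)) (I.mul_mem_right m hp)) q3) q4
        have e : (p + X 0 * u + X 1 * v) * m = p * m + X 0 * (u * m) + X 1 * (v * m) := by ring
        rw [e]
        exact q5
      refine hom_ind k (Q I N k) (Q_mem I.zero_mem) (fun f g => Q_add) ?_ f (hz_nat.1 hf)
      intro r a b c e habce
      have hmon : ∀ a b c e : ℕ, (C r * (X 0 ^ a * X 1 ^ b * X 2 ^ c * X 3 ^ e) :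
          Pol R).IsHomogeneous (a + b + c + e) := by
        intro a b c e
        have := (isHomogeneous_C (Fin 4) r).mul ((((isHomogeneous_X_pow (R := R) (0 : Fin 4) a).mul
          (isHomogeneous_X_pow (R := R) (1 : Fin 4) b)).mul
          (isHomogeneous_X_pow (R := R) (2 : Fin 4) c)).mul
          (isHomogeneous_X_pow (R := R) (3 : Fin 4) e))
        rwa [zero_add] at this
      rcases lt_or_ge c N with hc | hc
      · rcases lt_or_ge e N with he | he
        · refine ⟨fun i j => if i = ⟨c, hc⟩ ∧ j = ⟨e, he⟩ then C r * (X 0 ^ a * X 1 ^ b) else 0,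
            ?_, ?_⟩
          · intro i j
            dsimp only
            split_ifs with hij
            · obtain ⟨rfl, rfl⟩ := hij
              have h5 : ((k : ℤ) - ((⟨c, hc⟩ : Fin N) : ℕ) - ((⟨e, he⟩ : Fin N) : ℕ)) =
                  ((a + b : ℕ) : ℤ) := by
                push_cast
                omega
              rw [h5]
              refine hz_nat.2 ?_
              have := (isHomogeneous_C (Fin 2) r).mul
                ((isHomogeneous_X_pow (R := R) (0 : Fin 2) a).mul
                (isHomogeneous_X_pow (R := R) (1 : Fin 2) b))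
              rwa [zero_add] at this
            · exact hz_zero _
          · have h6 : ∑ i : Fin N, ∑ j : Fin N, emb R
                (if i = ⟨c, hc⟩ ∧ j = ⟨e, he⟩ then C r * (X 0 ^ a * X 1 ^ b) else 0) *
                (X 2 ^ (i : ℕ) * X 3 ^ (j : ℕ)) =
                C r * (X 0 ^ a * X 1 ^ b * X 2 ^ c * X 3 ^ e) := by
              rw [Finset.sum_eq_single (⟨c, hc⟩ : Fin N), Finset.sum_eq_single (⟨e, he⟩ : Fin N)]
              · rw [if_pos ⟨rfl, rfl⟩, map_mul, map_mul, map_pow, map_pow, emb_X0, emb_X1, emb_C]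
                ring
              · intro j _ hj
                rw [if_neg (fun h => hj h.2), map_zero, zero_mul]
              · intro h
                exact absurd (Finset.mem_univ _) h
              · intro i _ hi
                refine Finset.sum_eq_zero fun j _ => ?_
                rw [if_neg (fun h => hi h.1), map_zero, zero_mul]
              · intro h
                exact absurd (Finset.mem_univ _) h
            rw [h6, sub_self]
            exact I.zero_mem
        · have h7 : (C r * (X 0 ^ a * X 1 ^ b * X 2 ^ c * X 3 ^ e) : Pol R) =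
              (p3 + X 0 * u3 + X 1 * v3) *
                (C r * (X 0 ^ a * X 1 ^ b * X 2 ^ c * X 3 ^ (e - N))) := by
            rw [← e3]
            have : (X 3 : Pol R) ^ e = X 3 ^ N * X 3 ^ (e - N) := by
              rw [← pow_add]
              congr 1
              omega
            rw [this]
            ring
          rw [h7]
          refine step _ _ _ _ hp3 hu3 hv3 ?_
          have h8 : (k : ℤ) - N = ((a + b + c + (e - N) : ℕ) : ℤ) := by omega
          rw [h8]
          exact hz_nat.2 (hmon a b c (e - N))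
      · have h7 : (C r * (X 0 ^ a * X 1 ^ b * X 2 ^ c * X 3 ^ e) : Pol R) =
            (p2 + X 0 * u2 + X 1 * v2) *
              (C r * (X 0 ^ a * X 1 ^ b * X 2 ^ (c - N) * X 3 ^ e)) := by
          rw [← e2]
          have : (X 2 : Pol R) ^ c = X 2 ^ N * X 2 ^ (c - N) := by
            rw [← pow_add]
            congr 1
            omega
          rw [this]
          ring
        rw [h7]
        refine step _ _ _ _ hp2 hu2 hv2 ?_
        have h8 : (k : ℤ) - N = ((a + b + (c - N) + e : ℕ) : ℤ) := by omega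
        rw [h8]
        exact hz_nat.2 (hmon a b (c - N) e)
  intro n f hf
  exact key (n.toNat + 1) n (by omega) f hf

end Pool.SC
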