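import Pool.Agent.Work.MP_03d391_sc.Interface2

/-! # Block FNI -/

set_option autoImplicit false

noncomputable section

open MvPolynomial TensorProduct

namespace Pool.SC

namespace FNI

theorem step {B : Type} [CommRing B] (S : Subring B) {n : ℕ} (m : Fin n → B)
    (hm : ∀ i, m i ∈ S) (j : ℕ)
    (ih : ∀ x ∈ (Ideal.span (Set.range m)) ^ j, ∃ s ∈ S, x - s ∈ (Ideal.span (Set.range m)) ^ (j + 1)) :
    ∀ x ∈ (Ideal.span (Set.range m)) ^ (j + 1),
      ∃ s ∈ S, x - s ∈ (Ideal.span (Set.range m)) ^ (j + 2) := by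
  -- first the products
  have h1 : ∀ a ∈ Ideal.span (Set.range m), ∀ b ∈ (Ideal.span (Set.range m)) ^ j,
      ∃ s ∈ S, a * b - s ∈ (Ideal.span (Set.range m)) ^ (j + 2) := by
    intro a ha
    induction ha using Submodule.span_induction with
    | mem a ha =>
      obtain ⟨i, rfl⟩ := ha
      intro b hb
      obtain ⟨s, hs, hbs⟩ := ih b hb
      refine ⟨m i * s, S.mul_mem (hm i) hs, ?_⟩
      rw [← mul_sub, pow_succ' _ (j + 1)]
      exact Ideal.mul_mem_mul (Ideal.subset_span ⟨i, rfl⟩) hbs
    | zero =>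
      intro b _
      exact ⟨0, S.zero_mem, by simp⟩
    | add a a' _ _ h h' =>
      intro b hb
      obtain ⟨s, hs, h2⟩ := h b hb
      obtain ⟨s', hs', h2'⟩ := h' b hb
      refine ⟨s + s', S.add_mem hs hs', ?_⟩
      have : (a + a') * b - (s + s') = (a * b - s) + (a' * b - s') := by ring
      rw [this]
      exact Ideal.add_mem _ h2 h2'
    | smul c a _ h =>
      intro b hb
      obtain ⟨s, hs, h2⟩ := h (c * b) (Ideal.mul_mem_left _ _ hb)
      refine ⟨s, hs, ?_⟩
      have : c • a * b - s = a * (c * b) - s := by rw [smul_eq_mul]; ring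
      rw [this]
      exact h2
  intro x hx
  rw [pow_succ'] at hx
  induction hx using Submodule.mul_induction_on' with
  | mem_mul_mem a ha b hb => exact h1 a ha b hb
  | add x _ y _ h h' =>
    obtain ⟨s, hs, h2⟩ := h
    obtain ⟨s', hs', h2'⟩ := h'
    refine ⟨s + s', S.add_mem hs hs', ?_⟩
    have : x + y - (s + s') = (x - s) + (y - s') := by ring
    rw [this]
    exact Ideal.add_mem _ h2 h2'

end FNI

theorem p_FNI : Stmt_FNI := by
  intro B _ S n e m hm he hspan u
  set I := Ideal.span (Set.range m) with hI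
  have h0 : ∀ j : ℕ, ∀ x ∈ I ^ j, ∃ s ∈ S, x - s ∈ I ^ (j + 1) := by
    intro j
    induction j with
    | zero =>
      intro x _
      obtain ⟨s, hs, h⟩ := hspan x
      exact ⟨s, hs, by rwa [zero_add, pow_one]⟩
    | succ j ih => exact FNI.step S m hm j ih
  have h1 : ∀ j : ℕ, ∃ s ∈ S, u - s ∈ I ^ j := by
    intro j
    induction j with
    | zero => exact ⟨0, S.zero_mem, by simp⟩
    | succ j ih =>
      obtain ⟨s, hs, h⟩ := ih
      obtain ⟨s', hs', h'⟩ := h0 j _ h
      exact ⟨s + s', S.add_mem hs hs', by rwa [← sub_sub]⟩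
  -- a power of `I` is contained in the ideal of the `m i ^ e`
  set J := Ideal.span (Set.range fun i => m i ^ e) with hJ
  have h2 : I ≤ J.radical := by
    rw [hI, Ideal.span_le]
    rintro _ ⟨i, rfl⟩
    exact ⟨e, Ideal.subset_span ⟨i, rfl⟩⟩
  have h3 : I.FG := by
    rw [hI]
    exact Submodule.fg_span (Set.finite_range m)
  obtain ⟨N, hN⟩ := Ideal.exists_pow_le_of_le_radical_of_fg h2 h3
  have h4 : ∀ x ∈ J, x ∈ S := by
    intro x hx
    rw [hJ] at hx
    have h5 : ∀ c : B, c * x ∈ S := by
      induction hx using Submodule.span_induction with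
      | mem x hx =>
        obtain ⟨i, rfl⟩ := hx
        intro c
        rw [mul_comm]
        exact he i c
      | zero =>
        intro c
        rw [mul_zero]
        exact S.zero_mem
      | add x y _ _ hx hy =>
        intro c
        rw [mul_add]
        exact S.add_mem (hx c) (hy c)
      | smul a x _ hx =>
        intro c
        rw [smul_eq_mul, ← mul_assoc]
        exact hx (c * a)
    simpa using h5 1
  obtain ⟨s, hs, h⟩ := h1 N
  have := S.add_mem (h4 _ (hN h)) hs
  simpa using this

end Pool.SC
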