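import Pool.Agent.Work.MP_03d391_sc.Interface

/-! # Block GEN: the output of part A -/

set_option autoImplicit false

noncomputable section

open MvPolynomial TensorProduct

namespace Pool.SC

namespace GEN

section gen

variable {ι R : Type} [CommRing R]

theorem hz_zero (n : ℤ) : HZ n (0 : MvPolynomial ι R) := Or.inl rfl

theorem hz_nat {m : ℕ} {p : MvPolynomial ι R} : HZ (m : ℤ) p ↔ p.IsHomogeneous m := by
  constructor
  · rintro (rfl | ⟨k, hk, hp⟩)
    · exact isHomogeneous_zero _ _ _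
    · have : k = m := by exact_mod_cast hk
      rwa [this] at hp
  · intro h
    exact Or.inr ⟨m, rfl, h⟩

theorem hz_neg {n : ℤ} {p : MvPolynomial ι R} (h : HZ n p) (hn : n < 0) : p = 0 := by
  rcases h with h | ⟨k, hk, -⟩
  · exact h
  · omega

theorem hz_add {n : ℤ} {p q : MvPolynomial ι R} (hp : HZ n p) (hq : HZ n q) : HZ n (p + q) := by
  rcases lt_or_ge n 0 with hn | hn
  · rw [hz_neg hp hn, hz_neg hq hn, add_zero]
    exact hz_zero n
  · obtain ⟨m, rfl⟩ := Int.eq_ofNat_of_zero_le hn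
    exact hz_nat.2 ((hz_nat.1 hp).add (hz_nat.1 hq))

theorem hz_mul {n m : ℤ} {p q : MvPolynomial ι R} (hp : HZ n p) (hq : HZ m q) :
    HZ (n + m) (p * q) := by
  rcases hp with rfl | ⟨k, hk, hp⟩
  · rw [zero_mul]
    exact hz_zero _
  rcases hq with rfl | ⟨l, hl, hq⟩
  · rw [mul_zero]
    exact hz_zero _
  · exact Or.inr ⟨k + l, by push_cast; rw [hk, hl], hp.mul hq⟩

theorem hz_C (r : R) : HZ 0 (C r : MvPolynomial ι R) := by
  have := (hz_nat (m := 0) (p := (C r : MvPolynomial ι R))).2 (isHomogeneous_C ι r)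
  exact_mod_cast this

theorem hz_sum {α : Type*} (s : Finset α) (n : ℤ) (p : α → MvPolynomial ι R)
    (h : ∀ i ∈ s, HZ n (p i)) : HZ n (∑ i ∈ s, p i) :=
  Finset.sum_induction p (HZ n) (fun _ _ => hz_add) (hz_zero n) h

end gen

theorem hz_emb {R : Type} [CommRing R] {n : ℤ} {p : Lam R} (hp : HZ n p) : HZ n (emb R p) := by
  rcases hp with rfl | ⟨k, hk, hp⟩
  · rw [map_zero]
    exact hz_zero _
  · exact Or.inr ⟨k, hk, hp.rename_isHomogeneous⟩

variable {K : Type} [Field K]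

/-- Restriction to `x_0 = x_1 = 0`. -/
def rr (K : Type) [Field K] : Pol K →ₐ[K] Lam K := (res 2 K).comp (res 3 K)

theorem rr_apply (h : Pol K) : rr K h = res 2 K (res 3 K h) := rfl

theorem rr_emb (l : Lam K) : rr K (emb K l) = C (constantCoeff l) := by
  have h : ((rr K : Pol K →+* Lam K).comp (emb K)) = C.comp constantCoeff := by
    apply MvPolynomial.ringHom_ext
    · intro r
      simp [emb, rr, res]
    · intro i
      fin_cases i
      · simp [emb, rr, res]
      · have h1 : emb K (X 1) = X 1 := by simp [emb]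
        have h2 : res 3 K (X 1) = X 0 := by
          have : (1 : Fin 4) = Fin.succ 0 := rfl
          rw [res, aeval_X, this]
          rfl
        have h3 : res 2 K (X 0) = 0 := by
          rw [res, aeval_X]
          rfl
        change rr K (emb K (X 1)) = C (constantCoeff (X 1))
        rw [h1, rr_apply, h2, h3, constantCoeff_X, map_zero]
  exact congrArg (fun φ : Lam K →+* Lam K => φ l) h

/-- Every polynomial is a sum of forms: spanning. -/
theorem span (hFGN : Stmt_FGN) (I : Ideal (Pol K)) (N : ℕ) (hI : HomI I)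
    (h2 : X 2 ^ N ∈ I ⊔ Ideal.span {X 0, X 1}) (h3 : X 3 ^ N ∈ I ⊔ Ideal.span {X 0, X 1})
    (f : Pol K) : ∃ g : Fin N → Fin N → Lam K,
      f - ∑ i : Fin N, ∑ j : Fin N, emb K (g i j) * (X 2 ^ (i : ℕ) * X 3 ^ (j : ℕ)) ∈ I := by
  rw [← sum_homogeneousComponent f]
  refine Finset.sum_induction _ (fun f => ∃ g : Fin N → Fin N → Lam K,
      f - ∑ i : Fin N, ∑ j : Fin N, emb K (g i j) * (X 2 ^ (i : ℕ) * X 3 ^ (j : ℕ)) ∈ I)
      ?_ ?_ ?_
  · rintro f f' ⟨g, hg⟩ ⟨g', hg'⟩
    refine ⟨fun i j => g i j + g' i j, ?_⟩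
    have h5 := I.add_mem hg hg'
    have h4 : f + f' - ∑ i : Fin N, ∑ j : Fin N, emb K (g i j + g' i j) *
        (X 2 ^ (i : ℕ) * X 3 ^ (j : ℕ)) =
        (f - ∑ i : Fin N, ∑ j : Fin N, emb K (g i j) * (X 2 ^ (i : ℕ) * X 3 ^ (j : ℕ))) +
        (f' - ∑ i : Fin N, ∑ j : Fin N, emb K (g' i j) * (X 2 ^ (i : ℕ) * X 3 ^ (j : ℕ))) := by
      simp only [map_add, add_mul, Finset.sum_add_distrib]
      ring
    rw [h4]
    exact h5
  · refine ⟨fun _ _ => 0, ?_⟩
    simp
  · intro n _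
    obtain ⟨g, -, hg⟩ := hFGN K I N hI h2 h3 n (homogeneousComponent n f)
      (hz_nat.2 (homogeneousComponent_isHomogeneous n f))
    exact ⟨g, hg⟩

theorem fin (hFGN : Stmt_FGN) (I : Ideal (Pol K)) (N : ℕ) (hI : HomI I)
    (h2 : X 2 ^ N ∈ I ⊔ Ideal.span {X 0, X 1}) (h3 : X 3 ^ N ∈ I ⊔ Ideal.span {X 0, X 1}) :
    ∃ (s : ℕ) (c : Fin s → Pol K ⧸ I), ∀ m, ∃ l : Fin s → Lam K,
      m = ∑ i, Ideal.Quotient.mk I (emb K (l i)) * c i := by
  refine ⟨N * N, fun k => Ideal.Quotient.mk I (X 2 ^ ((finProdFinEquiv.symm k).1 : ℕ) *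
    X 3 ^ ((finProdFinEquiv.symm k).2 : ℕ)), fun m => ?_⟩
  obtain ⟨f, rfl⟩ := Ideal.Quotient.mk_surjective m
  obtain ⟨g, hg⟩ := span hFGN I N hI h2 h3 f
  refine ⟨fun k => g (finProdFinEquiv.symm k).1 (finProdFinEquiv.symm k).2, ?_⟩
  have h4 := Ideal.Quotient.eq.2 hg
  rw [h4]
  have h5 := Equiv.sum_comp (finProdFinEquiv (m := N) (n := N)).symm
    (fun x : Fin N × Fin N => Ideal.Quotient.mk I (emb K (g x.1 x.2)) *
      Ideal.Quotient.mk I (X 2 ^ (x.1 : ℕ) * X 3 ^ (x.2 : ℕ)))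
  rw [h5, Fintype.sum_prod_type, map_sum]
  refine Finset.sum_congr rfl fun i _ => ?_
  rw [map_sum]
  refine Finset.sum_congr rfl fun j _ => ?_
  rw [map_mul]

end GEN

open GEN in
theorem p_GEN (hGRG : Stmt_GRG) (hHID : Stmt_HID) (hRES : Stmt_RES) (hSOC : Stmt_SOC)
    (hDET : Stmt_DET) (hQGR : Stmt_QGR) (hGFR : Stmt_GFR) (hHFX : Stmt_HFX) (hSFN : Stmt_SFN)
    (hFGN : Stmt_FGN) : Stmt_GEN := by
  intro K _ a b N F G hF hG h2 h3 hne
  have hI : HomI (Ideal.span {F, G}) := hHID K a b F G hF hG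
  obtain ⟨reg0, reg1, htop, ⟨hx0, hx1⟩, lift⟩ := hGRG K a b N F G hF hG h2 h3 hne
  obtain ⟨ℳ, hGrd, hℳ⟩ := hQGR K _ hI
  have hf : (rr K F).IsHomogeneous a := (hRES K 2).1 a _ ((hRES K 3).1 a _ hF)
  have hg : (rr K G).IsHomogeneous b := (hRES K 2).1 b _ ((hRES K 3).1 b _ hG)
  obtain ⟨τ, τ0, τdeg, τnd⟩ := hSOC K a b N (rr K F) (rr K G) hf hg hx0 hx1 htop
  have hfin := fin hFGN _ N hI h2 h3
  have hrrI : ∀ h ∈ Ideal.span {F, G}, rr K h ∈ Ideal.span {rr K F, rr K G} := by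
    intro h hh
    obtain ⟨u, v, huv⟩ := Ideal.mem_span_pair.1 hh
    rw [← huv, map_add, map_mul, map_mul]
    exact Ideal.mem_span_pair.2 ⟨_, _, rfl⟩
  have hrrhz : ∀ (n : ℤ) (h : Pol K), HZ n h → HZ n (rr K h) := by
    rintro n h (rfl | ⟨m, hm, hh⟩)
    · rw [map_zero]
      exact hz_zero _
    · exact Or.inr ⟨m, hm, (hRES K 2).1 m _ ((hRES K 3).1 m _ hh)⟩
  have hrrsurj : ∀ h : Lam K, ∃ H : Pol K, rr K H = h := by
    intro h
    obtain ⟨h', rfl⟩ := (hRES K 2).2.1 h
    obtain ⟨H, rfl⟩ := (hRES K 3).2.1 h'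
    exact ⟨H, rfl⟩
  clear hfin
  obtain ⟨r, β, bb, hB, hbM, hhom⟩ := hGFR K (Pol K ⧸ Ideal.span {F, G})
    (Ideal.Quotient.mk _) ℳ hGrd
    (by
      intro n j p m hp hm
      obtain ⟨f, hf, rfl⟩ := (hℳ n m).1 hm
      refine (hℳ _ _).2 ⟨emb K p * f, ?_, map_mul _ _ _⟩
      rw [add_comm]
      exact hz_mul (hz_emb hp) hf)
    (fin hFGN _ N hI h2 h3)
    (by
      intro m hm
      obtain ⟨h, rfl⟩ := Ideal.Quotient.mk_surjective m
      rw [← map_mul, Ideal.Quotient.eq_zero_iff_mem] at hm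
      exact Ideal.Quotient.eq_zero_iff_mem.2 (reg0 h hm))
    (by
      intro m m' hm
      obtain ⟨h, rfl⟩ := Ideal.Quotient.mk_surjective m
      obtain ⟨h', rfl⟩ := Ideal.Quotient.mk_surjective m'
      rw [← map_mul, ← map_mul, Ideal.Quotient.eq] at hm
      obtain ⟨h'', hh⟩ := reg1 h h' hm
      refine ⟨Ideal.Quotient.mk _ h'', ?_⟩
      rw [← map_mul, Ideal.Quotient.eq]
      exact hh)
  choose c hc hcb using fun i => (hℳ _ _).1 (hbM i)
  have hcb' : (fun i => Ideal.Quotient.mk (Ideal.span {F, G}) (c i)) = bb := funext hcb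
  -- expansions
  have hexp : ∀ f : Pol K, ∃ l : Fin r → Lam K, f - ∑ i, emb K (l i) * c i ∈
      Ideal.span {F, G} := by
    intro f
    obtain ⟨l, hl⟩ := hB.span (Ideal.Quotient.mk _ f)
    refine ⟨l, ?_⟩
    rw [← Ideal.Quotient.eq, hl, map_sum]
    refine Finset.sum_congr rfl fun i _ => ?_
    rw [map_mul, hcb]
  have hexph : ∀ (n : ℤ) (f : Pol K), HZ n f → ∃ l : Fin r → Lam K,
      (∀ i, HZ (n - β i) (l i)) ∧
      Ideal.Quotient.mk (Ideal.span {F, G}) f =
        ∑ i, Ideal.Quotient.mk (Ideal.span {F, G}) (emb K (l i)) * bb i := by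
    intro n f hf
    obtain ⟨l, hl⟩ := hB.span (Ideal.Quotient.mk _ f)
    refine ⟨l, hhom n l ?_, hl⟩
    rw [← hl]
    exact (hℳ _ _).2 ⟨f, hf, rfl⟩
  have hind : ∀ l : Fin r → Lam K, ∑ i, emb K (l i) * c i ∈ Ideal.span {F, G} →
      ∀ i, l i = 0 := by
    intro l hl
    apply hB.ind l
    rw [← Ideal.Quotient.eq_zero_iff_mem, map_sum] at hl
    rw [← hl]
    refine Finset.sum_congr rfl fun i _ => ?_
    rw [map_mul, hcb]
  -- the functional
  obtain ⟨s0, s0lin, s0b⟩ := hSFN K (Pol K ⧸ Ideal.span {F, G}) (Ideal.Quotient.mk _) r bb hB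
    (fun i => τ (rr K (c i)))
  have hw : ∀ i, β i ≠ (a : ℤ) + b - 2 → τ (rr K (c i)) = 0 := fun i hi =>
    τdeg (β i) _ (hrrhz _ _ (hc i)) hi
  obtain ⟨s, hs⟩ : ∃ s : Pol K →+ Lam K, ∀ f, s f = s0 (Ideal.Quotient.mk _ f) :=
    ⟨s0.comp (Ideal.Quotient.mk _ : Pol K →+* Pol K ⧸ Ideal.span {F, G}).toAddMonoidHom,
      fun _ => rfl⟩
  have slin : ∀ (l : Lam K) (f : Pol K), s (emb K l * f) = l * s f := by
    intro l f
    rw [hs, hs, map_mul, s0lin]
  have sker : ∀ f ∈ Ideal.span {F, G}, s f = 0 := by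
    intro f hf
    rw [hs, Ideal.Quotient.eq_zero_iff_mem.2 hf, map_zero]
  have shs : ∀ (n : ℤ) (f : Pol K), HZ n f → HZ (n - ((a : ℤ) + b - 2)) (s f) := by
    intro n f hf
    obtain ⟨l, hl, hfl⟩ := hexph n f hf
    rw [hs, hfl, s0b]
    refine hz_sum _ _ _ fun i _ => ?_
    by_cases hi : β i = (a : ℤ) + b - 2
    · rw [← hi]
      have := hz_mul (hz_C (ι := Fin 2) (τ (rr K (c i)))) (hl i)
      rwa [zero_add] at this
    · rw [hw i hi, map_zero, zero_mul]
      exact hz_zero _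
  -- constant coefficient
  have hcc : ∀ f : Pol K, constantCoeff (s f) = τ (rr K f) := by
    intro f
    obtain ⟨l, hl⟩ := hexp f
    have e1 : s f = ∑ i, C (τ (rr K (c i))) * l i := by
      have h4 := Ideal.Quotient.eq.2 hl
      rw [hs, h4, map_sum, ← s0b l]
      refine congrArg s0 (Finset.sum_congr rfl fun i _ => ?_)
      rw [map_mul, hcb]
    have e2 : τ (rr K f) = ∑ i, constantCoeff (l i) * τ (rr K (c i)) := by
      have h5 := τ0 _ (hrrI _ hl)
      rw [map_sub, map_sub, sub_eq_zero] at h5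
      rw [h5, map_sum, map_sum]
      refine Finset.sum_congr rfl fun i _ => ?_
      rw [map_mul, rr_emb, ← smul_eq_C_mul, map_smul, smul_eq_mul]
    rw [e1, e2, map_sum]
    refine Finset.sum_congr rfl fun i _ => ?_
    rw [map_mul, constantCoeff_C, mul_comm]
  -- the Gram matrix
  obtain ⟨M, hM⟩ : ∃ M : Matrix (Fin r) (Fin r) (Lam K), ∀ i j, M i j = s (c i * c j) :=
    ⟨Matrix.of fun i j => s (c i * c j), fun _ _ => rfl⟩
  have hMdeg : HZ (2 * ∑ i, β i - r * ((a : ℤ) + b - 2)) M.det := by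
    refine hDET K r β _ M fun i j => ?_
    rw [hM]
    exact shs _ _ (hz_mul (hc i) (hc j))
  have hMcc : constantCoeff M.det ≠ 0 := by
    rw [RingHom.map_det]
    intro h0
    obtain ⟨v, hv0, hv⟩ := Matrix.exists_mulVec_eq_zero_iff.2 h0
    apply hv0
    have hv' : ∀ i, τ (rr K (c i) * rr K (∑ j, C (v j) * c j)) = 0 := by
      intro i
      have h1 := congrFun hv i
      have h2 : τ (rr K (c i) * rr K (∑ j, C (v j) * c j)) =
          ∑ j, (constantCoeff.mapMatrix M) i j * v j := by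
        rw [map_sum, Finset.mul_sum, map_sum]
        refine Finset.sum_congr rfl fun j _ => ?_
        have h3 : rr K (C (v j) * c j) = (v j) • rr K (c j) := by
          rw [← smul_eq_C_mul, map_smul]
        have h4 : rr K (c i * c j) = rr K (c i) * rr K (c j) := map_mul _ _ _
        rw [h3, mul_smul_comm, map_smul, RingHom.mapMatrix_apply, Matrix.map_apply, hM, hcc,
          h4, smul_eq_mul, mul_comm]
      rw [h2]
      exact h1
    obtain ⟨V, hV⟩ : ∃ V : Pol K, V = ∑ j, C (v j) * c j := ⟨_, rfl⟩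
    rw [← hV] at hv'
    have hall : ∀ h : Lam K, τ (rr K V * h) = 0 := by
      intro h
      obtain ⟨H, rfl⟩ := hrrsurj h
      obtain ⟨l, hl⟩ := hexp H
      have h5 := τ0 _ (Ideal.mul_mem_left _ (rr K V) (hrrI _ hl))
      rw [map_sub, mul_sub, map_sub, sub_eq_zero] at h5
      rw [h5, map_sum, Finset.mul_sum, map_sum]
      refine Finset.sum_eq_zero fun i _ => ?_
      have h6 : rr K V * rr K (emb K (l i) * c i) =
          (constantCoeff (l i)) • (rr K (c i) * rr K V) := by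
        rw [map_mul, rr_emb, smul_eq_C_mul]
        ring
      rw [h6, map_smul, hv' i, smul_zero]
    obtain ⟨u, v', huv⟩ := lift _ (τnd _ hall)
    rw [hV] at huv
    obtain ⟨p, hp⟩ := hexp u
    obtain ⟨q, hq⟩ := hexp v'
    have h7 : ∑ i, emb K (C (v i) - X 0 * p i - X 1 * q i) * c i ∈ Ideal.span {F, G} := by
      have e0 : emb K (X 0) = X 0 := by simp [emb]
      have e1 : emb K (X 1) = X 1 := by simp [emb]
      have e2 : ∀ t : K, emb K (C t) = C t := by intro t; simp [emb]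
      have h8 : ∑ i, emb K (C (v i) - X 0 * p i - X 1 * q i) * c i =
          (∑ j, C (v j) * c j - X 0 * u - X 1 * v') + X 0 * (u - ∑ i, emb K (p i) * c i) +
            X 1 * (v' - ∑ i, emb K (q i) * c i) := by
        simp only [map_sub, map_mul, e0, e1, e2, sub_mul, Finset.sum_sub_distrib, mul_sub,
          Finset.mul_sum, mul_assoc]
        ring
      rw [h8]
      exact Ideal.add_mem _ (Ideal.add_mem _ huv (Ideal.mul_mem_left _ _ hp))
        (Ideal.mul_mem_left _ _ hq)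
    funext i
    have h9 := congrArg constantCoeff (hind _ h7 i)
    simpa using h9
  have hdet0 : M.det ≠ 0 := by
    intro h
    apply hMcc
    rw [h, map_zero]
  have hsum : 2 * ∑ i, β i - r * ((a : ℤ) + b - 2) = 0 := by
    rcases hMdeg with h | ⟨m, hm, hh⟩
    · exact absurd h hdet0
    · have h0 : m = 0 := by
        by_contra hne0
        apply hMcc
        rw [constantCoeff_eq]
        apply hh.coeff_eq_zero
        rw [map_zero]
        exact fun h => hne0 h.symm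
      rw [← hm, h0, Nat.cast_zero]
  refine ⟨r, β, c, s, ⟨hc, ?_, slin, sker, shs, ?_, ?_, ?_, ?_⟩⟩
  · rw [hcb']
    exact hB
  · intro f hfg
    obtain ⟨l, hl⟩ := hexp f
    have h1 : M.mulVec l = 0 := by
      funext i
      have h4 : s (f * c i) = ∑ j, M i j * l j := by
        have h5 : s (f * c i) = s ((∑ j, emb K (l j) * c j) * c i) := by
          have h6 := sker _ (Ideal.mul_mem_right (c i) _ hl)
          rw [sub_mul, map_sub, sub_eq_zero] at h6
          exact h6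
        rw [h5, Finset.sum_mul, map_sum]
        refine Finset.sum_congr rfl fun j _ => ?_
        rw [mul_assoc, slin, hM, mul_comm (c j)]
        ring
      rw [hfg] at h4
      exact h4.symm
    have h2 := Matrix.eq_zero_of_mulVec_eq_zero hdet0 h1
    rw [h2] at hl
    simpa using hl
  · rcases Nat.eq_zero_or_pos r with rfl | hr
    · exfalso
      apply hne
      rw [Ideal.eq_top_iff_one]
      obtain ⟨l, hl⟩ := hexp 1
      simpa using hl
    · exact hr
  · linarith
  · refine ⟨∑ i, (β i).toNat, fun n hn => ?_⟩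
    have hβ : ∀ i, β i ≤ n := by
      intro i
      have h1 : (β i).toNat ≤ ∑ i, (β i).toNat :=
        Finset.single_le_sum (f := fun i => (β i).toNat) (fun _ _ => Nat.zero_le _)
          (Finset.mem_univ i)
      have h2 := Int.self_le_toNat (β i)
      have h3 : ((β i).toNat : ℤ) ≤ n := by exact_mod_cast h1.trans hn
      exact h2.trans h3
    have h1 := hHFX K (Pol K ⧸ Ideal.span {F, G}) (Ideal.Quotient.mk _) r β bb n hβ hB.ind
      (hexph n) (by
        intro l hl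
        refine ⟨∑ i, emb K (l i) * c i, ?_, ?_⟩
        · refine hz_sum _ _ _ fun i _ => ?_
          have := hz_mul (hz_emb (hl i)) (hc i)
          rwa [sub_add_cancel] at this
        · rw [map_sum]
          refine Finset.sum_congr rfl fun i _ => ?_
          rw [map_mul, hcb])
    rw [Ideal.mk_ker] at h1
    exact h1

end Pool.SC
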