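import Pool.Agent.Work.MP_03d391_sc.Interface

set_option autoImplicit false

/-! # Block GFR of THEOREM SC (MP_03d391_ag), helper52. -/

noncomputable section

open MvPolynomial TensorProduct

namespace Pool.SC

namespace GFR

/-- component of degree `z` -/
def hc {K : Type} [Field K] (z : ℤ) (p : Lam K) : Lam K :=
  if 0 ≤ z then homogeneousComponent z.toNat p else 0

theorem hc_hz {K : Type} [Field K] (z : ℤ) (p : Lam K) : HZ z (hc z p) := by
  unfold hc
  split_ifs with h
  · exact Or.inr ⟨z.toNat, Int.toNat_of_nonneg h, homogeneousComponent_isHomogeneous _ _⟩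
  · exact Or.inl rfl

theorem coeff_hc {K : Type} [Field K] (z : ℤ) (p : Lam K) (d : Fin 2 →₀ ℕ) :
    coeff d (hc z p) = if (d.degree : ℤ) = z then coeff d p else 0 := by
  unfold hc
  by_cases h : 0 ≤ z
  · rw [if_pos h, coeff_homogeneousComponent]
    by_cases h2 : (d.degree : ℤ) = z
    · rw [if_pos h2, if_pos (by omega)]
    · rw [if_neg h2, if_neg (by omega)]
  · rw [if_neg h, coeff_zero, if_neg (by omega)]

theorem sum_hc {K : Type} [Field K] (p : Lam K) (β : ℤ) (S : Finset ℤ)
    (hS : ∀ j : ℕ, j ≤ p.totalDegree → β + j ∈ S) : ∑ n ∈ S, hc (n - β) p = p := by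
  ext d
  rw [coeff_sum]
  simp only [coeff_hc]
  by_cases hd : coeff d p = 0
  · simp [hd]
  · have h1 : β + (d.degree : ℕ) ∈ S := by
      apply hS
      have := le_totalDegree (mem_support_iff.2 hd)
      simpa [Finsupp.degree, Finsupp.sum] using this
    rw [Finset.sum_eq_single (β + (d.degree : ℕ))]
    · rw [if_pos (by ring)]
    · intro n _ hne
      rw [if_neg]
      intro h
      apply hne
      rw [h]
      ring
    · intro h
      exact absurd h1 h

/-- all exponents have sum `< d` -/
def Bd {K : Type} [Field K] (d : ℕ) (p : Lam K) : Prop := ∀ m ∈ p.support, m 0 + m 1 < d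

theorem bd_exists {K : Type} [Field K] (p : Lam K) : ∃ d, Bd d p := by
  refine ⟨p.support.sup (fun m => m 0 + m 1) + 1, fun m hm => ?_⟩
  exact Nat.lt_succ_of_le (Finset.le_sup (f := fun m : Fin 2 →₀ ℕ => m 0 + m 1) hm)

theorem bd_mono {K : Type} [Field K] {d e : ℕ} (h : d ≤ e) {p : Lam K} (hp : Bd d p) :
    Bd e p := fun m hm => lt_of_lt_of_le (hp m hm) h

theorem bd_zero {K : Type} [Field K] {p : Lam K} (hp : Bd 0 p) : p = 0 := by
  rw [← support_eq_empty, Finset.eq_empty_iff_forall_notMem]
  intro m hm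
  exact absurd (hp m hm) (Nat.not_lt_zero _)

theorem bd_add {K : Type} [Field K] {d : ℕ} {p q : Lam K} (hp : Bd d p) (hq : Bd d q) :
    Bd d (p + q) := by
  intro m hm
  rcases Finset.mem_union.1 (support_add hm) with h | h
  · exact hp m h
  · exact hq m h

theorem bd_mono_mon {K : Type} [Field K] {d : ℕ} (m : Fin 2 →₀ ℕ) (a : K)
    (h : m 0 + m 1 < d) : Bd d (monomial m a) := by
  intro m' hm'
  have := support_monomial_subset hm'
  rw [Finset.mem_singleton] at this
  rw [this]
  exact h

/-- splitting -/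
theorem split {K : Type} [Field K] (d : ℕ) (p : Lam K) (hp : Bd (d + 1) p) :
    ∃ (c : K) (q l : Lam K), p = C c + X 0 * q + X 1 * l ∧ Bd d l := by
  have key : ∀ s : Finset (Fin 2 →₀ ℕ), (∀ m ∈ s, m 0 + m 1 < d + 1) →
      ∃ (c : K) (q l : Lam K), ∑ m ∈ s, monomial m (coeff m p) = C c + X 0 * q + X 1 * l ∧
        Bd d l := by
    classical
    intro s
    induction s using Finset.induction_on with
    | empty =>
      intro _
      refine ⟨0, 0, 0, by simp, ?_⟩
      intro m hm
      simp at hm
    | insert m s hms ih =>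
      intro hs
      obtain ⟨c, q, l, h1, h2⟩ := ih fun m' hm' => hs m' (Finset.mem_insert_of_mem hm')
      have hm := hs m (Finset.mem_insert_self _ _)
      rw [Finset.sum_insert hms, h1]
      by_cases h0 : m 0 = 0
      · by_cases h3 : m 1 = 0
        · have hz : m = 0 := by
            ext i
            fin_cases i
            · exact h0
            · exact h3
          refine ⟨coeff m p + c, q, l, ?_, h2⟩
          rw [hz, ← C_apply, map_add]
          ring
        · have e : m = m - Finsupp.single 1 1 + Finsupp.single 1 1 := by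
            rw [tsub_add_cancel_of_le]
            intro i
            fin_cases i
            · simp
            · simp
              omega
          refine ⟨c, q, monomial (m - Finsupp.single 1 1) (coeff m p) + l, ?_, ?_⟩
          · have e' : m = Finsupp.single 1 1 + (m - Finsupp.single 1 1) := by
              rw [add_comm]
              exact e
            have : (monomial m (coeff m p) : Lam K) =
                X 1 * monomial (m - Finsupp.single 1 1) (coeff m p) := by
              rw [X, monomial_mul, one_mul]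
              exact congrArg (fun t => monomial t (coeff m p)) e'
            rw [this]
            ring
          · refine bd_add (bd_mono_mon _ _ ?_) h2
            simp only [Finsupp.coe_tsub, Pi.sub_apply, Finsupp.single_apply]
            simp
            omega
      · have e : m = m - Finsupp.single 0 1 + Finsupp.single 0 1 := by
          rw [tsub_add_cancel_of_le]
          intro i
          fin_cases i
          · simp
            omega
          · simp
        refine ⟨c, monomial (m - Finsupp.single 0 1) (coeff m p) + q, l, ?_, h2⟩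
        have e' : m = Finsupp.single 0 1 + (m - Finsupp.single 0 1) := by
          rw [add_comm]
          exact e
        have : (monomial m (coeff m p) : Lam K) =
            X 0 * monomial (m - Finsupp.single 0 1) (coeff m p) := by
          rw [X, monomial_mul, one_mul]
          exact congrArg (fun t => monomial t (coeff m p)) e'
        rw [this]
        ring
  obtain ⟨c, q, l, h1, h2⟩ := key p.support hp
  exact ⟨c, q, l, by rw [← h1]; exact p.as_sum, h2⟩

theorem bd_div {K : Type} [Field K] (d : ℕ) (p q : Lam K) (hp : Bd (d + 1) p)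
    (h : p = X 0 * q) : Bd d q := by
  intro m hm
  have h1 : Finsupp.single 0 1 + m ∈ p.support := by
    rw [mem_support_iff, h, coeff_X_mul]
    exact mem_support_iff.1 hm
  have := hp _ h1
  simp only [Finsupp.coe_add, Pi.add_apply, Finsupp.single_apply] at this
  simp at this
  omega

section main

variable {K : Type} [Field K] {E : Type} [CommRing E] (θ : Pol K →+* E)

theorem emb0 : θ (emb K (X 0)) = θ (X 0) := by
  congr 1
  simp [emb]

theorem emb1 : θ (emb K (X 1)) = θ (X 1) := by
  congr 1
  simp [emb]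

/-- the homogeneous part of an expression -/
theorem part {ℳ : ℤ → AddSubgroup E} (hg : Grd ℳ)
    (hmul : ∀ (n j : ℤ) (p : Lam K) (m : E), HZ j p → m ∈ ℳ n → θ (emb K p) * m ∈ ℳ (n + j))
    {r : ℕ} (β : Fin r → ℤ) (b : Fin r → E) (hb : ∀ i, b i ∈ ℳ (β i)) (n : ℤ)
    (l : Fin r → Lam K) (hl : ∑ i, θ (emb K (l i)) * b i ∈ ℳ n) :
    ∑ i, θ (emb K (hc (n - β i) (l i))) * b i = ∑ i, θ (emb K (l i)) * b i := by
  classical
  set S : Finset ℤ := insert n (Finset.univ.biUnion fun i =>
    (Finset.range ((l i).totalDegree + 1)).image fun j : ℕ => β i + j) with hS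
  have h1 : ∀ n', ∑ i, θ (emb K (hc (n' - β i) (l i))) * b i ∈ ℳ n' := by
    intro n'
    apply AddSubgroup.sum_mem
    intro i _
    have := hmul (β i) (n' - β i) _ (b i) (hc_hz _ (l i)) (hb i)
    rwa [add_sub_cancel] at this
  have h2 : ∑ n' ∈ S, ∑ i, θ (emb K (hc (n' - β i) (l i))) * b i =
      ∑ i, θ (emb K (l i)) * b i := by
    rw [Finset.sum_comm]
    apply Finset.sum_congr rfl
    intro i _
    rw [← Finset.sum_mul]
    congr 1
    rw [← map_sum, ← map_sum, sum_hc]
    intro j hj
    rw [hS]
    apply Finset.mem_insert_of_mem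
    rw [Finset.mem_biUnion]
    refine ⟨i, Finset.mem_univ _, ?_⟩
    rw [Finset.mem_image]
    exact ⟨j, Finset.mem_range.2 (Nat.lt_succ_of_le hj), rfl⟩
  have h3 := hg.ind S (fun n' => (∑ i, θ (emb K (hc (n' - β i) (l i))) * b i) -
    if n' = n then ∑ i, θ (emb K (l i)) * b i else 0) ?_ ?_ n (Finset.mem_insert_self _ _)
  · simp only [if_true] at h3
    exact sub_eq_zero.1 h3
  · intro n'
    apply AddSubgroup.sub_mem _ (h1 n')
    by_cases h : n' = n
    · rw [if_pos h, h]
      exact hl
    · rw [if_neg h]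
      exact AddSubgroup.zero_mem _
  · rw [Finset.sum_sub_distrib, h2, Finset.sum_ite_eq' S n, if_pos (Finset.mem_insert_self _ _),
      sub_self]

/-- homogeneous generating families -/
def Gn (ℳ : ℤ → AddSubgroup E) (ι : Type) [Fintype ι] (β : ι → ℤ) (b : ι → E) : Prop :=
  (∀ i, b i ∈ ℳ (β i)) ∧ ∀ m : E, ∃ l : ι → Lam K, m = ∑ i, θ (emb K (l i)) * b i

theorem gn_fin {ℳ : ℤ → AddSubgroup E} {ι : Type} [Fintype ι] {β : ι → ℤ} {b : ι → E}
    (h : Gn θ ℳ ι β b) : ∃ (β' : Fin (Fintype.card ι) → ℤ) (b' : Fin (Fintype.card ι) → E),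
      Gn θ ℳ (Fin (Fintype.card ι)) β' b' := by
  let e := (Fintype.equivFin ι).symm
  refine ⟨β ∘ e, b ∘ e, fun i => h.1 _, fun m => ?_⟩
  obtain ⟨l, hl⟩ := h.2 m
  refine ⟨l ∘ e, ?_⟩
  rw [hl]
  exact (e.sum_comp fun i => θ (emb K (l i)) * b i).symm

end main

end GFR

theorem p_GFR : Stmt_GFR := by
  classical
  intro K _ E _ θ ℳ hg hmul hgen reg0 reg1
  -- homogeneous generators
  have hex : ∃ r : ℕ, ∃ (β : Fin r → ℤ) (b : Fin r → E), GFR.Gn θ ℳ (Fin r) β b := by
    obtain ⟨s, c, hc⟩ := hgen
    choose S v hv hcv using fun i => hg.dec (c i)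
    have h : GFR.Gn θ ℳ (Σ i : Fin s, ↥(S i)) (fun x => (x.2 : ℤ))
        (fun x => v x.1 (x.2 : ℤ)) := by
      refine ⟨fun x => hv _ _, fun m => ?_⟩
      obtain ⟨l, hl⟩ := hc m
      refine ⟨fun x => l x.1, ?_⟩
      rw [hl, Fintype.sum_sigma]
      apply Finset.sum_congr rfl
      intro i _
      conv_lhs => rw [hcv i]
      rw [Finset.mul_sum, ← Finset.sum_coe_sort]
    exact ⟨_, GFR.gn_fin θ h⟩
  obtain ⟨β, b, hb, hspan⟩ := Nat.find_spec hex
  have hmin : ∀ r' < Nat.find hex, ¬ ∃ (β : Fin r' → ℤ) (b : Fin r' → E),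
    GFR.Gn θ ℳ (Fin r') β b := fun r' hr' => Nat.find_min hex hr'
  generalize Nat.find hex = r at β b hb hspan hmin
  -- linear independence modulo the variables
  have hA : ∀ (c : Fin r → K) (u v : E), ∑ i, θ (emb K (C (c i))) * b i =
      θ (X 0) * u + θ (X 1) * v → ∀ i, c i = 0 := by
    intro c u v huv i0
    by_contra hne
    obtain ⟨p, hp⟩ := hspan u
    obtain ⟨q, hq⟩ := hspan v
    have h1 : ∑ i, θ (emb K (C (c i) - X 0 * p i - X 1 * q i)) * b i = 0 := by
      have h2 : ∑ i, θ (emb K (C (c i) - X 0 * p i - X 1 * q i)) * b i =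
          ∑ i, θ (emb K (C (c i))) * b i - θ (X 0) * (∑ i, θ (emb K (p i)) * b i) -
            θ (X 1) * (∑ i, θ (emb K (q i)) * b i) := by
        rw [Finset.mul_sum, Finset.mul_sum, ← Finset.sum_sub_distrib, ← Finset.sum_sub_distrib]
        apply Finset.sum_congr rfl
        intro i _
        rw [map_sub, map_sub, map_sub, map_sub, map_mul, map_mul, map_mul, map_mul, GFR.emb0,
          GFR.emb1]
        ring
      rw [h2, ← hp, ← hq, huv]
      ring
    have h3 := GFR.part θ hg hmul β b hb (β i0)
      (fun i => C (c i) - X 0 * p i - X 1 * q i) (by rw [h1]; exact AddSubgroup.zero_mem _)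
    rw [h1] at h3
    have h4 : GFR.hc (β i0 - β i0) (C (c i0) - X 0 * p i0 - X 1 * q i0) = C (c i0) := by
      ext d
      rw [GFR.coeff_hc, sub_self, coeff_C]
      by_cases hd : d = 0
      · subst hd
        rw [if_pos (by simp), if_pos rfl]
        have h : ∀ (j : Fin 2) (t : Lam K), coeff 0 (X j * t) = 0 := by
          intro j t
          rw [coeff_X_mul', if_neg (by simp)]
        rw [coeff_sub, coeff_sub, coeff_C, if_pos rfl, h, h, sub_zero, sub_zero]
      · rw [if_neg, if_neg (Ne.symm hd)]
        intro h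
        apply hd
        have : d.degree = 0 := by exact_mod_cast h
        exact (Finsupp.degree_eq_zero_iff d).1 this
    rw [← Finset.add_sum_erase _ _ (Finset.mem_univ i0), h4] at h3
    -- remove the generator
    have h5 : b i0 = ∑ i ∈ Finset.univ.erase i0,
        θ (emb K (-(C (c i0)⁻¹ * GFR.hc (β i0 - β i) (C (c i) - X 0 * p i - X 1 * q i)))) *
          b i := by
      have h6 : b i0 = θ (emb K (C (c i0)⁻¹)) * (θ (emb K (C (c i0))) * b i0) := by
        rw [← mul_assoc, ← map_mul, ← map_mul, ← C_mul, inv_mul_cancel₀ hne]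
        simp
      rw [h6, eq_neg_of_add_eq_zero_left h3, mul_neg, Finset.mul_sum, ← Finset.sum_neg_distrib]
      apply Finset.sum_congr rfl
      intro i _
      rw [map_neg, map_neg, map_mul, map_mul]
      ring
    have h7 : GFR.Gn θ ℳ {i : Fin r // i ≠ i0} (fun i => β i) (fun i => b i) := by
      refine ⟨fun i => hb _, fun m => ?_⟩
      obtain ⟨l, hl⟩ := hspan m
      refine ⟨fun i => l i + l i0 * (-(C (c i0)⁻¹ * GFR.hc (β i0 - β i)
        (C (c i) - X 0 * p i - X 1 * q i))), ?_⟩
      have h8 : ∀ f : Fin r → E, ∑ i : {i : Fin r // i ≠ i0}, f i =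
          ∑ i ∈ Finset.univ.erase i0, f i := by
        intro f
        have : Finset.univ.erase i0 = Finset.univ.filter fun i : Fin r => i ≠ i0 := by
          ext i
          simp
        rw [this, ← Finset.sum_subtype_eq_sum_filter]
        simp
      rw [h8 fun i => θ (emb K (l i + l i0 * (-(C (c i0)⁻¹ * GFR.hc (β i0 - β i)
        (C (c i) - X 0 * p i - X 1 * q i))))) * b i]
      rw [hl, ← Finset.add_sum_erase _ _ (Finset.mem_univ i0)]
      conv_lhs => rw [h5, Finset.mul_sum, ← Finset.sum_add_distrib]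
      apply Finset.sum_congr rfl
      intro i _
      rw [map_add, map_add, map_mul, map_mul]
      ring
    have h9 := GFR.gn_fin θ h7
    apply hmin _ _ h9
    rw [Fintype.card_subtype_compl]
    simp
    exact lt_of_le_of_lt (Nat.zero_le _) i0.2
  have hB : ∀ (d : ℕ) (l : Fin r → Lam K), (∀ i, GFR.Bd d (l i)) →
      (∃ m', ∑ i, θ (emb K (l i)) * b i = θ (X 0) * m') → ∀ i, ∃ q, l i = X 0 * q := by
    intro d
    induction d with
    | zero =>
      intro l hl _ i
      exact ⟨0, by rw [GFR.bd_zero (hl i), mul_zero]⟩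
    | succ d ih =>
      rintro l hl ⟨m', hm'⟩ i
      choose c q l' h1 h2 using fun i => GFR.split d (l i) (hl i)
      have h3 : ∑ i, θ (emb K (l i)) * b i = ∑ i, θ (emb K (C (c i))) * b i +
          θ (X 0) * (∑ i, θ (emb K (q i)) * b i) + θ (X 1) * (∑ i, θ (emb K (l' i)) * b i) := by
        rw [Finset.mul_sum, Finset.mul_sum, ← Finset.sum_add_distrib, ← Finset.sum_add_distrib]
        apply Finset.sum_congr rfl
        intro i _
        conv_lhs => rw [h1 i]
        rw [map_add, map_add, map_add, map_add, map_mul, map_mul, map_mul, map_mul, GFR.emb0,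
          GFR.emb1]
        ring
      rw [hm'] at h3
      have h4 : ∀ i, c i = 0 := hA c (m' - ∑ i, θ (emb K (q i)) * b i)
        (-∑ i, θ (emb K (l' i)) * b i) (by rw [mul_sub, h3]; ring)
      have h5 : ∑ i, θ (emb K (C (c i))) * b i = 0 := by
        apply Finset.sum_eq_zero
        intro i _
        rw [h4 i]
        simp
      rw [h5, zero_add] at h3
      obtain ⟨m'', hm''⟩ := reg1 (∑ i, θ (emb K (l' i)) * b i)
        (m' - ∑ i, θ (emb K (q i)) * b i) (by rw [mul_sub, h3]; ring)
      obtain ⟨q', hq'⟩ := ih l' h2 ⟨m'', hm''⟩ i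
      refine ⟨q i + X 1 * q', ?_⟩
      rw [h1 i, h4 i, hq', C_0]
      ring
  have hC : ∀ (d : ℕ) (l : Fin r → Lam K), (∀ i, GFR.Bd d (l i)) →
      ∑ i, θ (emb K (l i)) * b i = 0 → ∀ i, l i = 0 := by
    intro d
    induction d with
    | zero => exact fun l hl _ i => GFR.bd_zero (hl i)
    | succ d ih =>
      intro l hl h0 i
      choose q hq using hB (d + 1) l hl ⟨0, by rw [h0, mul_zero]⟩
      have h1 : ∑ i, θ (emb K (q i)) * b i = 0 := by
        apply reg0
        rw [← h0, Finset.mul_sum]
        apply Finset.sum_congr rfl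
        intro i _
        conv_rhs => rw [hq i]
        rw [map_mul, map_mul, GFR.emb0]
        ring
      rw [hq i, ih q (fun i => GFR.bd_div d (l i) (q i) (hl i) (hq i)) h1 i, mul_zero]
  have hind : ∀ l : Fin r → Lam K, ∑ i, θ (emb K (l i)) * b i = 0 → ∀ i, l i = 0 := by
    intro l hl
    choose d hd using fun i => GFR.bd_exists (l i)
    exact hC (Finset.univ.sup d) l
      (fun i => GFR.bd_mono (Finset.le_sup (Finset.mem_univ i)) (hd i)) hl
  refine ⟨r, β, b, ⟨hspan, hind⟩, hb, ?_⟩
  intro n l hl i
  have h1 := GFR.part θ hg hmul β b hb n l hl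
  have h2 : ∑ i, θ (emb K (l i - GFR.hc (n - β i) (l i))) * b i = 0 := by
    have : ∑ i, θ (emb K (l i - GFR.hc (n - β i) (l i))) * b i =
        ∑ i, θ (emb K (l i)) * b i - ∑ i, θ (emb K (GFR.hc (n - β i) (l i))) * b i := by
      rw [← Finset.sum_sub_distrib]
      apply Finset.sum_congr rfl
      intro i _
      rw [map_sub, map_sub]
      ring
    rw [this, h1, sub_self]
  have h3 := hind _ h2 i
  rw [sub_eq_zero] at h3
  rw [h3]
  exact GFR.hc_hz _ _

end Pool.SC
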