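import Pool.Agent.Work.MP_03d391_sc.Interface2

set_option autoImplicit false

/-! Block GO2: a Gorenstein quotient in codimension two. -/

noncomputable section

open MvPolynomial TensorProduct

namespace Pool.SC

namespace GO2

section linear

variable {k V : Type} [Field k] [CommRing V] [Algebra k V] [FiniteDimensional k V]

/-- the linear algebra -/
theorem lin (σ : V →ₗ[k] k) (hσ : ∀ v, (∀ u, σ (v * u) = 0) → v = 0) (x y : V)
    (hV : ∀ v : V, ∃ (a b : V) (c : k), v = x * a + y * b + algebraMap k V c)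
    (z z' : Fin 3 → V) (hz : ∀ i, x * z i + y * z' i = 0) :
    ∃ (a : Fin 3 → k) (w : V), a ≠ 0 ∧ ∑ i, a i • z i = y * w ∧ ∑ i, a i • z' i = -(x * w) := by
  let μ : V × V →ₗ[k] V := (LinearMap.mulLeft k x).coprod (LinearMap.mulLeft k y)
  have hμ : ∀ a b, μ (a, b) = x * a + y * b := fun a b => by
    simp [μ]
  let ρ : V →ₗ[k] V × V := (LinearMap.mulLeft k y).prod (-(LinearMap.mulLeft k x))
  have hρ : ∀ w, ρ w = (y * w, -(x * w)) := fun w => by
    simp [ρ]
  let A : (Fin 3 → k) →ₗ[k] V × V := Fintype.linearCombination k (fun i => (z i, z' i))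
  have hA : ∀ a, A a = (∑ i, a i • z i, ∑ i, a i • z' i) := fun a => by
    have h := Fintype.linearCombination_apply k (fun i => (z i, z' i)) a
    refine h.trans ?_
    apply Prod.ext
    · simp only [Prod.fst_sum, Prod.smul_mk]
    · simp only [Prod.snd_sum, Prod.smul_mk]
  let T : (Fin 3 → k) × V →ₗ[k] V × V := A.coprod (-ρ)
  have hT : ∀ a w, T (a, w) = A a - ρ w := fun a w => by
    simp [T, sub_eq_add_neg]
  have h1 : Module.finrank k V ≤ Module.finrank k (LinearMap.range μ) + 1 := by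
    have h11 : LinearMap.range μ ⊔ Submodule.span k {(1 : V)} = ⊤ := by
      rw [eq_top_iff]
      intro v _
      obtain ⟨a, b, c, rfl⟩ := hV v
      refine Submodule.add_mem_sup ⟨(a, b), hμ a b⟩ ?_
      rw [Submodule.mem_span_singleton]
      exact ⟨c, by rw [Algebra.algebraMap_eq_smul_one]⟩
    have h12 := Submodule.finrank_add_le_finrank_add_finrank (LinearMap.range μ)
      (Submodule.span k {(1 : V)})
    rw [h11, finrank_top] at h12
    have h13 : Module.finrank k (Submodule.span k {(1 : V)}) ≤ 1 :=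
      (finrank_span_le_card ({(1 : V)} : Set V)).trans (by simp)
    omega
  have h2 := LinearMap.finrank_range_add_finrank_ker μ
  rw [Module.finrank_prod] at h2
  have h3 : Module.finrank k (LinearMap.range T) ≤ Module.finrank k (LinearMap.ker μ) := by
    apply Submodule.finrank_mono
    rintro _ ⟨⟨a, w⟩, rfl⟩
    rw [LinearMap.mem_ker, hT, hA, hρ, Prod.mk_sub_mk, hμ]
    have h31 : x * ∑ i, a i • z i + y * ∑ i, a i • z' i = 0 := by
      rw [Finset.mul_sum, Finset.mul_sum, ← Finset.sum_add_distrib]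
      apply Finset.sum_eq_zero
      intro i _
      rw [mul_smul_comm, mul_smul_comm, ← smul_add, hz i, smul_zero]
    have h32 : x * (∑ i, a i • z i - y * w) + y * (∑ i, a i • z' i - -(x * w)) =
      x * ∑ i, a i • z i + y * ∑ i, a i • z' i := by ring
    rw [h32, h31]
  have h4 := LinearMap.finrank_range_add_finrank_ker T
  rw [Module.finrank_prod, Module.finrank_fin_fun] at h4
  by_contra hcon
  have h5 : ∀ a w, T (a, w) = 0 → a = 0 := by
    intro a w haw
    by_contra ha
    apply hcon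
    rw [hT, sub_eq_zero, hA, hρ, Prod.mk.injEq] at haw
    exact ⟨a, w, ha, haw.1, haw.2⟩
  let g : LinearMap.ker T →ₗ[k] k := (σ.comp (LinearMap.snd k (Fin 3 → k) V)).comp
    (LinearMap.ker T).subtype
  have hg : Function.Injective g := by
    rw [injective_iff_map_eq_zero]
    rintro ⟨⟨a, w⟩, haw⟩ h0
    have h01 : σ w = 0 := h0
    have haw' : T (a, w) = 0 := haw
    have ha := h5 a w haw'
    have hw : ρ w = 0 := by
      rw [hT, ha, map_zero, zero_sub, neg_eq_zero] at haw'
      exact haw'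
    rw [hρ, Prod.mk_eq_zero] at hw
    have hyw := hw.1
    have hxw : x * w = 0 := neg_eq_zero.1 hw.2
    have hw0 : w = 0 := by
      apply hσ
      intro u
      obtain ⟨p, q, c, rfl⟩ := hV u
      have h6 : w * (x * p + y * q + algebraMap k V c) = c • w := by
        rw [Algebra.smul_def]
        calc w * (x * p + y * q + algebraMap k V c) = (x * w) * p + (y * w) * q +
              algebraMap k V c * w := by ring
          _ = algebraMap k V c * w := by rw [hxw, hyw]; ring
      rw [h6, map_smul, h01, smul_zero]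
    subst ha
    subst hw0
    rfl
  have h7 := LinearMap.finrank_le_finrank_of_injective hg
  rw [Module.finrank_self] at h7
  omega

end linear

section poly

variable {k : Type} [Field k]

theorem sub_mem (f : Pol k) : f - C (constantCoeff f) ∈ Ideal.span (Set.range (X : Fin 4 → Pol k)) := by
  rw [← Ideal.Quotient.eq]
  have h : (Ideal.Quotient.mk (Ideal.span (Set.range (X : Fin 4 → Pol k)))) =
      ((Ideal.Quotient.mk (Ideal.span (Set.range (X : Fin 4 → Pol k)))).comp
        (C : k →+* Pol k)).comp (constantCoeff : Pol k →+* k) := by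
    apply MvPolynomial.ringHom_ext
    · intro a
      simp
    · intro i
      simp only [RingHom.comp_apply, constantCoeff_X, map_zero]
      exact Ideal.Quotient.eq_zero_iff_mem.2 (Ideal.subset_span ⟨i, rfl⟩)
  exact congrArg (fun φ : Pol k →+* _ => φ f) h

/-- decomposition of a polynomial -/
theorem dec (f : Pol k) : ∃ q : Fin 4 → Pol k, f = ∑ j, q j * X j + C (constantCoeff f) := by
  obtain ⟨q, hq⟩ := Ideal.mem_span_range_iff_exists_fun.1 (sub_mem f)
  exact ⟨q, by rw [hq]; ring⟩

theorem emb_C (a : k) : emb k (C a) = C a := rename_C _ _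

theorem emb_X (i : Fin 2) : emb k (X i) = X ((![0, 1] : Fin 2 → Fin 4) i) := rename_X _ _

theorem emb_sub (l : Lam k) : emb k l - C (constantCoeff l) ∈
    Ideal.span {(X 0 : Pol k), X 1} := by
  rw [← Ideal.Quotient.eq]
  have h : (Ideal.Quotient.mk (Ideal.span {(X 0 : Pol k), X 1})).comp (emb k) =
      ((Ideal.Quotient.mk (Ideal.span {(X 0 : Pol k), X 1})).comp
        (C : k →+* Pol k)).comp (constantCoeff : Lam k →+* k) := by
    apply MvPolynomial.ringHom_ext
    · intro a
      simp only [RingHom.comp_apply, emb_C, constantCoeff_C]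
    · intro i
      simp only [RingHom.comp_apply, constantCoeff_X, map_zero, emb_X]
      apply Ideal.Quotient.eq_zero_iff_mem.2
      fin_cases i
      · exact Ideal.subset_span (Set.mem_insert _ _)
      · exact Ideal.subset_span (Set.mem_insert_of_mem _ rfl)
  exact congrArg (fun φ : Lam k →+* _ => φ l) h

/-- Koszul in two variables -/
theorem koszul (l m : Lam k) (h : X 0 * l + X 1 * m = 0) : ∃ n, l = X 1 * n ∧ m = -(X 0 * n) := by
  have h1 : (X 1 : Lam k) ∣ X 0 * l := ⟨-m, by linear_combination h⟩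
  have hp : Prime (X 1 : Lam k) := MvPolynomial.X_prime
  rcases hp.dvd_or_dvd h1 with h2 | h2
  · exfalso
    rw [MvPolynomial.X_dvd_X] at h2
    exact absurd h2 (by decide)
  · obtain ⟨n, rfl⟩ := h2
    refine ⟨n, rfl, ?_⟩
    have h3 : (X 1 : Lam k) * (m + X 0 * n) = 0 := by linear_combination h
    rcases mul_eq_zero.1 h3 with h4 | h4
    · exact absurd h4 (MvPolynomial.X_ne_zero 1)
    · linear_combination h4

end poly

end GO2

theorem p_GO2 : Stmt_GO2 := by
  intro k _ P hP hne r b hb s hs hsP hdet p hp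
  classical
  set 𝔪 : Ideal (Pol k) := Ideal.span (Set.range (X : Fin 4 → Pol k)) with h𝔪
  set I₀ : Ideal (Pol k) := Ideal.span {(X 0 : Pol k), X 1} with hI₀
  let J : Ideal (Pol k) := P ⊔ I₀
  have hPJ : P ≤ J := le_sup_left
  have hIJ : I₀ ≤ J := le_sup_right
  let V : Type := Pol k ⧸ J
  let π : Pol k →ₐ[k] V := Ideal.Quotient.mkₐ k J
  have hπ : ∀ f, π f = 0 ↔ f ∈ J := fun f => Ideal.Quotient.eq_zero_iff_mem
  have hπs : Function.Surjective π := Ideal.Quotient.mk_surjective
  have hπC : ∀ a : k, π (C a) = algebraMap k V a := fun a => π.commutes a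
  have hπemb : ∀ l : Lam k, π (emb k l) = algebraMap k V (constantCoeff l) := fun l => by
    have h1 : π (emb k l - C (constantCoeff l)) = 0 := (hπ _).2 (hIJ (GO2.emb_sub l))
    rw [map_sub, sub_eq_zero, hπC] at h1
    exact h1
  -- expansions
  have hexp : ∀ f : Pol k, ∃ l : Fin r → Lam k, f - ∑ i, emb k (l i) * b i ∈ P := by
    intro f
    obtain ⟨l, hl⟩ := hb.span (Ideal.Quotient.mk P f)
    refine ⟨l, ?_⟩
    rw [← Ideal.Quotient.eq, hl, map_sum]
    exact Finset.sum_congr rfl fun i _ => (map_mul _ _ _).symm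
  have hexpV : ∀ v : V, ∃ c : Fin r → k, v = ∑ i, c i • π (b i) := by
    intro v
    obtain ⟨f, rfl⟩ := hπs v
    obtain ⟨l, hl⟩ := hexp f
    refine ⟨fun i => constantCoeff (l i), ?_⟩
    have h1 : π (f - ∑ i, emb k (l i) * b i) = 0 := (hπ _).2 (hPJ hl)
    rw [map_sub, sub_eq_zero, map_sum] at h1
    rw [h1]
    exact Finset.sum_congr rfl fun i _ => by rw [map_mul, hπemb, Algebra.smul_def]
  have hfin : FiniteDimensional k V := by
    let g : (Fin r → k) →ₗ[k] V := Fintype.linearCombination k (fun i => π (b i))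
    apply Module.Finite.of_surjective g
    intro v
    obtain ⟨c, hc⟩ := hexpV v
    exact ⟨c, by rw [hc]; exact Fintype.linearCombination_apply _ _ _⟩
  -- the functional
  have hs0 : ∀ f ∈ J, constantCoeff (s f) = 0 := by
    intro f hf
    obtain ⟨g, hg, h, hh, rfl⟩ := Submodule.mem_sup.1 hf
    obtain ⟨u, v, rfl⟩ := Ideal.mem_span_pair.1 hh
    have h0 : s (u * X 0) = X 0 * s u := by
      have := hs (X 0) u
      rw [GO2.emb_X] at this
      rw [mul_comm u]
      exact this
    have h1 : s (v * X 1) = X 1 * s v := by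
      have := hs (X 1) v
      rw [GO2.emb_X] at this
      rw [mul_comm v]
      exact this
    rw [map_add, map_add, map_add, map_add, hsP g hg, h0, h1]
    simp
  let σ0 : Pol k →ₗ[k] k :=
    { toFun := fun f => constantCoeff (s f)
      map_add' := fun f g => by rw [map_add, map_add]
      map_smul' := fun a f => by
        have h1 := hs (C a) f
        rw [GO2.emb_C] at h1
        rw [MvPolynomial.smul_eq_C_mul, h1, map_mul, constantCoeff_C]
        rfl }
  let σ : V →ₗ[k] k := ((J.restrictScalars k).liftQ σ0 (fun f hf => hs0 f hf)).comp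
    (Submodule.Quotient.restrictScalarsEquiv k J).symm.toLinearMap
  have hσ : ∀ f, σ (π f) = constantCoeff (s f) := fun f => rfl
  have hnd : ∀ v : V, (∀ u, σ (v * u) = 0) → v = 0 := by
    intro v hv
    obtain ⟨c, hc⟩ := hexpV v
    have hG : (Matrix.of fun i j => constantCoeff (s (b i * b j)) : Matrix (Fin r) (Fin r) k).det ≠ 0 := by
      have h1 : (Matrix.of fun i j => constantCoeff (s (b i * b j)) : Matrix (Fin r) (Fin r) k) =
        (gram s b).map (constantCoeff : Lam k →+* k) := rfl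
      rw [h1, ← RingHom.mapMatrix_apply, ← RingHom.map_det]
      exact (hdet.map (constantCoeff : Lam k →+* k)).ne_zero
    have hc0 : c = 0 := by
      apply Matrix.eq_zero_of_vecMul_eq_zero hG
      funext j
      have h2 := hv (π (b j))
      rw [hc, Finset.sum_mul, map_sum] at h2
      show ∑ i, c i * constantCoeff (s (b i * b j)) = 0
      rw [← h2]
      apply Finset.sum_congr rfl
      intro i _
      rw [smul_mul_assoc, map_smul, ← map_mul, hσ]
      rfl
    rw [hc, hc0]
    simp
  -- decompositions of the `p i`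
  have hcc : ∀ i, constantCoeff (p i) = 0 := by
    intro i
    by_contra h
    apply hne
    have h1 := hP (p i) (hp i) 0
    rw [homogeneousComponent_zero] at h1
    rw [Ideal.eq_top_iff_one]
    have h2 : (1 : Pol k) = C ((constantCoeff (p i))⁻¹) * C (coeff 0 (p i)) := by
      rw [← C_mul]
      have : (coeff 0 (p i)) = constantCoeff (p i) := rfl
      rw [this, inv_mul_cancel₀ h, C_1]
    rw [h2]
    exact P.mul_mem_left _ h1
  have hdec : ∀ i, ∃ q : Fin 4 → Pol k, p i = ∑ j, q j * X j := fun i => by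
    obtain ⟨q, hq⟩ := GO2.dec (p i)
    rw [hcc i, C_0, add_zero] at hq
    exact ⟨q, hq⟩
  choose q hq using hdec
  have hx0 : π (X 0) = 0 := (hπ _).2 (hIJ (Ideal.subset_span (Set.mem_insert _ _)))
  have hx1 : π (X 1) = 0 := (hπ _).2 (hIJ (Ideal.subset_span (Set.mem_insert_of_mem _ rfl)))
  have hdecV : ∀ g : Fin 4 → Pol k, π (∑ j, g j * X j) = π (X 2) * π (g 2) + π (X 3) * π (g 3) := by
    intro g
    rw [Fin.sum_univ_four, map_add, map_add, map_add, map_mul, map_mul, map_mul, map_mul, hx0, hx1]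
    ring
  obtain ⟨a, w, ha, hw1, hw2⟩ := GO2.lin σ hnd (π (X 2)) (π (X 3))
    (fun v => by
      obtain ⟨f, rfl⟩ := hπs v
      obtain ⟨g, hg⟩ := GO2.dec f
      refine ⟨π (g 2), π (g 3), constantCoeff f, ?_⟩
      rw [← hπC, ← hdecV, ← map_add, ← hg])
    (fun i => π (q i 2)) (fun i => π (q i 3))
    (fun i => by
      rw [← hdecV, ← hq]
      exact (hπ _).2 (hPJ (hp i)))
  refine ⟨a, ha, ?_⟩
  obtain ⟨w, rfl⟩ := hπs w
  have h2 : (∑ i, C (a i) * q i 2) - X 3 * w ∈ J := by
    rw [← hπ, map_sub, map_sum, map_mul, sub_eq_zero, ← hw1]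
    exact Finset.sum_congr rfl fun i _ => by rw [map_mul, hπC, Algebra.smul_def]
  have h3 : (∑ i, C (a i) * q i 3) + X 2 * w ∈ J := by
    rw [← hπ, map_add, map_sum, map_mul, ← neg_neg (π (X 2) * π w), ← hw2, ← sub_eq_add_neg,
      sub_eq_zero]
    exact Finset.sum_congr rfl fun i _ => by rw [map_mul, hπC, Algebra.smul_def]
  obtain ⟨j2, hj2, e2, he2, h2'⟩ := Submodule.mem_sup.1 h2
  obtain ⟨j3, hj3, e3, he3, h3'⟩ := Submodule.mem_sup.1 h3
  obtain ⟨u2, v2, rfl⟩ := Ideal.mem_span_pair.1 he2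
  obtain ⟨u3, v3, rfl⟩ := Ideal.mem_span_pair.1 he3
  set Q : Fin 4 → Pol k := fun j => ∑ i, C (a i) * q i j with hQ
  have hsum : ∑ i, C (a i) * p i = X 0 * Q 0 + X 1 * Q 1 + X 2 * Q 2 + X 3 * Q 3 := by
    have e1 : ∀ i, C (a i) * p i = X 0 * (C (a i) * q i 0) + X 1 * (C (a i) * q i 1) +
        X 2 * (C (a i) * q i 2) + X 3 * (C (a i) * q i 3) := fun i => by
      rw [hq i, Fin.sum_univ_four]
      ring
    simp only [hQ, e1, Finset.sum_add_distrib, Finset.mul_sum]
  have hQ2 : Q 2 = X 3 * w + j2 + (u2 * X 0 + v2 * X 1) := by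
    have : Q 2 - X 3 * w = j2 + (u2 * X 0 + v2 * X 1) := h2'.symm
    linear_combination this
  have hQ3 : Q 3 = -(X 2 * w) + j3 + (u3 * X 0 + v3 * X 1) := by
    have : Q 3 + X 2 * w = j3 + (u3 * X 0 + v3 * X 1) := h3'.symm
    linear_combination this
  set u : Pol k := Q 0 + X 2 * u2 + X 3 * u3 with hu
  set v : Pol k := Q 1 + X 2 * v2 + X 3 * v3 with hv
  have hsum2 : ∑ i, C (a i) * p i = X 2 * j2 + X 3 * j3 + (X 0 * u + X 1 * v) := by
    rw [hsum, hQ2, hQ3, hu, hv]
    ring
  have hX : ∀ j : Fin 4, (X j : Pol k) ∈ 𝔪 := fun j => Ideal.subset_span ⟨j, rfl⟩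
  have hsumP : ∑ i, C (a i) * p i ∈ P := P.sum_mem fun i _ => P.mul_mem_left _ (hp i)
  have huv : X 0 * u + X 1 * v ∈ P := by
    have : X 0 * u + X 1 * v = ∑ i, C (a i) * p i - (X 2 * j2 + X 3 * j3) := by
      rw [hsum2]; ring
    rw [this]
    exact P.sub_mem hsumP (P.add_mem (P.mul_mem_left _ hj2) (P.mul_mem_left _ hj3))
  obtain ⟨l, hl⟩ := hexp u
  obtain ⟨m, hm⟩ := hexp v
  have hlm : ∀ i, X 0 * l i + X 1 * m i = 0 := by
    apply hb.ind (fun i => X 0 * l i + X 1 * m i)
    have e1 : ∀ i, Ideal.Quotient.mk P (emb k (X 0 * l i + X 1 * m i)) * Ideal.Quotient.mk P (b i) =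
        Ideal.Quotient.mk P (X 0 * (emb k (l i) * b i) + X 1 * (emb k (m i) * b i)) := fun i => by
      rw [← map_mul]
      congr 1
      rw [map_add, map_mul, map_mul, GO2.emb_X, GO2.emb_X]
      show (X 0 * emb k (l i) + X 1 * emb k (m i)) * b i = _
      ring
    have e2 : ∑ i, Ideal.Quotient.mk P (emb k (X 0 * l i + X 1 * m i)) *
        Ideal.Quotient.mk P (b i) = Ideal.Quotient.mk P (X 0 * ∑ i, emb k (l i) * b i +
          X 1 * ∑ i, emb k (m i) * b i) := by
      rw [Finset.sum_congr rfl fun i _ => e1 i, ← map_sum, Finset.sum_add_distrib,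
        ← Finset.mul_sum, ← Finset.mul_sum]
    rw [e2, Ideal.Quotient.eq_zero_iff_mem]
    have e3 : X 0 * ∑ i, emb k (l i) * b i + X 1 * ∑ i, emb k (m i) * b i =
        (X 0 * u + X 1 * v) - (X 0 * (u - ∑ i, emb k (l i) * b i) +
          X 1 * (v - ∑ i, emb k (m i) * b i)) := by ring
    rw [e3]
    exact P.sub_mem huv (P.add_mem (P.mul_mem_left _ hl) (P.mul_mem_left _ hm))
  choose n hn1 hn2 using fun i => GO2.koszul (l i) (m i) (hlm i)
  set w' : Pol k := ∑ i, emb k (n i) * b i with hw'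
  have hu' : u - X 1 * w' ∈ P := by
    have e1 : X 1 * w' = ∑ i, emb k (l i) * b i := by
      rw [hw', Finset.mul_sum]
      refine Finset.sum_congr rfl fun i _ => ?_
      rw [hn1 i, map_mul, GO2.emb_X]
      show X 1 * _ = X 1 * _ * _
      ring
    rw [e1]
    exact hl
  have hv' : v + X 0 * w' ∈ P := by
    have e1 : X 0 * w' = -∑ i, emb k (m i) * b i := by
      rw [hw', Finset.mul_sum, ← Finset.sum_neg_distrib]
      refine Finset.sum_congr rfl fun i _ => ?_
      rw [hn2 i, map_neg, map_mul, GO2.emb_X]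
      show X 0 * _ = -(-(X 0 * _) * _)
      ring
    rw [e1, ← sub_eq_add_neg]
    exact hm
  have hfinal : ∑ i, C (a i) * p i = X 2 * j2 + X 3 * j3 + X 0 * (u - X 1 * w') +
      X 1 * (v + X 0 * w') := by
    rw [hsum2]
    ring
  rw [hfinal]
  exact Ideal.add_mem _ (Ideal.add_mem _ (Ideal.add_mem _ (Ideal.mul_mem_mul (hX 2) hj2)
    (Ideal.mul_mem_mul (hX 3) hj3)) (Ideal.mul_mem_mul (hX 0) hu')) (Ideal.mul_mem_mul (hX 1) hv')

end Pool.SC
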