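import Pool.Agent.Work.MP_03d391_sc.Interface

/-! # MP_03d391_ag, THEOREM SC, block GRB: the section ring is graded -/

set_option autoImplicit false

noncomputable section

open MvPolynomial TensorProduct

namespace Pool.SC

namespace GRB

variable {ι k : Type} [CommRing k]

theorem hz_zero (n : ℤ) : HZ n (0 : MvPolynomial ι k) := Or.inl rfl

theorem hz_add {n : ℤ} {p q : MvPolynomial ι k} (hp : HZ n p) (hq : HZ n q) : HZ n (p + q) := by
  rcases hp with rfl | ⟨m, hm, hp⟩
  · rwa [zero_add]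
  rcases hq with rfl | ⟨m', hm', hq⟩
  · rw [add_zero]
    exact Or.inr ⟨m, hm, hp⟩
  obtain rfl : m = m' := by exact_mod_cast hm.trans hm'.symm
  exact Or.inr ⟨m, hm, hp.add hq⟩

theorem hz_neg {n : ℤ} {p : MvPolynomial ι k} (hp : HZ n p) : HZ n (-p) := by
  rcases hp with rfl | ⟨m, hm, hp⟩
  · rw [neg_zero]
    exact hz_zero n
  exact Or.inr ⟨m, hm, hp.neg⟩

theorem hz_mul {n m : ℤ} {p q : MvPolynomial ι k} (hp : HZ n p) (hq : HZ m q) :
    HZ (n + m) (p * q) := by
  rcases hp with rfl | ⟨a, ha, hp⟩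
  · rw [zero_mul]
    exact hz_zero _
  rcases hq with rfl | ⟨b, hb, hq⟩
  · rw [mul_zero]
    exact hz_zero _
  exact Or.inr ⟨a + b, by push_cast; rw [ha, hb], hp.mul hq⟩

theorem hz_X_pow (i : ι) (N : ℕ) : HZ (N : ℤ) (X i ^ N : MvPolynomial ι k) :=
  Or.inr ⟨N, rfl, by
    have h := (isHomogeneous_X k i).pow N
    rwa [one_mul] at h⟩

theorem hz_X_mul {n : ℤ} {p : MvPolynomial ι k} (hp : HZ n p) (i : ι) (N : ℕ) :
    HZ (n + N) (X i ^ N * p) := by
  rw [add_comm]
  exact hz_mul (hz_X_pow i N) hp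

theorem comp_hz {n : ℤ} {p : MvPolynomial ι k} (hp : HZ n p) (m : ℕ) :
    homogeneousComponent m p = if (m : ℤ) = n then p else 0 := by
  rcases hp with rfl | ⟨a, rfl, hp⟩
  · simp
  · rw [homogeneousComponent_of_mem hp]
    by_cases h : m = a
    · subst h
      simp
    · rw [if_neg h, if_neg]
      intro h1
      exact h (by exact_mod_cast h1)

theorem comp_X_mul (i : ι) (N m : ℕ) (f : MvPolynomial ι k) :
    homogeneousComponent (m + N) (X i ^ N * f) = X i ^ N * homogeneousComponent m f := by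
  conv_lhs => rw [← sum_homogeneousComponent f]
  rw [Finset.mul_sum, map_sum]
  have h1 : ∀ j ∈ Finset.range (f.totalDegree + 1),
      homogeneousComponent (m + N) (X i ^ N * homogeneousComponent j f) =
        if j = m then X i ^ N * homogeneousComponent m f else 0 := by
    intro j _
    have h2 : HZ ((j : ℤ) + N) (X i ^ N * homogeneousComponent j f) :=
      hz_X_mul (Or.inr ⟨j, rfl, homogeneousComponent_isHomogeneous j f⟩) i N
    rw [comp_hz h2]
    by_cases h : j = m
    · subst h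
      simp
    · rw [if_neg h, if_neg]
      push_cast
      intro h3
      exact h (by exact_mod_cast (add_right_cancel h3).symm)
  rw [Finset.sum_congr rfl h1, Finset.sum_ite_eq']
  by_cases h : m ∈ Finset.range (f.totalDegree + 1)
  · rw [if_pos h]
  · rw [if_neg h, homogeneousComponent_eq_zero, mul_zero]
    simpa using h

end GRB

open GRB

section

variable {k : Type} [Field k] {P : Ideal (Pol k)}

theorem GRB.sec_zero (n : ℤ) : IsSec P n (0 : FF P) :=
  ⟨0, fun _ => ⟨0, hz_zero _, by simp⟩⟩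

theorem GRB.sec_add {n : ℤ} {z w : FF P} (hz : IsSec P n z) (hw : IsSec P n w) :
    IsSec P n (z + w) := by
  obtain ⟨N, hz⟩ := hz
  obtain ⟨M, hw⟩ := hw
  refine ⟨N + M, fun i => ?_⟩
  obtain ⟨f, hf, hf'⟩ := hz i
  obtain ⟨g, hg, hg'⟩ := hw i
  refine ⟨X i ^ M * f + X i ^ N * g, ?_, ?_⟩
  · refine hz_add ?_ ?_
    · have := hz_X_mul hf i M
      push_cast
      rwa [add_assoc] at this
    · have := hz_X_mul hg i N
      push_cast
      rwa [add_assoc, add_comm (M : ℤ)] at this
  · rw [map_add, map_mul, map_mul, map_pow, map_pow, ← hf', ← hg']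
    ring

theorem GRB.sec_neg {n : ℤ} {z : FF P} (hz : IsSec P n z) : IsSec P n (-z) := by
  obtain ⟨N, hz⟩ := hz
  refine ⟨N, fun i => ?_⟩
  obtain ⟨f, hf, hf'⟩ := hz i
  exact ⟨-f, hz_neg hf, by rw [map_neg, ← hf']; ring⟩

theorem GRB.sec_mul {n m : ℤ} {z w : FF P} (hz : IsSec P n z) (hw : IsSec P m w) :
    IsSec P (n + m) (z * w) := by
  obtain ⟨N, hz⟩ := hz
  obtain ⟨M, hw⟩ := hw
  refine ⟨N + M, fun i => ?_⟩
  obtain ⟨f, hf, hf'⟩ := hz i
  obtain ⟨g, hg, hg'⟩ := hw i
  refine ⟨f * g, ?_, ?_⟩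
  · have := hz_mul hf hg
    push_cast
    rwa [add_add_add_comm] at this
  · rw [map_mul, ← hf', ← hg']
    ring

theorem GRB.sec_mem {n : ℤ} {z : FF P} (hz : IsSec P n z) : z ∈ secRing P := by
  obtain ⟨N, hz⟩ := hz
  refine ⟨N, fun i => ?_⟩
  obtain ⟨f, -, hf'⟩ := hz i
  exact ⟨f, hf'⟩

theorem GRB.alg_eq (f : Pol k) : algebraMap (Pol k) (FF P) f =
    algebraMap (Pol k ⧸ P) (FF P) (Ideal.Quotient.mk P f) :=
  IsScalarTower.algebraMap_apply (Pol k) (Pol k ⧸ P) (FF P) f

theorem GRB.alg_zero (f : Pol k) : algebraMap (Pol k) (FF P) f = 0 ↔ f ∈ P := by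
  rw [GRB.alg_eq, map_eq_zero_iff _ (IsFractionRing.injective (Pol k ⧸ P) (FF P)),
    Ideal.Quotient.eq_zero_iff_mem]

/-- the graded pieces -/
def GRB.piece (P : Ideal (Pol k)) (n : ℤ) : AddSubgroup (secRing P) where
  carrier := {z | IsSec P n (z : FF P)}
  zero_mem' := GRB.sec_zero n
  add_mem' := fun ha hb => GRB.sec_add ha hb
  neg_mem' := fun ha => GRB.sec_neg ha

end

theorem p_GRB : Stmt_GRB := by
  intro k _ P hP hH hX
  have hdom : IsDomain (Pol k ⧸ P) := Ideal.Quotient.isDomain P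
  set φ := algebraMap (Pol k) (FF P) with hφ
  have hX0 : φ (X 0) ≠ 0 := fun h => hX ((GRB.alg_zero _).1 h)
  refine ⟨GRB.piece P, ⟨?_, ?_⟩, fun n z => Iff.rfl, fun n m z w => GRB.sec_mul, ?_,
    fun n z => GRB.sec_mem⟩
  · rintro ⟨z, hz0⟩
    obtain ⟨N, hz⟩ := id hz0
    choose f hf using hz
    -- the components
    let c : ℤ → Fin 4 → Pol k := fun n i =>
      if 0 ≤ n + N then homogeneousComponent (n + N).toNat (f i) else 0
    have hc : ∀ n i, HZ (n + N) (c n i) := by
      intro n i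
      by_cases h : 0 ≤ n + N
      · simp only [c, if_pos h]
        exact Or.inr ⟨(n + N).toNat, Int.toNat_of_nonneg h, homogeneousComponent_isHomogeneous _ _⟩
      · simp only [c, if_neg h]
        exact hz_zero _
    have hrel : ∀ n i, φ (X 0) ^ N * φ (c n i) = φ (X i) ^ N * φ (c n 0) := by
      intro n i
      by_cases h : 0 ≤ n + N
      · simp only [c, if_pos h]
        have h1 : X 0 ^ N * f i - X i ^ N * f 0 ∈ P := by
          rw [← GRB.alg_zero (P := P), map_sub, map_mul, map_mul, map_pow, map_pow, ← hf i, ← hf 0]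
          ring
        have h2 := hH _ h1 ((n + N).toNat + N)
        rw [map_sub, comp_X_mul, comp_X_mul, ← GRB.alg_zero (P := P), map_sub, map_mul, map_mul,
          map_pow, map_pow, sub_eq_zero] at h2
        exact h2
      · simp only [c, if_neg h, map_zero, mul_zero]
    let w : ℤ → FF P := fun n => φ (c n 0) / φ (X 0) ^ N
    have hw : ∀ n i, φ (X i) ^ N * w n = φ (c n i) := by
      intro n i
      have h0 : φ (X 0) ^ N ≠ 0 := pow_ne_zero _ hX0
      simp only [w]
      rw [mul_div_assoc', div_eq_iff h0, ← hrel, mul_comm]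
    have hsec : ∀ n, IsSec P n (w n) := fun n => ⟨N, fun i => ⟨c n i, hc n i, hw n i⟩⟩
    refine ⟨(Finset.range ((f 0).totalDegree + 1)).image fun m : ℕ => (m : ℤ) - N,
      fun n => ⟨w n, GRB.sec_mem (hsec n)⟩, fun n => hsec n, ?_⟩
    apply Subtype.ext
    rw [AddSubmonoidClass.coe_finsetSum, Finset.sum_image (by
      intro a _ b _ hab
      have : (a : ℤ) - N = (b : ℤ) - N := hab
      exact_mod_cast sub_left_injective this)]
    have h0 : φ (X 0) ^ N ≠ 0 := pow_ne_zero _ hX0
    refine mul_left_cancel₀ h0 ?_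
    change φ (X 0) ^ N * z = _
    rw [hf 0, Finset.mul_sum]
    conv_lhs => rw [← sum_homogeneousComponent (f 0), map_sum]
    refine Finset.sum_congr rfl fun m _ => ?_
    change _ = φ (X 0) ^ N * w _
    rw [hw]
    simp only [c]
    rw [sub_add_cancel, if_pos (by positivity), Int.toNat_natCast]
  · intro s v hv hsum n₀ hn₀
    have hv' : ∀ n, ∃ (N : ℕ) (f : Pol k), HZ (n + N) f ∧ φ (X 0) ^ N * (v n : FF P) = φ f := by
      intro n
      obtain ⟨N, h⟩ := hv n
      obtain ⟨f, h1, h2⟩ := h 0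
      exact ⟨N, f, h1, h2⟩
    choose N f hf hf' using hv'
    set M := ∑ n ∈ s, N n with hM
    have hle : ∀ n ∈ s, N n ≤ M := fun n hn =>
      Finset.single_le_sum (f := N) (fun _ _ => Nat.zero_le _) hn
    let g : ℤ → Pol k := fun n => X 0 ^ (M - N n) * f n
    have hg : ∀ n ∈ s, HZ (n + M) (g n) := by
      intro n hn
      have h1 := hz_X_mul (hf n) (0 : Fin 4) (M - N n)
      have h2 : n + (N n : ℤ) + ((M - N n : ℕ) : ℤ) = n + M := by
        have := hle n hn
        omega
      rwa [h2] at h1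
    have hg' : ∀ n ∈ s, φ (X 0) ^ M * (v n : FF P) = φ (g n) := by
      intro n hn
      simp only [g]
      rw [map_mul, map_pow, ← hf' n, ← mul_assoc, ← pow_add, Nat.sub_add_cancel (hle n hn)]
    have hsumP : ∑ n ∈ s, g n ∈ P := by
      rw [← GRB.alg_zero (P := P), map_sum, ← Finset.sum_congr rfl hg', ← Finset.mul_sum]
      have h1 := congrArg (fun z : secRing P => (z : FF P)) hsum
      simp only [AddSubmonoidClass.coe_finsetSum] at h1
      rw [h1]
      simp
    have hgP : g n₀ ∈ P := by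
      rcases hg n₀ hn₀ with h | ⟨m, hm, hh⟩
      · rw [h]
        exact P.zero_mem
      · have h1 := hH _ hsumP m
        rw [map_sum] at h1
        have h2 : ∑ n ∈ s, homogeneousComponent m (g n) = g n₀ := by
          rw [Finset.sum_eq_single_of_mem n₀ hn₀]
          · rw [comp_hz (hg n₀ hn₀), if_pos hm]
          · intro n hn hne
            rw [comp_hz (hg n hn), if_neg]
            intro h3
            rw [hm] at h3
            exact hne (add_right_cancel h3).symm
        rwa [h2] at h1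
    have h5 : φ (X 0) ^ M * (v n₀ : FF P) = 0 := by
      rw [hg' n₀ hn₀]
      exact (GRB.alg_zero _).2 hgP
    have h6 := (mul_eq_zero.1 h5).resolve_left (pow_ne_zero _ hX0)
    exact Subtype.ext h6
  · intro n f hf
    exact ⟨0, fun i => ⟨f, by simpa using hf, by rw [pow_zero, one_mul]⟩⟩

end Pool.SC
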