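import Pool.Agent.Work.MP_03d391_sc.Interface

/-! Block GRG: regularity of `X 0`, `X 1` modulo `(F, G)` -/

set_option autoImplicit false

noncomputable section

open MvPolynomial TensorProduct

namespace Pool.SC

namespace GRG

theorem res_X0 (n : ℕ) (K : Type) [CommRing K] : res n K (X 0) = 0 := by
  simp [res]

theorem res_Xs (n : ℕ) (K : Type) [CommRing K] (i : Fin n) : res n K (X i.succ) = X i := by
  simp [res]

theorem const_of_hom {σ K : Type} [Field K] {a : ℕ} {F : MvPolynomial σ K}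
    (hF : F.IsHomogeneous a) (h : constantCoeff F ≠ 0) : IsUnit F := by
  have h0 : coeff 0 F ≠ 0 := h
  have ha : a = 0 := by
    have := hF h0
    simpa using this.symm
  subst ha
  have h1 : F.totalDegree = 0 := hF.totalDegree (by rintro rfl; simp at h)
  rw [totalDegree_eq_zero_iff_eq_C] at h1
  rw [h1]
  exact (IsUnit.mk0 _ h0).map C

end GRG

open GRG in
theorem p_GRG (hKO2 : Stmt_KO2) (hKOS : Stmt_KOS) (hRGX : Stmt_RGX) (hRES : Stmt_RES) :
    Stmt_GRG := by
  intro K _ a b N F G hF hG h2 h3 hne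
  obtain ⟨hom3, sur3, ker3⟩ := hRES K 3
  obtain ⟨hom2, sur2, ker2⟩ := hRES K 2
  have e0 : res 2 K (res 3 K (X 0)) = 0 := by rw [res_X0, map_zero]
  have e1 : res 2 K (res 3 K (X 1)) = 0 := by
    have : res 3 K (X 1) = X 0 := res_Xs 3 K 0
    rw [this, res_X0]
  have e2 : res 2 K (res 3 K (X 2)) = X 0 := by
    have : res 3 K (X 2) = X 1 := res_Xs 3 K 1
    rw [this]
    exact res_Xs 2 K 0
  have e3 : res 2 K (res 3 K (X 3)) = X 1 := by
    have : res 3 K (X 3) = X 2 := res_Xs 3 K 2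
    rw [this]
    exact res_Xs 2 K 1
  -- membership under `res ∘ res`
  have push : ∀ h : Pol K, h ∈ Ideal.span {F, G} ⊔ Ideal.span {X 0, X 1} →
      res 2 K (res 3 K h) ∈ Ideal.span {res 2 K (res 3 K F), res 2 K (res 3 K G)} := by
    intro h hh
    rw [Submodule.mem_sup] at hh
    obtain ⟨y, hy, z, hz, rfl⟩ := hh
    rw [Ideal.mem_span_pair] at hy hz ⊢
    obtain ⟨p, q, rfl⟩ := hy
    obtain ⟨u, v, rfl⟩ := hz
    refine ⟨res 2 K (res 3 K p), res 2 K (res 3 K q), ?_⟩
    simp only [map_add, map_mul, e0, e1]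
    ring
  have m2 : (X 0 : Lam K) ^ N ∈
      Ideal.span {res 2 K (res 3 K F), res 2 K (res 3 K G)} := by
    have := push _ h2
    rwa [map_pow, map_pow, e2] at this
  have m3 : (X 1 : Lam K) ^ N ∈
      Ideal.span {res 2 K (res 3 K F), res 2 K (res 3 K G)} := by
    have := push _ h3
    rwa [map_pow, map_pow, e3] at this
  have k2 : Kos (res 2 K (res 3 K F)) (res 2 K (res 3 K G)) := hKO2 K _ _ N m2 m3
  have k3 : Kos (res 3 K F) (res 3 K G) :=
    hKOS K 2 a b (res 3 K F) (res 3 K G) (hom3 a F hF) (hom3 b G hG) k2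
  -- the kernel of `res ∘ res`
  have kk : ∀ h : Pol K, res 2 K (res 3 K h) = 0 → ∃ u v : Pol K, h = X 0 * u + X 1 * v := by
    intro h hh
    obtain ⟨k, hk⟩ := ker2 _ hh
    obtain ⟨k', rfl⟩ := sur3 k
    have h5 : res 3 K (h - X 1 * k') = 0 := by
      have : res 3 K (X 1) = X 0 := res_Xs 3 K 0
      rw [map_sub, map_mul, this, hk, sub_self]
    obtain ⟨m, hm⟩ := ker3 _ h5
    exact ⟨m, k', by rw [← hm]; ring⟩
  have lift : ∀ h : Pol K, res 2 K (res 3 K h) ∈
      Ideal.span {res 2 K (res 3 K F), res 2 K (res 3 K G)} →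
      ∃ p q u v : Pol K, h = (p * F + q * G) + (X 0 * u + X 1 * v) := by
    intro h hh
    rw [Ideal.mem_span_pair] at hh
    obtain ⟨p, q, hpq⟩ := hh
    obtain ⟨p1, rfl⟩ := sur2 p
    obtain ⟨p2, rfl⟩ := sur3 p1
    obtain ⟨q1, rfl⟩ := sur2 q
    obtain ⟨q2, rfl⟩ := sur3 q1
    obtain ⟨u, v, huv⟩ := kk (h - (p2 * F + q2 * G)) (by
      simp only [map_sub, map_add, map_mul]
      rw [← hpq]
      ring)
    exact ⟨p2, q2, u, v, by rw [← huv]; ring⟩
  refine ⟨fun h hh => hRGX K 3 F G h k3 hh, ?_, ?_, ⟨m2, m3⟩, ?_⟩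
  · intro h h' hh
    rw [Ideal.mem_span_pair] at hh
    obtain ⟨p, q, hpq⟩ := hh
    have h5 : (X 0 : MvPolynomial (Fin 3) K) * res 3 K h ∈
        Ideal.span {res 3 K F, res 3 K G} := by
      rw [Ideal.mem_span_pair]
      refine ⟨res 3 K p, res 3 K q, ?_⟩
      have h6 := congrArg (res 3 K) hpq
      have : res 3 K (X 1) = X 0 := res_Xs 3 K 0
      simp only [map_add, map_mul, map_sub, res_X0, this, zero_mul, sub_zero] at h6
      exact h6
    have h7 := hRGX K 2 (res 3 K F) (res 3 K G) (res 3 K h) k2 h5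
    rw [Ideal.mem_span_pair] at h7
    obtain ⟨u, v, huv⟩ := h7
    obtain ⟨u', rfl⟩ := sur3 u
    obtain ⟨v', rfl⟩ := sur3 v
    obtain ⟨h'', h8⟩ := ker3 (h - (u' * F + v' * G)) (by
      simp only [map_sub, map_add, map_mul]
      rw [← huv]
      ring)
    refine ⟨h'', ?_⟩
    rw [Ideal.mem_span_pair]
    exact ⟨u', v', by rw [← h8]; ring⟩
  · intro htop
    have h5 : (1 : Lam K) ∈ Ideal.span {res 2 K (res 3 K F), res 2 K (res 3 K G)} := by
      rw [htop]
      trivial
    obtain ⟨p, q, u, v, h6⟩ := lift 1 (by rw [map_one, map_one]; exact h5)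
    have h7 := congrArg constantCoeff h6
    simp only [map_add, map_mul, map_one, constantCoeff_X, zero_mul, add_zero] at h7
    apply hne
    by_cases hcF : constantCoeff F = 0
    · by_cases hcG : constantCoeff G = 0
      · rw [hcF, hcG] at h7
        simp at h7
      · exact Ideal.eq_top_of_isUnit_mem _ (Ideal.subset_span (by simp))
          (const_of_hom hG hcG)
    · exact Ideal.eq_top_of_isUnit_mem _ (Ideal.subset_span (by simp))
        (const_of_hom hF hcF)
  · intro h hh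
    obtain ⟨p, q, u, v, h6⟩ := lift h hh
    refine ⟨u, v, ?_⟩
    rw [Ideal.mem_span_pair]
    exact ⟨p, q, by rw [h6]; ring⟩

end Pool.SC
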