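import Pool.Agent.Work.MP_03d391_sc.Interface2

/-!
# MP_03d391_ag, THEOREM SC: block HDU
-/

set_option autoImplicit false

noncomputable section

open MvPolynomial TensorProduct

namespace Pool.SC

namespace HDU

theorem emb_X0 (R : Type) [CommRing R] (M : ℕ) : emb R (X 0 ^ M) = X 0 ^ M := by
  unfold emb
  simp

theorem emb_X1 (R : Type) [CommRing R] (M : ℕ) : emb R (X 1 ^ M) = X 1 ^ M := by
  unfold emb
  simp

theorem red_X (R : Type) [CommRing R] [IsLocalRing R] (i : Fin 4) : red R (X i) = X i := by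
  unfold red
  simp

theorem coeff0 {K : Type} [CommRing K] (p : Lam K) (N M : ℕ) :
    coeff (Finsupp.single 0 (N + M) + Finsupp.single 1 N) (X 0 ^ M * p) =
      coeff (Finsupp.single 0 N + Finsupp.single 1 N) p := by
  have h1 : (Finsupp.single 0 (N + M) + Finsupp.single 1 N : Fin 2 →₀ ℕ) =
      Finsupp.single 0 M + (Finsupp.single 0 N + Finsupp.single 1 N) := by
    rw [Finsupp.single_add]
    abel
  rw [h1, X_pow_eq_monomial, coeff_monomial_mul, one_mul]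

theorem coeff1 {K : Type} [CommRing K] (p : Lam K) (N M : ℕ) :
    coeff (Finsupp.single 0 (N + M) + Finsupp.single 1 (N + M)) (X 1 ^ M * p) =
      coeff (Finsupp.single 0 (N + M) + Finsupp.single 1 N) p := by
  have h1 : (Finsupp.single 0 (N + M) + Finsupp.single 1 (N + M) : Fin 2 →₀ ℕ) =
      Finsupp.single 1 M + (Finsupp.single 0 (N + M) + Finsupp.single 1 N) := by
    rw [Finsupp.single_add 1 N M]
    abel
  rw [h1, X_pow_eq_monomial, coeff_monomial_mul, one_mul]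

/-- The claim: the coefficient vanishes. -/
theorem claim (hAL3 : Stmt_AL3) (R 𝔄 F E : Type) [CommRing R] [IsDomain R]
    [IsDiscreteValuationRing R]
    [CommRing 𝔄] [Field F] [CommRing E] (D : Setup R 𝔄 F) (σ : Pol R →+ Lam R) (ρ : 𝔄 →+ R)
    (ι : E →+* F) (θ : Pol (κ R) →+* E) (s0 : E →+ Lam (κ R))
    (hσ : ∀ l f, σ (emb R l * f) = l * σ f)
    (hρ : ∀ (N : ℕ) (f : Pol R) (z : 𝔄), (D.c (X 0) * D.c (X 1)) ^ (N + 1) * z = D.c f →
      ρ z = coeff (Finsupp.single 0 N + Finsupp.single 1 N) (σ f))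
    (hι : Function.Injective ι) (hθ : ∀ f, ι (θ f) = D.g f) (hBS : ∀ x, D.BS x ↔ ∃ e, ι e = x)
    (hs0 : ∀ l z, s0 (θ (emb (κ R) l) * z) = l * s0 z)
    (hsσ : ∀ f, s0 (θ (red R f)) = redL R (σ f))
    (w : 𝔄) (hw : ∀ y : 𝔄, D.BS (D.q y) → ∃ a, ρ (y * w) = D.t * a)
    (N : ℕ) (f : Pol R) (hf : (D.c (X 0) * D.c (X 1)) ^ (N + 1) * w = D.c f) (y : E) :
    coeff (Finsupp.single 0 N + Finsupp.single 1 N) (s0 (y * θ (red R f))) = 0 := by
  have hBy : D.BS (ι y) := (hBS _).2 ⟨y, rfl⟩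
  obtain ⟨y', hy'A, hqy'⟩ := ((hAL3 R 𝔄 F D).1 0 (Or.inl rfl) (ι y)).1 hBy.1
  obtain ⟨M, h, hh⟩ := hy'A
  obtain ⟨a, ha⟩ := hw y' (by rw [hqy']; exact hBy)
  have h1 : (D.c (X 0) * D.c (X 1)) ^ (N + M + 1) * (y' * w) =
      D.c (emb R (X 1 ^ M) * (h * f)) := by
    rw [emb_X1, map_mul, map_mul, map_pow, ← hh, ← hf]
    ring
  have h2 := hρ _ _ _ h1
  rw [ha, hσ, coeff1] at h2
  have h3 : θ (red R h) = θ (X 0) ^ M * y := by
    apply hι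
    rw [hθ, ← D.hq, ← hh, map_mul, map_pow, D.hq, red_X, hqy', map_mul, map_pow, hθ]
  have h4 : s0 (θ (red R (h * f))) = X 0 ^ M * s0 (y * θ (red R f)) := by
    rw [map_mul, map_mul, h3, ← hs0, emb_X0, map_pow, mul_assoc]
  have h5 : coeff (Finsupp.single 0 (N + M) + Finsupp.single 1 N) (redL R (σ (h * f))) = 0 := by
    unfold redL
    rw [coeff_map, ← h2]
    rw [IsLocalRing.residue_eq_zero_iff]
    apply Ideal.mul_mem_right
    exact (IsLocalRing.mem_maximalIdeal _).2 D.ht.not_isUnit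
  rw [← hsσ, h4, coeff0] at h5
  exact h5

end HDU

theorem p_HDU (_hAL1 : Stmt_AL1) (hAL3 : Stmt_AL3) : Stmt_HDU := by
  intro R 𝔄 F E _ _ _ _ _ _ D σ ρ ι θ s0 hσ hρ hι hθ hBS hs0 hsσ hdu w hw
  obtain ⟨N, f, hf⟩ := D.fr w
  have hf' : (D.c (X 0) * D.c (X 1)) ^ (N + 1) * w = D.c (X 0 * X 1 * f) := by
    rw [map_mul, map_mul, ← hf]
    ring
  obtain ⟨u, u', hv⟩ := hdu (θ (red R (X 0 * X 1 * f))) N
    (HDU.claim hAL3 R 𝔄 F E D σ ρ ι θ s0 hσ hρ hι hθ hBS hs0 hsσ w hw N _ hf')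
  have hx0 := D.x0
  have hx1 := D.x1
  -- the two pieces
  have hu : D.BS (ι u) := (hBS _).2 ⟨u, rfl⟩
  have hu' : D.BS (ι u') := (hBS _).2 ⟨u', rfl⟩
  obtain ⟨K1, f1, hf1⟩ := hu.2
  obtain ⟨K0, f0, hf0⟩ := hu'.1
  have e1 : ∃ (N' : ℕ) (f : Pol (κ R)), D.g (X 1) ^ N' * (ι u / D.g (X 1) ^ (N + 1)) = D.g f :=
    ⟨K1 + (N + 1), f1, by
      rw [← hf1, pow_add]
      field_simp⟩
  have e0 : ∃ (N' : ℕ) (f : Pol (κ R)), D.g (X 0) ^ N' * (ι u' / D.g (X 0) ^ (N + 1)) = D.g f :=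
    ⟨K0 + (N + 1), f0, by
      rw [← hf0, pow_add]
      field_simp⟩
  obtain ⟨z1, hz1, hq1⟩ := ((hAL3 R 𝔄 F D).1 1 (Or.inr rfl) _).1 e1
  obtain ⟨z0, hz0, hq0⟩ := ((hAL3 R 𝔄 F D).1 0 (Or.inl rfl) _).1 e0
  refine ⟨z0, hz0, z1, hz1, ?_⟩
  rw [hq0, hq1]
  have h1 : (D.g (X 0) * D.g (X 1)) ^ (N + 1) * D.q w =
      D.g (X 0) ^ (N + 1) * ι u + D.g (X 1) ^ (N + 1) * ι u' := by
    have h2 := congrArg D.q hf'
    have h6 := congrArg ι hv
    rw [hθ, map_add, map_mul ι, map_mul ι, map_pow ι, map_pow ι, hθ, hθ] at h6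
    rw [map_mul, map_pow, map_mul, D.hq, D.hq, HDU.red_X, HDU.red_X, D.hq, h6] at h2
    exact h2
  have h3 : D.g (X 0) ^ (N + 1) ≠ 0 := pow_ne_zero _ hx0
  have h4 : D.g (X 1) ^ (N + 1) ≠ 0 := pow_ne_zero _ hx1
  have h5 : (D.g (X 0) * D.g (X 1)) ^ (N + 1) ≠ 0 := pow_ne_zero _ (mul_ne_zero hx0 hx1)
  apply mul_left_cancel₀ h5
  rw [h1, mul_add, mul_pow]
  field_simp
  ring

end Pool.SC
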