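import Pool.Agent.Work.MP_03d391_sc.Interface

/-!
# Block HFL: the Hilbert function in a flat family (helper4)
-/

set_option autoImplicit false

noncomputable section

open MvPolynomial TensorProduct

namespace Pool.SC

namespace HFL

/-- the forms of degree `n` in the ideal -/
def In {R : Type} [CommRing R] (I : Ideal (Pol R)) (n : ℕ) : Submodule R (Pol R) :=
  homogeneousSubmodule (Fin 4) R n ⊓ I.restrictScalars R

theorem mem_In {R : Type} [CommRing R] {I : Ideal (Pol R)} {n : ℕ} {f : Pol R} :
    f ∈ In I n ↔ f.IsHomogeneous n ∧ f ∈ I := by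
  unfold In
  rw [Submodule.mem_inf, mem_homogeneousSubmodule, Submodule.restrictScalars_mem]

section span

variable {R k : Type} [CommRing R] [Field k] (θ : R →+* k) (I : Ideal (Pol R))

/-- the vector space spanned by the image of the ideal is the ideal generated by the image -/
theorem mem_span_of_mem_map {f : Pol k} (hf : f ∈ I.map (MvPolynomial.map (σ := Fin 4) θ)) :
    f ∈ Submodule.span k (MvPolynomial.map (σ := Fin 4) θ '' (I : Set (Pol R))) := by
  have hX : ∀ (i : Fin 4) (g : Pol k),
      g ∈ Submodule.span k (MvPolynomial.map (σ := Fin 4) θ '' (I : Set (Pol R))) →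
      X i * g ∈ Submodule.span k (MvPolynomial.map (σ := Fin 4) θ '' (I : Set (Pol R))) := by
    intro i g hg
    induction hg using Submodule.span_induction with
    | mem x hx =>
      obtain ⟨y, hy, rfl⟩ := hx
      refine Submodule.subset_span ⟨X i * y, I.mul_mem_left _ hy, ?_⟩
      rw [map_mul, map_X]
    | zero => rw [mul_zero]; exact Submodule.zero_mem _
    | add x y _ _ hx hy => rw [mul_add]; exact Submodule.add_mem _ hx hy
    | smul a x _ hx => rw [mul_smul_comm]; exact Submodule.smul_mem _ _ hx
  have hmul : ∀ (a : Pol k) (g : Pol k),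
      g ∈ Submodule.span k (MvPolynomial.map (σ := Fin 4) θ '' (I : Set (Pol R))) →
      a * g ∈ Submodule.span k (MvPolynomial.map (σ := Fin 4) θ '' (I : Set (Pol R))) := by
    intro a
    induction a using MvPolynomial.induction_on with
    | C c => intro g hg; rw [← smul_eq_C_mul]; exact Submodule.smul_mem _ _ hg
    | add p q hp hq => intro g hg; rw [add_mul]; exact Submodule.add_mem _ (hp g hg) (hq g hg)
    | mul_X p i hp => intro g hg; rw [mul_assoc]; exact hp _ (hX i g hg)
  unfold Ideal.map at hf
  induction hf using Submodule.span_induction with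
  | mem x hx => exact Submodule.subset_span hx
  | zero => exact Submodule.zero_mem _
  | add x y _ _ hx hy => exact Submodule.add_mem _ hx hy
  | smul a x _ hx => rw [smul_eq_mul]; exact hmul a x hx

/-- components of the elements of the extended ideal -/
theorem comp_mem (hI : HomI I) (n : ℕ) {f : Pol k}
    (hf : f ∈ I.map (MvPolynomial.map (σ := Fin 4) θ)) :
    homogeneousComponent n f ∈
      Submodule.span k (MvPolynomial.map (σ := Fin 4) θ '' (In I n : Set (Pol R))) := by
  have h1 := mem_span_of_mem_map θ I hf
  clear hf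
  induction h1 using Submodule.span_induction with
  | mem x hx =>
    obtain ⟨y, hy, rfl⟩ := hx
    refine Submodule.subset_span ⟨homogeneousComponent n y, ?_, ?_⟩
    · exact mem_In.2 ⟨homogeneousComponent_isHomogeneous n y, hI y hy n⟩
    · ext m
      rw [coeff_map, coeff_homogeneousComponent, coeff_homogeneousComponent, coeff_map]
      split_ifs
      · rfl
      · exact map_zero θ
  | zero => rw [map_zero]; exact Submodule.zero_mem _
  | add x y _ _ hx hy => rw [map_add]; exact Submodule.add_mem _ hx hy
  | smul a x _ hx => rw [map_smul]; exact Submodule.smul_mem _ _ hx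

/-- the dimension from a basis with independent images -/
theorem finrank_eq (hI : HomI I) (n : ℕ) {ι : Type} [Fintype ι] (b : Module.Basis ι R (In I n))
    (hli : LinearIndependent k fun i => MvPolynomial.map (σ := Fin 4) θ (b i : Pol R)) :
    Module.finrank k ↥(homogeneousSubmodule (Fin 4) k n ⊓
      (I.map (MvPolynomial.map (σ := Fin 4) θ)).restrictScalars k) = Fintype.card ι := by
  rw [← finrank_span_eq_card hli]
  have key : homogeneousSubmodule (Fin 4) k n ⊓
      (I.map (MvPolynomial.map (σ := Fin 4) θ)).restrictScalars k =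
      Submodule.span k (Set.range fun i => MvPolynomial.map (σ := Fin 4) θ (b i : Pol R)) := by
    apply le_antisymm
    · rintro f ⟨h1, h2⟩
      rw [SetLike.mem_coe, mem_homogeneousSubmodule] at h1
      have h3 := comp_mem θ I hI n (f := f) h2
      rw [homogeneousComponent_of_mem h1, if_pos rfl] at h3
      refine Submodule.span_le.2 ?_ h3
      rintro _ ⟨g, hg, rfl⟩
      have h4 : g = ∑ i, b.repr ⟨g, hg⟩ i • (b i : Pol R) := by
        have h5 := congrArg (Submodule.subtype (In I n)) (b.sum_repr ⟨g, hg⟩)
        rw [map_sum] at h5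
        exact h5.symm
      rw [SetLike.mem_coe, h4, map_sum]
      refine Submodule.sum_mem _ fun i _ => ?_
      rw [smul_eq_C_mul, map_mul, map_C, ← smul_eq_C_mul]
      exact Submodule.smul_mem _ _ (Submodule.subset_span ⟨i, rfl⟩)
    · rw [Submodule.span_le]
      rintro _ ⟨i, rfl⟩
      obtain ⟨h1, h2⟩ := mem_In.1 (b i).2
      exact ⟨(mem_homogeneousSubmodule n _).2 (h1.map θ), Ideal.mem_map_of_mem _ h2⟩
  rw [key]

end span

variable {R K : Type} [CommRing R] [IsDomain R] [IsDiscreteValuationRing R] [Field K] [Algebra R K]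
  [IsFractionRing R K]

/-- both fibres -/
theorem both (I : Ideal (Pol R)) (hI : HomI I)
    (hflat : ∀ (r : R) (f : Pol R), r ≠ 0 → C r * f ∈ I → f ∈ I) (n : ℕ) :
    Module.finrank (κ R) ↥(homogeneousSubmodule (Fin 4) (κ R) n ⊓
      (I.map (red R)).restrictScalars (κ R)) =
    Module.finrank K ↥(homogeneousSubmodule (Fin 4) K n ⊓
      (I.map (toK R K)).restrictScalars K) := by
  have hfin : Module.Finite R (homogeneousSubmodule (Fin 4) R n) :=
    Module.Finite.iff_fg.2 (homogeneousSubmodule_fg _ _ n)
  have hfin2 : Module.Finite R (In I n) := by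
    have h1 : In I n ≤ homogeneousSubmodule (Fin 4) R n := inf_le_left
    exact Module.Finite.of_injective (Submodule.inclusion h1) (Submodule.inclusion_injective h1)
  have hfree : Module.Free R (In I n) := Module.free_of_finite_type_torsion_free'
  let b := Module.Free.chooseBasis R (In I n)
  have hb : LinearIndependent R fun i => (b i : Pol R) :=
    b.linearIndependent.map' (Submodule.subtype (In I n)) (Submodule.ker_subtype _)
  obtain ⟨π, hπ⟩ := IsDiscreteValuationRing.exists_irreducible R
  have h1 : LinearIndependent (κ R) fun i => red R (b i : Pol R) := by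
    rw [Fintype.linearIndependent_iff]
    intro c hc
    choose r hr using fun i => IsLocalRing.residue_surjective (c i)
    have hg : red R (∑ i, r i • (b i : Pol R)) = 0 := by
      rw [map_sum, ← hc]
      refine Finset.sum_congr rfl fun i _ => ?_
      rw [smul_eq_C_mul, map_mul, smul_eq_C_mul, ← hr i]
      unfold red
      rw [map_C]
    set g : Pol R := ∑ i, r i • (b i : Pol R) with hgdef
    have hgI : g ∈ In I n := Submodule.sum_mem _ fun i _ => Submodule.smul_mem _ _ (b i).2
    have hdvd : C π ∣ g := by
      rw [C_dvd_iff_dvd_coeff]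
      intro m
      have h2 : IsLocalRing.residue R (coeff m g) = 0 := by
        have := congrArg (coeff m) hg
        unfold red at this
        rwa [coeff_map, coeff_zero] at this
      rw [IsLocalRing.residue_eq_zero_iff, hπ.maximalIdeal_eq, Ideal.mem_span_singleton] at h2
      exact h2
    obtain ⟨f, hf⟩ := hdvd
    have hfI : f ∈ In I n := by
      rw [mem_In]
      refine ⟨?_, hflat π f hπ.ne_zero ?_⟩
      · intro m hm
        apply (mem_In.1 hgI).1
        rw [hf, coeff_C_mul]
        exact mul_ne_zero hπ.ne_zero hm
      · rw [← hf]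
        exact (mem_In.1 hgI).2
    have hfs : f = ∑ i, b.repr ⟨f, hfI⟩ i • (b i : Pol R) := by
      have h5 := congrArg (Submodule.subtype (In I n)) (b.sum_repr ⟨f, hfI⟩)
      rw [map_sum] at h5
      exact h5.symm
    have hz : ∑ i, (r i - π * b.repr ⟨f, hfI⟩ i) • (b i : Pol R) = 0 := by
      have h6 : ∑ i, (r i - π * b.repr ⟨f, hfI⟩ i) • (b i : Pol R) =
          g - C π * ∑ i, b.repr ⟨f, hfI⟩ i • (b i : Pol R) := by
        rw [hgdef, Finset.mul_sum, ← Finset.sum_sub_distrib]
        refine Finset.sum_congr rfl fun i _ => ?_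
        rw [sub_smul, mul_smul, smul_eq_C_mul _ π]
      rw [h6, ← hfs, hf, sub_self]
    intro i
    have h7 := Fintype.linearIndependent_iff.1 hb _ hz i
    rw [← hr i, sub_eq_zero.1 h7, IsLocalRing.residue_eq_zero_iff, hπ.maximalIdeal_eq]
    exact Ideal.mul_mem_right _ _ (Ideal.mem_span_singleton_self π)
  have h2 : LinearIndependent K fun i => toK R K (b i : Pol R) := by
    rw [← LinearIndependent.iff_fractionRing R K]
    let T : Pol R →ₗ[R] Pol K := (MvPolynomial.mapAlgHom (σ := Fin 4) (Algebra.ofId R K)).toLinearMap
    have hT : ∀ f, T f = toK R K f := fun f => rfl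
    have hTker : T.ker = ⊥ := by
      rw [LinearMap.ker_eq_bot]
      exact MvPolynomial.map_injective _ (IsFractionRing.injective R K)
    exact hb.map' T hTker
  have e1 := finrank_eq (IsLocalRing.residue R) I hI n b h1
  have e2 := finrank_eq (algebraMap R K) I hI n b h2
  unfold red toK
  rw [e1, e2]

end HFL

theorem p_HFL : Stmt_HFL := by
  intro R K _ _ _ _ _ _ I hI hflat n
  have h1 := HFL.both (K := K) I hI hflat n
  have h2 := HFL.both (K := K) (⊤ : Ideal (Pol R)) (fun _ _ _ => Submodule.mem_top)
    (fun _ _ _ _ => Submodule.mem_top) n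
  rw [Ideal.map_top, Ideal.map_top, Submodule.restrictScalars_top, Submodule.restrictScalars_top,
    inf_top_eq, inf_top_eq] at h2
  unfold hil
  rw [h1, h2]

end Pool.SC
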