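import Pool.Agent.Work.MP_03d391_sc.Interface

/-!
# MP_03d391_ag, THEOREM SC, block HFX: the Hilbert function of a free graded module
-/

set_option autoImplicit false

noncomputable section

open MvPolynomial TensorProduct

namespace Pool.SC

namespace HFX

/-- monomials of degree `m` in two variables -/
def eqv (m : ℕ) : ({d : Fin 2 →₀ ℕ | d.degree = m} : Set (Fin 2 →₀ ℕ)) ≃
    Finset.HasAntidiagonal.antidiagonal m where
  toFun d := ⟨(d.1 0, d.1 1), by
    rw [Finset.HasAntidiagonal.mem_antidiagonal]
    have h : d.1.degree = m := d.2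
    rw [Finsupp.degree_eq_sum, Fin.sum_univ_two] at h
    exact h⟩
  invFun p := ⟨Finsupp.equivFunOnFinite.symm ![p.1.1, p.1.2], by
    have h := Finset.HasAntidiagonal.mem_antidiagonal.1 p.2
    change (Finsupp.equivFunOnFinite.symm ![p.1.1, p.1.2]).degree = m
    rw [Finsupp.degree_eq_sum, Fin.sum_univ_two]
    simpa using h⟩
  left_inv d := by
    apply Subtype.ext
    ext i
    fin_cases i <;> simp
  right_inv p := by
    apply Subtype.ext
    simp

theorem fr2 (k : Type) [Field k] (m : ℕ) :
    Module.finrank k (homogeneousSubmodule (Fin 2) k m) = m + 1 := by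
  have : Fintype ({d : Fin 2 →₀ ℕ | d.degree = m} : Set (Fin 2 →₀ ℕ)) :=
    Fintype.ofEquiv _ (eqv m).symm
  have e := (LinearEquiv.ofEq _ _ (homogeneousSubmodule_eq_finsupp_supported (Fin 2) k m)).trans
    (AddMonoidAlgebra.supportedEquivFinsupp (R := k) (S := k)
      ({d : Fin 2 →₀ ℕ | d.degree = m} : Set (Fin 2 →₀ ℕ)))
  rw [e.finrank_eq, Module.finrank_finsupp_self, Fintype.card_congr (eqv m), Fintype.card_coe,
    Finset.Nat.card_antidiagonal]

instance fd (k : Type) [Field k] (n m : ℕ) :
    FiniteDimensional k (homogeneousSubmodule (Fin n) k m) :=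
  Module.Finite.iff_fg.2 (homogeneousSubmodule_fg (Fin n) k m)

theorem hz {k : Type} [Field k] {ι : Type} (n : ℤ) (hn : 0 ≤ n) (l : MvPolynomial ι k) :
    HZ n l ↔ l ∈ homogeneousSubmodule ι k n.toNat := by
  constructor
  · rintro (rfl | ⟨m, hm, h⟩)
    · exact Submodule.zero_mem _
    · have : n.toNat = m := by omega
      rw [this]
      exact h
  · intro h
    exact Or.inr ⟨n.toNat, Int.toNat_of_nonneg hn, h⟩

end HFX

open HFX in
theorem p_HFX : Stmt_HFX := by
  intro k _ E _ θ r β b n hβ hind hex hcl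
  classical
  let : Algebra k E := (θ.comp (C : k →+* Pol k)).toAlgebra
  have hsmul : ∀ (a : k) (z : E), a • z = θ (C a) * z := fun a z => rfl
  let θ' : Pol k →ₗ[k] E :=
    { toFun := θ
      map_add' := map_add θ
      map_smul' := fun a f => by
        rw [MvPolynomial.smul_eq_C_mul, map_mul]
        rfl }
  let V := homogeneousSubmodule (Fin 4) k n
  let φ : V →ₗ[k] E := θ'.domRestrict V
  -- the two-variable side
  let U := (i : Fin r) → homogeneousSubmodule (Fin 2) k ((n : ℤ) - β i).toNat
  let ψ : U →ₗ[k] E :=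
    { toFun := fun l => ∑ i, θ (emb k (l i).1) * b i
      map_add' := fun l l' => by
        rw [← Finset.sum_add_distrib]
        refine Finset.sum_congr rfl fun i _ => ?_
        change θ (emb k ((l i).1 + (l' i).1)) * b i = _
        rw [map_add, map_add, add_mul]
      map_smul' := fun a l => by
        rw [RingHom.id_apply, hsmul, Finset.mul_sum]
        refine Finset.sum_congr rfl fun i _ => ?_
        change θ (emb k (a • (l i).1)) * b i = _
        have h1 : emb k (C a) = C a := by
          change rename _ (C a) = _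
          rw [rename_C]
        rw [MvPolynomial.smul_eq_C_mul, map_mul, map_mul, h1, mul_assoc] }
  have hψ : Function.Injective ψ := by
    rw [injective_iff_map_eq_zero]
    intro l hl
    funext i
    exact Subtype.ext (hind (fun i => (l i).1) hl i)
  have hb : ∀ i, 0 ≤ (n : ℤ) - β i := fun i => sub_nonneg.2 (hβ i)
  have hrange : LinearMap.range φ = LinearMap.range ψ := by
    ext z
    constructor
    · rintro ⟨f, rfl⟩
      obtain ⟨l, hl, h⟩ := hex f.1 (Or.inr ⟨n, rfl, f.2⟩)
      exact ⟨fun i => ⟨l i, (hz _ (hb i) _).1 (hl i)⟩, h.symm⟩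
    · rintro ⟨l, rfl⟩
      obtain ⟨f, hf, h⟩ := hcl (fun i => (l i).1) fun i => (hz _ (hb i) _).2 (l i).2
      exact ⟨⟨f, (hz _ (Int.natCast_nonneg n) _).1 hf⟩, h⟩
  have h1 := LinearMap.finrank_range_add_finrank_ker φ
  have h2 : Module.finrank k (LinearMap.range φ) = ∑ i, (((n : ℤ) - β i).toNat + 1) := by
    rw [hrange, LinearMap.finrank_range_of_inj hψ, Module.finrank_pi_fintype]
    exact Finset.sum_congr rfl fun i _ => fr2 k _
  have h3 : Module.finrank k (LinearMap.ker φ) =
      Module.finrank k ↥(V ⊓ (RingHom.ker θ).restrictScalars k) := by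
    have h4 : (LinearMap.ker φ).map V.subtype = V ⊓ (RingHom.ker θ).restrictScalars k := by
      ext f
      simp only [Submodule.mem_map, LinearMap.mem_ker, Submodule.mem_inf,
        Submodule.restrictScalars_mem, RingHom.mem_ker]
      constructor
      · rintro ⟨f, hf, rfl⟩
        exact ⟨f.2, hf⟩
      · rintro ⟨hf, h⟩
        exact ⟨⟨f, hf⟩, h, rfl⟩
    rw [← h4]
    exact (Submodule.finrank_map_subtype_eq V (LinearMap.ker φ)).symm
  unfold hil
  rw [← h3]
  have h5 : (Module.finrank k V : ℤ) =
      Module.finrank k (LinearMap.range φ) + Module.finrank k (LinearMap.ker φ) := by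
    rw [← h1]
    push_cast
    rfl
  have h6 : ((∑ i, (((n : ℤ) - β i).toNat + 1) : ℕ) : ℤ) = ∑ i, ((n : ℤ) - β i + 1) := by
    push_cast
    refine Finset.sum_congr rfl fun i _ => ?_
    rw [Int.toNat_of_nonneg (hb i)]
  rw [h5, h2, h6]
  ring

end Pool.SC
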