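import Pool.Agent.Work.MP_03d391_sc.Interface

/-! Block HID (helper64). -/

set_option autoImplicit false

noncomputable section

open MvPolynomial TensorProduct

namespace Pool.SC

attribute [local instance] MvPolynomial.gradedAlgebra

theorem p_HID : Stmt_HID := by
  intro K _ a b F G hF hG f hf n
  have h1 : (Ideal.span {F, G}).IsHomogeneous (homogeneousSubmodule (Fin 4) K) := by
    apply Ideal.homogeneous_span
    intro x hx
    rcases hx with rfl | hx
    · exact ⟨a, hF⟩
    · rw [Set.mem_singleton_iff] at hx
      rw [hx]
      exact ⟨b, hG⟩
  exact homogeneousComponent_mem_of_mem h1 hf n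

end Pool.SC
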