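import Pool.Agent.Work.MP_03d391_sc.Interface2

/-!
# MP_03d391_ag, THEOREM SC: block HST
-/

set_option autoImplicit false

noncomputable section

open MvPolynomial TensorProduct

namespace Pool.SC

namespace HST

/-- The component of integral degree `n`. -/
def comp {ι R : Type} [CommRing R] (n : ℤ) (p : MvPolynomial ι R) : MvPolynomial ι R :=
  if 0 ≤ n then homogeneousComponent n.toNat p else 0

lemma hz_comp {ι R : Type} [CommRing R] (n : ℤ) (p : MvPolynomial ι R) : HZ n (comp n p) := by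
  unfold comp
  split_ifs with h
  · exact Or.inr ⟨n.toNat, Int.toNat_of_nonneg h, homogeneousComponent_isHomogeneous _ _⟩
  · exact Or.inl rfl

lemma coeff_comp {ι R : Type} [CommRing R] (n : ℤ) (p : MvPolynomial ι R) (d : ι →₀ ℕ) :
    coeff d (comp n p) = if (d.degree : ℤ) = n then coeff d p else 0 := by
  unfold comp
  by_cases h : 0 ≤ n
  · rw [if_pos h, coeff_homogeneousComponent]
    by_cases h' : (d.degree : ℤ) = n
    · rw [if_pos h', if_pos (by omega)]
    · rw [if_neg h', if_neg (by omega)]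
  · rw [if_neg h, if_neg (by omega), coeff_zero]

lemma ic_sub {ι R : Type} [CommRing R] (n : ℤ) (p q : MvPolynomial ι R) :
    comp n (p - q) = comp n p - comp n q := by
  ext d
  rw [coeff_sub, coeff_comp, coeff_comp, coeff_comp]
  split_ifs
  · rw [coeff_sub]
  · simp

lemma ic_mon {ι R : Type} [CommRing R] (n : ℤ) (s : ι →₀ ℕ) (p : MvPolynomial ι R) :
    comp n (monomial s 1 * p) = monomial s 1 * comp (n - s.degree) p := by
  ext d
  rw [coeff_comp, coeff_monomial_mul', coeff_monomial_mul']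
  by_cases hs : s ≤ d
  · rw [if_pos hs, if_pos hs, coeff_comp]
    have h1 : (d - s).degree + s.degree = d.degree := by
      rw [← map_add, tsub_add_cancel_of_le hs]
    by_cases hd : (d.degree : ℤ) = n
    · rw [if_pos hd, if_pos (by omega)]
    · rw [if_neg hd, if_neg (by omega), mul_zero]
  · rw [if_neg hs, if_neg hs]
    simp

lemma comp_of_HZ {ι R : Type} [CommRing R] (n : ℤ) (p : MvPolynomial ι R) (h : HZ n p) :
    comp n p = p := by
  ext d
  rw [coeff_comp]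
  split_ifs with hd
  · rfl
  · rcases h with h | ⟨m, hm, hp⟩
    · rw [h, coeff_zero]
    · exact (hp.coeff_eq_zero (by omega)).symm

lemma ic_map {ι R S : Type} [CommRing R] [CommRing S] (φ : R →+* S) (n : ℤ)
    (p : MvPolynomial ι R) : comp n (MvPolynomial.map φ p) = MvPolynomial.map φ (comp n p) := by
  ext d
  rw [coeff_comp, coeff_map, coeff_map, coeff_comp]
  split_ifs <;> simp

lemma comp_mem {ι R : Type} [CommRing R] (I : Ideal (MvPolynomial ι R)) (hI : HomI I) (n : ℤ)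
    (p : MvPolynomial ι R) (hp : p ∈ I) : comp n p ∈ I := by
  unfold comp
  split_ifs
  · exact hI p hp _
  · exact I.zero_mem

lemma mon_eq {R : Type} [CommRing R] (a b : ℕ) :
    (X 0 ^ a * X 1 ^ b : Pol R) = monomial (Finsupp.single 0 a + Finsupp.single 1 b) 1 := by
  rw [X_pow_eq_monomial, X_pow_eq_monomial, monomial_mul, one_mul]

lemma deg_eq (a b : ℕ) :
    ((Finsupp.single (0 : Fin 4) a + Finsupp.single (1 : Fin 4) b).degree : ℤ) = a + b := by
  rw [map_add, Finsupp.degree_single, Finsupp.degree_single]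
  push_cast
  ring

end HST

open HST in
theorem p_HST (hAL2 : Stmt_AL2) (hAL3 : Stmt_AL3) : Stmt_HST := by
  intro R 𝔄 F _ _ _ _ _ D j w hw hq
  obtain ⟨u0, hu0, u1, hu1, hq⟩ := hq
  obtain ⟨N, f, hf, hfw⟩ := hw
  obtain ⟨M, h0, hh0⟩ := hu0
  obtain ⟨M', h1, hh1⟩ := hu1
  obtain ⟨_, _, _, _, hAneg, hGadd, _, _, _, _, hAG⟩ := hAL3 R 𝔄 F D
  -- the polynomial
  have key : ∀ (a0 a1 : Pol R) (v0 v1 : 𝔄), D.c (X 0) ^ M * v0 = D.c a0 →
      D.c (X 1) ^ M' * v1 = D.c a1 →
      (D.q w = D.q v0 + D.q v1 ↔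
        red R (X 0 ^ M * X 1 ^ M' * f - X 0 ^ N * X 1 ^ (N + M') * a0 -
          X 0 ^ (N + M) * X 1 ^ N * a1) ∈ D.P) := by
    intro a0 a1 v0 v1 hv0 hv1
    have e : D.c (X 0 ^ M * X 1 ^ M' * f - X 0 ^ N * X 1 ^ (N + M') * a0 -
          X 0 ^ (N + M) * X 1 ^ N * a1) =
        D.c (X 0 ^ (N + M) * X 1 ^ (N + M')) * (w - v0 - v1) := by
      simp only [map_sub, map_mul, map_pow, ← hv0, ← hv1, ← hfw]
      ring
    rw [← D.hg, ← D.hq, e, map_mul, D.hq]
    have hne : D.g (red R (X 0 ^ (N + M) * X 1 ^ (N + M'))) ≠ 0 := by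
      have e2 : red R (X 0 ^ (N + M) * X 1 ^ (N + M')) = X 0 ^ (N + M) * X 1 ^ (N + M') := by
        unfold red
        rw [map_mul, map_pow, map_pow, map_X, map_X]
      rw [e2, map_mul, map_pow, map_pow]
      exact mul_ne_zero (pow_ne_zero _ D.x0) (pow_ne_zero _ D.x1)
    constructor
    · intro h
      rw [map_sub, map_sub, h]
      ring
    · intro h
      have h2 := (mul_eq_zero.mp h).resolve_left hne
      rw [map_sub, map_sub] at h2
      linear_combination h2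
  have hP := (key h0 h1 u0 u1 hh0 hh1).mp hq
  -- the components
  have hP2 := comp_mem D.P D.hP (j + 2 * N + M + M') _ hP
  unfold red at hP2
  rw [ic_map, ic_sub, ic_sub, mon_eq, mon_eq, mon_eq, ic_mon, ic_mon, ic_mon,
    ← mon_eq, ← mon_eq, ← mon_eq, deg_eq, deg_eq, deg_eq] at hP2
  have e1 : j + 2 * (N : ℤ) + M + M' - (M + M') = j + 2 * N := by ring
  have e2 : j + 2 * (N : ℤ) + M + M' - (N + ((N + M' : ℕ) : ℤ)) = j + M := by push_cast; ring
  have e3 : j + 2 * (N : ℤ) + M + M' - (((N + M : ℕ) : ℤ) + N) = j + M' := by push_cast; ring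
  rw [e1, e2, e3, comp_of_HZ _ f hf] at hP2
  obtain ⟨c0, hc0⟩ := (D.u0.pow M).exists_right_inv
  obtain ⟨c1, hc1⟩ := (D.u1.pow M').exists_right_inv
  set a0 := comp (j + M) h0 with ha0
  set a1 := comp (j + M') h1 with ha1
  have hv0 : D.c (X 0) ^ M * (c0 * D.c a0) = D.c a0 := by rw [← mul_assoc, hc0, one_mul]
  have hv1 : D.c (X 1) ^ M' * (c1 * D.c a1) = D.c a1 := by rw [← mul_assoc, hc1, one_mul]
  have hq2 := (key a0 a1 _ _ hv0 hv1).mpr hP2
  have A0 : D.AH 0 j (c0 * D.c a0) := ⟨M, a0, hz_comp _ _, hv0⟩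
  have A1 : D.AH 1 j (c1 * D.c a1) := ⟨M', a1, hz_comp _ _, hv1⟩
  have G : D.GH j (w + -(c0 * D.c a0) + -(c1 * D.c a1)) :=
    hGadd _ _ _ (hGadd _ _ _ ⟨N, f, hf, hfw⟩ (hAG 0 (Or.inl rfl) _ _ (hAneg _ _ _ A0)))
      (hAG 1 (Or.inr rfl) _ _ (hAneg _ _ _ A1))
  have hz : D.q (w + -(c0 * D.c a0) + -(c1 * D.c a1)) = 0 := by
    rw [map_add, map_add, map_neg, map_neg, hq2]
    ring
  obtain ⟨w', hw', hww⟩ := (hAL2 R 𝔄 F D j _ hz).1 G
  refine ⟨_, _, w', A0, A1, hw', ?_⟩
  rw [← hww]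
  ring

end Pool.SC
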