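import Pool.Agent.Work.MP_03d391_sc.Interface

/-!
# Block KO2 (helper12): two polynomials in two variables with finite common zero locus are coprime
-/

set_option autoImplicit false

noncomputable section

open MvPolynomial TensorProduct

namespace Pool.SC

theorem KO2.relPrime (K : Type) [Field K] (f g : Lam K) (N : ℕ)
    (hx : (X 0 : Lam K) ^ N ∈ Ideal.span {f, g}) (hy : (X 1 : Lam K) ^ N ∈ Ideal.span {f, g}) :
    IsRelPrime f g := by
  intro d hf hg
  have hle : Ideal.span {f, g} ≤ Ideal.span {d} := by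
    rw [Ideal.span_le]
    intro z hz
    rcases hz with rfl | hz
    · exact Ideal.mem_span_singleton.mpr hf
    · rw [Set.mem_singleton_iff.mp hz]
      exact Ideal.mem_span_singleton.mpr hg
  have h0 : d ∣ (X 0 : Lam K) ^ N := Ideal.mem_span_singleton.mp (hle hx)
  have h1 : d ∣ (X 1 : Lam K) ^ N := Ideal.mem_span_singleton.mp (hle hy)
  have p0 : Prime (X 0 : Lam K) := MvPolynomial.X_prime
  have p1 : Prime (X 1 : Lam K) := MvPolynomial.X_prime
  have hrel : IsRelPrime (X 0 : Lam K) (X 1) := by
    rw [p0.irreducible.isRelPrime_iff_not_dvd]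
    rw [MvPolynomial.X_dvd_X]
    simp
  exact (hrel.pow : IsRelPrime ((X 0 : Lam K) ^ N) (X 1 ^ N)) h0 h1

theorem p_KO2 : Stmt_KO2 := by
  intro K _ f g N hx hy
  have hrel := KO2.relPrime K f g N hx hy
  intro u v h
  have h1 : g ∣ u * f := ⟨-v, by linear_combination h⟩
  have h2 : g ∣ u := hrel.symm.dvd_of_dvd_mul_right h1
  obtain ⟨w, hw⟩ := h2
  by_cases hg : g = 0
  · subst hg
    have hu : IsUnit f := isRelPrime_zero_right.mp hrel
    obtain ⟨c, hc⟩ := hu.exists_right_inv
    refine ⟨-(v * c), ?_, ?_⟩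
    · rw [hw]; ring
    · linear_combination (-v) * hc
  · refine ⟨w, by rw [hw]; ring, ?_⟩
    apply mul_left_cancel₀ hg
    rw [hw] at h
    linear_combination h

end Pool.SC
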