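import Pool.Agent.Work.MP_03d391_sc.Interface

/-!
# Block KOS: syzygies lift
-/

set_option autoImplicit false

noncomputable section

open MvPolynomial TensorProduct

namespace Pool.SC

namespace KOS

variable {K ι : Type} [Field K]

theorem comp_mul_le (p q : MvPolynomial ι K) (i n : ℕ) (hq : q.IsHomogeneous i) (h : i ≤ n) :
    homogeneousComponent n (p * q) = homogeneousComponent (n - i) p * q := by
  letI := gradedAlgebra (σ := ι) (R := K)
  have e : ∀ (r : MvPolynomial ι K) (m : ℕ),
      (DirectSum.decompose (homogeneousSubmodule ι K) r m : MvPolynomial ι K) =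
        homogeneousComponent m r := fun r m => decomposition.decompose'_apply r m
  have := DirectSum.coe_decompose_mul_of_right_mem_of_le (homogeneousSubmodule ι K) (a := p)
    (b := q) (n := n) (i := i) ((mem_homogeneousSubmodule i q).mpr hq) h
  rwa [e, e] at this

theorem comp_mul_lt (p q : MvPolynomial ι K) (i n : ℕ) (hq : q.IsHomogeneous i) (h : ¬ i ≤ n) :
    homogeneousComponent n (p * q) = 0 := by
  letI := gradedAlgebra (σ := ι) (R := K)
  have e : ∀ (r : MvPolynomial ι K) (m : ℕ),
      (DirectSum.decompose (homogeneousSubmodule ι K) r m : MvPolynomial ι K) =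
        homogeneousComponent m r := fun r m => decomposition.decompose'_apply r m
  have := DirectSum.coe_decompose_mul_of_right_mem_of_not_le (homogeneousSubmodule ι K) (a := p)
    (b := q) (n := n) (i := i) ((mem_homogeneousSubmodule i q).mpr hq) h
  rwa [e] at this

theorem comp_same (p : MvPolynomial ι K) (n : ℕ) (hp : p.IsHomogeneous n) :
    homogeneousComponent n p = p := by
  rw [homogeneousComponent_of_mem ((mem_homogeneousSubmodule n p).mpr hp), if_pos rfl]

/-- homogeneous of degree `d - a` -/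
def P (a d : ℕ) (u : MvPolynomial ι K) : Prop :=
  (a ≤ d → u.IsHomogeneous (d - a)) ∧ (d < a → u = 0)

/-- a syzygy of homogeneous polynomials: the cofactor may be taken homogeneous -/
theorem cof {a b d : ℕ} {f g u v w : MvPolynomial ι K} (hf : f.IsHomogeneous a)
    (hg : g.IsHomogeneous b) (hu : P a d u) (hv : P b d v) (h1 : u = w * g) (h2 : v = -(w * f)) :
    ∃ w', P (a + b) d w' ∧ u = w' * g ∧ v = -(w' * f) := by
  by_cases hd : a + b ≤ d
  · refine ⟨homogeneousComponent (d - (a + b)) w, ⟨fun _ =>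
      homogeneousComponent_isHomogeneous _ _, fun h => absurd h (by omega)⟩, ?_, ?_⟩
    · rw [← comp_same u (d - a) (hu.1 (by omega)), h1, comp_mul_le _ _ b _ hg (by omega),
        show d - a - b = d - (a + b) by omega]
    · rw [← comp_same v (d - b) (hv.1 (by omega)), h2, map_neg, comp_mul_le _ _ a _ hf (by omega),
        show d - b - a = d - (a + b) by omega]
  · refine ⟨0, ⟨fun h => absurd h hd, fun _ => rfl⟩, ?_, ?_⟩
    · rw [zero_mul]
      by_cases ha : a ≤ d
      · rw [← comp_same u (d - a) (hu.1 ha), h1, comp_mul_lt _ _ b _ hg (by omega)]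
      · exact hu.2 (by omega)
    · rw [zero_mul, neg_zero]
      by_cases hb : b ≤ d
      · rw [← comp_same v (d - b) (hv.1 hb), h2, map_neg, comp_mul_lt _ _ a _ hf (by omega),
          neg_zero]
      · exact hv.2 (by omega)

/-- division by `X 0` -/
theorem divX {n : ℕ} {a d : ℕ} {z h : MvPolynomial (Fin (n + 1)) K} (hz : P a d z)
    (h1 : z = X 0 * h) : ∃ z', z = X 0 * z' ∧ (d = 0 → z' = 0) ∧ ∀ e, d = e + 1 → P a e z' := by
  have hX : (X 0 : MvPolynomial (Fin (n + 1)) K).IsHomogeneous 1 := isHomogeneous_X _ _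
  by_cases had : a + 1 ≤ d
  · refine ⟨homogeneousComponent (d - a - 1) h, ?_, fun h => absurd h (by omega), fun e he =>
      ⟨fun _ => ?_, fun h => absurd h (by omega)⟩⟩
    · have h2 : z = h * X 0 := by rw [h1, mul_comm]
      rw [mul_comm, ← comp_mul_le _ _ 1 _ hX (by omega), ← h2]
      exact (comp_same z (d - a) (hz.1 (by omega))).symm
    · have : e - a = d - a - 1 := by omega
      rw [this]
      exact homogeneousComponent_isHomogeneous _ _
  · have hz0 : z = 0 := by
      by_cases ha : a ≤ d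
      · have h2 : z = h * X 0 := by rw [h1, mul_comm]
        rw [← comp_same z (d - a) (hz.1 ha), h2, comp_mul_lt _ _ 1 _ hX (by omega)]
      · exact hz.2 (by omega)
    exact ⟨0, by rw [mul_zero, hz0], fun _ => rfl, fun e he =>
      ⟨fun _ => isHomogeneous_zero _ _ _, fun _ => rfl⟩⟩

theorem res_rename (n : ℕ) (p : MvPolynomial (Fin n) K) :
    res n K (rename Fin.succ p) = p := by
  unfold res
  rw [aeval_rename]
  have : (Fin.cases (motive := fun _ => MvPolynomial (Fin n) K) 0 (fun i => X i)) ∘ Fin.succ =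
      (X : Fin n → MvPolynomial (Fin n) K) := by
    funext i
    rfl
  rw [this, aeval_X_left]
  rfl

theorem step (hRES : Stmt_RES) (n a b : ℕ) (F G : MvPolynomial (Fin (n + 1)) K)
    (hF : F.IsHomogeneous a) (hG : G.IsHomogeneous b) (hK : Kos (res n K F) (res n K G)) (d : ℕ)
    (u v : MvPolynomial (Fin (n + 1)) K) (hu : P a d u) (hv : P b d v) (huv : u * F + v * G = 0) :
    ∃ w u' v', u = w * G + X 0 * u' ∧ v = -(w * F) + X 0 * v' ∧
      (d = 0 → u' = 0 ∧ v' = 0) ∧ (∀ e, d = e + 1 → P a e u' ∧ P b e v') := by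
  obtain ⟨r1, r2, r3⟩ := hRES K n
  have hres : ∀ (c e : ℕ) (z : MvPolynomial (Fin (n + 1)) K), P c e z → P c e (res n K z) :=
    fun c e z hz => ⟨fun h => r1 _ _ (hz.1 h), fun h => by rw [hz.2 h, map_zero]⟩
  have h0 : res n K u * res n K F + res n K v * res n K G = 0 := by
    rw [← map_mul, ← map_mul, ← map_add, huv, map_zero]
  obtain ⟨w0, hw0, hw0'⟩ := hK _ _ h0
  obtain ⟨w1, hP, hw1, hw1'⟩ := cof (r1 _ _ hF) (r1 _ _ hG) (hres _ _ _ hu) (hres _ _ _ hv)
    hw0 hw0'
  have hw : P (a + b) d (rename Fin.succ w1 : MvPolynomial (Fin (n + 1)) K) :=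
    ⟨fun h => (hP.1 h).rename_isHomogeneous, fun h => by rw [hP.2 h, map_zero]⟩
  have hzu : P a d (u - rename Fin.succ w1 * G) := by
    refine ⟨fun h => ?_, fun h => ?_⟩
    · refine (hu.1 h).sub ?_
      by_cases hab : a + b ≤ d
      · have := (hw.1 hab).mul hG
        have he : d - (a + b) + b = d - a := by omega
        rwa [he] at this
      · rw [hw.2 (by omega), zero_mul]
        exact isHomogeneous_zero _ _ _
    · rw [hu.2 h, hw.2 (by omega), zero_mul, sub_zero]
  have hzv : P b d (v + rename Fin.succ w1 * F) := by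
    refine ⟨fun h => ?_, fun h => ?_⟩
    · refine (hv.1 h).add ?_
      by_cases hab : a + b ≤ d
      · have := (hw.1 hab).mul hF
        have he : d - (a + b) + a = d - b := by omega
        rwa [he] at this
      · rw [hw.2 (by omega), zero_mul]
        exact isHomogeneous_zero _ _ _
    · rw [hv.2 h, hw.2 (by omega), zero_mul, add_zero]
  obtain ⟨h1, hh1⟩ := r3 (u - rename Fin.succ w1 * G) (by
    rw [map_sub, map_mul, res_rename, ← hw1, sub_self])
  obtain ⟨h2, hh2⟩ := r3 (v + rename Fin.succ w1 * F) (by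
    rw [map_add, map_mul, res_rename, hw1', neg_add_cancel])
  obtain ⟨u', hu1, hu2, hu3⟩ := divX hzu hh1
  obtain ⟨v', hv1, hv2, hv3⟩ := divX hzv hh2
  refine ⟨rename Fin.succ w1, u', v', ?_, ?_, fun h => ⟨hu2 h, hv2 h⟩,
    fun e he => ⟨hu3 e he, hv3 e he⟩⟩
  · rw [← hu1]
    ring
  · rw [← hv1]
    ring

theorem claim (hRES : Stmt_RES) (n a b : ℕ) (F G : MvPolynomial (Fin (n + 1)) K)
    (hF : F.IsHomogeneous a) (hG : G.IsHomogeneous b) (hK : Kos (res n K F) (res n K G)) (d : ℕ) :
    ∀ u v : MvPolynomial (Fin (n + 1)) K, P a d u → P b d v → u * F + v * G = 0 →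
      ∃ w, u = w * G ∧ v = -(w * F) := by
  have hX0 : (X 0 : MvPolynomial (Fin (n + 1)) K) ≠ 0 := X_ne_zero _
  induction d with
  | zero =>
    intro u v hu hv huv
    obtain ⟨w, u', v', h1, h2, h3, -⟩ := step hRES n a b F G hF hG hK _ u v hu hv huv
    obtain ⟨h4, h5⟩ := h3 rfl
    refine ⟨w, ?_, ?_⟩
    · rw [h1, h4, mul_zero, add_zero]
    · rw [h2, h5, mul_zero, add_zero]
  | succ e ih =>
    intro u v hu hv huv
    obtain ⟨w, u', v', h1, h2, -, h3⟩ := step hRES n a b F G hF hG hK _ u v hu hv huv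
    obtain ⟨h4, h5⟩ := h3 e rfl
    have h6 : u' * F + v' * G = 0 := by
      have h7 : X 0 * (u' * F + v' * G) = 0 := by
        rw [h1, h2] at huv
        linear_combination huv
      exact (mul_eq_zero.mp h7).resolve_left hX0
    obtain ⟨w', h8, h9⟩ := ih u' v' h4 h5 h6
    refine ⟨w + X 0 * w', ?_, ?_⟩
    · rw [h1, h8]
      ring
    · rw [h2, h9]
      ring

/-- the component of degree `d - a` -/
def cp (a d : ℕ) (u : MvPolynomial ι K) : MvPolynomial ι K :=
  if a ≤ d then homogeneousComponent (d - a) u else 0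

theorem cp_P (a d : ℕ) (u : MvPolynomial ι K) : P a d (cp a d u) := by
  unfold cp
  refine ⟨fun h => ?_, fun h => ?_⟩
  · rw [if_pos h]
    exact homogeneousComponent_isHomogeneous _ _
  · rw [if_neg (by omega)]

theorem cp_mul (a d : ℕ) (u F : MvPolynomial ι K) (hF : F.IsHomogeneous a) :
    cp a d u * F = homogeneousComponent d (u * F) := by
  unfold cp
  split_ifs with h
  · rw [comp_mul_le _ _ a _ hF h]
  · rw [comp_mul_lt _ _ a _ hF h, zero_mul]

theorem cp_sum (a M : ℕ) (u : MvPolynomial ι K) (hM : a + (u.totalDegree + 1) ≤ M) :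
    ∑ d ∈ Finset.range M, cp a d u = u := by
  obtain ⟨k, rfl⟩ := Nat.exists_eq_add_of_le hM
  rw [Nat.add_assoc, Finset.sum_range_add, Finset.sum_range_add]
  have h1 : ∑ x ∈ Finset.range a, cp a x u = 0 := by
    refine Finset.sum_eq_zero fun x hx => ?_
    unfold cp
    rw [if_neg (by have := Finset.mem_range.mp hx; omega)]
  have h2 : ∀ x, cp a (a + x) u = homogeneousComponent x u := by
    intro x
    unfold cp
    rw [if_pos (by omega)]
    congr 2
    omega
  have h3 : ∑ x ∈ Finset.range k, homogeneousComponent (u.totalDegree + 1 + x) u = 0 := by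
    refine Finset.sum_eq_zero fun x _ => homogeneousComponent_eq_zero _ _ (by omega)
  rw [h1]
  simp only [h2]
  rw [h3, sum_homogeneousComponent, zero_add, add_zero]

end KOS

theorem p_KOS (hRES : Stmt_RES) : Stmt_KOS := by
  intro K _ n a b F G hF hG hK u v huv
  have h1 : ∀ d : ℕ, ∃ w, KOS.cp a d u = w * G ∧ KOS.cp b d v = -(w * F) := by
    intro d
    refine KOS.claim hRES n a b F G hF hG hK d _ _ (KOS.cp_P a d u) (KOS.cp_P b d v) ?_
    rw [KOS.cp_mul a d u F hF, KOS.cp_mul b d v G hG, ← map_add, huv, map_zero]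
  choose w hw hw' using h1
  have hu := KOS.cp_sum a (a + (u.totalDegree + 1) + (b + (v.totalDegree + 1))) u (by omega)
  have hv := KOS.cp_sum b (a + (u.totalDegree + 1) + (b + (v.totalDegree + 1))) v (by omega)
  refine ⟨∑ d ∈ Finset.range (a + (u.totalDegree + 1) + (b + (v.totalDegree + 1))), w d, ?_, ?_⟩
  · rw [Finset.sum_mul]
    exact hu.symm.trans (Finset.sum_congr rfl fun d _ => hw d)
  · rw [Finset.sum_mul, ← Finset.sum_neg_distrib]
    exact hv.symm.trans (Finset.sum_congr rfl fun d _ => hw' d)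

end Pool.SC
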