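import Pool.Agent.Work.MP_03d391_sc.Interface2

/-! # Block LAL -/

set_option autoImplicit false

noncomputable section

open MvPolynomial TensorProduct

namespace Pool.SC

theorem p_LAL (hAL1 : Stmt_AL1) (hAL2 : Stmt_AL2) (hAL3 : Stmt_AL3) (hSEP : Stmt_SEP) :
    Stmt_LAL := by
  intro R 𝔄 F _ _ _ _ _ D hF hLev j x hx
  obtain ⟨hreg, -, -, -⟩ := hAL1 R 𝔄 F D
  obtain ⟨-, -, haddA, hsmulA, hnegA, -, -, -, -, -, -⟩ := hAL3 R 𝔄 F D
  obtain ⟨z0, z1, w, h0, h1, hw, q0, q1, e⟩ := hLev 1 le_rfl j x hx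
  rw [pow_one] at e
  have key : ∀ n : ℕ, ∃ u0 u1 w' : 𝔄, D.AH 0 j u0 ∧ D.AH 1 j u1 ∧ D.GH j w' ∧
      w = u0 + u1 + D.c (C D.t) ^ n * w' := by
    intro n
    obtain ⟨z0', z1', w', h0', h1', hw', q0', q1', e'⟩ := hLev (n + 1) (by omega) j x hx
    obtain ⟨c0, hc0, ec0⟩ := (hAL2 R 𝔄 F D j (z0 - z0') (by
      rw [map_sub, q0, q0', sub_self])).2.1 (by
        rw [sub_eq_add_neg]; exact haddA 0 _ _ _ h0 (hnegA 0 _ _ h0'))
    obtain ⟨c1, hc1, ec1⟩ := (hAL2 R 𝔄 F D j (z1 - z1') (by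
      rw [map_sub, q1, q1', sub_self])).2.2 (by
        rw [sub_eq_add_neg]; exact haddA 1 _ _ _ h1 (hnegA 1 _ _ h1'))
    refine ⟨c0, -c1, w', hc0, hnegA 1 _ _ hc1, hw', ?_⟩
    have h3 : w - (c0 + -c1 + D.c (C D.t) ^ n * w') = 0 := by
      apply hreg
      linear_combination (-1 : 𝔄) * e + ec0 - ec1 + e'
    exact sub_eq_zero.mp h3
  obtain ⟨u0, u1, hu0, hu1, ew⟩ := hSEP R 𝔄 F D hF j w hw key
  have hqt : D.q (D.c (C D.t)) = 0 := by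
    rw [D.hq]
    have : red R (C D.t) = 0 := by
      unfold red
      rw [map_C, (IsLocalRing.residue_eq_zero_iff D.t).mpr, C_0]
      exact (IsLocalRing.mem_maximalIdeal _).mpr D.ht.not_isUnit
    rw [this, map_zero]
  refine ⟨z0 - D.c (C D.t) * u0, ?_, ?_, ?_⟩
  · rw [sub_eq_add_neg]
    exact haddA 0 _ _ _ h0 (hnegA 0 _ _ (hsmulA 0 _ _ _ hu0))
  · have h4 : z0 - D.c (C D.t) * u0 = z1 + D.c (C D.t) * u1 := by
      rw [ew] at e
      linear_combination e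
    rw [h4]
    exact haddA 1 _ _ _ h1 (hsmulA 1 _ _ _ hu1)
  · rw [map_sub, map_mul, hqt, zero_mul, sub_zero, q0]

end Pool.SC
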