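import Pool.Agent.Work.MP_03d391_sc.Interface2

/-! # Block LFT: the induction step of the lifting argument -/

set_option autoImplicit false

noncomputable section

open MvPolynomial TensorProduct

namespace Pool.SC

theorem p_LFT (hAL1 : Stmt_AL1) (_hAL2 : Stmt_AL2) (hAL3 : Stmt_AL3) (hHST : Stmt_HST)
    (hDER : Stmt_DER) : Stmt_LFT := by
  intro R 𝔄 F _ _ _ _ _ D _ B d ρ halg hB hdec hex ρlin ρ0 ρ1 ρdeg hdual n hn hLev j x hx
  obtain ⟨treg, qker, tA0, tA1⟩ := hAL1 R 𝔄 F D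
  obtain ⟨frA, frAH, AHadd, AHsmul, AHneg, GHadd, GHsmul, GHneg, GHmul, AHA, AHGH⟩ :=
    hAL3 R 𝔄 F D
  have hTn : ∀ m : ℕ, D.c (C D.t) ^ m = D.c (C (D.t ^ m)) := by
    intro m
    rw [← map_pow, C_pow]
  have hqT : D.q (D.c (C D.t)) = 0 := (qker _).2 ⟨1, (mul_one _).symm⟩
  have hBHB : ∀ (m : ℤ) (y : F), D.BH m y → y ∈ B := by
    rintro m y ⟨⟨N0, f0, -, h0⟩, ⟨N1, f1, -, h1⟩⟩
    exact (hB y).2 ⟨⟨N0, f0, h0⟩, ⟨N1, f1, h1⟩⟩
  -- lifts of all elements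
  have stepA : ∀ y ∈ B, ∃ z0 ∈ D.A 0, ∃ z1 ∈ D.A 1, ∃ w, D.q z0 = y ∧ D.q z1 = y ∧
      z0 - z1 = D.c (C D.t) ^ n * w := by
    intro y hy
    obtain ⟨s, v, hv, rfl⟩ := hdec y hy
    refine Finset.sum_induction v (fun y => ∃ z0 ∈ D.A 0, ∃ z1 ∈ D.A 1, ∃ w, D.q z0 = y ∧
      D.q z1 = y ∧ z0 - z1 = D.c (C D.t) ^ n * w) ?_ ?_ ?_
    · rintro a b ⟨z0, h0, z1, h1, w, e0, e1, e2⟩ ⟨z0', h0', z1', h1', w', e0', e1', e2'⟩
      refine ⟨z0 + z0', (D.A 0).add_mem h0 h0', z1 + z1', (D.A 1).add_mem h1 h1', w + w',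
        by rw [map_add, e0, e0'], by rw [map_add, e1, e1'], ?_⟩
      rw [mul_add, ← e2, ← e2']
      ring
    · exact ⟨0, (D.A 0).zero_mem, 0, (D.A 1).zero_mem, 0, map_zero _, map_zero _, by ring⟩
    · intro m _
      obtain ⟨z0, z1, w, h0, h1, -, e0, e1, e2⟩ := hLev m (v m) (hv m)
      exact ⟨z0, AHA _ _ _ h0, z1, AHA _ _ _ h1, w, e0, e1, e2⟩
  have hder := hDER (Pol (κ R)) 𝔄 F D.q (D.c (C D.t)) (D.A 0) (D.A 1) B n treg qker tA0 tA1
    (by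
      intro y
      rw [hB, Setup.BS, frA 0 (Or.inl rfl), frA 1 (Or.inr rfl)])
    (by
      intro f
      obtain ⟨f', rfl⟩ : ∃ f' : Pol R, red R f' = f :=
        MvPolynomial.map_surjective _ IsLocalRing.residue_surjective f
      refine ⟨D.c f', ⟨0, f', by simp⟩, ⟨0, f', by simp⟩, ?_⟩
      rw [D.hq, halg])
    hn stepA
  obtain ⟨z0, z1, w, hz0, hz1, hw, e0, e1, e2⟩ := hLev j x hx
  have claim : ∀ y : 𝔄, D.BS (D.q y) → ∃ a, ρ (y * w) = D.t * a := by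
    intro y hy
    obtain ⟨s, v, hv, hyv⟩ := hdec (D.q y) ((hB _).2 hy)
    have hlift : ∀ m : ℤ, ∃ z, D.AH 0 m z ∧ D.q z = v m := fun m =>
      frAH 0 (Or.inl rfl) m (v m) (hv m).1
    choose ym hym hqym using hlift
    have hone : ∀ m : ℤ, ∃ a, ρ (ym m * w) = D.t * a := by
      intro m
      by_cases hmj : m + j = d - 2
      · obtain ⟨z, hz⟩ := hex j m (by rw [add_comm]; exact hmj) ⟨x, hBHB j x hx⟩
          ⟨v m, hBHB m _ (hv m)⟩ hx (hv m)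
        obtain ⟨z0', h0', z1', h1', w', e0', e1', e2'⟩ := stepA z z.2
        obtain ⟨u0, hu0, u1, hu1, hu⟩ := hder ⟨x, hBHB j x hx⟩ ⟨v m, hBHB m _ (hv m)⟩ z hz
          z0 (AHA _ _ _ hz0) z1 (AHA _ _ _ hz1) w e0 e1 e2 z0' h0' z1' h1' w' e0' e1' e2'
        have hk : D.q (ym m * w - w' - u0 - u1) = 0 := by
          rw [map_sub, map_sub, map_sub, map_mul, hqym]
          linear_combination hu
        obtain ⟨e, he⟩ := (qker _).1 hk
        have hw' : ρ w' = 0 := by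
          have h1 : D.t ^ n * ρ w' = 0 := by
            rw [← ρlin, ← hTn, ← e2', map_sub, ρ0 _ h0', ρ1 _ h1', sub_zero]
          rcases mul_eq_zero.1 h1 with h2 | h2
          · exact absurd (pow_eq_zero_iff (by omega) |>.1 h2) D.ht.ne_zero
          · exact h2
        refine ⟨ρ e, ?_⟩
        have h3 : ym m * w = w' + u0 + u1 + D.c (C D.t) * e := by
          rw [← he]
          ring
        rw [h3, map_add, map_add, map_add, hw', ρ0 _ hu0, ρ1 _ hu1, ρlin]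
        ring
      · refine ⟨0, ?_⟩
        rw [mul_zero]
        exact ρdeg (m + j) _ (GHmul _ _ _ _ (AHGH 0 (Or.inl rfl) _ _ (hym m)) hw) hmj
    choose am ham using hone
    have hk : D.q (y - ∑ m ∈ s, ym m) = 0 := by
      rw [map_sub, map_sum, hyv, sub_eq_zero]
      exact Finset.sum_congr rfl fun m _ => (hqym m).symm
    obtain ⟨e, he⟩ := (qker _).1 hk
    refine ⟨∑ m ∈ s, am m + ρ (e * w), ?_⟩
    have h3 : y * w = ∑ m ∈ s, ym m * w + D.c (C D.t) * (e * w) := by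
      have h4 : y = ∑ m ∈ s, ym m + D.c (C D.t) * e := by
        rw [← he]
        ring
      rw [h4, add_mul, Finset.sum_mul, mul_assoc]
    rw [h3, map_add, map_sum, ρlin, mul_add, Finset.mul_sum]
    congr 1
    exact Finset.sum_congr rfl fun m _ => ham m
  obtain ⟨u0, u1, w', hu0, hu1, hw', hww⟩ := hHST R 𝔄 F D j w hw (hdual w claim)
  have hqTn : D.q (D.c (C D.t) ^ n) = 0 := by
    rw [map_pow, hqT, zero_pow (by omega)]
  refine ⟨z0 + -(D.c (C (D.t ^ n)) * u0), z1 + D.c (C (D.t ^ n)) * u1, w', ?_, ?_, hw', ?_, ?_,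
    ?_⟩
  · exact AHadd _ _ _ _ hz0 (AHneg _ _ _ (AHsmul _ _ _ _ hu0))
  · exact AHadd _ _ _ _ hz1 (AHsmul _ _ _ _ hu1)
  · rw [← hTn, map_add, map_neg, map_mul, hqTn, e0]
    ring
  · rw [← hTn, map_add, map_mul, hqTn, e1]
    ring
  · rw [← hTn]
    linear_combination e2 + D.c (C D.t) ^ n * hww

end Pool.SC
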