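import Pool.Agent.Work.MP_03d391_sc.Interface2

set_option autoImplicit false

noncomputable section

open MvPolynomial TensorProduct

namespace Pool.SC

namespace LOC

theorem pw {R : Type} [CommRing R] (I : Ideal (Pol R)) (hx0 : ∀ f, X 0 * f ∈ I → f ∈ I)
    (hx1 : ∀ f, X 1 * f ∈ I → f ∈ I) (n : ℕ) : ∀ f : Pol R, (X 0 * X 1) ^ n * f ∈ I → f ∈ I := by
  induction n with
  | zero => intro f h; simpa using h
  | succ n ih =>
    intro f h
    refine hx1 f (hx0 _ (ih _ ?_))
    have h2 : (X 0 * X 1) ^ n * (X 0 * (X 1 * f)) = (X 0 * X 1) ^ (n + 1) * f := by ring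
    rw [h2]
    exact h

theorem un {Q A : Type} [CommRing Q] [CommRing A] [Algebra Q A] (a b : Q)
    [IsLocalization.Away (a * b) A] : IsUnit (algebraMap Q A a) ∧ IsUnit (algebraMap Q A b) := by
  have hu : IsUnit (algebraMap Q A (a * b)) := IsLocalization.Away.algebraMap_isUnit _
  rw [map_mul] at hu
  exact ⟨isUnit_of_mul_isUnit_left hu, isUnit_of_mul_isUnit_right hu⟩

theorem sj {Q A : Type} [CommRing Q] [CommRing A] [Algebra Q A] (a b : Q)
    [IsLocalization.Away (a * b) A] (z : A) :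
    ∃ (n : ℕ) (y : Q), (algebraMap Q A a * algebraMap Q A b) ^ n * z = algebraMap Q A y := by
  obtain ⟨⟨y, ⟨_, n, rfl⟩⟩, hy⟩ := IsLocalization.surj (Submonoid.powers (a * b)) z
  refine ⟨n, y, ?_⟩
  have h3 : z * algebraMap Q A ((a * b) ^ n) = algebraMap Q A y := hy
  rw [map_pow, map_mul, mul_comm] at h3
  exact h3

end LOC

theorem p_LOC : Stmt_LOC := by
  intro R F _ _ I g hg h0 h1 hx0 hx1
  have hs : IsUnit (Ideal.Quotient.lift I g hg (Ideal.Quotient.mk I (X 0) *
      Ideal.Quotient.mk I (X 1))) := by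
    rw [map_mul, Ideal.Quotient.lift_mk, Ideal.Quotient.lift_mk]
    exact h0.mul h1
  obtain ⟨hu0, hu1⟩ := LOC.un (A := Localization.Away (Ideal.Quotient.mk I (X 0) *
    Ideal.Quotient.mk I (X 1))) (Ideal.Quotient.mk I (X 0)) (Ideal.Quotient.mk I (X 1))
  refine ⟨Localization.Away (Ideal.Quotient.mk I (X 0) * Ideal.Quotient.mk I (X 1)), inferInstance,
    (algebraMap (Pol R ⧸ I) _).comp (Ideal.Quotient.mk I),
    IsLocalization.Away.lift (Ideal.Quotient.mk I (X 0) * Ideal.Quotient.mk I (X 1)) hs, ?_,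
    hu0, hu1, ?_, ?_⟩
  · intro f
    constructor
    · intro h
      obtain ⟨⟨_, n, rfl⟩, hm⟩ := (IsLocalization.map_eq_zero_iff
        (Submonoid.powers (Ideal.Quotient.mk I (X 0) * Ideal.Quotient.mk I (X 1)))
        (Localization.Away (Ideal.Quotient.mk I (X 0) * Ideal.Quotient.mk I (X 1)))
        (Ideal.Quotient.mk I f)).1 h
      refine LOC.pw I hx0 hx1 n f ?_
      rw [← Ideal.Quotient.eq_zero_iff_mem, map_mul, map_pow, map_mul]
      exact hm
    · intro h
      show algebraMap (Pol R ⧸ I) _ (Ideal.Quotient.mk I f) = 0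
      rw [Ideal.Quotient.eq_zero_iff_mem.2 h, map_zero]
  · intro z
    obtain ⟨n, y, hy⟩ := LOC.sj (Ideal.Quotient.mk I (X 0)) (Ideal.Quotient.mk I (X 1)) z
    obtain ⟨f, rfl⟩ := Ideal.Quotient.mk_surjective y
    exact ⟨n, f, hy⟩
  · intro f
    show IsLocalization.Away.lift (Ideal.Quotient.mk I (X 0) * Ideal.Quotient.mk I (X 1)) hs
      (algebraMap (Pol R ⧸ I) _ (Ideal.Quotient.mk I f)) = g f
    rw [IsLocalization.Away.lift_eq, Ideal.Quotient.lift_mk]

end Pool.SC
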