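import Pool.Agent.Work.MP_03d391_sc.Interface2

/-! # Block LV1 -/

set_option autoImplicit false

noncomputable section

open MvPolynomial TensorProduct

namespace Pool.SC

theorem p_LV1 (hAL2 : Stmt_AL2) (hAL3 : Stmt_AL3) : Stmt_LV1 := by
  intro R 𝔄 F _ _ _ _ _ D j x hx
  obtain ⟨-, hl, -, -, -, hadd, -, hneg, -, -, hAG⟩ := hAL3 R 𝔄 F D
  obtain ⟨z0, h0, q0⟩ := hl 0 (Or.inl rfl) j x hx.1
  obtain ⟨z1, h1, q1⟩ := hl 1 (Or.inr rfl) j x hx.2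
  have hG : D.GH j (z0 - z1) := by
    rw [sub_eq_add_neg]
    exact hadd _ _ _ (hAG 0 (Or.inl rfl) _ _ h0) (hneg _ _ (hAG 1 (Or.inr rfl) _ _ h1))
  have hq : D.q (z0 - z1) = 0 := by rw [map_sub, q0, q1, sub_self]
  obtain ⟨w, hw, e⟩ := (hAL2 R 𝔄 F D j _ hq).1 hG
  exact ⟨z0, z1, w, h0, h1, hw, q0, q1, by rw [pow_one, e]⟩

end Pool.SC
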