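import Pool.Agent.Work.MP_03d391_sc.Interface2

/-! # NIL: the Koszul argument -/

set_option autoImplicit false

noncomputable section

open MvPolynomial TensorProduct

namespace Pool.SC

namespace NIL

/-! ## Regularity on free modules -/

section reg

variable {Λ : Type} [CommRing Λ] {M : Type} [AddCommGroup M] [Module Λ M] {ι : Type} [Fintype ι]

omit [Fintype ι] in
theorem reg1 (β : Module.Basis ι Λ M) (p : Λ) (h : ∀ a, p * a = 0 → a = 0) (z : M)
    (hz : p • z = 0) : z = 0 := by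
  refine β.ext_elem fun i => ?_
  have h1 := congrArg (fun w => β.repr w i) hz
  simp only [map_smul, Finsupp.smul_apply, smul_eq_mul, map_zero, Finsupp.zero_apply] at h1
  rw [map_zero, Finsupp.zero_apply]
  exact h _ h1

theorem reg2 (β : Module.Basis ι Λ M) (p0 p1 : Λ)
    (h : ∀ a c : Λ, p1 * a = p0 * c → ∃ e, a = p0 * e) (z z' : M)
    (hz : p1 • z = p0 • z') : ∃ e, z = p0 • e := by
  have h1 : ∀ i, ∃ e, β.repr z i = p0 * e := fun i => by
    have h2 := congrArg (fun w => β.repr w i) hz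
    simp only [map_smul, Finsupp.smul_apply, smul_eq_mul] at h2
    exact h _ _ h2
  choose e he using h1
  refine ⟨β.equivFun.symm e, β.ext_elem fun i => ?_⟩
  rw [he i, map_smul, Finsupp.smul_apply, smul_eq_mul, ← β.equivFun_apply,
    LinearEquiv.apply_symm_apply]

theorem reg3 (β : Module.Basis ι Λ M) (p0 p1 p2 : Λ)
    (h : ∀ a c e : Λ, p2 * a = p0 * c + p1 * e → ∃ m n, a = p0 * m + p1 * n) (z z' z'' : M)
    (hz : p2 • z = p0 • z' + p1 • z'') : ∃ m n, z = p0 • m + p1 • n := by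
  have h1 : ∀ i, ∃ m n, β.repr z i = p0 * m + p1 * n := fun i => by
    have h2 := congrArg (fun w => β.repr w i) hz
    simp only [map_add, map_smul, Finsupp.add_apply, Finsupp.smul_apply, smul_eq_mul] at h2
    exact h _ _ _ h2
  choose m n hmn using h1
  refine ⟨β.equivFun.symm m, β.equivFun.symm n, β.ext_elem fun i => ?_⟩
  rw [hmn i, map_add, map_smul, map_smul, Finsupp.add_apply, Finsupp.smul_apply,
    Finsupp.smul_apply, smul_eq_mul, smul_eq_mul, ← β.equivFun_apply, ← β.equivFun_apply,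
    LinearEquiv.apply_symm_apply, LinearEquiv.apply_symm_apply]

end reg

variable {Λ B : Type} [CommRing Λ] [CommRing B] [Algebra Λ B]

/-! ## The differences -/

variable (Λ) in
/-- the difference of the two images of `v` -/
def DD (v : B) : B ⊗[Λ] B := v ⊗ₜ[Λ] (1 : B) - (1 : B) ⊗ₜ[Λ] v

theorem DD_add (v w : B) : DD Λ (v + w) = DD Λ v + DD Λ w := by
  simp only [DD, TensorProduct.add_tmul, TensorProduct.tmul_add]
  abel

theorem DD_smul (a : Λ) (v : B) : DD Λ (a • v) = a • DD Λ v := by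
  simp only [DD, TensorProduct.tmul_smul, smul_sub, TensorProduct.smul_tmul']

theorem DD_mul (v w : B) :
    DD Λ (v * w) = (v ⊗ₜ[Λ] (1 : B)) * DD Λ w + ((1 : B) ⊗ₜ[Λ] w) * DD Λ v := by
  simp only [DD, mul_sub, Algebra.TensorProduct.tmul_mul_tmul, one_mul, mul_one]
  rw [mul_comm w v]
  abel

theorem DD_alg (a : Λ) : DD Λ (algebraMap Λ B a) = 0 := by
  rw [DD, Algebra.algebraMap_eq_smul_one, TensorProduct.tmul_smul, ← TensorProduct.smul_tmul',
    sub_self]

theorem DD_adjoin (x y s : B) (hs : s ∈ Algebra.adjoin Λ {x, y}) :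
    DD Λ s ∈ Ideal.span {DD Λ x, DD Λ y} := by
  induction hs using Algebra.adjoin_induction with
  | mem z hz =>
    rcases hz with rfl | hz
    · exact Ideal.subset_span (Or.inl rfl)
    · rw [Set.mem_singleton_iff] at hz
      rw [hz]
      exact Ideal.subset_span (Or.inr rfl)
  | algebraMap a =>
    rw [DD_alg]
    exact Ideal.zero_mem _
  | add s t _ _ h1 h2 =>
    rw [DD_add]
    exact Ideal.add_mem _ h1 h2
  | mul s t _ _ h1 h2 =>
    rw [DD_mul]
    exact Ideal.add_mem _ (Ideal.mul_mem_left _ _ h2) (Ideal.mul_mem_left _ _ h1)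

theorem DD_kill (x y s : B) (hs : s ∈ Algebra.adjoin Λ {x, y}) (k : B ⊗[Λ] B)
    (hx : DD Λ x * k = 0) (hy : DD Λ y * k = 0) : DD Λ s * k = 0 := by
  obtain ⟨a, c, hac⟩ := Ideal.mem_span_pair.mp (DD_adjoin x y s hs)
  rw [← hac, add_mul, mul_assoc, mul_assoc, hx, hy, mul_zero, mul_zero, add_zero]

/-! ## The dual basis and the trace -/

theorem dual {r : ℕ} (b : Module.Basis (Fin r) Λ B) (σ : B →ₗ[Λ] Λ)
    (hG : IsUnit (Matrix.of fun i j => σ (b i * b j)).det) :
    ∃ b' : Fin r → B, (∀ u, ∑ j, σ (u * b' j) • b j = u) ∧ ∀ w, ∑ i, σ (b i * w) • b' i = w := by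
  set G : Matrix (Fin r) (Fin r) Λ := Matrix.of fun i j => σ (b i * b j) with hGdef
  have hGG : G * G⁻¹ = 1 := Matrix.mul_nonsing_inv _ hG
  have hGG' : G⁻¹ * G = 1 := Matrix.nonsing_inv_mul _ hG
  refine ⟨fun j => ∑ i, (G⁻¹) i j • b i, ?_, ?_⟩
  · have h1 : (∑ j, (LinearMap.toSpanSingleton Λ B (b j)) ∘ₗ (σ ∘ₗ
        (LinearMap.mulRight Λ (∑ i, (G⁻¹) i j • b i)))) = LinearMap.id := by
      refine b.ext fun k => ?_
      simp only [LinearMap.coe_sum, Finset.sum_apply, LinearMap.comp_apply,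
        LinearMap.mulRight_apply, LinearMap.toSpanSingleton_apply, LinearMap.id_apply]
      have h2 : ∀ j, σ (b k * ∑ i, (G⁻¹) i j • b i) = (1 : Matrix (Fin r) (Fin r) Λ) k j := by
        intro j
        rw [← hGG, Matrix.mul_apply, Finset.mul_sum, map_sum]
        refine Finset.sum_congr rfl fun i _ => ?_
        rw [mul_smul_comm, map_smul, smul_eq_mul, mul_comm]
        rfl
      simp only [h2, Matrix.one_apply, ite_smul, one_smul, zero_smul, Finset.sum_ite_eq,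
        Finset.mem_univ, if_true]
    intro u
    have h2 := congrArg (fun f : B →ₗ[Λ] B => f u) h1
    simpa only [LinearMap.coe_sum, Finset.sum_apply, LinearMap.comp_apply,
        LinearMap.mulRight_apply, LinearMap.toSpanSingleton_apply, LinearMap.id_apply] using h2
  · have h1 : (∑ i, (LinearMap.toSpanSingleton Λ B (∑ l, (G⁻¹) l i • b l)) ∘ₗ (σ ∘ₗ
        (LinearMap.mulLeft Λ (b i)))) = LinearMap.id := by
      refine b.ext fun k => ?_
      simp only [LinearMap.coe_sum, Finset.sum_apply, LinearMap.comp_apply,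
        LinearMap.mulLeft_apply, LinearMap.toSpanSingleton_apply, LinearMap.id_apply]
      have h2 : ∀ i, σ (b i * b k) • ∑ l, (G⁻¹) l i • b l =
          ∑ l, ((G⁻¹) l i * G i k) • b l := by
        intro i
        rw [Finset.smul_sum]
        refine Finset.sum_congr rfl fun l _ => ?_
        rw [smul_smul, mul_comm]
        rfl
      simp only [h2]
      rw [Finset.sum_comm]
      have h3 : ∀ l, ∑ i, ((G⁻¹) l i * G i k) • b l = (1 : Matrix (Fin r) (Fin r) Λ) l k • b l := by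
        intro l
        rw [← Finset.sum_smul, ← hGG', Matrix.mul_apply]
      simp only [h3, Matrix.one_apply, ite_smul, one_smul, zero_smul, Finset.sum_ite_eq',
        Finset.mem_univ, if_true]
    intro u
    have h2 := congrArg (fun f : B →ₗ[Λ] B => f u) h1
    simpa only [LinearMap.coe_sum, Finset.sum_apply, LinearMap.comp_apply,
        LinearMap.mulLeft_apply, LinearMap.toSpanSingleton_apply, LinearMap.id_apply] using h2

/-- the partial trace -/
def tau (σ : B →ₗ[Λ] Λ) : B ⊗[Λ] B →ₗ[Λ] B :=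
  (TensorProduct.rid Λ B).toLinearMap ∘ₗ LinearMap.lTensor B σ

theorem tau_tmul (σ : B →ₗ[Λ] Λ) (v w : B) : tau σ (v ⊗ₜ[Λ] w) = σ w • v := by
  simp [tau]

theorem tau_left (σ : B →ₗ[Λ] Λ) (v : B) (z : B ⊗[Λ] B) :
    tau σ ((v ⊗ₜ[Λ] (1 : B)) * z) = v * tau σ z := by
  induction z using TensorProduct.induction_on with
  | zero => simp
  | tmul a c =>
    rw [Algebra.TensorProduct.tmul_mul_tmul, tau_tmul, tau_tmul, one_mul, mul_smul_comm]
  | add a c ha hc => rw [mul_add, map_add, map_add, ha, hc, mul_add]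

section delta

variable {r : ℕ} (b b' : Fin r → B) (σ : B →ₗ[Λ] Λ)

/-- the diagonal element -/
def Del (b b' : Fin r → B) : B ⊗[Λ] B := ∑ i, b i ⊗ₜ[Λ] b' i

theorem expand (h2 : ∀ w, ∑ i, σ (b i * w) • b' i = w) (z : B ⊗[Λ] B) :
    ∑ i, tau σ (((1 : B) ⊗ₜ[Λ] b i) * z) ⊗ₜ[Λ] b' i = z := by
  induction z using TensorProduct.induction_on with
  | zero => simp
  | tmul v w =>
    have h3 : ∀ i, tau σ (((1 : B) ⊗ₜ[Λ] b i) * (v ⊗ₜ[Λ] w)) ⊗ₜ[Λ] b' i =
        v ⊗ₜ[Λ] (σ (b i * w) • b' i) := by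
      intro i
      rw [Algebra.TensorProduct.tmul_mul_tmul, tau_tmul, one_mul, TensorProduct.smul_tmul]
    simp only [h3]
    rw [← TensorProduct.tmul_sum, h2]
  | add v w hv hw =>
    simp only [mul_add, map_add, TensorProduct.add_tmul, Finset.sum_add_distrib]
    rw [hv, hw]

theorem Del_comm (h1 : ∀ u, ∑ j, σ (u * b' j) • b j = u)
    (h2 : ∀ w, ∑ i, σ (b i * w) • b' i = w) (v : B) :
    (v ⊗ₜ[Λ] (1 : B)) * Del b b' = ((1 : B) ⊗ₜ[Λ] v) * Del (Λ := Λ) b b' := by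
  rw [← expand b b' σ h2 (((1 : B) ⊗ₜ[Λ] v) * Del b b')]
  have h3 : ∀ i, tau σ (((1 : B) ⊗ₜ[Λ] b i) * (((1 : B) ⊗ₜ[Λ] v) * Del b b')) = b i * v := by
    intro i
    rw [← mul_assoc, Algebra.TensorProduct.tmul_mul_tmul, one_mul, Del, Finset.mul_sum, map_sum]
    simp only [Algebra.TensorProduct.tmul_mul_tmul, one_mul, tau_tmul]
    exact h1 _
  simp only [h3]
  rw [Del, Finset.mul_sum]
  refine Finset.sum_congr rfl fun i _ => ?_
  rw [Algebra.TensorProduct.tmul_mul_tmul, one_mul, mul_comm]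

theorem comm_eq (h2 : ∀ w, ∑ i, σ (b i * w) • b' i = w) (k : B ⊗[Λ] B)
    (hk : ∀ v : B, (v ⊗ₜ[Λ] (1 : B)) * k = ((1 : B) ⊗ₜ[Λ] v) * k) :
    (tau σ k ⊗ₜ[Λ] (1 : B)) * Del b b' = k := by
  conv_rhs => rw [← expand b b' σ h2 k]
  rw [Del, Finset.mul_sum]
  refine Finset.sum_congr rfl fun i _ => ?_
  rw [← hk (b i), tau_left, Algebra.TensorProduct.tmul_mul_tmul, one_mul, mul_comm]

/-- the projection -/
def P : B ⊗[Λ] B →ₗ[Λ] B ⊗[Λ] B :=
  (LinearMap.mulRight Λ (Del b b')) ∘ₗ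
    ((Algebra.TensorProduct.includeLeft (R := Λ) (S := Λ) (A := B) (B := B)).toLinearMap) ∘ₗ tau σ

theorem P_apply (z : B ⊗[Λ] B) : P b b' σ z = (tau σ z ⊗ₜ[Λ] (1 : B)) * Del b b' := rfl

theorem P_kill (h1 : ∀ u, ∑ j, σ (u * b' j) • b j = u)
    (h2 : ∀ w, ∑ i, σ (b i * w) • b' i = w) (v : B) (z : B ⊗[Λ] B) :
    DD Λ v * P b b' σ z = 0 := by
  have h3 : DD Λ v * Del b b' = 0 := by
    rw [DD, sub_mul, Del_comm b b' σ h1 h2 v, sub_self]
  rw [P_apply]
  linear_combination (tau σ z ⊗ₜ[Λ] (1 : B)) * h3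

end delta

end NIL

open NIL in
theorem p_NIL : Stmt_NIL := by
  intro Λ B _ _ _ r b σ hG x y π h1 h2 h3 h4 u
  obtain ⟨b', hb1, hb2⟩ := dual b σ hG
  set β := b.tensorProduct b with hβ
  have hrel : ∀ i, ∃ α γ : B ⊗[Λ] B,
      algebraMap Λ (B ⊗[Λ] B) (π i) * DD Λ u = DD Λ x * α + DD Λ y * γ := by
    intro i
    obtain ⟨a, c, hac⟩ := Ideal.mem_span_pair.mp (DD_adjoin x y _ (h4 i u))
    refine ⟨a, c, ?_⟩
    rw [← Algebra.smul_def, ← DD_smul, ← hac]
    ring
  choose α γ hαγ using hrel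
  set w := DD Λ u with hw
  set p : Fin 3 → B ⊗[Λ] B := fun i => algebraMap Λ (B ⊗[Λ] B) (π i) with hp
  have e0 : p 0 * w = DD Λ x * α 0 + DD Λ y * γ 0 := hαγ 0
  have e1 : p 1 * w = DD Λ x * α 1 + DD Λ y * γ 1 := hαγ 1
  have e2 : p 2 * w = DD Λ x * α 2 + DD Λ y * γ 2 := hαγ 2
  set c01 := α 0 * γ 1 - α 1 * γ 0 with hc01
  set c02 := α 0 * γ 2 - α 2 * γ 0 with hc02
  set c12 := α 1 * γ 2 - α 2 * γ 1 with hc12
  have q01 : DD Λ x * c01 = w * (p 0 * γ 1 - p 1 * γ 0) := by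
    linear_combination (-γ 1) * e0 + γ 0 * e1
  have q02 : DD Λ x * c02 = w * (p 0 * γ 2 - p 2 * γ 0) := by
    linear_combination (-γ 2) * e0 + γ 0 * e2
  have q12 : DD Λ x * c12 = w * (p 1 * γ 2 - p 2 * γ 1) := by
    linear_combination (-γ 2) * e1 + γ 1 * e2
  have r01 : DD Λ y * c01 = w * (p 1 * α 0 - p 0 * α 1) := by
    linear_combination (-α 0) * e1 + α 1 * e0
  have r02 : DD Λ y * c02 = w * (p 2 * α 0 - p 0 * α 2) := by
    linear_combination (-α 0) * e2 + α 2 * e0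
  have r12 : DD Λ y * c12 = w * (p 2 * α 1 - p 1 * α 2) := by
    linear_combination (-α 1) * e2 + α 2 * e1
  set k := π 2 • c01 - π 1 • c02 + π 0 • c12 with hk
  have hk' : k = p 2 * c01 - p 1 * c02 + p 0 * c12 := by
    rw [hk, Algebra.smul_def, Algebra.smul_def, Algebra.smul_def]
  have kx : DD Λ x * k = 0 := by
    rw [hk']
    linear_combination p 2 * q01 - p 1 * q02 + p 0 * q12
  have ky : DD Λ y * k = 0 := by
    rw [hk']
    linear_combination p 2 * r01 - p 1 * r02 + p 0 * r12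
  have kv : ∀ v : B, (v ⊗ₜ[Λ] (1 : B)) * k = ((1 : B) ⊗ₜ[Λ] v) * k := by
    intro v
    have h5 : DD Λ v * k = 0 := by
      refine reg1 β (π 0) h1 _ ?_
      have h6 := DD_kill x y _ (h4 0 v) k kx ky
      rw [DD_smul, smul_mul_assoc] at h6
      exact h6
    rw [DD, sub_mul, sub_eq_zero] at h5
    exact h5
  have Pk : P b b' σ k = k := comm_eq b b' σ hb2 k kv
  set d01 := c01 - P b b' σ c01 with hd01
  set d02 := c02 - P b b' σ c02 with hd02
  set d12 := c12 - P b b' σ c12 with hd12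
  have hd : π 2 • d01 = π 0 • (-d12) + π 1 • d02 := by
    have h5 : P b b' σ k = π 2 • P b b' σ c01 - π 1 • P b b' σ c02 + π 0 • P b b' σ c12 := by
      rw [hk, map_add, map_sub, map_smul, map_smul, map_smul]
    rw [Pk, hk] at h5
    rw [hd01, hd02, hd12]
    simp only [smul_sub, smul_neg]
    have h6 : π 2 • c01 = π 2 • P b b' σ c01 - π 1 • P b b' σ c02 + π 0 • P b b' σ c12 +
        π 1 • c02 - π 0 • c12 := by
      rw [← h5]
      abel
    rw [h6]
    abel
  obtain ⟨m, n, hmn⟩ := reg3 β (π 0) (π 1) (π 2) h3 _ _ _ hd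
  have hmn' : c01 = P b b' σ c01 + p 0 * m + p 1 * n := by
    rw [Algebra.smul_def, Algebra.smul_def] at hmn
    have h5 : c01 = P b b' σ c01 + d01 := by
      rw [hd01]
      abel
    have h6 : P b b' σ c01 + d01 = P b b' σ c01 + (p 0 * m + p 1 * n) :=
      congrArg (fun e => P b b' σ c01 + e) hmn
    rw [add_assoc]
    exact h5.trans h6
  have Px := P_kill b b' σ hb1 hb2 x c01
  have Py := P_kill b b' σ hb1 hb2 y c01
  have s1 : π 1 • (w * α 0 - DD Λ y * n) = π 0 • (w * α 1 + DD Λ y * m) := by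
    rw [Algebra.smul_def, Algebra.smul_def]
    change p 1 * _ = p 0 * _
    linear_combination (-1 : B ⊗[Λ] B) * r01 + DD Λ y * hmn' + Py
  have s2 : π 1 • (w * γ 0 + DD Λ x * n) = π 0 • (w * γ 1 - DD Λ x * m) := by
    rw [Algebra.smul_def, Algebra.smul_def]
    change p 1 * _ = p 0 * _
    linear_combination q01 - DD Λ x * hmn' - Px
  obtain ⟨V, hV⟩ := reg2 β (π 0) (π 1) h2 _ _ s1
  obtain ⟨V', hV'⟩ := reg2 β (π 0) (π 1) h2 _ _ s2
  have hfin : w ^ 2 = DD Λ x * V + DD Λ y * V' := by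
    rw [← sub_eq_zero]
    refine reg1 β (π 0) h1 _ ?_
    rw [Algebra.smul_def] at hV hV' ⊢
    change p 0 * _ = 0
    change _ = p 0 * V at hV
    change _ = p 0 * V' at hV'
    linear_combination w * e0 + DD Λ x * hV + DD Λ y * hV'
  change w ^ 2 ∈ Ideal.span {DD Λ x, DD Λ y}
  rw [Ideal.mem_span_pair]
  exact ⟨V, V', by rw [hfin]; ring⟩

end Pool.SC
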