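import Pool.Agent.Work.MP_03d391_sc.Interface2

/-!
# Block NK2 of THEOREM SC: graded Nakayama for an ideal with at most two generators
-/

set_option autoImplicit false

noncomputable section

open MvPolynomial TensorProduct

namespace Pool.SC

namespace NK2

variable {k : Type} [Field k]

/-- A polynomial whose components lie in `Q` lies in `Q`. -/
theorem mem_of_comp (Q : Ideal (Pol k)) (f : Pol k)
    (h : ∀ n : ℕ, homogeneousComponent n f ∈ Q) : f ∈ Q := by
  rw [← sum_homogeneousComponent f]
  exact Ideal.sum_mem _ fun n _ => h n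

/-- The components of `X i * p`. -/
theorem comp_X_mul (Q : Ideal (Pol k)) (n : ℕ) (i : Fin 4) (p : Pol k)
    (h : ∀ j < n, homogeneousComponent j p ∈ Q) : homogeneousComponent n (X i * p) ∈ Q := by
  have e : X i * p = ∑ j ∈ Finset.range (p.totalDegree + 1), X i * homogeneousComponent j p := by
    rw [← Finset.mul_sum, sum_homogeneousComponent]
  rw [e, map_sum]
  refine Ideal.sum_mem _ fun j _ => ?_
  have hh : (X i * homogeneousComponent j p : Pol k).IsHomogeneous (1 + j) :=
    (isHomogeneous_X k i).mul (homogeneousComponent_isHomogeneous j p)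
  rw [homogeneousComponent_of_mem hh]
  split_ifs with hj
  · exact Ideal.mul_mem_left _ _ (h j (by omega))
  · exact Ideal.zero_mem _

/-- The components of the elements of `𝔪 P`. -/
theorem comp_mul (P Q : Ideal (Pol k)) (hP : HomI P) (n : ℕ)
    (h : ∀ j < n, ∀ f ∈ P, f.IsHomogeneous j → f ∈ Q) (q : Pol k)
    (hq : q ∈ Ideal.span (Set.range (X : Fin 4 → Pol k)) * P) :
    homogeneousComponent n q ∈ Q := by
  have key : ∀ x ∈ Ideal.span (Set.range (X : Fin 4 → Pol k)), ∀ p ∈ P,
      homogeneousComponent n (x * p) ∈ Q := by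
    intro x hx
    induction hx using Submodule.span_induction with
    | mem x hx =>
      obtain ⟨i, rfl⟩ := hx
      intro p hp
      exact comp_X_mul Q n i p fun j hj =>
        h j hj _ (hP p hp j) (homogeneousComponent_isHomogeneous j p)
    | zero =>
      intro p _
      rw [zero_mul, map_zero]
      exact Q.zero_mem
    | add x y _ _ hx hy =>
      intro p hp
      rw [add_mul, map_add]
      exact Q.add_mem (hx p hp) (hy p hp)
    | smul a x _ hx =>
      intro p hp
      rw [smul_eq_mul, mul_comm a x, mul_assoc]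
      exact hx _ (P.mul_mem_left a hp)
  refine Submodule.mul_induction_on hq (fun x hx p hp => key x hx p hp) fun x y hx hy => ?_
  rw [map_add]
  exact Q.add_mem hx hy

/-- The components of `C c * F` for a form `F`. -/
theorem comp_C_mul (Q : Ideal (Pol k)) (n a : ℕ) (c : k) (F : Pol k) (hF : F.IsHomogeneous a)
    (hQ : F ∈ Q) : homogeneousComponent n (C c * F) ∈ Q := by
  rw [homogeneousComponent_C_mul, homogeneousComponent_of_mem hF]
  split_ifs
  · exact Q.mul_mem_left _ hQ
  · rw [mul_zero]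
    exact Q.zero_mem

/-- Two forms which span `P / 𝔪 P` generate `P`. -/
theorem gen (P : Ideal (Pol k)) (hP : HomI P) (a b : ℕ) (F G : Pol k) (hF : F.IsHomogeneous a)
    (hG : G.IsHomogeneous b) (hFP : F ∈ P) (hGP : G ∈ P)
    (hsp : ∀ f ∈ P, (∃ n, f.IsHomogeneous n) → ∃ c d : k,
      f - C c * F - C d * G ∈ Ideal.span (Set.range (X : Fin 4 → Pol k)) * P) : IsCI P := by
  refine ⟨a, b, F, G, hF, hG, ?_⟩
  have hFQ : F ∈ Ideal.span {F, G} := Ideal.subset_span (by simp)
  have hGQ : G ∈ Ideal.span {F, G} := Ideal.subset_span (by simp)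
  have key : ∀ n : ℕ, ∀ f ∈ P, f.IsHomogeneous n → f ∈ Ideal.span {F, G} := by
    intro n
    induction n using Nat.strong_induction_on with
    | _ n ih =>
      intro f hf hfn
      obtain ⟨c, d, hcd⟩ := hsp f hf ⟨n, hfn⟩
      have h1 := comp_mul P (Ideal.span {F, G}) hP n ih _ hcd
      rw [map_sub, map_sub, homogeneousComponent_of_mem hfn, if_pos rfl] at h1
      have h2 := comp_C_mul (Ideal.span {F, G}) n a c F hF hFQ
      have h3 := comp_C_mul (Ideal.span {F, G}) n b d G hG hGQ
      have h4 := Ideal.add_mem _ (Ideal.add_mem _ h1 h2) h3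
      convert h4 using 1
      ring
  apply le_antisymm
  · intro f hf
    exact mem_of_comp _ f fun n => key n _ (hP f hf n) (homogeneousComponent_isHomogeneous n f)
  · rw [Ideal.span_le]
    intro x hx
    rcases hx with rfl | hx
    · exact hFP
    · rw [Set.mem_singleton_iff] at hx
      rw [hx]
      exact hGP

end NK2

theorem p_NK2 : Stmt_NK2 := by
  intro k _ P hP hdim
  set M : Ideal (Pol k) := Ideal.span (Set.range (X : Fin 4 → Pol k)) * P with hM
  have hzero : (0 : Pol k).IsHomogeneous 0 := isHomogeneous_zero _ _ _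
  by_cases h1 : ∀ f ∈ P, (∃ n, f.IsHomogeneous n) → f ∈ M
  · refine NK2.gen P hP 0 0 0 0 hzero hzero P.zero_mem P.zero_mem fun f hf hn => ⟨0, 0, ?_⟩
    have := h1 f hf hn
    simpa using this
  push Not at h1
  obtain ⟨F, hFP, ⟨a, hF⟩, hFM⟩ := h1
  by_cases h2 : ∀ f ∈ P, (∃ n, f.IsHomogeneous n) → ∃ c : k, f - C c * F ∈ M
  · refine NK2.gen P hP a 0 F 0 hF hzero hFP P.zero_mem fun f hf hn => ?_
    obtain ⟨c, hc⟩ := h2 f hf hn
    refine ⟨c, 0, ?_⟩
    simpa using hc
  push Not at h2
  obtain ⟨G, hGP, ⟨b, hG⟩, hGM⟩ := h2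
  refine NK2.gen P hP a b F G hF hG hFP hGP fun f hf _ => ?_
  obtain ⟨α, hα, hαM⟩ := hdim ![F, G, f] (by
    intro i
    fin_cases i
    · exact hFP
    · exact hGP
    · exact hf)
  rw [Fin.sum_univ_three] at hαM
  change C (α 0) * F + C (α 1) * G + C (α 2) * f ∈ M at hαM
  by_cases h3 : α 2 = 0
  · exfalso
    rw [h3, C_0, zero_mul, add_zero] at hαM
    by_cases h4 : α 1 = 0
    · rw [h4, C_0, zero_mul, add_zero] at hαM
      have h5 : α 0 ≠ 0 := by
        intro h5
        apply hα
        funext i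
        fin_cases i
        · exact h5
        · exact h4
        · exact h3
      apply hFM
      have h6 := M.mul_mem_left (C (α 0)⁻¹) hαM
      rwa [← mul_assoc, ← C_mul, inv_mul_cancel₀ h5, C_1, one_mul] at h6
    · apply hGM (-((α 1)⁻¹ * α 0))
      have h6 := M.mul_mem_left (C (α 1)⁻¹) hαM
      rw [mul_add, ← mul_assoc, ← mul_assoc, ← C_mul, ← C_mul, inv_mul_cancel₀ h4, C_1,
        one_mul] at h6
      rw [C_neg, neg_mul, sub_neg_eq_add, add_comm]
      exact h6
  · refine ⟨-((α 2)⁻¹ * α 0), -((α 2)⁻¹ * α 1), ?_⟩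
    have h6 := M.mul_mem_left (C (α 2)⁻¹) hαM
    rw [mul_add, mul_add, ← mul_assoc, ← mul_assoc, ← mul_assoc, ← C_mul, ← C_mul, ← C_mul,
      inv_mul_cancel₀ h3, C_1, one_mul] at h6
    convert h6 using 1
    rw [C_neg, C_neg]
    ring

end Pool.SC
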