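import Pool.Agent.Work.MP_03d391_sc.Interface

/-! Block NKR: Nakayama for the forms of degree `2 N` -/

set_option autoImplicit false

noncomputable section

open MvPolynomial TensorProduct

namespace Pool.SC

namespace NKR

theorem hom_span (R : Type) [CommRing R] (n : ℕ) (w : Pol R)
    (hw : w ∈ Ideal.span {(X 0 : Pol R), X 1}) :
    homogeneousComponent n w ∈ Ideal.span {(X 0 : Pol R), X 1} := by
  have h : ({(X 0 : Pol R), X 1} : Set (Pol R)) = X '' ({0, 1} : Set (Fin 4)) := by
    rw [Set.image_pair]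
  rw [h, mem_ideal_span_X_image] at hw ⊢
  intro m hm
  apply hw m
  rw [mem_support_iff, coeff_homogeneousComponent] at hm
  rw [mem_support_iff]
  split_ifs at hm with h1
  · exact hm
  · exact absurd rfl hm

/-- the monomials of degree `n` -/
def mons (R : Type) [CommRing R] (n : ℕ) : Submodule R (Pol R) :=
  Submodule.span R ((fun e : Fin 4 →₀ ℕ => (monomial e (1 : R) : Pol R)) ''
    ((Finset.finsuppAntidiag (Finset.univ : Finset (Fin 4)) n : Finset (Fin 4 →₀ ℕ)) :
      Set (Fin 4 →₀ ℕ)))

theorem mons_mem (R : Type) [CommRing R] (n : ℕ) (e : Fin 4 →₀ ℕ) (he : e.degree = n) :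
    (monomial e (1 : R) : Pol R) ∈ mons R n := by
  apply Submodule.subset_span
  refine ⟨e, ?_, rfl⟩
  rw [Finset.mem_coe, Finset.mem_finsuppAntidiag]
  refine ⟨?_, Finset.subset_univ _⟩
  rw [← he, Finsupp.degree_eq_sum]

theorem low (R : Type) [CommRing R] (n : ℕ) (q : Pol R) (P : Ideal R)
    (hq : q.IsHomogeneous n) (hc : ∀ e, coeff e q ∈ P) : q ∈ P • mons R n := by
  rw [q.as_sum]
  refine Submodule.sum_mem _ fun e he => ?_
  have h1 : (monomial e (coeff e q) : Pol R) = coeff e q • monomial e 1 := by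
    rw [smul_monomial, smul_eq_mul, mul_one]
  rw [h1]
  refine Submodule.smul_mem_smul (hc e) (mons_mem R n e ?_)
  have := hq (mem_support_iff.mp he)
  rw [← this, Finsupp.degree_eq_weight_one]
  rfl

theorem key (R : Type) [CommRing R] [IsLocalRing R] (I : Ideal (Pol R)) (N : ℕ) (i : Fin 4)
    (h : X i ^ N ∈ I.map (red R) ⊔ Ideal.span {X 0, X 1}) :
    ∃ p ∈ I, ∃ w ∈ Ideal.span {(X 0 : Pol R), X 1},
      (X i : Pol R) ^ N - p - w ∈ (IsLocalRing.maximalIdeal R).map (C : R →+* Pol R) := by
  have hs : Function.Surjective (red R) :=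
    MvPolynomial.map_surjective _ IsLocalRing.residue_surjective
  rw [Submodule.mem_sup] at h
  obtain ⟨y, hy, z, hz, hyz⟩ := h
  rw [Ideal.mem_map_iff_of_surjective (red R) hs] at hy
  obtain ⟨p, hp, rfl⟩ := hy
  rw [Ideal.mem_span_pair] at hz
  obtain ⟨u, v, rfl⟩ := hz
  obtain ⟨u, rfl⟩ := hs u
  obtain ⟨v, rfl⟩ := hs v
  refine ⟨p, hp, u * X 0 + v * X 1, ?_, ?_⟩
  · rw [Ideal.mem_span_pair]
    exact ⟨u, v, rfl⟩
  · rw [mem_map_C_iff]
    intro e
    have hX : ∀ j : Fin 4, red R (X j) = X j := fun j => by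
      unfold red
      rw [map_X]
    have h1 : red R ((X i : Pol R) ^ N - p - (u * X 0 + v * X 1)) = 0 := by
      rw [map_sub, map_sub, map_pow, map_add, map_mul, map_mul, hX, hX, hX, ← hyz]
      ring
    have h2 : coeff e (red R ((X i : Pol R) ^ N - p - (u * X 0 + v * X 1))) = 0 := by
      rw [h1, coeff_zero]
    unfold red at h2
    rw [coeff_map, IsLocalRing.residue_eq_zero_iff] at h2
    exact h2

theorem step (R : Type) [CommRing R] [IsLocalRing R] (I : Ideal (Pol R)) (N n : ℕ) (i : Fin 4)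
    (hI : HomI I) (h : X i ^ N ∈ I.map (red R) ⊔ Ideal.span {X 0, X 1})
    (e : Fin 4 →₀ ℕ) (he : e.degree = n) (hN : N ≤ e i) :
    (monomial e (1 : R) : Pol R) ∈
      (I ⊔ Ideal.span {X 0, X 1}).restrictScalars R ⊔
        (IsLocalRing.maximalIdeal R) • mons R n := by
  obtain ⟨p, hp, w, hw, hε⟩ := key R I N i h
  obtain ⟨m, hm⟩ : ∃ m : Pol R, (monomial e (1 : R) : Pol R) = X i ^ N * m := by
    refine ⟨monomial (e - Finsupp.single i N) 1, ?_⟩
    rw [X_pow_eq_monomial, monomial_mul, one_mul]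
    congr 2
    ext j
    rw [Finsupp.add_apply, Finsupp.tsub_apply, Finsupp.single_apply]
    split_ifs with hj
    · subst hj
      omega
    · omega
  obtain ⟨ε, hε2⟩ : ∃ ε : Pol R, ε = (X i : Pol R) ^ N - p - w := ⟨_, rfl⟩
  rw [← hε2] at hε
  have h1 : (monomial e (1 : R) : Pol R) = p * m + w * m + ε * m := by
    rw [hm, hε2]
    ring
  have h2 : (monomial e (1 : R) : Pol R) = homogeneousComponent n (p * m) +
      homogeneousComponent n (w * m) + homogeneousComponent n (ε * m) := by
    have h3 : homogeneousComponent n (monomial e (1 : R) : Pol R) = monomial e 1 := by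
      have h4 : (monomial e (1 : R) : Pol R).IsHomogeneous n := isHomogeneous_monomial 1 he
      rw [homogeneousComponent_of_mem h4, if_pos rfl]
    rw [← map_add, ← map_add, ← h1, h3]
  rw [h2]
  refine Submodule.add_mem_sup ?_ ?_
  · change homogeneousComponent n (p * m) + homogeneousComponent n (w * m) ∈
      I ⊔ Ideal.span {X 0, X 1}
    exact Submodule.add_mem_sup (hI _ (I.mul_mem_right _ hp) n)
      (hom_span R n _ (Ideal.mul_mem_right _ _ hw))
  · refine low R n _ _ (homogeneousComponent_isHomogeneous _ _) fun e' => ?_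
    rw [coeff_homogeneousComponent]
    split_ifs
    · have h5 : ε * m ∈ (IsLocalRing.maximalIdeal R).map (C : R →+* Pol R) :=
        Ideal.mul_mem_right _ _ hε
      rw [mem_map_C_iff] at h5
      exact h5 e'
    · exact Ideal.zero_mem _

end NKR

open NKR in
theorem p_NKR : Stmt_NKR := by
  intro R _ _ I N hI h2 h3
  have hfg : (mons R (2 * N)).FG :=
    Submodule.fg_span (Set.Finite.image _ (Finset.finite_toSet _))
  have hle : mons R (2 * N) ≤ (I ⊔ Ideal.span {X 0, X 1}).restrictScalars R ⊔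
      (IsLocalRing.maximalIdeal R) • mons R (2 * N) := by
    unfold mons
    rw [Submodule.span_le]
    rintro _ ⟨e, he, rfl⟩
    rw [Finset.mem_coe, Finset.mem_finsuppAntidiag] at he
    have hdeg : e.degree = 2 * N := by rw [Finsupp.degree_eq_sum]; exact he.1
    have hsum : e 0 + e 1 + e 2 + e 3 = 2 * N := by
      rw [← he.1, Fin.sum_univ_four]
    change (monomial e (1 : R) : Pol R) ∈ _
    by_cases h0 : e 0 = 0 ∧ e 1 = 0
    · rcases Nat.lt_or_ge (e 2) N with h4 | h4
      · exact step R I N (2 * N) 3 hI h3 e hdeg (by omega)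
      · exact step R I N (2 * N) 2 hI h2 e hdeg h4
    · apply Submodule.mem_sup_left
      change (monomial e (1 : R) : Pol R) ∈ I ⊔ Ideal.span {X 0, X 1}
      apply Submodule.mem_sup_right
      have h : ({(X 0 : Pol R), X 1} : Set (Pol R)) = X '' ({0, 1} : Set (Fin 4)) := by
        rw [Set.image_pair]
      rw [h, mem_ideal_span_X_image]
      intro m hm
      have hm2 : m = e := by
        have := support_monomial_subset hm
        simpa using this
      subst hm2
      by_cases h5 : m 0 = 0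
      · exact ⟨1, by simp, fun h6 => h0 ⟨h5, h6⟩⟩
      · exact ⟨0, by simp, h5⟩
  have hfin := Submodule.le_of_le_smul_of_le_jacobson_bot hfg
    (IsLocalRing.maximalIdeal_le_jacobson _) hle
  have hX : ∀ i : Fin 4, (X i : Pol R) ^ (2 * N) ∈ mons R (2 * N) := by
    intro i
    rw [X_pow_eq_monomial]
    exact mons_mem R _ _ (by rw [Finsupp.degree_single])
  exact ⟨hfin (hX 2), hfin (hX 3)⟩

end Pool.SC
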