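import Pool.Agent.Work.MP_03d391_sc.Interface

/-!
# Block PIN: equal Hilbert functions in large degrees
-/

set_option autoImplicit false

noncomputable section

open MvPolynomial TensorProduct

namespace Pool.SC

namespace PIN

variable {k : Type} [Field k]

theorem exists_ge (α : Fin 4 →₀ ℕ) (N : ℕ) (h : 4 * N ≤ α.degree) : ∃ i, N ≤ α i := by
  by_contra hcon
  push Not at hcon
  rw [Finsupp.degree_eq_sum, Fin.sum_univ_four] at h
  have h0 := hcon 0
  have h1 := hcon 1
  have h2 := hcon 2
  have h3 := hcon 3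
  omega

theorem mono_mem (J P : Ideal (Pol k)) (N : ℕ) (hN : ∀ f ∈ P, ∀ i : Fin 4, X i ^ N * f ∈ J)
    (α : Fin 4 →₀ ℕ) (c : k) (h : 4 * N ≤ α.degree) (p : Pol k) (hp : p ∈ P) :
    monomial α c * p ∈ J := by
  obtain ⟨i, hi⟩ := exists_ge α N h
  have h1 : Finsupp.single i N ≤ α := by
    rw [Finsupp.single_le_iff]
    exact hi
  have h2 : monomial α c = monomial (α - Finsupp.single i N) c * (X i : Pol k) ^ N := by
    rw [X_pow_eq_monomial, monomial_mul, tsub_add_cancel_of_le h1, mul_one]
  rw [h2, mul_assoc]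
  exact J.mul_mem_left _ (hN p hp i)

theorem comp_hom (J P : Ideal (Pol k)) (N : ℕ) (hN : ∀ f ∈ P, ∀ i : Fin 4, X i ^ N * f ∈ J)
    (p : Pol k) (hp : p ∈ P) (b : ℕ) (hb : p.IsHomogeneous b) (n : ℕ) (hn : 4 * N + b ≤ n)
    (h : Pol k) : homogeneousComponent n (h * p) ∈ J := by
  induction h using MvPolynomial.induction_on' with
  | monomial u a =>
    have h1 : (monomial u a * p).IsHomogeneous (u.degree + b) :=
      (isHomogeneous_monomial a rfl).mul hb
    rw [homogeneousComponent_of_mem ((mem_homogeneousSubmodule _ _).2 h1)]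
    split_ifs with h2
    · exact mono_mem J P N hN u a (by omega) p hp
    · exact J.zero_mem
  | add p' q' h1 h2 =>
    rw [add_mul, map_add]
    exact J.add_mem h1 h2

theorem comp_all (J P : Ideal (Pol k)) (N : ℕ) (hP : HomI P)
    (hN : ∀ f ∈ P, ∀ i : Fin 4, X i ^ N * f ∈ J) (p : Pol k) (hp : p ∈ P) (n : ℕ)
    (hn : 4 * N + p.totalDegree ≤ n) (h : Pol k) : homogeneousComponent n (h * p) ∈ J := by
  have h1 : h * p = ∑ i ∈ Finset.range (p.totalDegree + 1), h * homogeneousComponent i p := by
    rw [← Finset.mul_sum, sum_homogeneousComponent]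
  rw [h1, map_sum]
  refine J.sum_mem fun i hi => ?_
  rw [Finset.mem_range] at hi
  exact comp_hom J P N hN _ (hP p hp i) i (homogeneousComponent_isHomogeneous i p) n (by omega) h

theorem large (J P : Ideal (Pol k)) (N : ℕ) (hP : HomI P)
    (hN : ∀ f ∈ P, ∀ i : Fin 4, X i ^ N * f ∈ J) :
    ∃ n0 : ℕ, ∀ f ∈ P, ∀ n ≥ n0, homogeneousComponent n f ∈ J := by
  obtain ⟨S, hS⟩ := (IsNoetherian.noetherian P : P.FG)
  refine ⟨4 * N + S.sup MvPolynomial.totalDegree, ?_⟩
  have key : ∀ f ∈ P, ∀ h : Pol k, ∀ n ≥ 4 * N + S.sup MvPolynomial.totalDegree,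
      homogeneousComponent n (h * f) ∈ J := by
    intro f hf
    rw [← hS] at hf
    induction hf using Submodule.span_induction with
    | mem x hx =>
      intro h n hn
      have h1 : x.totalDegree ≤ S.sup MvPolynomial.totalDegree :=
        Finset.le_sup (f := MvPolynomial.totalDegree) hx
      have h2 : x ∈ P := by
        rw [← hS]
        exact Submodule.subset_span hx
      exact comp_all J P N hP hN x h2 n (by omega) h
    | zero =>
      intro h n _
      rw [mul_zero, map_zero]
      exact J.zero_mem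
    | add x y _ _ hx hy =>
      intro h n hn
      rw [mul_add, map_add]
      exact J.add_mem (hx h n hn) (hy h n hn)
    | smul a x _ hx =>
      intro h n hn
      rw [smul_eq_mul, ← mul_assoc]
      exact hx (h * a) n hn
  intro f hf n hn
  have h1 := key f hf 1 n hn
  rwa [one_mul] at h1

end PIN

theorem p_PIN : Stmt_PIN := by
  intro k _ J P N hP hJP hN
  obtain ⟨n0, hn0⟩ := PIN.large J P N hP hN
  refine ⟨n0, fun n hn => ?_⟩
  have h : homogeneousSubmodule (Fin 4) k n ⊓ J.restrictScalars k =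
      homogeneousSubmodule (Fin 4) k n ⊓ P.restrictScalars k := by
    ext f
    simp only [Submodule.mem_inf, Submodule.restrictScalars_mem]
    constructor
    · rintro ⟨h1, h2⟩
      exact ⟨h1, hJP h2⟩
    · rintro ⟨h1, h2⟩
      refine ⟨h1, ?_⟩
      have h3 := hn0 f h2 n hn
      rwa [homogeneousComponent_of_mem h1, if_pos rfl] at h3
  unfold hil
  rw [h]

end Pool.SC
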