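import Pool.Agent.Work.MP_03d391_sc.Interface

/-!
# Block QGR: the quotient by a homogeneous ideal is graded (helper95)
-/

set_option autoImplicit false

noncomputable section

open MvPolynomial TensorProduct

namespace Pool.SC

namespace QGR

variable {K : Type} [CommRing K]

/-- the homogeneous polynomials of degree `n` -/
def H (K : Type) [CommRing K] (n : ℤ) : AddSubgroup (Pol K) where
  carrier := {f | HZ n f}
  zero_mem' := Or.inl rfl
  add_mem' := by
    intro p q hp hq
    rcases hp with rfl | ⟨m, hm, hp⟩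
    · rwa [zero_add]
    · rcases hq with rfl | ⟨m', hm', hq⟩
      · rw [add_zero]; exact Or.inr ⟨m, hm, hp⟩
      · have h : m' = m := by exact_mod_cast hm'.trans hm.symm
        subst h
        exact Or.inr ⟨m', hm, hp.add hq⟩
  neg_mem' := by
    intro p hp
    rcases hp with rfl | ⟨m, hm, hp⟩
    · left; exact neg_zero
    · exact Or.inr ⟨m, hm, (homogeneousSubmodule (Fin 4) K m).neg_mem hp⟩

theorem mem_H {n : ℤ} {f : Pol K} : f ∈ H K n ↔ HZ n f := Iff.rfl

/-- the component of degree `m` of a form of degree `n` -/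
theorem comp_hz {n : ℤ} {f : Pol K} (hf : HZ n f) (m : ℕ) :
    homogeneousComponent m f = if (m : ℤ) = n then f else 0 := by
  rcases hf with rfl | ⟨a, ha, hf⟩
  · rw [map_zero]; split_ifs <;> rfl
  · rw [homogeneousComponent_of_mem hf]
    by_cases h : (m : ℤ) = n
    · have : a = m := by exact_mod_cast ha.trans h.symm
      rw [if_pos h, if_pos this.symm]
    · have : ¬ (m = a) := fun hh => h (by rw [hh]; exact ha)
      rw [if_neg h, if_neg this]

end QGR

theorem p_QGR : Stmt_QGR := by
  intro K _ I hI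
  refine ⟨fun n => (QGR.H K n).map (Ideal.Quotient.mk I).toAddMonoidHom, ⟨?_, ?_⟩, ?_⟩
  · intro m
    obtain ⟨f, rfl⟩ := Ideal.Quotient.mk_surjective m
    refine ⟨(Finset.range (f.totalDegree + 1)).image (fun n : ℕ => (n : ℤ)),
      fun n => Ideal.Quotient.mk I (if 0 ≤ n then homogeneousComponent n.toNat f else 0), ?_, ?_⟩
    · intro n
      refine ⟨_, ?_, rfl⟩
      show HZ n _
      split_ifs with h
      · exact Or.inr ⟨n.toNat, Int.toNat_of_nonneg h, homogeneousComponent_isHomogeneous _ _⟩
      · exact Or.inl rfl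
    · rw [Finset.sum_image (g := fun n : ℕ => (n : ℤ)) (fun a _ b _ h => Int.ofNat.inj h)]
      conv_lhs => rw [← sum_homogeneousComponent f, map_sum]
      refine Finset.sum_congr rfl (fun i _ => ?_)
      simp
  · intro s v hv hs n hn
    have hg : ∀ n, ∃ g, HZ n g ∧ Ideal.Quotient.mk I g = v n := fun n => by
      obtain ⟨g, hg, hgv⟩ := hv n
      exact ⟨g, hg, hgv⟩
    choose g hg hgv using hg
    have hsum : ∑ n ∈ s, g n ∈ I := by
      rw [← Ideal.Quotient.eq_zero_iff_mem, map_sum]
      rw [← hs]
      exact Finset.sum_congr rfl (fun n _ => hgv n)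
    rw [← hgv n, Ideal.Quotient.eq_zero_iff_mem]
    rcases hg n with h0 | ⟨m, hm, -⟩
    · rw [h0]; exact I.zero_mem
    · have h1 := hI _ hsum m
      rw [map_sum] at h1
      have h2 : ∑ k ∈ s, homogeneousComponent m (g k) = g n := by
        rw [Finset.sum_eq_single n]
        · rw [QGR.comp_hz (hg n), if_pos hm]
        · intro b _ hb
          rw [QGR.comp_hz (hg b), if_neg (fun h => hb (by rw [← h, hm]))]
        · intro h; exact absurd hn h
      rwa [h2] at h1
  · intro n z
    constructor
    · rintro ⟨f, hf, hfz⟩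
      exact ⟨f, hf, hfz⟩
    · rintro ⟨f, hf, hfz⟩
      exact ⟨f, hf, hfz⟩

end Pool.SC
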