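import Pool.Agent.Work.MP_03d391_sc.Interface

/-!
# MP_03d391_ag, THEOREM SC: block RES
-/

set_option autoImplicit false

noncomputable section

open MvPolynomial TensorProduct

namespace Pool.SC

namespace RES

variable {K : Type} [Field K] {n : ℕ}

theorem res_X_zero : res n K (X 0) = 0 := by
  simp [res]

theorem res_X_succ (i : Fin n) : res n K (X i.succ) = X i := by
  simp [res]

theorem res_C (a : K) : res n K (C a) = C a := by
  rw [← algebraMap_eq, AlgHom.commutes]
  rfl

theorem res_rename (w : MvPolynomial (Fin n) K) : res n K (rename Fin.succ w) = w := by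
  induction w using MvPolynomial.induction_on with
  | C a => rw [rename_C, res_C]
  | add p q hp hq => rw [map_add, map_add, hp, hq]
  | mul_X p i hp => rw [map_mul, map_mul, hp, rename_X, res_X_succ]

theorem dvd_sub (F : MvPolynomial (Fin (n + 1)) K) :
    (X 0 : MvPolynomial (Fin (n + 1)) K) ∣ F - rename Fin.succ (res n K F) := by
  induction F using MvPolynomial.induction_on with
  | C a => rw [res_C, rename_C, sub_self]; exact dvd_zero _
  | add p q hp hq =>
    have h : p + q - rename Fin.succ (res n K (p + q)) =
        (p - rename Fin.succ (res n K p)) + (q - rename Fin.succ (res n K q)) := by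
      rw [map_add, map_add]
      ring
    rw [h]
    exact dvd_add hp hq
  | mul_X p i hp =>
    refine Fin.cases ?_ (fun j => ?_) i
    · rw [map_mul, res_X_zero, mul_zero, map_zero, sub_zero]
      exact dvd_mul_left _ _
    · have h : p * X j.succ - rename Fin.succ (res n K (p * X j.succ)) =
          (p - rename Fin.succ (res n K p)) * X j.succ := by
        rw [map_mul, map_mul, res_X_succ, rename_X]
        ring
      rw [h]
      exact dvd_mul_of_dvd_left hp _

end RES

theorem p_RES : Stmt_RES := by
  intro K _ n
  refine ⟨?_, ?_, ?_⟩
  · intro a F hF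
    have h := hF.aeval (Fin.cases (motive := fun _ => MvPolynomial (Fin n) K) 0 (fun i => X i))
      (n := 1) (fun i => by
        refine Fin.cases ?_ (fun j => ?_) i
        · exact isHomogeneous_zero _ _ _
        · exact isHomogeneous_X _ _)
    rw [one_mul] at h
    exact h
  · intro w
    exact ⟨rename Fin.succ w, RES.res_rename w⟩
  · intro F hF
    obtain ⟨h, hh⟩ := RES.dvd_sub F
    rw [hF, map_zero, sub_zero] at hh
    exact ⟨h, hh⟩

end Pool.SC
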