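import Pool.Agent.Work.MP_03d391_sc.Interface2

/-! # Block RG3 -/

set_option autoImplicit false

noncomputable section

open MvPolynomial TensorProduct

namespace Pool.SC

theorem p_RG3 : Stmt_RG3 := by
  intro R _ _ t e ht he
  refine ⟨?_, ?_, ?_⟩
  · intro a ha
    have h1 : (C t : Lam R) ^ e ≠ 0 := pow_ne_zero _ (by simpa using ht)
    exact (mul_eq_zero.mp ha).resolve_left h1
  · intro a c h
    rw [← map_pow] at h ⊢
    have h1 : C (t ^ e) ∣ a := by
      rw [C_dvd_iff_dvd_coeff]
      intro m
      have h1 := congrArg (coeff (Finsupp.single 0 e + m)) h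
      rw [X_pow_eq_monomial, coeff_monomial_mul, one_mul, coeff_C_mul] at h1
      exact ⟨_, h1⟩
    exact h1
  · intro a c m h
    have h1 : C (t ^ e) ∣ a.modMonomial (Finsupp.single 0 e) := by
      rw [C_dvd_iff_dvd_coeff]
      intro u
      by_cases hu : Finsupp.single 0 e ≤ u
      · rw [coeff_modMonomial_of_le _ hu]
        exact dvd_zero _
      · rw [coeff_modMonomial_of_not_le _ hu]
        have h1 := congrArg (coeff (Finsupp.single 1 e + u)) h
        rw [X_pow_eq_monomial, coeff_monomial_mul, one_mul, coeff_add, ← map_pow, coeff_C_mul,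
          X_pow_eq_monomial, coeff_monomial_mul', if_neg, add_zero] at h1
        · exact ⟨_, h1⟩
        · intro h2
          apply hu
          rw [Finsupp.single_le_iff] at h2 ⊢
          simpa using h2
    obtain ⟨n, hn⟩ := h1
    refine ⟨n, a.divMonomial (Finsupp.single 0 e), ?_⟩
    rw [← map_pow, ← hn, X_pow_eq_monomial, add_comm]
    exact (divMonomial_add_modMonomial a (Finsupp.single 0 e)).symm

end Pool.SC
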