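import Pool.Agent.Work.MP_03d391_sc.Interface

/-! # MP_03d391_ag, THEOREM SC: block RGX -/

set_option autoImplicit false

noncomputable section

open MvPolynomial TensorProduct

namespace Pool.SC

theorem p_RGX (hRES : Stmt_RES) : Stmt_RGX := by
  intro K _ n F G h hK hmem
  obtain ⟨_, hsurj, hker⟩ := hRES K n
  obtain ⟨u, v, huv⟩ := Ideal.mem_span_pair.mp hmem
  have hX0 : res n K (X 0) = 0 := by
    unfold res
    rw [aeval_X]
    rfl
  have hr : res n K u * res n K F + res n K v * res n K G = 0 := by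
    rw [← map_mul, ← map_mul, ← map_add, huv, map_mul, hX0, zero_mul]
  obtain ⟨w', hw1, hw2⟩ := hK _ _ hr
  obtain ⟨w, rfl⟩ := hsurj w'
  obtain ⟨u', hu'⟩ := hker (u - w * G) (by rw [map_sub, map_mul, hw1, sub_self])
  obtain ⟨v', hv'⟩ := hker (v + w * F) (by rw [map_add, map_mul, hw2, neg_add_cancel])
  have hX : (X 0 : MvPolynomial (Fin (n + 1)) K) ≠ 0 := X_ne_zero 0
  have hfin : h = u' * F + v' * G := by
    apply mul_left_cancel₀ hX
    linear_combination (-1 : MvPolynomial (Fin (n + 1)) K) * huv + F * hu' + G * hv'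
  rw [hfin]
  exact Ideal.mem_span_pair.mpr ⟨u', v', rfl⟩

end Pool.SC
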