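import Pool.Agent.Work.MP_03d391_sc.Interface2

set_option autoImplicit false

noncomputable section

open MvPolynomial TensorProduct

namespace Pool.SC

theorem RHO_emb0 (R : Type) [CommRing R] : emb R (X 0) = X 0 := by
  simp [emb]

theorem RHO_emb1 (R : Type) [CommRing R] : emb R (X 1) = X 1 := by
  simp [emb]

theorem RHO_mon (R : Type) [CommRing R] (a b : ℕ) :
    (X 0 : Lam R) ^ a * X 1 ^ b = monomial (Finsupp.single 0 a + Finsupp.single 1 b) 1 := by
  rw [X_pow_eq_monomial, X_pow_eq_monomial, monomial_mul, one_mul]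

theorem RHO_sig {R : Type} [CommRing R] (σ : Pol R →+ Lam R) (h : ∀ l f, σ (emb R l * f) = l * σ f)
    (a b : ℕ) (f : Pol R) : σ (X 0 ^ a * X 1 ^ b * f) = X 0 ^ a * X 1 ^ b * σ f := by
  have e : emb R (X 0 ^ a * X 1 ^ b) = X 0 ^ a * X 1 ^ b := by
    rw [map_mul, map_pow, map_pow, RHO_emb0, RHO_emb1]
  have := h (X 0 ^ a * X 1 ^ b) f
  rw [e] at this
  exact this

theorem RHO_coeff {R : Type} [CommRing R] (a b : ℕ) (g : Lam R) :
    coeff (Finsupp.single 0 (b + a) + Finsupp.single 1 (b + a)) (X 0 ^ a * X 1 ^ a * g) =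
      coeff (Finsupp.single 0 b + Finsupp.single 1 b) g := by
  have e : (Finsupp.single 0 (b + a) + Finsupp.single 1 (b + a) : Fin 2 →₀ ℕ) =
      (Finsupp.single 0 a + Finsupp.single 1 a) + (Finsupp.single 0 b + Finsupp.single 1 b) := by
    rw [Finsupp.single_add, Finsupp.single_add]
    abel
  rw [RHO_mon, e, coeff_monomial_mul, one_mul]

/-- **RHO.** -/
theorem p_RHO : Stmt_RHO := by
  intro R 𝔄 F _ _ _ _ _ D d σ hσ hI hd
  have key : ∀ (N M : ℕ) (f h : Pol R) (z : 𝔄), (D.c (X 0) * D.c (X 1)) ^ (N + 1) * z = D.c f →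
      (D.c (X 0) * D.c (X 1)) ^ (M + 1) * z = D.c h →
      coeff (Finsupp.single 0 N + Finsupp.single 1 N) (σ f) =
        coeff (Finsupp.single 0 M + Finsupp.single 1 M) (σ h) := by
    intro N M f h z hf hh
    have h1 : X 0 ^ (M + 1) * X 1 ^ (M + 1) * f - X 0 ^ (N + 1) * X 1 ^ (N + 1) * h ∈ D.I := by
      rw [← D.hc, map_sub, map_mul, map_mul, map_mul, map_mul, map_pow, map_pow, map_pow, map_pow,
        ← hf, ← hh]
      ring
    have h2 := hI _ h1
    rw [map_sub, RHO_sig σ hσ, RHO_sig σ hσ, sub_eq_zero] at h2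
    have h3 := RHO_coeff (M + 1) N (σ f)
    have h4 := RHO_coeff (N + 1) M (σ h)
    rw [← h3, ← h4, h2]
    congr 3 <;> ring
  have hex : ∀ z : 𝔄, ∃ (N : ℕ) (f : Pol R), (D.c (X 0) * D.c (X 1)) ^ (N + 1) * z = D.c f := by
    intro z
    obtain ⟨N, f, hf⟩ := D.fr z
    refine ⟨N, X 0 * X 1 * f, ?_⟩
    rw [map_mul, map_mul, ← hf]
    ring
  choose N f hf using hex
  let r : 𝔄 → R := fun z => coeff (Finsupp.single 0 (N z) + Finsupp.single 1 (N z)) (σ (f z))
  have hr : ∀ (M : ℕ) (h : Pol R) (z : 𝔄), (D.c (X 0) * D.c (X 1)) ^ (M + 1) * z = D.c h →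
      r z = coeff (Finsupp.single 0 M + Finsupp.single 1 M) (σ h) := by
    intro M h z hh
    exact key _ _ _ _ z (hf z) hh
  have hadd : ∀ z w, r (z + w) = r z + r w := by
    intro z w
    have h1 : (D.c (X 0) * D.c (X 1)) ^ (N z + (N w + 1) + 1) * (z + w) =
        D.c (X 0 ^ (N w + 1) * X 1 ^ (N w + 1) * f z + X 0 ^ (N z + 1) * X 1 ^ (N z + 1) * f w) := by
      rw [map_add, map_mul, map_mul, map_mul, map_mul, map_pow, map_pow, map_pow, map_pow, ← hf, ← hf]
      ring
    rw [hr _ _ _ h1, map_add, RHO_sig σ hσ, RHO_sig σ hσ, coeff_add, RHO_coeff]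
    have e : N z + (N w + 1) = N w + (N z + 1) := by ring
    rw [e, RHO_coeff]
  have hsmul : ∀ a z, r (D.c (C a) * z) = a * r z := by
    intro a z
    have h1 : (D.c (X 0) * D.c (X 1)) ^ (N z + 1) * (D.c (C a) * z) = D.c (C a * f z) := by
      rw [map_mul, ← hf]
      ring
    have h2 : emb R (C a) = C a := by simp [emb]
    rw [hr _ _ _ h1, ← h2, hσ, coeff_C_mul]
  refine ⟨{ toFun := r
            map_zero' := ?_
            map_add' := hadd }, hsmul, ?_, ?_, ?_, hr⟩
  · have := hadd 0 0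
    rw [add_zero] at this
    exact left_eq_add.1 this
  · rintro z ⟨M, h, hh⟩
    have h1 : (D.c (X 0) * D.c (X 1)) ^ (M + 1) * z = D.c (X 0 ^ 1 * X 1 ^ (M + 1) * h) := by
      rw [map_mul, map_mul, map_pow, map_pow, ← hh]
      ring
    have h2 : r z = 0 := by
      rw [hr _ _ _ h1, RHO_sig σ hσ, RHO_mon, coeff_monomial_mul', if_neg]
      intro hle
      have := hle 1
      simp at this
    exact h2
  · rintro z ⟨M, h, hh⟩
    have h1 : (D.c (X 0) * D.c (X 1)) ^ (M + 1) * z = D.c (X 0 ^ (M + 1) * X 1 ^ 1 * h) := by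
      rw [map_mul, map_mul, map_pow, map_pow, ← hh]
      ring
    have h2 : r z = 0 := by
      rw [hr _ _ _ h1, RHO_sig σ hσ, RHO_mon, coeff_monomial_mul', if_neg]
      intro hle
      have := hle 0
      simp at this
    exact h2
  · rintro n z ⟨M, h, hz, hh⟩ hn
    have h1 : (D.c (X 0) * D.c (X 1)) ^ (M + 1) * z = D.c (X 0 ^ 1 * X 1 ^ 1 * h) := by
      rw [map_mul, map_mul, map_pow, map_pow, ← hh]
      ring
    have h3 : HZ (n + 2 * M + 2) (X 0 ^ 1 * X 1 ^ 1 * h) := by
      rcases hz with rfl | ⟨m, hm, hz⟩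
      · exact Or.inl (mul_zero _)
      · refine Or.inr ⟨1 + 1 + m, by push_cast; linarith, ?_⟩
        rw [pow_one, pow_one]
        exact (((isHomogeneous_X R 0)).mul (isHomogeneous_X R 1)).mul hz
    have h2 : r z = 0 := by
      rw [hr _ _ _ h1]
      rcases hd _ _ h3 with h4 | ⟨m, hm, h4⟩
      · rw [h4, coeff_zero]
      · refine h4.coeff_eq_zero ?_
        intro hdeg
        apply hn
        have : (M + M : ℕ) = m := by
          rw [← hdeg]
          simp [map_add]
        rw [← this] at hm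
        push_cast at hm
        linarith
    exact h2

end Pool.SC
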