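import Pool.Agent.Work.MP_03d391_sc.Interface

/-!
# Block SBR: reduction of the functional (helper95)
-/

set_option autoImplicit false

noncomputable section

open MvPolynomial TensorProduct

namespace Pool.SC

namespace SBR

section local_ring

variable (R : Type) [CommRing R] [IsLocalRing R]

theorem red_surj : Function.Surjective (red R) :=
  MvPolynomial.map_surjective _ IsLocalRing.residue_surjective

theorem redL_surj : Function.Surjective (redL R) :=
  MvPolynomial.map_surjective _ IsLocalRing.residue_surjective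

theorem red_emb (l : Lam R) : red R (emb R l) = emb (κ R) (redL R l) := by
  show MvPolynomial.map (IsLocalRing.residue R) (rename _ l) =
    rename _ (MvPolynomial.map (IsLocalRing.residue R) l)
  rw [map_rename]

/-- forms lift to forms -/
theorem lift_hz {n : ℤ} {f : Pol (κ R)} (hf : HZ n f) : ∃ g : Pol R, HZ n g ∧ red R g = f := by
  rcases hf with rfl | ⟨m, hm, hf⟩
  · exact ⟨0, Or.inl rfl, map_zero _⟩
  · obtain ⟨g, rfl⟩ := red_surj R f
    refine ⟨homogeneousComponent m g, Or.inr ⟨m, hm, homogeneousComponent_isHomogeneous m g⟩, ?_⟩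
    ext d
    have h1 : coeff d (red R (homogeneousComponent m g)) =
        IsLocalRing.residue R (coeff d (homogeneousComponent m g)) := coeff_map _ _ _
    have h2 : coeff d (red R g) = IsLocalRing.residue R (coeff d g) := coeff_map _ _ _
    rw [h1, coeff_homogeneousComponent]
    split_ifs with h
    · exact h2.symm
    · rw [map_zero]
      by_contra hc
      exact h (by
        have := hf (fun hh => hc hh.symm)
        rw [Finsupp.degree_eq_weight_one]
        exact this)

theorem redL_hz {n : ℤ} {p : Lam R} (hp : HZ n p) : HZ n (redL R p) := by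
  rcases hp with rfl | ⟨m, hm, hp⟩
  · left; exact map_zero _
  · exact Or.inr ⟨m, hm, hp.map _⟩

theorem redL_sigma (σ : Pol R →+ Lam R) (hσ : ∀ l f, σ (emb R l * f) = l * σ f) {f : Pol R}
    (hf : red R f = 0) : redL R (σ f) = 0 := by
  rw [f.as_sum, map_sum, map_sum]
  refine Finset.sum_eq_zero (fun v _ => ?_)
  have h1 : monomial v (coeff v f) = emb R (C (coeff v f)) * monomial v 1 := by
    have h2 : emb R (C (coeff v f)) = C (coeff v f) := rename_C _ _
    rw [h2, C_mul_monomial, mul_one]
  have h3 : IsLocalRing.residue R (coeff v f) = 0 := by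
    have h4 : coeff v (red R f) = IsLocalRing.residue R (coeff v f) := coeff_map _ _ _
    rw [← h4, hf, coeff_zero]
  have h5 : redL R (C (coeff v f)) = 0 := by
    show MvPolynomial.map _ (C _) = 0
    rw [map_C, h3, map_zero]
  rw [h1, hσ, map_mul, h5, zero_mul]

theorem redL_sigma_eq (σ : Pol R →+ Lam R) (hσ : ∀ l f, σ (emb R l * f) = l * σ f) {f g : Pol R}
    (hf : red R f = red R g) : redL R (σ f) = redL R (σ g) := by
  have h := redL_sigma R σ hσ (f := f - g) (by rw [map_sub, hf, sub_self])
  rw [map_sub, map_sub] at h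
  exact sub_eq_zero.1 h

end local_ring

end SBR

theorem p_SBR : Stmt_SBR := by
  intro R _ _ _ I P N hN d σ hσ hσI hσh
  have hs0 : ∀ f, ∃ p, ∀ g, red R g = f → redL R (σ g) = p := by
    intro f
    obtain ⟨g, hg⟩ := SBR.red_surj R f
    exact ⟨redL R (σ g), fun g' hg' => SBR.redL_sigma_eq R σ hσ (hg'.trans hg.symm)⟩
  choose s hs using hs0
  have hs1 : ∀ g, s (red R g) = redL R (σ g) := fun g => (hs _ g rfl).symm
  have hadd : ∀ x y, s (x + y) = s x + s y := by
    intro x y
    obtain ⟨x, rfl⟩ := SBR.red_surj R x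
    obtain ⟨y, rfl⟩ := SBR.red_surj R y
    rw [← map_add, hs1, hs1, hs1, map_add, map_add]
  have hmul : ∀ l f, s (emb (κ R) l * f) = l * s f := by
    intro l f
    obtain ⟨l, rfl⟩ := SBR.redL_surj R l
    obtain ⟨f, rfl⟩ := SBR.red_surj R f
    rw [← SBR.red_emb, ← map_mul, hs1, hs1, hσ, map_mul]
  refine ⟨AddMonoidHom.mk' s hadd, ?_, ?_, ?_, ?_⟩
  · intro f
    exact hs1 f
  · intro l f
    exact hmul l f
  · intro f hf
    show s f = 0
    have h1 := hN f hf
    rw [Ideal.mem_map_iff_of_surjective _ (SBR.red_surj R)] at h1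
    obtain ⟨g, hg, hgf⟩ := h1
    have h2 : s (X 0 ^ N * f) = 0 := by
      rw [← hgf, hs1, hσI g hg, map_zero]
    have h3 : (X 0 ^ N : Pol (κ R)) = emb (κ R) (X 0 ^ N) := by
      rw [map_pow]
      show _ = (rename _ (X 0)) ^ N
      rw [rename_X]; rfl
    rw [h3, hmul] at h2
    rcases mul_eq_zero.1 h2 with h4 | h4
    · exact absurd h4 (pow_ne_zero _ (X_ne_zero _))
    · exact h4
  · intro n f hf
    show HZ (n - d) (s f)
    obtain ⟨g, hg, rfl⟩ := SBR.lift_hz R hf
    rw [hs1]
    exact SBR.redL_hz R (hσh n g hg)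

end Pool.SC
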