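import Pool.Agent.Work.MP_03d391_sc.Interface2

set_option autoImplicit false

noncomputable section

open MvPolynomial TensorProduct

namespace Pool.SC

namespace SEP

theorem zeroAH {R 𝔄 F : Type} [CommRing R] [IsDomain R] [IsDiscreteValuationRing R]
    [CommRing 𝔄] [Field F] (D : Setup R 𝔄 F) (i : Fin 4) (n : ℤ) : D.AH i n 0 :=
  ⟨0, 0, Or.inl rfl, by simp⟩

theorem homX (R : Type) [CommRing R] (d0 d1 a b : ℕ) :
    ((X 0 ^ d0 * X 1 ^ d1 * (X 2 ^ a * X 3 ^ b) : Pol R)).IsHomogeneous (d0 + d1 + (a + b)) := by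
  have h : ∀ (i : Fin 4) (e : ℕ), ((X i : Pol R) ^ e).IsHomogeneous e := by
    intro i e
    have := (isHomogeneous_X R i).pow e
    rwa [one_mul] at this
  exact ((h 0 d0).mul (h 1 d1)).mul ((h 2 a).mul (h 3 b))

theorem case {R 𝔄 F : Type} [CommRing R] [IsDomain R] [IsDiscreteValuationRing R]
    [CommRing 𝔄] [Field F] (D : Setup R 𝔄 F) (j : ℤ) (y0 y1 : 𝔄) (h0 : y0 * D.c (X 0) = 1)
    (h1 : y1 * D.c (X 1) = 1) (m d0 d1 a b : ℕ)
    (hd : (d0 : ℤ) + d1 + a + b = j + 2 * m) (E : 𝔄)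
    (hE : E = (y0 * y1) ^ m *
      (D.c (X 0) ^ d0 * D.c (X 1) ^ d1 * (D.c (X 2) ^ a * D.c (X 3) ^ b))) :
    D.AH 0 j E ∨ D.AH 1 j E ∨
      ∃ p q : ℕ, (p : ℤ) + q + j = a + b ∧
        E = y0 ^ p * y1 ^ q * (D.c (X 2) ^ a * D.c (X 3) ^ b) := by
  rcases Nat.lt_or_ge d1 m with h | h
  · rcases Nat.lt_or_ge d0 m with h' | h'
    · right; right
      obtain ⟨p, hp⟩ : ∃ p, m = d0 + p := ⟨m - d0, by omega⟩
      obtain ⟨q, hq⟩ : ∃ q, m = d1 + q := ⟨m - d1, by omega⟩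
      refine ⟨p, q, by omega, ?_⟩
      have e1 : (y0 * D.c (X 0)) ^ d0 = 1 := by rw [h0, one_pow]
      have e2 : (y1 * D.c (X 1)) ^ d1 = 1 := by rw [h1, one_pow]
      rw [hE, mul_pow]
      have e3 : y0 ^ m = y0 ^ (d0 + p) := by rw [← hp]
      have e4 : y1 ^ m = y1 ^ (d1 + q) := by rw [← hq]
      rw [e3, e4]
      calc y0 ^ (d0 + p) * y1 ^ (d1 + q) *
            (D.c (X 0) ^ d0 * D.c (X 1) ^ d1 * (D.c (X 2) ^ a * D.c (X 3) ^ b))
          = (y0 * D.c (X 0)) ^ d0 * (y1 * D.c (X 1)) ^ d1 *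
            (y0 ^ p * y1 ^ q * (D.c (X 2) ^ a * D.c (X 3) ^ b)) := by ring
        _ = _ := by rw [e1, e2, one_mul, one_mul]
    · right; left
      obtain ⟨e, rfl⟩ : ∃ e, d0 = m + e := ⟨d0 - m, by omega⟩
      refine ⟨m, X 0 ^ e * X 1 ^ d1 * (X 2 ^ a * X 3 ^ b),
        Or.inr ⟨e + d1 + (a + b), by push_cast at hd ⊢; omega, homX R e d1 a b⟩, ?_⟩
      have e1 : (y0 * D.c (X 0)) ^ m = 1 := by rw [h0, one_pow]
      have e2 : (y1 * D.c (X 1)) ^ m = 1 := by rw [h1, one_pow]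
      rw [hE, map_mul, map_mul, map_mul, map_pow, map_pow, map_pow, map_pow]
      calc D.c (X 1) ^ m * ((y0 * y1) ^ m *
            (D.c (X 0) ^ (m + e) * D.c (X 1) ^ d1 * (D.c (X 2) ^ a * D.c (X 3) ^ b)))
          = (y0 * D.c (X 0)) ^ m * (y1 * D.c (X 1)) ^ m *
            (D.c (X 0) ^ e * D.c (X 1) ^ d1 * (D.c (X 2) ^ a * D.c (X 3) ^ b)) := by ring
        _ = _ := by rw [e1, e2, one_mul, one_mul]
  · left
    obtain ⟨e, rfl⟩ : ∃ e, d1 = m + e := ⟨d1 - m, by omega⟩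
    refine ⟨m, X 0 ^ d0 * X 1 ^ e * (X 2 ^ a * X 3 ^ b),
      Or.inr ⟨d0 + e + (a + b), by push_cast at hd ⊢; omega, homX R d0 e a b⟩, ?_⟩
    have e1 : (y0 * D.c (X 0)) ^ m = 1 := by rw [h0, one_pow]
    have e2 : (y1 * D.c (X 1)) ^ m = 1 := by rw [h1, one_pow]
    rw [hE, map_mul, map_mul, map_mul, map_pow, map_pow, map_pow, map_pow]
    calc D.c (X 0) ^ m * ((y0 * y1) ^ m *
          (D.c (X 0) ^ d0 * D.c (X 1) ^ (m + e) * (D.c (X 2) ^ a * D.c (X 3) ^ b)))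
        = (y0 * D.c (X 0)) ^ m * (y1 * D.c (X 1)) ^ m *
          (D.c (X 0) ^ d0 * D.c (X 1) ^ e * (D.c (X 2) ^ a * D.c (X 3) ^ b)) := by ring
      _ = _ := by rw [e1, e2, one_mul, one_mul]

theorem emb_mono (R : Type) [CommRing R] (v : Fin 2 →₀ ℕ) (r : R) :
    emb R (monomial v r) = C r * (X 0 ^ v 0 * X 1 ^ v 1) := by
  rw [monomial_eq, Finsupp.prod_fintype _ _ (fun i => pow_zero _), Fin.prod_univ_two]
  show (rename (![0, 1] : Fin 2 → Fin 4)) (C r * (X 0 ^ v 0 * X 1 ^ v 1)) = _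
  rw [map_mul, map_mul, map_pow, map_pow, rename_C, rename_X, rename_X]
  rfl

theorem degv {R : Type} [CommRing R] (g : Lam R) (e : ℕ) (hg : g.IsHomogeneous e)
    (v : Fin 2 →₀ ℕ) (hv : v ∈ g.support) : v 0 + v 1 = e := by
  have h1 := hg (mem_support_iff.1 hv)
  have h2 : v.degree = e := by
    rw [Finsupp.degree_eq_weight_one]
    exact h1
  rw [Finsupp.degree_eq_sum, Fin.sum_univ_two] at h2
  exact h2

/-- the polynomial `emb g` is an `R`-combination of monomials -/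
theorem emb_sum {R 𝔄 : Type} [CommRing R] [CommRing 𝔄] (c : Pol R →+* 𝔄) (g : Lam R) (y z : 𝔄) :
    y * (c (emb R g) * z) = ∑ v ∈ g.support,
      c (C (coeff v g)) * (y * (c (X 0) ^ v 0 * c (X 1) ^ v 1 * z)) := by
  have h : emb R g = ∑ v ∈ g.support, C (coeff v g) * (X 0 ^ v 0 * X 1 ^ v 1) := by
    conv_lhs => rw [as_sum g]
    rw [map_sum]
    exact Finset.sum_congr rfl fun v _ => emb_mono R v _
  rw [h, map_sum, Finset.sum_mul, Finset.mul_sum]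
  apply Finset.sum_congr rfl
  intro v _
  rw [map_mul, map_mul, map_pow, map_pow]
  ring

end SEP

theorem p_SEP (h : Stmt_AL3) : Stmt_SEP := by
  intro R 𝔄 F _ _ _ _ _ D fgn j w hw hwn
  obtain ⟨-, -, a3, a4, -, -, -, -, -, -, -⟩ := h R 𝔄 F D
  letI : Algebra R 𝔄 := (D.c.comp C).toAlgebra
  have hsm : ∀ (a : R) (z : 𝔄), a • z = D.c (C a) * z := fun a z => by
    rw [Algebra.smul_def]; rfl
  obtain ⟨U, hU⟩ : ∃ U : Submodule R 𝔄, ∀ w, w ∈ U ↔
      ∃ u0 u1, D.AH 0 j u0 ∧ D.AH 1 j u1 ∧ w = u0 + u1 := by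
    refine ⟨{ carrier := {w | ∃ u0 u1, D.AH 0 j u0 ∧ D.AH 1 j u1 ∧ w = u0 + u1}
              add_mem' := ?_, zero_mem' := ?_, smul_mem' := ?_ }, fun w => Iff.rfl⟩
    · rintro z z' ⟨u0, u1, g0, g1, rfl⟩ ⟨v0, v1, k0, k1, rfl⟩
      exact ⟨u0 + v0, u1 + v1, a3 0 j _ _ g0 k0, a3 1 j _ _ g1 k1, by ring⟩
    · exact ⟨0, 0, SEP.zeroAH D 0 j, SEP.zeroAH D 1 j, (add_zero 0).symm⟩
    · rintro a z ⟨u0, u1, g0, g1, rfl⟩
      refine ⟨_, _, a4 0 j u0 a g0, a4 1 j u1 a g1, ?_⟩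
      rw [hsm, mul_add]
  obtain ⟨y0, h0⟩ : ∃ y0, y0 * D.c (X 0) = 1 := D.u0.exists_left_inv
  obtain ⟨y1, h1⟩ : ∃ y1, y1 * D.c (X 1) = 1 := D.u1.exists_left_inv
  obtain ⟨K, hK⟩ : ∃ K : ℕ, 2 * (D.N : ℤ) - j < K := ⟨(2 * (D.N : ℤ) - j).toNat + 1, by omega⟩
  obtain ⟨T, hT⟩ : ∃ T : Set 𝔄, T = Set.range (fun x : Fin K × Fin K × Fin D.N × Fin D.N =>
      y0 ^ (x.1 : ℕ) * y1 ^ (x.2.1 : ℕ) *
        (D.c (X 2) ^ (x.2.2.1 : ℕ) * D.c (X 3) ^ (x.2.2.2 : ℕ))) := ⟨_, rfl⟩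
  have hTf : T.Finite := by
    rw [hT]
    exact Set.finite_range _
  -- every element of degree `j` is in `U ⊔ span T`
  have hmem : ∀ z, D.GH j z → z ∈ U ⊔ Submodule.span R T := by
    rintro z ⟨m, f, hf, hz⟩
    obtain ⟨g, hg, hI⟩ := fgn (j + 2 * m) f hf
    have e1 : D.c f = ∑ a : Fin D.N, ∑ b : Fin D.N,
        D.c (emb R (g a b)) * (D.c (X 2) ^ (a : ℕ) * D.c (X 3) ^ (b : ℕ)) := by
      have h2 := (D.hc _).2 hI
      rw [map_sub, sub_eq_zero] at h2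
      rw [h2, map_sum]
      refine Finset.sum_congr rfl fun a _ => ?_
      rw [map_sum]
      refine Finset.sum_congr rfl fun b _ => ?_
      rw [map_mul, map_mul, map_pow, map_pow]
    have e2 : z = (y0 * y1) ^ m * D.c f := by
      rw [← hz]
      calc z = (y0 * D.c (X 0)) ^ m * (y1 * D.c (X 1)) ^ m * z := by
            rw [h0, h1, one_pow, one_mul, one_mul]
        _ = _ := by ring
    rw [e2, e1, Finset.mul_sum]
    refine Submodule.sum_mem _ fun a _ => ?_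
    rw [Finset.mul_sum]
    refine Submodule.sum_mem _ fun b _ => ?_
    rw [SEP.emb_sum]
    refine Submodule.sum_mem _ fun v hv => ?_
    rw [← hsm]
    refine Submodule.smul_mem _ _ ?_
    have hdeg : ((v 0 : ℕ) : ℤ) + v 1 + a + b = j + 2 * m := by
      rcases hg a b with h3 | ⟨e, he, hh⟩
      · rw [h3] at hv
        simp at hv
      · have := SEP.degv (g a b) e hh v hv
        omega
    rcases SEP.case D j y0 y1 h0 h1 m (v 0) (v 1) a b hdeg _ rfl with h4 | h4 | ⟨p, q, h5, h6⟩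
    · exact Submodule.mem_sup_left ((hU _).2 ⟨_, 0, h4, SEP.zeroAH D 1 j, (add_zero _).symm⟩)
    · exact Submodule.mem_sup_left ((hU _).2 ⟨0, _, SEP.zeroAH D 0 j, h4, (zero_add _).symm⟩)
    · refine Submodule.mem_sup_right (Submodule.subset_span ?_)
      rw [h6, hT]
      have ha := a.2
      have hb := b.2
      exact ⟨(⟨p, by omega⟩, ⟨q, by omega⟩, a, b), rfl⟩
  -- Krull
  obtain ⟨V, hV⟩ : ∃ V : Submodule R (𝔄 ⧸ U), V = (Submodule.span R T).map U.mkQ := ⟨_, rfl⟩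
  have hmV : ∀ z, D.GH j z → U.mkQ z ∈ V := by
    intro z hz
    obtain ⟨u, hu, s, hs, rfl⟩ := Submodule.mem_sup.1 (hmem z hz)
    rw [hV]
    refine ⟨s, hs, ?_⟩
    rw [map_add]
    have : U.mkQ u = 0 := by
      rw [Submodule.mkQ_apply, Submodule.Quotient.mk_eq_zero]
      exact hu
    rw [this, zero_add]
  haveI : Module.Finite R V := by
    rw [Module.Finite.iff_fg, hV]
    exact (Submodule.fg_span hTf).map _
  have hne : Ideal.span {D.t} ≠ ⊤ := by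
    rw [Ne, Ideal.span_singleton_eq_top]
    exact D.ht.not_isUnit
  have hbot := Ideal.iInf_pow_smul_eq_bot_of_isLocalRing (M := V) (Ideal.span {D.t}) hne
  have hin : (⟨U.mkQ w, hmV w hw⟩ : V) ∈ (⨅ i : ℕ, Ideal.span {D.t} ^ i • ⊤ : Submodule R V) := by
    rw [Submodule.mem_iInf]
    intro n
    obtain ⟨u0, u1, w', g0, g1, g2, g3⟩ := hwn n
    have e1 : (⟨U.mkQ w, hmV w hw⟩ : V) = D.t ^ n • (⟨U.mkQ w', hmV w' g2⟩ : V) := by
      apply Subtype.ext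
      show U.mkQ w = D.t ^ n • U.mkQ w'
      have e2 : w = (u0 + u1) + D.t ^ n • w' := by
        rw [hsm, map_pow, map_pow]
        exact g3
      have e3 : U.mkQ (u0 + u1) = 0 := by
        rw [Submodule.mkQ_apply, Submodule.Quotient.mk_eq_zero]
        exact (hU _).2 ⟨u0, u1, g0, g1, rfl⟩
      rw [e2, map_add, e3, zero_add, map_smul]
    rw [e1]
    exact Submodule.smul_mem_smul
      (Ideal.pow_mem_pow (Ideal.mem_span_singleton_self _) n) Submodule.mem_top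
  rw [hbot, Submodule.mem_bot] at hin
  have h7 : U.mkQ w = 0 := congrArg Subtype.val hin
  rw [Submodule.mkQ_apply, Submodule.Quotient.mk_eq_zero] at h7
  exact (hU w).1 h7

end Pool.SC
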