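import Pool.Agent.Work.MP_03d391_sc.Interface

set_option autoImplicit false

/-! Block SOC (helper88): the socle of `K[x,y]/(f,g)`. -/

noncomputable section

open MvPolynomial TensorProduct

namespace Pool.SC

namespace SOC

variable {K : Type} [Field K]

/-- first part -/
def d0 (w : Lam K) : Lam K := w.divMonomial (Finsupp.single 0 1)

/-- second part -/
def d1 (w : Lam K) : Lam K :=
  (w.modMonomial (Finsupp.single 0 1)).divMonomial (Finsupp.single 1 1)

theorem split (w : Lam K) : w = C (coeff 0 w) + d0 w * X 0 + d1 w * X 1 := by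
  have h1 := divMonomial_add_modMonomial w (Finsupp.single 0 1)
  have h2 := divMonomial_add_modMonomial (w.modMonomial (Finsupp.single 0 1))
    (Finsupp.single 1 1)
  have h3 : (w.modMonomial (Finsupp.single 0 1)).modMonomial (Finsupp.single (1 : Fin 2) 1) =
      C (coeff 0 w) := by
    ext m
    by_cases hm1 : Finsupp.single (1 : Fin 2) 1 ≤ m
    · rw [coeff_modMonomial_of_le _ hm1, coeff_C]
      have : (0 : Fin 2 →₀ ℕ) ≠ m := by
        rintro rfl
        have := hm1 1
        simp at this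
      rw [if_neg this]
    · rw [coeff_modMonomial_of_not_le _ hm1]
      by_cases hm0 : Finsupp.single (0 : Fin 2) 1 ≤ m
      · rw [coeff_modMonomial_of_le _ hm0, coeff_C]
        have : (0 : Fin 2 →₀ ℕ) ≠ m := by
          rintro rfl
          have := hm0 0
          simp at this
        rw [if_neg this]
      · rw [coeff_modMonomial_of_not_le _ hm0, coeff_C]
        have : m = 0 := by
          ext i
          fin_cases i
          · by_contra h
            apply hm0
            intro j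
            fin_cases j
            · simp only [Fin.zero_eta, Finsupp.single_eq_same]
              exact Nat.one_le_iff_ne_zero.mpr h
            · simp
          · by_contra h
            apply hm1
            intro j
            fin_cases j
            · simp
            · simp only [Fin.mk_one, Finsupp.single_eq_same]
              exact Nat.one_le_iff_ne_zero.mpr h
        rw [this]
        simp
  have e0 : (monomial (Finsupp.single (0 : Fin 2) 1) (1 : K) : Lam K) = X 0 := rfl
  have e1 : (monomial (Finsupp.single (1 : Fin 2) 1) (1 : K) : Lam K) = X 1 := rfl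
  rw [e0] at h1
  rw [e1, h3] at h2
  unfold d0 d1
  calc w = X 0 * w.divMonomial (Finsupp.single 0 1) + w.modMonomial (Finsupp.single 0 1) :=
        h1.symm
    _ = X 0 * w.divMonomial (Finsupp.single 0 1) + (X 1 *
        (w.modMonomial (Finsupp.single 0 1)).divMonomial (Finsupp.single 1 1) +
        C (coeff 0 w)) := by rw [h2]
    _ = _ := by ring

theorem wt1 (i : Fin 2) : Finsupp.weight (1 : Fin 2 → ℕ) (Finsupp.single i 1) = 1 := by
  rw [Finsupp.weight_apply, Finsupp.sum_single_index] <;> simp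

theorem hom0 {w : Lam K} {a : ℕ} (hw : w.IsHomogeneous (a + 1)) : (d0 w).IsHomogeneous a := by
  intro m hm
  unfold d0 at hm
  rw [coeff_divMonomial] at hm
  have := hw hm
  rw [map_add, wt1] at this
  omega

theorem hom1 {w : Lam K} {a : ℕ} (hw : w.IsHomogeneous (a + 1)) : (d1 w).IsHomogeneous a := by
  intro m hm
  unfold d1 at hm
  rw [coeff_divMonomial] at hm
  by_cases h0 : Finsupp.single (0 : Fin 2) 1 ≤ Finsupp.single 1 1 + m
  · rw [coeff_modMonomial_of_le _ h0] at hm
    exact absurd rfl hm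
  rw [coeff_modMonomial_of_not_le _ h0] at hm
  have := hw hm
  rw [map_add, wt1] at this
  omega

theorem coeff0 {w : Lam K} {a : ℕ} (hw : w.IsHomogeneous (a + 1)) : coeff 0 w = 0 := by
  by_contra h
  have := hw h
  simp at this

theorem splitH {w : Lam K} {a : ℕ} (hw : w.IsHomogeneous (a + 1)) :
    w = d0 w * X 0 + d1 w * X 1 := by
  have h := split w
  rw [coeff0 hw, C_0, zero_add] at h
  exact h

theorem X0_dvd {u v : Lam K} (h : X 1 * u = X 0 * v) : (X 0 : Lam K) ∣ u := by
  have h1 : (X 0 : Lam K) ∣ X 1 * u := ⟨v, h⟩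
  have hp : Prime (X 0 : Lam K) := X_prime
  rcases hp.dvd_or_dvd h1 with h2 | h2
  · exfalso
    rw [X_dvd_X] at h2
    norm_num at h2
  · exact h2

attribute [local instance] MvPolynomial.gradedAlgebra in
/-- `J` is homogeneous -/
theorem homJ {f g : Lam K} {a b : ℕ} (hf : f.IsHomogeneous a) (hg : g.IsHomogeneous b)
    (n : ℕ) {h : Lam K} (hh : h ∈ Ideal.span {f, g}) :
    homogeneousComponent n h ∈ Ideal.span {f, g} := by
  have := Ideal.homogeneous_span (homogeneousSubmodule (Fin 2) K) ({f, g} : Set (Lam K)) (by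
    rintro x (rfl | rfl)
    · exact ⟨a, hf⟩
    · exact ⟨b, hg⟩)
  have h2 := this n hh
  rw [← decomposition.decompose'_apply]
  exact h2

/-- the socle is spanned by Δ -/
theorem socle {f g : Lam K} (hk : Kos f g) {f₁ f₂ g₁ g₂ : Lam K}
    (ef : f = f₁ * X 0 + f₂ * X 1) (eg : g = g₁ * X 0 + g₂ * X 1) {u : Lam K}
    (h0 : X 0 * u ∈ Ideal.span {f, g}) (h1 : X 1 * u ∈ Ideal.span {f, g}) :
    ∃ c : K, u - C c * (f₁ * g₂ - f₂ * g₁) ∈ Ideal.span {f, g} := by
  rw [Ideal.mem_span_pair] at h0 h1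
  obtain ⟨α, β, e0⟩ := h0
  obtain ⟨γ, δ, e1⟩ := h1
  obtain ⟨w, w1, w2⟩ := hk (X 1 * α - X 0 * γ) (X 1 * β - X 0 * δ) (by
    linear_combination X 1 * e0 - X 0 * e1)
  have a1 : X 1 * (α - w * g₂) = X 0 * (γ + w * g₁) := by
    linear_combination w1 + w * eg
  have a2 : X 1 * (β + w * f₂) = X 0 * (δ - w * f₁) := by
    linear_combination w2 - w * ef
  obtain ⟨p, hp⟩ := X0_dvd a1
  obtain ⟨q, hq⟩ := X0_dvd a2
  have e2 : (X 0 : Lam K) * u = X 0 * (w * (f₁ * g₂ - f₂ * g₁) + p * f + q * g) := by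
    linear_combination (-1 : Lam K) * e0 + f * hp + g * hq + w * g₂ * ef - w * f₂ * eg
  have e3 : u = w * (f₁ * g₂ - f₂ * g₁) + p * f + q * g :=
    mul_left_cancel₀ (X_ne_zero 0) e2
  refine ⟨coeff 0 w, ?_⟩
  rw [Ideal.mem_span_pair]
  have hw := split w
  refine ⟨p + d0 w * g₂ - d1 w * g₁, q - d0 w * f₂ + d1 w * f₁, ?_⟩
  linear_combination (-1 : Lam K) * e3 - (f₁ * g₂ - f₂ * g₁) * hw
    + (d0 w * g₂ - d1 w * g₁) * ef + (- d0 w * f₂ + d1 w * f₁) * eg

theorem unit_of_zero_left {f g : Lam K} (hk : Kos f g) (hJ : Ideal.span {f, g} ≠ ⊤) :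
    f ≠ 0 ∧ g ≠ 0 := by
  constructor
  · rintro rfl
    obtain ⟨w, w1, -⟩ := hk 1 0 (by ring)
    apply hJ
    rw [Ideal.eq_top_iff_one, Ideal.mem_span_pair]
    exact ⟨0, w, by rw [w1]; ring⟩
  · rintro rfl
    obtain ⟨w, -, w2⟩ := hk 0 1 (by ring)
    apply hJ
    rw [Ideal.eq_top_iff_one, Ideal.mem_span_pair]
    exact ⟨-w, 0, by rw [w2]; ring⟩

theorem deg_pos {f g : Lam K} {a : ℕ} (hf : f.IsHomogeneous a) (h0 : f ≠ 0)
    (hJ : f ∈ Ideal.span {f, g}) (hT : Ideal.span {f, g} ≠ ⊤) : ∃ a', a = a' + 1 := by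
  cases a with
  | succ n => exact ⟨n, rfl⟩
  | zero =>
    exfalso
    have h1 : f = C (coeff 0 f) := by
      have := (totalDegree_zero_iff_isHomogeneous _).mpr hf
      exact totalDegree_eq_zero_iff_eq_C.mp this
    have h2 : coeff 0 f ≠ 0 := by
      intro h
      rw [h, C_0] at h1
      exact h0 h1
    apply hT
    rw [Ideal.eq_top_iff_one]
    have h3 := Ideal.mul_mem_left (Ideal.span {f, g}) (C (coeff 0 f)⁻¹) hJ
    have h4 : C (coeff 0 f)⁻¹ * f = 1 := by
      conv_lhs => rw [h1]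
      rw [coeff_C, if_pos rfl, ← C_mul, inv_mul_cancel₀ h2, C_1]
    rwa [h4] at h3

/-- `Δ` is not in `J` -/
theorem delta {f g : Lam K} (hk : Kos f g) (hg0 : g ≠ 0) {f₁ f₂ g₁ g₂ : Lam K}
    (ef : f = f₁ * X 0 + f₂ * X 1) (eg : g = g₁ * X 0 + g₂ * X 1) :
    f₁ * g₂ - f₂ * g₁ ∉ Ideal.span {f, g} := by
  intro h
  rw [Ideal.mem_span_pair] at h
  obtain ⟨p, q, e⟩ := h
  obtain ⟨w, w1, -⟩ := hk (X 0 * p - g₂) (X 0 * q + f₂) (by
    linear_combination X 0 * e - g₂ * ef + f₂ * eg)
  obtain ⟨w', w1', -⟩ := hk (X 1 * p + g₁) (X 1 * q - f₁) (by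
    linear_combination X 1 * e + g₁ * ef - f₁ * eg)
  have h1 : g * (w' * X 0 - w * X 1 - 1) = 0 := by
    linear_combination X 1 * w1 - X 0 * w1' - eg
  rcases mul_eq_zero.mp h1 with h2 | h2
  · exact hg0 h2
  · have := congrArg (constantCoeff : Lam K →+* K) h2
    simp at this

end SOC

open SOC in
theorem p_SOC (hK : Stmt_KO2) : Stmt_SOC := by
  intro K _ a b N f g hf hg hx hy hT
  have hk := hK K f g N hx hy
  obtain ⟨hf0, hg0⟩ := unit_of_zero_left hk hT
  have hfJ : f ∈ Ideal.span {f, g} := Ideal.subset_span (by simp)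
  have hgJ : g ∈ Ideal.span {f, g} := Ideal.subset_span (by simp)
  obtain ⟨a, rfl⟩ := deg_pos hf hf0 hfJ hT
  obtain ⟨b, rfl⟩ : ∃ b', b = b' + 1 := by
    have hT' : Ideal.span {g, f} ≠ ⊤ := by rwa [Set.pair_comm]
    exact deg_pos hg hg0 (Ideal.subset_span (by simp)) hT'
  have ef := splitH hf
  have eg := splitH hg
  have hΔ := delta hk hg0 ef eg
  have hΔh : (d0 f * d1 g - d1 f * d0 g).IsHomogeneous (a + b) :=
    ((hom0 hf).mul (hom1 hg)).sub ((hom1 hf).mul (hom0 hg))
  set Δ := d0 f * d1 g - d1 f * d0 g with hΔd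
  set J := Ideal.span {f, g} with hJ
  let W : Submodule K (Lam K) := J.restrictScalars K ⊔ LinearMap.ker
    (homogeneousComponent (a + b) : Lam K →ₗ[K] Lam K)
  have hW : Δ ∉ W := by
    intro h
    obtain ⟨j, hj, h', hh', e⟩ := Submodule.mem_sup.mp h
    apply hΔ
    have h1 : homogeneousComponent (a + b) j = Δ := by
      have h2 := congrArg (homogeneousComponent (a + b)) e
      rw [map_add, LinearMap.mem_ker.mp hh', add_zero, homogeneousComponent_of_mem hΔh,
        if_pos rfl] at h2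
      exact h2
    rw [← h1]
    exact homJ hf hg _ hj
  obtain ⟨s, hs, hsW⟩ := Submodule.exists_dual_map_eq_bot_of_notMem hW inferInstance
  have hsW' : ∀ w ∈ W, s w = 0 := by
    intro w hw
    have : s w ∈ W.map s := Submodule.mem_map_of_mem hw
    rw [hsW] at this
    simpa using this
  refine ⟨s, fun h hh => hsW' h (Submodule.mem_sup_left hh), ?_, ?_⟩
  · rintro m h (rfl | ⟨n, hn, hh⟩) hm
    · exact map_zero s
    · apply hsW' h (Submodule.mem_sup_right ?_)
      rw [LinearMap.mem_ker, homogeneousComponent_of_mem hh, if_neg]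
      rintro rfl
      apply hm
      rw [← hn]
      push_cast
      ring
  · intro h hh
    by_contra hc
    have hmem : ∀ n, 2 * N ≤ n → ∀ i j, i + j = n → h * (X 0 ^ i * X 1 ^ j) ∈ J := by
      intro n hn i j hij
      rcases le_or_gt N i with hi | hi
      · apply Ideal.mul_mem_left
        apply Ideal.mul_mem_right
        exact Ideal.mem_of_dvd _ (pow_dvd_pow _ hi) hx
      · have hj : N ≤ j := by omega
        apply Ideal.mul_mem_left
        apply Ideal.mul_mem_left
        exact Ideal.mem_of_dvd _ (pow_dvd_pow _ hj) hy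
    have hex : ∃ n, (∃ i j, i + j = n ∧ h * (X 0 ^ i * X 1 ^ j) ∉ J) ∧
        ∀ i j, i + j = n + 1 → h * (X 0 ^ i * X 1 ^ j) ∈ J := by
      by_contra hne
      push Not at hne
      have all : ∀ n, ∃ i j, i + j = n ∧ h * (X 0 ^ i * X 1 ^ j) ∉ J := by
        intro n
        induction n with
        | zero => exact ⟨0, 0, rfl, by simpa using hc⟩
        | succ n ih => exact hne n ih
      obtain ⟨i, j, hij, hn⟩ := all (2 * N)
      exact hn (hmem _ le_rfl i j hij)
    obtain ⟨n, ⟨i, j, hij, hu⟩, hn⟩ := hex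
    have u0 : X 0 * (h * (X 0 ^ i * X 1 ^ j)) ∈ J := by
      have := hn (i + 1) j (by omega)
      convert this using 1
      ring
    have u1 : X 1 * (h * (X 0 ^ i * X 1 ^ j)) ∈ J := by
      have := hn i (j + 1) (by omega)
      convert this using 1
      ring
    obtain ⟨c, hcu⟩ := socle hk ef eg u0 u1
    have e1 : s (h * (X 0 ^ i * X 1 ^ j)) = 0 := hh _
    have e2 : s (h * (X 0 ^ i * X 1 ^ j) - C c * Δ) = 0 := hsW' _ (Submodule.mem_sup_left hcu)
    rw [map_sub, e1, ← smul_eq_C_mul, map_smul, zero_sub, neg_eq_zero, smul_eq_mul] at e2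
    rcases mul_eq_zero.mp e2 with e3 | e3
    · rw [e3, C_0, zero_mul, sub_zero] at hcu
      exact hu hcu
    · exact hs e3

end Pool.SC
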