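import Pool.Agent.Work.MP_03d391_sc.Interface2

/-! # Block ST6 -/

set_option autoImplicit false

noncomputable section

open MvPolynomial TensorProduct

namespace Pool.SC

namespace ST6

theorem emb_C (R : Type) [CommRing R] (a : R) : emb R (C a) = C a := by
  show (rename (![0, 1] : Fin 2 → Fin 4) : Lam R →ₐ[R] Pol R) (C a) = C a
  rw [rename_C]

theorem emb_X0 (R : Type) [CommRing R] : emb R (X 0) = X 0 := by
  show (rename (![0, 1] : Fin 2 → Fin 4) : Lam R →ₐ[R] Pol R) (X 0) = X 0
  rw [rename_X]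
  rfl

theorem emb_X1 (R : Type) [CommRing R] : emb R (X 1) = X 1 := by
  show (rename (![0, 1] : Fin 2 → Fin 4) : Lam R →ₐ[R] Pol R) (X 1) = X 1
  rw [rename_X]
  rfl

/-- The five elements `θ t`, `θ X_i`. -/
def m5 {R E : Type} [CommRing R] [CommRing E] (θ : Pol R →+* E) (t : R) : Fin 5 → E :=
  Fin.cons (θ (C t)) (fun i : Fin 4 => θ (X i))

theorem m5_zero {R E : Type} [CommRing R] [CommRing E] (θ : Pol R →+* E) (t : R) :
    m5 θ t 0 = θ (C t) := rfl

theorem m5_succ {R E : Type} [CommRing R] [CommRing E] (θ : Pol R →+* E) (t : R) (i : Fin 4) :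
    m5 θ t i.succ = θ (X i) := rfl

theorem sub_mem {R E : Type} [CommRing R] [CommRing E] (θ : Pol R →+* E) (t : R) (a : Lam R) :
    θ (emb R a) - θ (C (constantCoeff a)) ∈ Ideal.span (Set.range (m5 θ t)) := by
  induction a using MvPolynomial.induction_on with
  | C a =>
    rw [constantCoeff_C, emb_C, sub_self]
    exact Ideal.zero_mem _
  | add p q hp hq =>
    have h : θ (emb R (p + q)) - θ (C (constantCoeff (p + q))) =
        (θ (emb R p) - θ (C (constantCoeff p))) + (θ (emb R q) - θ (C (constantCoeff q))) := by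
      simp only [map_add]
      ring
    rw [h]
    exact Ideal.add_mem _ hp hq
  | mul_X p i _ =>
    have h : θ (emb R (p * X i)) - θ (C (constantCoeff (p * X i))) =
        θ (emb R p) * θ (emb R (X i)) := by
      rw [map_mul (emb R), map_mul θ, map_mul constantCoeff, constantCoeff_X, mul_zero, map_zero,
        map_zero, sub_zero]
    rw [h]
    refine Ideal.mul_mem_left _ _ (Ideal.subset_span ?_)
    fin_cases i
    · refine ⟨(0 : Fin 4).succ, ?_⟩
      rw [m5_succ]
      exact congrArg θ (emb_X0 R).symm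
    · refine ⟨(1 : Fin 4).succ, ?_⟩
      rw [m5_succ]
      exact congrArg θ (emb_X1 R).symm

end ST6

open ST6 in
theorem p_ST6 (hNIL : Stmt_NIL) (hEND : Stmt_END) (hFNI : Stmt_FNI) (hUEX : Stmt_UEX)
    (hRG3 : Stmt_RG3) : Stmt_ST6 := by
  intro R E _ _ _ _ h2 t ht θ s' hs' r b hb hdet N hN2 hN3 hex
  obtain ⟨e, he1, he⟩ := hUEX R E θ t N r b hb hN2 hN3 hex
  obtain ⟨g1, g2, g3⟩ := hRG3 R t e ht.ne_zero he1
  letI algE : Algebra (Lam R) E := (θ.comp (emb R)).toAlgebra
  have halg : ∀ l : Lam R, algebraMap (Lam R) E l = θ (emb R l) := fun l => rfl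
  have hsm : ∀ (l : Lam R) (z : E), l • z = θ (emb R l) * z := fun l z => by
    rw [Algebra.smul_def, halg]
  have hli : LinearIndependent (Lam R) b := by
    rw [Fintype.linearIndependent_iff]
    intro g hg
    refine hb.ind g ?_
    rw [← hg]
    exact Finset.sum_congr rfl fun i _ => (hsm _ _).symm
  have hsp : ⊤ ≤ Submodule.span (Lam R) (Set.range b) := by
    intro z _
    obtain ⟨l, hl⟩ := hb.span z
    rw [hl]
    refine Submodule.sum_mem _ fun i _ => ?_
    rw [← hsm]
    exact Submodule.smul_mem _ _ (Submodule.subset_span ⟨i, rfl⟩)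
  let σ : E →ₗ[Lam R] Lam R :=
    { toFun := s'
      map_add' := map_add s'
      map_smul' := fun l z => by rw [hsm, hs', RingHom.id_apply, smul_eq_mul] }
  have hgram : (Matrix.of fun i j => σ ((Module.Basis.mk hli hsp) i *
      (Module.Basis.mk hli hsp) j)) = gram s' b := by
    ext i j
    rw [Matrix.of_apply, Module.Basis.mk_apply, Module.Basis.mk_apply]
    rfl
  have hadj : ∀ f : Pol R, θ f ∈ Algebra.adjoin (Lam R) {θ (X 2), θ (X 3)} := by
    intro f
    induction f using MvPolynomial.induction_on with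
    | C a =>
      have h3 : θ (C a) = algebraMap (Lam R) E (C a) := by rw [halg, emb_C]
      rw [h3]
      exact Subalgebra.algebraMap_mem _ _
    | add p q hp hq =>
      rw [map_add]
      exact Subalgebra.add_mem _ hp hq
    | mul_X p i hp =>
      rw [map_mul]
      refine Subalgebra.mul_mem _ hp ?_
      fin_cases i
      · have h3 : θ (X 0) = algebraMap (Lam R) E (X 0) := by rw [halg, emb_X0]
        exact h3 ▸ Subalgebra.algebraMap_mem _ _
      · have h3 : θ (X 1) = algebraMap (Lam R) E (X 1) := by rw [halg, emb_X1]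
        exact h3 ▸ Subalgebra.algebraMap_mem _ _
      · exact Algebra.subset_adjoin (Or.inl rfl)
      · exact Algebra.subset_adjoin (Or.inr rfl)
  have hrange : ∀ z ∈ θ.range, z ∈ Algebra.adjoin (Lam R) {θ (X 2), θ (X 3)} := by
    rintro _ ⟨f, rfl⟩
    exact hadj f
  have hnil := hNIL (Lam R) E r (Module.Basis.mk hli hsp) σ (by rw [hgram]; exact hdet)
    (θ (X 2)) (θ (X 3)) ![C t ^ e, X 0 ^ e, X 1 ^ e] g1 g2 g3 (by
      intro i u
      refine hrange _ ?_
      fin_cases i
      · show (C t ^ e : Lam R) • u ∈ θ.range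
        rw [hsm, map_pow, emb_C, map_pow]
        exact (he u).1
      · show (X 0 ^ e : Lam R) • u ∈ θ.range
        rw [hsm, map_pow, emb_X0, map_pow]
        exact (he u).2 0
      · show (X 1 ^ e : Lam R) • u ∈ θ.range
        rw [hsm, map_pow, emb_X1, map_pow]
        exact (he u).2 1)
  have hmax : IsLocalRing.maximalIdeal R = Ideal.span {t} :=
    (IsDiscreteValuationRing.irreducible_iff_uniformizer t).mp ht
  have hend := hEND (Lam R) E (κ R) ((IsLocalRing.residue R).comp constantCoeff) (by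
      intro c
      obtain ⟨a, ha⟩ := IsLocalRing.residue_surjective c
      refine ⟨C a, ?_⟩
      rw [RingHom.comp_apply, constantCoeff_C, ha]) h2 (θ (X 2)) (θ (X 3))
    (Ideal.span (Set.range (m5 θ t))) (Ideal.subset_span ⟨(2 : Fin 4).succ, m5_succ θ t 2⟩)
    (Ideal.subset_span ⟨(3 : Fin 4).succ, m5_succ θ t 3⟩) (by
      intro a ha
      rw [RingHom.comp_apply, IsLocalRing.residue_eq_zero_iff, hmax,
        Ideal.mem_span_singleton] at ha
      obtain ⟨c, hc⟩ := ha
      have h3 := sub_mem θ t a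
      have h4 : θ (C (constantCoeff a)) ∈ Ideal.span (Set.range (m5 θ t)) := by
        rw [hc, C_mul, map_mul]
        exact Ideal.mul_mem_right _ _ (Ideal.subset_span ⟨0, m5_zero θ t⟩)
      have h5 := Ideal.add_mem _ h3 h4
      rw [sub_add_cancel] at h5
      exact h5)
  intro u
  have hfin := hFNI E θ.range 5 e (m5 θ t) (by
      intro i
      refine Fin.cases ?_ (fun j => ?_) i
      · exact ⟨C t, rfl⟩
      · exact ⟨X j, rfl⟩) (by
      intro i v
      refine Fin.cases ?_ (fun j => ?_) i
      · exact (he v).1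
      · exact (he v).2 j) (by
      intro v
      obtain ⟨a, ha⟩ := hend v (hnil v)
      exact ⟨θ (emb R a), ⟨emb R a, rfl⟩, ha⟩) u
  obtain ⟨f, hf⟩ := hfin
  exact ⟨f, hf.symm⟩

end Pool.SC
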