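import Pool.Agent.Work.MP_03d391_sc.Interface

set_option autoImplicit false

noncomputable section

open MvPolynomial TensorProduct

namespace Pool.SC

namespace TFL

theorem toK_inj (R K : Type) [CommRing R] [IsDomain R] [Field K] [Algebra R K]
    [IsFractionRing R K] : Function.Injective (toK R K) :=
  MvPolynomial.map_injective _ (IsFractionRing.injective R K)

theorem toKL_inj (R K : Type) [CommRing R] [IsDomain R] [Field K] [Algebra R K]
    [IsFractionRing R K] : Function.Injective (toKL R K) :=
  MvPolynomial.map_injective _ (IsFractionRing.injective R K)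

theorem toK_emb (R K : Type) [CommRing R] [Field K] [Algebra R K] (l : Lam R) :
    toK R K (emb R l) = emb K (toKL R K l) := by
  change MvPolynomial.map _ (rename _ l) = rename _ (MvPolynomial.map _ l)
  rw [MvPolynomial.map_rename]

theorem emb_C (R : Type) [CommRing R] (a : R) : emb R (C a) = C a := by
  change rename _ (C a) = C a
  rw [rename_C]

theorem emb_X0 (R : Type) [CommRing R] : emb R (X 0) = X 0 := by
  change rename _ (X 0) = X 0
  rw [rename_X]; rfl

theorem emb_X1 (R : Type) [CommRing R] : emb R (X 1) = X 1 := by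
  change rename _ (X 1) = X 1
  rw [rename_X]; rfl

theorem toK_X (R K : Type) [CommRing R] [Field K] [Algebra R K] (i : Fin 4) :
    toK R K (X i) = X i := MvPolynomial.map_X _ _

theorem toK_C (R K : Type) [CommRing R] [Field K] [Algebra R K] (a : R) :
    toK R K (C a) = C (algebraMap R K a) := MvPolynomial.map_C _ _

theorem toKL_C (R K : Type) [CommRing R] [Field K] [Algebra R K] (a : R) :
    toKL R K (C a) = C (algebraMap R K a) := MvPolynomial.map_C _ _

/-- division by a power of `X 0` -/
theorem dvd_of (K : Type) [Field K] (j : ℕ) (m n : Lam K) (h : X 1 ^ j * m = X 0 ^ j * n) :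
    (X 0 : Lam K) ^ j ∣ m := by
  have hp : Prime (X 0 : Lam K) := MvPolynomial.X_prime
  have h01 : ¬ (X 0 : Lam K) ∣ X 1 ^ j := by
    intro hd
    have h1 := hp.dvd_of_dvd_pow hd
    obtain ⟨q, hq⟩ := h1
    have h2 := congrArg (MvPolynomial.eval (fun i : Fin 2 => if i = 0 then (0 : K) else 1)) hq
    simp at h2
  exact hp.pow_dvd_of_dvd_mul_left j h01 ⟨n, h⟩

end TFL

open TFL in
theorem p_TFL (hCON : Stmt_CON) : Stmt_TFL := by
  intro R K _ _ _ _ _ I hflat r b hb
  obtain ⟨hC1, hC2, -, hC4⟩ := hCON R K I hflat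
  set J := I.map (toK R K) with hJ
  -- a convenient form of the independence
  have hind : ∀ l : Fin r → Lam K, ∑ i, emb K (l i) * b i ∈ J → ∀ i, l i = 0 := by
    intro l hl
    apply hb.ind
    have := Ideal.Quotient.eq_zero_iff_mem.2 hl
    rw [map_sum] at this
    simpa only [map_mul] using this
  have hspan : ∀ f : Pol K, ∃ l : Fin r → Lam K, f - ∑ i, emb K (l i) * b i ∈ J := by
    intro f
    obtain ⟨l, hl⟩ := hb.span (Ideal.Quotient.mk J f)
    refine ⟨l, ?_⟩
    rw [← Ideal.Quotient.eq_zero_iff_mem, map_sub, hl, map_sum]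
    simp only [map_mul]
    exact sub_self _
  refine ⟨?_, ?_, ?_⟩
  · intro l f hl hlf
    obtain ⟨m, hm⟩ := hspan (toK R K f)
    have h1 : toK R K (emb R l * f) ∈ J := (hC4 _).2 hlf
    rw [map_mul, toK_emb] at h1
    have h2 : ∑ i, emb K (toKL R K l * m i) * b i ∈ J := by
      have h3 := J.mul_mem_left (emb K (toKL R K l)) hm
      have h4 : ∑ i, emb K (toKL R K l * m i) * b i = emb K (toKL R K l) * toK R K f
          - emb K (toKL R K l) * (toK R K f - ∑ i, emb K (m i) * b i) := by
        rw [mul_sub, sub_sub_cancel, Finset.mul_sum]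
        refine Finset.sum_congr rfl fun i _ => ?_
        rw [map_mul, mul_assoc]
      rw [h4]
      exact J.sub_mem h1 h3
    have h5 := hind _ h2
    have hl' : toKL R K l ≠ 0 := fun h => hl (toKL_inj R K (by rw [h, map_zero]))
    have h6 : ∀ i, m i = 0 := fun i => (mul_eq_zero.1 (h5 i)).resolve_left hl'
    apply (hC4 _).1
    simpa [h6] using hm
  · intro j f g hfg
    obtain ⟨m, hm⟩ := hspan (toK R K f)
    obtain ⟨n, hn⟩ := hspan (toK R K g)
    have h1 : toK R K (X 1 ^ j * f - X 0 ^ j * g) ∈ J := (hC4 _).2 hfg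
    rw [map_sub, map_mul, map_mul, map_pow, map_pow, toK_X, toK_X] at h1
    have h2 : ∑ i, emb K (X 1 ^ j * m i - X 0 ^ j * n i) * b i ∈ J := by
      have h3 := J.mul_mem_left (X 1 ^ j) hm
      have h4 := J.mul_mem_left (X 0 ^ j) hn
      have h5 : ∑ i, emb K (X 1 ^ j * m i - X 0 ^ j * n i) * b i =
          (X 1 ^ j * toK R K f - X 0 ^ j * toK R K g)
          - X 1 ^ j * (toK R K f - ∑ i, emb K (m i) * b i)
          + X 0 ^ j * (toK R K g - ∑ i, emb K (n i) * b i) := by
        have e : ∑ i, emb K (X 1 ^ j * m i - X 0 ^ j * n i) * b i =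
            X 1 ^ j * ∑ i, emb K (m i) * b i - X 0 ^ j * ∑ i, emb K (n i) * b i := by
          rw [Finset.mul_sum, Finset.mul_sum, ← Finset.sum_sub_distrib]
          refine Finset.sum_congr rfl fun i _ => ?_
          rw [map_sub, map_mul, map_mul, map_pow, map_pow, emb_X0, emb_X1]
          ring
        rw [e]; ring
      rw [h5]
      exact J.add_mem (J.sub_mem h1 h3) h4
    have h6 := hind _ h2
    have h7 : ∀ i, ∃ p : Lam K, m i = X 0 ^ j * p := fun i =>
      dvd_of K j (m i) (n i) (sub_eq_zero.1 (h6 i))
    choose p hp using h7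
    obtain ⟨a, h, ha, hah⟩ := hC1 (∑ i, emb K (p i) * b i)
    refine ⟨a, h, ha, ?_⟩
    apply (hC4 _).1
    rw [map_sub, map_mul, map_mul, map_pow, toK_X, toK_C, hah]
    have h8 : C (algebraMap R K a) * toK R K f -
        X 0 ^ j * (C (algebraMap R K a) * ∑ i, emb K (p i) * b i) =
        C (algebraMap R K a) * (toK R K f - ∑ i, emb K (m i) * b i) := by
      have e : ∑ i, emb K (m i) * b i = X 0 ^ j * ∑ i, emb K (p i) * b i := by
        rw [Finset.mul_sum]
        refine Finset.sum_congr rfl fun i _ => ?_
        rw [hp i, map_mul, map_pow, emb_X0]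
        ring
      rw [e]; ring
    rw [h8]
    exact J.mul_mem_left _ hm
  · intro f
    choose m hm using fun i => hspan (toK R K (f i))
    -- the square matrix
    let M : Matrix (Fin (r + 1)) (Fin (r + 1)) (Lam K) :=
      Matrix.of fun i j => if h : (j : ℕ) < r then m i ⟨j, h⟩ else 0
    have hdet : M.det = 0 := by
      apply Matrix.det_eq_zero_of_column_eq_zero (Fin.last r)
      intro i
      simp [M]
    obtain ⟨v, hv0, hv⟩ := Matrix.exists_vecMul_eq_zero_iff.2 hdet
    have hv' : ∀ j : Fin r, ∑ i, v i * m i j = 0 := by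
      intro j
      have := congrFun hv j.castSucc
      simpa [M, Matrix.vecMul, dotProduct] using this
    choose ρ w hρ hw using fun i => hC2 (v i)
    refine ⟨fun i => C (∏ t ∈ Finset.univ.erase i, ρ t) * w i, ?_, ?_⟩
    · obtain ⟨i, hi⟩ := Function.ne_iff.1 hv0
      intro h
      have h1 := congrFun h i
      simp only [Pi.zero_apply] at h1
      have h2 : (C (∏ t ∈ Finset.univ.erase i, ρ t) : Lam R) ≠ 0 := by
        rw [Ne, MvPolynomial.C_eq_zero]
        exact Finset.prod_ne_zero_iff.2 fun t _ => hρ t
      have h3 : w i = 0 := (mul_eq_zero.1 h1).resolve_left h2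
      have h4 := hw i
      rw [h3, map_zero] at h4
      have h5 : (C (algebraMap R K (ρ i)) : Lam K) ≠ 0 := by
        rw [Ne, MvPolynomial.C_eq_zero]
        exact fun h6 => hρ i (IsFractionRing.injective R K (by rw [h6, map_zero]))
      exact hi ((mul_eq_zero.1 h4.symm).resolve_left h5)
    · apply (hC4 _).1
      have hkey : ∀ i, toKL R K (C (∏ t ∈ Finset.univ.erase i, ρ t) * w i) =
          C (algebraMap R K (∏ t, ρ t)) * v i := by
        intro i
        rw [map_mul, toKL_C, hw i, ← mul_assoc, ← C_mul, ← map_mul,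
          Finset.prod_erase_mul _ _ (Finset.mem_univ i)]
      rw [map_sum]
      have h1 : ∑ i, toK R K (emb R (C (∏ t ∈ Finset.univ.erase i, ρ t) * w i) * f i) =
          emb K (C (algebraMap R K (∏ t, ρ t))) * ∑ i, emb K (v i) *
            (toK R K (f i) - ∑ j, emb K (m i j) * b j) := by
        have e : ∑ i, emb K (v i) * ∑ j, emb K (m i j) * b j = 0 := by
          have e1 : ∀ i, emb K (v i) * ∑ j, emb K (m i j) * b j =
              ∑ j, emb K (v i * m i j) * b j := by
            intro i
            rw [Finset.mul_sum]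
            refine Finset.sum_congr rfl fun j _ => ?_
            rw [map_mul, mul_assoc]
          simp only [e1]
          rw [Finset.sum_comm]
          refine Finset.sum_eq_zero fun j _ => ?_
          rw [← Finset.sum_mul, ← map_sum, hv' j, map_zero, zero_mul]
        have e2 : ∑ i, emb K (v i) * (toK R K (f i) - ∑ j, emb K (m i j) * b j) =
            ∑ i, emb K (v i) * toK R K (f i) := by
          simp only [mul_sub]
          rw [Finset.sum_sub_distrib, e, sub_zero]
        rw [e2, Finset.mul_sum]
        refine Finset.sum_congr rfl fun i _ => ?_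
        rw [map_mul, toK_emb, hkey i, map_mul, mul_assoc]
      rw [h1]
      apply J.mul_mem_left
      apply J.sum_mem
      intro i _
      exact J.mul_mem_left _ (hm i)

end Pool.SC
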