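import Pool.Agent.Work.MP_03d391_sc.Interface

set_option autoImplicit false

noncomputable section

open MvPolynomial TensorProduct

namespace Pool.SC

namespace TRS

theorem toKL_inj (R K : Type) [CommRing R] [IsDomain R] [Field K] [Algebra R K]
    [IsFractionRing R K] : Function.Injective (toKL R K) :=
  MvPolynomial.map_injective _ (IsFractionRing.injective R K)

theorem toK_emb (R K : Type) [CommRing R] [Field K] [Algebra R K] (l : Lam R) :
    toK R K (emb R l) = emb K (toKL R K l) := by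
  change MvPolynomial.map _ (rename _ l) = rename _ (MvPolynomial.map _ l)
  rw [MvPolynomial.map_rename]

theorem emb_C (R : Type) [CommRing R] (a : R) : emb R (C a) = C a := by
  change rename _ (C a) = C a
  rw [rename_C]

theorem toK_X (R K : Type) [CommRing R] [Field K] [Algebra R K] (i : Fin 4) :
    toK R K (X i) = X i := MvPolynomial.map_X _ _

theorem toKL_C (R K : Type) [CommRing R] [Field K] [Algebra R K] (a : R) :
    toKL R K (C a) = C (algebraMap R K a) := MvPolynomial.map_C _ _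

theorem HZ_map {ι R S : Type} [CommRing R] [CommRing S] (φ : R →+* S) {n : ℤ}
    {p : MvPolynomial ι R} (h : HZ n p) : HZ n (MvPolynomial.map φ p) := by
  rcases h with rfl | ⟨m, hm, hp⟩
  · left; rw [map_zero]
  · exact Or.inr ⟨m, hm, hp.map φ⟩

theorem HZ_of_map {ι R S : Type} [CommRing R] [CommRing S] (φ : R →+* S)
    (hφ : Function.Injective φ) {n : ℤ}
    {p : MvPolynomial ι R} (h : HZ n (MvPolynomial.map φ p)) : HZ n p := by
  rcases h with h | ⟨m, hm, hp⟩
  · left
    exact MvPolynomial.map_injective φ hφ (by rw [h, map_zero])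
  · right
    refine ⟨m, hm, ?_⟩
    intro d hd
    apply hp
    rw [coeff_map]
    intro h0
    exact hd (hφ (by rw [h0, map_zero]))

theorem HZ_C_mul {ι R : Type} [CommRing R] {n : ℤ} (u : R) {p : MvPolynomial ι R}
    (h : HZ n p) : HZ n (C u * p) := by
  rcases h with rfl | ⟨m, hm, hp⟩
  · left; rw [mul_zero]
  · refine Or.inr ⟨m, hm, ?_⟩
    have := (isHomogeneous_C (σ := ι) u).mul hp
    rwa [zero_add] at this

/-- common denominators -/
theorem clear {R K : Type} [CommRing R] [IsDomain R] [Field K] [Algebra R K]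
    [IsFractionRing R K] {ι : Type} (g : MvPolynomial ι K) :
    ∃ (r : R) (f : MvPolynomial ι R), r ≠ 0 ∧
      MvPolynomial.map (algebraMap R K) f = C (algebraMap R K r) * g := by
  classical
  obtain ⟨b, hb⟩ := IsLocalization.exist_integer_multiples_of_finset (nonZeroDivisors R)
    (g.support.image fun d => coeff d g)
  have h1 : C (algebraMap R K (b : R)) * g ∈ Set.range (MvPolynomial.map (σ := ι) (algebraMap R K)) := by
    rw [mem_range_map_iff_coeffs_subset]
    intro c hc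
    obtain ⟨d, hd, rfl⟩ := MvPolynomial.mem_coeffs_iff.1 hc
    rw [coeff_C_mul]
    by_cases hdg : d ∈ g.support
    · obtain ⟨x, hx⟩ := hb (coeff d g) (Finset.mem_image_of_mem _ hdg)
      exact ⟨x, by rw [hx, Algebra.smul_def]⟩
    · rw [notMem_support_iff.1 hdg, mul_zero]
      exact ⟨0, map_zero _⟩
  obtain ⟨f, hf⟩ := h1
  exact ⟨b, f, nonZeroDivisors.coe_ne_zero b, hf⟩

/-- normalization of a finite set of fractions -/
theorem norm {R K : Type} [CommRing R] [IsDomain R] [IsDiscreteValuationRing R] [Field K]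
    [Algebra R K] [IsFractionRing R K] (S : Finset K) (hS : ∃ c ∈ S, c ≠ 0) :
    ∃ u : K, u ≠ 0 ∧ (∀ c ∈ S, ∃ x : R, algebraMap R K x = u * c) ∧ ∃ c ∈ S, u * c = 1 := by
  classical
  obtain ⟨b, hb⟩ := IsLocalization.exist_integer_multiples_of_finset (nonZeroDivisors R) S
  have hb' : ∀ c : K, ∃ x : R, c ∈ S → algebraMap R K x = algebraMap R K (b : R) * c := by
    intro c
    by_cases hc : c ∈ S
    · obtain ⟨x, hx⟩ := hb c hc
      exact ⟨x, fun _ => by rw [hx, Algebra.smul_def]⟩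
    · exact ⟨0, fun h => absurd h hc⟩
  choose x hx using hb'
  obtain ⟨c₁, hc₁S, hc₁⟩ := hS
  obtain ⟨c₀, hc₀, hmin⟩ := Finset.exists_min_image S
    (fun c => IsDiscreteValuationRing.addVal R (x c)) ⟨c₁, hc₁S⟩
  have hdvd : ∀ c ∈ S, x c₀ ∣ x c := fun c hc =>
    IsDiscreteValuationRing.addVal_le_iff_dvd.1 (hmin c hc)
  have hbne : algebraMap R K (b : R) ≠ 0 := fun h =>
    nonZeroDivisors.coe_ne_zero b (IsFractionRing.injective R K (by rw [h, map_zero]))
  have hx0 : x c₀ ≠ 0 := by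
    intro h0
    have h1 := hdvd c₁ hc₁S
    rw [h0, zero_dvd_iff] at h1
    have h2 := hx c₁ hc₁S
    rw [h1, map_zero] at h2
    exact (mul_ne_zero hbne hc₁) h2.symm
  have hx0' : algebraMap R K (x c₀) ≠ 0 := fun h =>
    hx0 (IsFractionRing.injective R K (by rw [h, map_zero]))
  refine ⟨algebraMap R K (b : R) / algebraMap R K (x c₀), div_ne_zero hbne hx0', ?_, c₀, hc₀, ?_⟩
  · intro c hc
    obtain ⟨y, hy⟩ := hdvd c hc
    refine ⟨y, ?_⟩
    rw [div_mul_eq_mul_div, ← hx c hc, hy, map_mul]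
    field_simp
  · rw [div_mul_eq_mul_div, ← hx c₀ hc₀, div_self hx0']

end TRS

open TRS in
theorem p_TRS (hFGN : Stmt_FGN) : Stmt_TRS := by
  classical
  intro R K _ _ _ _ _ _ I N hI h2 h3 d s hlin hker hs hne
  -- every value is a combination of the `N²` values
  have hexp : ∀ f : Pol R, ∃ g : Fin N → Fin N → Lam R,
      s (toK R K f) = ∑ i : Fin N, ∑ j : Fin N,
        toKL R K (g i j) * s (X 2 ^ (i : ℕ) * X 3 ^ (j : ℕ)) := by
    intro f
    have hh : ∀ n : ℕ, ∃ g : Fin N → Fin N → Lam R,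
        homogeneousComponent n f - ∑ i : Fin N, ∑ j : Fin N,
          emb R (g i j) * (X 2 ^ (i : ℕ) * X 3 ^ (j : ℕ)) ∈ I := by
      intro n
      obtain ⟨g, -, hg⟩ := hFGN R I N hI h2 h3 n (homogeneousComponent n f)
        (Or.inr ⟨n, rfl, homogeneousComponent_isHomogeneous n f⟩)
      exact ⟨g, hg⟩
    choose g hg using hh
    refine ⟨fun i j => ∑ n ∈ Finset.range (f.totalDegree + 1), g n i j, ?_⟩
    have hfs : f - ∑ i : Fin N, ∑ j : Fin N, emb R (∑ n ∈ Finset.range (f.totalDegree + 1),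
        g n i j) * (X 2 ^ (i : ℕ) * X 3 ^ (j : ℕ)) ∈ I := by
      have e : f - ∑ i : Fin N, ∑ j : Fin N, emb R (∑ n ∈ Finset.range (f.totalDegree + 1),
          g n i j) * (X 2 ^ (i : ℕ) * X 3 ^ (j : ℕ)) =
          ∑ n ∈ Finset.range (f.totalDegree + 1), (homogeneousComponent n f -
            ∑ i : Fin N, ∑ j : Fin N, emb R (g n i j) * (X 2 ^ (i : ℕ) * X 3 ^ (j : ℕ))) := by
        rw [Finset.sum_sub_distrib, sum_homogeneousComponent]
        congr 1
        symm
        rw [Finset.sum_comm]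
        refine Finset.sum_congr rfl fun i _ => ?_
        rw [Finset.sum_comm]
        refine Finset.sum_congr rfl fun j _ => ?_
        rw [map_sum, Finset.sum_mul]
      rw [e]
      exact I.sum_mem fun n _ => hg n
    have h4 := hker _ (Ideal.mem_map_of_mem (toK R K) hfs)
    rw [map_sub, map_sub, sub_eq_zero] at h4
    rw [h4, map_sum, map_sum]
    refine Finset.sum_congr rfl fun i _ => ?_
    rw [map_sum, map_sum]
    refine Finset.sum_congr rfl fun j _ => ?_
    rw [map_mul, toK_emb, hlin, map_mul, map_pow, map_pow, toK_X, toK_X]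
  -- the coefficients
  let S : Finset K := Finset.univ.biUnion fun p : Fin N × Fin N =>
    (s (X 2 ^ (p.1 : ℕ) * X 3 ^ (p.2 : ℕ))).support.image
      fun e => coeff e (s (X 2 ^ (p.1 : ℕ) * X 3 ^ (p.2 : ℕ)))
  have hmemS : ∀ (p : Fin N × Fin N) (e : Fin 2 →₀ ℕ),
      e ∈ (s (X 2 ^ (p.1 : ℕ) * X 3 ^ (p.2 : ℕ))).support →
      coeff e (s (X 2 ^ (p.1 : ℕ) * X 3 ^ (p.2 : ℕ))) ∈ S := by
    intro p e he
    exact Finset.mem_biUnion.2 ⟨p, Finset.mem_univ _, Finset.mem_image_of_mem _ he⟩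
  have hSne : ∃ c ∈ S, c ≠ 0 := by
    by_contra hcon
    push Not at hcon
    have hz : ∀ i j : Fin N, s (X 2 ^ (i : ℕ) * X 3 ^ (j : ℕ)) = 0 := by
      intro i j
      by_contra h0
      obtain ⟨e, he⟩ := MvPolynomial.ne_zero_iff.1 h0
      have he' : e ∈ (s (X 2 ^ (i : ℕ) * X 3 ^ (j : ℕ))).support := mem_support_iff.2 he
      exact he (hcon _ (hmemS (i, j) e he'))
    have hall : ∀ f : Pol R, s (toK R K f) = 0 := by
      intro f
      obtain ⟨g, hg⟩ := hexp f
      rw [hg]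
      simp [hz]
    obtain ⟨f, hf⟩ := hne
    obtain ⟨r, f', hr, hf'⟩ := clear (R := R) f
    have h5 := hall f'
    change s (MvPolynomial.map _ f') = 0 at h5
    rw [hf'] at h5
    have h6 := hlin (C (algebraMap R K r)) f
    rw [emb_C, h5] at h6
    have h7 : (C (algebraMap R K r) : Lam K) ≠ 0 := by
      rw [Ne, MvPolynomial.C_eq_zero]
      exact fun h => hr (IsFractionRing.injective R K (by rw [h, map_zero]))
    exact hf ((mul_eq_zero.1 h6.symm).resolve_left h7)
  obtain ⟨u, hu, hint, c₀, hc₀, hc₀1⟩ := norm (R := R) S hSne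
  have hrange : ∀ p : Fin N × Fin N, ∃ w : Lam R,
      toKL R K w = C u * s (X 2 ^ (p.1 : ℕ) * X 3 ^ (p.2 : ℕ)) := by
    intro p
    have h1 : C u * s (X 2 ^ (p.1 : ℕ) * X 3 ^ (p.2 : ℕ)) ∈
        Set.range (MvPolynomial.map (σ := Fin 2) (algebraMap R K)) := by
      rw [mem_range_map_iff_coeffs_subset]
      intro c hc
      obtain ⟨e, he, rfl⟩ := MvPolynomial.mem_coeffs_iff.1 hc
      rw [coeff_C_mul]
      by_cases hdg : e ∈ (s (X 2 ^ (p.1 : ℕ) * X 3 ^ (p.2 : ℕ))).support
      · obtain ⟨x, hx⟩ := hint _ (hmemS p e hdg)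
        exact ⟨x, hx⟩
      · rw [notMem_support_iff.1 hdg, mul_zero]
        exact ⟨0, map_zero _⟩
    obtain ⟨w, hw⟩ := h1
    exact ⟨w, hw⟩
  choose w hw using hrange
  have hσ : ∀ f : Pol R, ∃ v : Lam R, toKL R K v = C u * s (toK R K f) := by
    intro f
    obtain ⟨g, hg⟩ := hexp f
    refine ⟨∑ i : Fin N, ∑ j : Fin N, g i j * w (i, j), ?_⟩
    rw [hg, map_sum, Finset.mul_sum]
    refine Finset.sum_congr rfl fun i _ => ?_
    rw [map_sum, Finset.mul_sum]
    refine Finset.sum_congr rfl fun j _ => ?_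
    rw [map_mul, hw (i, j)]
    ring
  choose σ hσ using hσ
  refine ⟨u, ⟨⟨σ, ?_⟩, ?_⟩, hu, hσ, ?_, ?_, ?_⟩
  · apply toKL_inj R K
    rw [hσ, map_zero, map_zero, mul_zero, map_zero]
  · intro f g
    apply toKL_inj R K
    change toKL R K (σ (f + g)) = toKL R K (σ f + σ g)
    rw [hσ, map_add, map_add, map_add, hσ, hσ, mul_add]
  · intro l f
    apply toKL_inj R K
    change toKL R K (σ (emb R l * f)) = toKL R K (l * σ f)
    rw [hσ, map_mul, toK_emb, hlin, map_mul, hσ]
    ring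
  · intro n f hf
    change HZ (n - d) (σ f)
    apply HZ_of_map (algebraMap R K) (IsFractionRing.injective R K)
    have h1 : MvPolynomial.map (algebraMap R K) (σ f) = C u * s (toK R K f) := hσ f
    rw [h1]
    exact HZ_C_mul u (hs n _ (HZ_map (algebraMap R K) hf))
  · obtain ⟨p, -, hp⟩ := Finset.mem_biUnion.1 hc₀
    obtain ⟨e, he, hec⟩ := Finset.mem_image.1 hp
    refine ⟨X 2 ^ (p.1 : ℕ) * X 3 ^ (p.2 : ℕ), e, ?_⟩
    change IsUnit (coeff e (σ (X 2 ^ (p.1 : ℕ) * X 3 ^ (p.2 : ℕ))))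
    have h1 := congrArg (coeff e) (hσ (X 2 ^ (p.1 : ℕ) * X 3 ^ (p.2 : ℕ)))
    rw [coeff_C_mul, map_mul, map_pow, map_pow, toK_X, toK_X, hec, hc₀1] at h1
    change coeff e (MvPolynomial.map (algebraMap R K) _) = 1 at h1
    rw [coeff_map] at h1
    have h2 : coeff e (σ (X 2 ^ (p.1 : ℕ) * X 3 ^ (p.2 : ℕ))) = 1 :=
      IsFractionRing.injective R K (by rw [h1, map_one])
    rw [h2]
    exact isUnit_one

end Pool.SC
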