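import Pool.Agent.Work.MP_03d391_sc.Interface2

/-! # Block UEX -/

set_option autoImplicit false

noncomputable section

open MvPolynomial TensorProduct

namespace Pool.SC

namespace UEX

/-- Larger exponents. -/
theorem mono {E : Type} [CommRing E] {S : Subring E} {a u : E} (ha : a ∈ S) {n m : ℕ} (h : n ≤ m)
    (hu : a ^ n * u ∈ S) : a ^ m * u ∈ S := by
  obtain ⟨k, rfl⟩ := Nat.exists_eq_add_of_le h
  have h1 : a ^ (n + k) * u = a ^ k * (a ^ n * u) := by ring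
  rw [h1]
  exact S.mul_mem (S.pow_mem ha k) hu

/-- A uniform exponent on all of `E`. -/
theorem unif {R E : Type} [CommRing R] [CommRing E] {θ : Pol R →+* E} {r : ℕ} {b : Fin r → E}
    (hb : IsB θ b) {a : E} (ha : a ∈ θ.range) (h : ∀ u : E, ∃ n : ℕ, a ^ n * u ∈ θ.range) :
    ∃ n : ℕ, ∀ u : E, a ^ n * u ∈ θ.range := by
  choose n hn using fun i => h (b i)
  refine ⟨∑ i, n i, fun u => ?_⟩
  obtain ⟨l, rfl⟩ := hb.span u
  rw [Finset.mul_sum]
  refine Subring.sum_mem _ fun i _ => ?_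
  have h1 : a ^ (∑ i, n i) * (θ (emb R (l i)) * b i) =
      θ (emb R (l i)) * (a ^ (∑ i, n i) * b i) := by ring
  rw [h1]
  refine Subring.mul_mem _ ⟨_, rfl⟩ (mono ha ?_ (hn i))
  exact Finset.single_le_sum (fun _ _ => Nat.zero_le _) (Finset.mem_univ i)

/-- Powers of a sum of two elements. -/
theorem two {E : Type} [CommRing E] {S : Subring E} {x y z v w : E} {e : ℕ}
    (hz : z = x * v + y * w)
    (h1 : ∀ u : E, x ^ e * u ∈ S) (h2 : ∀ u : E, y ^ e * u ∈ S) (u : E) :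
    z ^ (2 * e) * u ∈ S := by
  rw [hz, add_pow, Finset.sum_mul]
  refine Subring.sum_mem _ fun i hi => ?_
  have hi' : i ≤ 2 * e := by
    have := Finset.mem_range.1 hi
    omega
  by_cases hc : e ≤ i
  · obtain ⟨k, rfl⟩ := Nat.exists_eq_add_of_le hc
    have h3 : (x * v) ^ (e + k) * (y * w) ^ (2 * e - (e + k)) * ((2 * e).choose (e + k) : E) * u =
        x ^ e * (x ^ k * v ^ (e + k) * (y * w) ^ (2 * e - (e + k)) *
          ((2 * e).choose (e + k) : E) * u) := by ring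
    rw [h3]
    exact h1 _
  · have hc' : e ≤ 2 * e - i := by omega
    obtain ⟨k, hk⟩ := Nat.exists_eq_add_of_le hc'
    rw [hk]
    have h3 : (x * v) ^ i * (y * w) ^ (e + k) * ((2 * e).choose i : E) * u =
        y ^ e * (y ^ k * w ^ (e + k) * (x * v) ^ i * ((2 * e).choose i : E) * u) := by ring
    rw [h3]
    exact h2 _

/-- The exponent for `X 2` and `X 3`. -/
theorem exq {R E : Type} [CommRing R] [CommRing E] {θ : Pol R →+* E} {q : Pol R} {N e : ℕ}
    (hq : q ^ N ∈ RingHom.ker θ ⊔ Ideal.span {X 0, X 1})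
    (h0 : ∀ u : E, θ (X 0) ^ e * u ∈ θ.range) (h1 : ∀ u : E, θ (X 1) ^ e * u ∈ θ.range) :
    ∀ u : E, θ q ^ (N * (2 * e)) * u ∈ θ.range := by
  obtain ⟨p, hp, s, hs, hps⟩ := Submodule.mem_sup.1 hq
  obtain ⟨v, w, hvw⟩ := Ideal.mem_span_pair.1 hs
  intro u
  rw [pow_mul]
  have h2 : θ q ^ N = θ (X 0) * θ v + θ (X 1) * θ w := by
    rw [← map_pow, ← hps, map_add, (RingHom.mem_ker).1 hp, zero_add, ← hvw, map_add, map_mul,
      map_mul]
    ring
  exact two (S := θ.range) h2 h0 h1 u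

end UEX

theorem p_UEX : Stmt_UEX := by
  intro R E _ _ θ t N r b hb h2 h3 hu
  obtain ⟨nt, hnt⟩ := UEX.unif hb (a := θ (C t)) ⟨_, rfl⟩ fun u => by
    obtain ⟨n, h, -, -⟩ := hu u
    exact ⟨n, h⟩
  obtain ⟨n0, hn0⟩ := UEX.unif hb (a := θ (X 0)) ⟨_, rfl⟩ fun u => by
    obtain ⟨n, -, h, -⟩ := hu u
    exact ⟨n, h⟩
  obtain ⟨n1, hn1⟩ := UEX.unif hb (a := θ (X 1)) ⟨_, rfl⟩ fun u => by
    obtain ⟨n, -, -, h⟩ := hu u
    exact ⟨n, h⟩
  set f : ℕ := n0 + n1 with hf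
  have g0 : ∀ u : E, θ (X 0) ^ f * u ∈ θ.range := fun u =>
    UEX.mono (S := θ.range) (RingHom.mem_range_self θ _) (by omega) (hn0 u)
  have g1 : ∀ u : E, θ (X 1) ^ f * u ∈ θ.range := fun u =>
    UEX.mono (S := θ.range) (RingHom.mem_range_self θ _) (by omega) (hn1 u)
  have g2 := UEX.exq h2 g0 g1
  have g3 := UEX.exq h3 g0 g1
  refine ⟨nt + f + N * (2 * f) + 1, by omega, fun u => ⟨?_, fun i => ?_⟩⟩
  · exact UEX.mono (S := θ.range) (RingHom.mem_range_self θ _) (by omega) (hnt u)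
  · fin_cases i
    · exact UEX.mono (S := θ.range) (RingHom.mem_range_self θ _) (by omega) (g0 u)
    · exact UEX.mono (S := θ.range) (RingHom.mem_range_self θ _) (by omega) (g1 u)
    · exact UEX.mono (S := θ.range) (RingHom.mem_range_self θ _) (by omega) (g2 u)
    · exact UEX.mono (S := θ.range) (RingHom.mem_range_self θ _) (by omega) (g3 u)

end Pool.SC
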