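import Pool.Agent.Work.MP_03d391_sc.Final4
import Pool.Agent.Work.MP_03d391_sc.B_KO2
import Pool.Agent.Work.MP_03d391_sc.B_RES
import Pool.Agent.Work.MP_03d391_sc.B_KOS
import Pool.Agent.Work.MP_03d391_sc.B_RGX
import Pool.Agent.Work.MP_03d391_sc.B_SOC
import Pool.Agent.Work.MP_03d391_sc.B_DET
import Pool.Agent.Work.MP_03d391_sc.B_QGR
import Pool.Agent.Work.MP_03d391_sc.B_GFR
import Pool.Agent.Work.MP_03d391_sc.B_HFX
import Pool.Agent.Work.MP_03d391_sc.B_SFN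
import Pool.Agent.Work.MP_03d391_sc.B_FGN
import Pool.Agent.Work.MP_03d391_sc.B_GRG
import Pool.Agent.Work.MP_03d391_sc.B_HID
import Pool.Agent.Work.MP_03d391_sc.B_GEN
import Pool.Agent.Work.MP_03d391_sc.B_NKR
import Pool.Agent.Work.MP_03d391_sc.B_CON
import Pool.Agent.Work.MP_03d391_sc.B_TRS
import Pool.Agent.Work.MP_03d391_sc.B_TFL
import Pool.Agent.Work.MP_03d391_sc.B_HFL
import Pool.Agent.Work.MP_03d391_sc.B_PIN
import Pool.Agent.Work.MP_03d391_sc.B_PHM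
import Pool.Agent.Work.MP_03d391_sc.B_SBR
import Pool.Agent.Work.MP_03d391_sc.B_EXT
import Pool.Agent.Work.MP_03d391_sc.B_B01
import Pool.Agent.Work.MP_03d391_sc.B_GRB
import Pool.Agent.Work.MP_03d391_sc.B_BFN
import Pool.Agent.Work.MP_03d391_sc.B_DNZ
import Pool.Agent.Work.MP_03d391_sc.B_BLG
import Pool.Agent.Work.MP_03d391_sc.B_BBA
import Pool.Agent.Work.MP_03d391_sc.B_DUA
import Pool.Agent.Work.MP_03d391_sc.B_LOC
import Pool.Agent.Work.MP_03d391_sc.B_AL1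
import Pool.Agent.Work.MP_03d391_sc.B_AL2
import Pool.Agent.Work.MP_03d391_sc.B_AL3
import Pool.Agent.Work.MP_03d391_sc.B_RHO
import Pool.Agent.Work.MP_03d391_sc.B_LV1
import Pool.Agent.Work.MP_03d391_sc.B_HST
import Pool.Agent.Work.MP_03d391_sc.B_DER
import Pool.Agent.Work.MP_03d391_sc.B_HDU
import Pool.Agent.Work.MP_03d391_sc.B_LFT
import Pool.Agent.Work.MP_03d391_sc.B_SEP
import Pool.Agent.Work.MP_03d391_sc.B_LAL
import Pool.Agent.Work.MP_03d391_sc.B_SPN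
import Pool.Agent.Work.MP_03d391_sc.B_NIL
import Pool.Agent.Work.MP_03d391_sc.B_END
import Pool.Agent.Work.MP_03d391_sc.B_FNI
import Pool.Agent.Work.MP_03d391_sc.B_UEX
import Pool.Agent.Work.MP_03d391_sc.B_RG3
import Pool.Agent.Work.MP_03d391_sc.B_ST6
import Pool.Agent.Work.MP_03d391_sc.B_NK2
import Pool.Agent.Work.MP_03d391_sc.B_GO2

set_option autoImplicit false

noncomputable section

open MvPolynomial TensorProduct

namespace Pool.SC

theorem all_DET : Stmt_DET := p_DET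
theorem all_HFX : Stmt_HFX := p_HFX
theorem all_FGN : Stmt_FGN := p_FGN
theorem all_GRB : Stmt_GRB := p_GRB
theorem all_AL1 : Stmt_AL1 := p_AL1
theorem all_AL2 : Stmt_AL2 := p_AL2
theorem all_AL3 : Stmt_AL3 := p_AL3
theorem all_KO2 : Stmt_KO2 := p_KO2
theorem all_GRG : Stmt_GRG := p_GRG p_KO2 (p_KOS p_RES) (p_RGX p_RES) p_RES
theorem all_GEN : Stmt_GEN := p_GEN all_GRG p_HID p_RES (p_SOC p_KO2) p_DET p_QGR p_GFR p_HFX p_SFN
  p_FGN
theorem all_BBA : Stmt_BBA := p_BBA p_EXT p_B01 p_GRB p_BFN p_GFR p_DNZ p_BLG p_HFX p_DET p_FGN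
theorem all_HST : Stmt_HST := p_HST p_AL2 p_AL3
theorem all_LFT : Stmt_LFT := p_LFT p_AL1 p_AL2 p_AL3 all_HST p_DER
theorem all_LAL : Stmt_LAL := p_LAL p_AL1 p_AL2 p_AL3 (p_SEP p_AL3)
theorem all_ST6 : Stmt_ST6 := p_ST6 p_NIL p_END p_FNI p_UEX p_RG3

/-- The criterion. -/
theorem crit (R : Type) [CommRing R] [IsDomain R] [IsDiscreteValuationRing R] (h2 : (2 : κ R) ≠ 0)
    (I : Ideal (Pol R)) (P : Ideal (Pol (κ R))) (a b : ℕ) (h : IsFamily R I P a b)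
    (hex : ExactDeg P ((a : ℤ) + b - 4)) : IsCI P :=
  criterion all_GEN p_NKR p_CON (p_TRS p_FGN) (p_TFL p_CON) p_HFL p_PIN p_PHM p_SBR p_LOC p_RHO
    p_DUA p_B01 p_GRB (p_HDU p_AL1 p_AL3) all_LFT (p_LV1 p_AL2 p_AL3) all_LAL p_FGN p_EXT p_DET
    p_SPN all_ST6 p_NK2 p_GO2 all_BBA R h2 I P a b h hex

end Pool.SC
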