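import Pool.Agent.Work.MP_03d391_sc.Interface2

/-!
# MP_03d391_ag, THEOREM SC, block AL1
-/

set_option autoImplicit false

noncomputable section

open MvPolynomial TensorProduct

namespace Pool.SC

namespace AL1

variable {R 𝔄 F : Type} [CommRing R] [IsDomain R] [IsDiscreteValuationRing R]
    [CommRing 𝔄] [Field F]

theorem red_surj : Function.Surjective (red R) :=
  MvPolynomial.map_surjective _ IsLocalRing.residue_surjective

theorem red_ker (t : R) (ht : Irreducible t) (f : Pol R) (hf : red R f = 0) :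
    ∃ h, f = C t * h := by
  have h1 : C t ∣ f := by
    rw [MvPolynomial.C_dvd_iff_dvd_coeff]
    intro m
    have h2 : IsLocalRing.residue R (coeff m f) = 0 := by
      rw [← MvPolynomial.coeff_map]
      change coeff m (red R f) = 0
      rw [hf, coeff_zero]
    rw [IsLocalRing.residue_eq_zero_iff, ht.maximalIdeal_eq, Ideal.mem_span_singleton] at h2
    exact h2
  exact h1

theorem red_t (t : R) (ht : Irreducible t) : red R (C t) = 0 := by
  unfold red
  rw [MvPolynomial.map_C]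
  have : IsLocalRing.residue R t = 0 := by
    rw [IsLocalRing.residue_eq_zero_iff, ht.maximalIdeal_eq]
    exact Ideal.mem_span_singleton_self t
  rw [this, C_0]

theorem lift_mem (D : Setup R 𝔄 F) (f : Pol R) (hf : red R f ∈ D.I.map (red R)) :
    ∃ p ∈ D.I, ∃ h, f = p + C D.t * h := by
  obtain ⟨p, hp, hpf⟩ := (Ideal.mem_map_iff_of_surjective _ red_surj).1 hf
  obtain ⟨h, hh⟩ := red_ker D.t D.ht (f - p) (by rw [map_sub, hpf, sub_self])
  exact ⟨p, hp, h, by rw [← hh]; ring⟩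

theorem lift_P (D : Setup R 𝔄 F) (i : Fin 4) (f : Pol R) (hf : red R f ∈ D.P) :
    ∃ (M : ℕ) (h : Pol R), D.c (X i) ^ M * D.c f = D.c (C D.t) * D.c h := by
  obtain ⟨M, hM⟩ := D.sat
  have h1 := hM _ hf i
  have h2 : red R (X i ^ M * f) ∈ D.I.map (red R) := by
    have : red R (X i) = X i := by unfold red; rw [MvPolynomial.map_X]
    rw [map_mul, map_pow, this]
    exact h1
  obtain ⟨p, hp, h, hh⟩ := lift_mem D _ h2
  refine ⟨M, h, ?_⟩
  rw [← map_pow, ← map_mul, hh, map_add, (D.hc p).2 hp, zero_add, map_mul]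

theorem reg (D : Setup R 𝔄 F) (z : 𝔄) (hz : D.c (C D.t) * z = 0) : z = 0 := by
  obtain ⟨N, f, hf⟩ := D.fr z
  have h1 : D.c (C D.t * f) = 0 := by
    rw [map_mul, ← hf, mul_left_comm, hz, mul_zero]
  have h2 : D.c f = 0 := (D.hc f).2 (D.flat f ((D.hc _).1 h1))
  rw [h2] at hf
  exact (((D.u0.mul D.u1).pow N).mul_right_eq_zero).1 hf

theorem sat_A (D : Setup R 𝔄 F) (i : Fin 4) (z : 𝔄)
    (hz : D.c (C D.t) * z ∈ D.A i) : z ∈ D.A i := by
  obtain ⟨M, h, hM⟩ := hz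
  obtain ⟨N, f, hf⟩ := D.fr z
  have h1 : D.c (C D.t * (X i ^ M * f) - (X 0 * X 1) ^ N * h) = 0 := by
    rw [map_sub, map_mul, map_mul, map_mul, map_pow, map_pow, map_mul, ← hf, ← hM]
    ring
  have h2 : D.g (red R (C D.t * (X i ^ M * f) - (X 0 * X 1) ^ N * h)) = 0 := by
    rw [← D.hq, h1, map_zero]
  have e0 : red R (X 0) = X 0 := by unfold red; rw [MvPolynomial.map_X]
  have e1 : red R (X 1) = X 1 := by unfold red; rw [MvPolynomial.map_X]
  have e2 : red R (C D.t * (X i ^ M * f) - (X 0 * X 1) ^ N * h) =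
      -((X 0 * X 1) ^ N * red R h) := by
    rw [map_sub, map_mul, red_t D.t D.ht, zero_mul, zero_sub, map_mul, map_pow, map_mul, e0, e1]
  rw [e2, map_neg, neg_eq_zero, map_mul, map_pow, map_mul] at h2
  have h3 : D.g (red R h) = 0 := by
    rcases mul_eq_zero.1 h2 with h | h
    · exact absurd h (pow_ne_zero _ (mul_ne_zero D.x0 D.x1))
    · exact h
  obtain ⟨L, h', hh⟩ := lift_P D i h ((D.hg _).1 h3)
  refine ⟨L + M, h', ?_⟩
  have h4 : D.c (C D.t) * (D.c (X i) ^ (L + M) * z - D.c h') = 0 := by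
    rw [mul_sub, ← hh, ← hM]
    ring
  exact sub_eq_zero.1 (reg D _ h4)

end AL1

theorem p_AL1 : Stmt_AL1 := by
  intro R 𝔄 F _ _ _ _ _ D
  refine ⟨AL1.reg D, fun z => ⟨fun hz => ?_, ?_⟩, AL1.sat_A D 0, AL1.sat_A D 1⟩
  · obtain ⟨N, f, hf⟩ := D.fr z
    have h1 : D.g (red R f) = 0 := by
      rw [← D.hq, ← hf, map_mul, hz, mul_zero]
    obtain ⟨M, h, hh⟩ := AL1.lift_P D 0 f ((D.hg _).1 h1)
    obtain ⟨u, hu⟩ := (D.u0.pow M).mul ((D.u0.mul D.u1).pow N)
    refine ⟨↑u⁻¹ * D.c h, ?_⟩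
    have h2 : (u : 𝔄) * z = D.c (C D.t) * D.c h := by
      rw [hu, mul_assoc, hf, hh]
    have h3 : z = ↑u⁻¹ * ((u : 𝔄) * z) := by rw [← mul_assoc, Units.inv_mul, one_mul]
    rw [h3, h2]
    ring
  · rintro ⟨w, rfl⟩
    rw [map_mul, D.hq, AL1.red_t D.t D.ht, map_zero, zero_mul]

end Pool.SC
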