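import Pool.Agent.Work.MP_03d391_sc.Interface2

/-! # Block EX4 -/

set_option autoImplicit false

noncomputable section

open MvPolynomial TensorProduct

namespace Pool.SC

theorem p_EX4 : Stmt_EX4 := by
  intro k _ P e h n m hnm x y hx hy
  rcases le_or_gt (2 * n) e with h1 | h1
  · obtain ⟨f, hf⟩ := h n x h1 hx
    have hx' : x = algebraMap (Pol k) (secRing P) f := Subtype.ext hf
    refine ⟨0, ?_⟩
    rw [hx', Derivation.map_algebraMap]
    exact (smul_zero y).trans (KaehlerDifferential.D (Pol k) (secRing P)).map_zero.symm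
  · obtain ⟨f, hf⟩ := h m y (by omega) hy
    have hy' : y = algebraMap (Pol k) (secRing P) f := Subtype.ext hf
    refine ⟨y * x, ?_⟩
    rw [Derivation.leibniz, hy', Derivation.map_algebraMap]
    exact ((congrArg _ (smul_zero x)).trans (add_zero _)).symm

end Pool.SC
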