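import Pool.Agent.Work.MP_03d391_sc.Interface

/-! # Block PHM -/

set_option autoImplicit false

noncomputable section

open MvPolynomial TensorProduct

namespace Pool.SC

theorem PHM.map_comp {R S : Type} [CommRing R] [CommRing S] (φ : R →+* S) (n : ℕ)
    (f : MvPolynomial (Fin 4) R) :
    homogeneousComponent n (MvPolynomial.map φ f) =
      MvPolynomial.map φ (homogeneousComponent n f) := by
  ext d
  rw [coeff_homogeneousComponent, coeff_map, coeff_map, coeff_homogeneousComponent]
  split_ifs
  · rfl
  · rw [map_zero]

theorem PHM.mul_comp {S : Type} [CommRing S] (n N : ℕ) (f : MvPolynomial (Fin 4) S) :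
    homogeneousComponent (N + n) (X 0 ^ N * f) = X 0 ^ N * homogeneousComponent n f := by
  ext d
  rw [X_pow_eq_monomial, coeff_homogeneousComponent, coeff_monomial_mul', coeff_monomial_mul',
    coeff_homogeneousComponent]
  by_cases hd : Finsupp.single 0 N ≤ d
  · rw [if_pos hd, if_pos hd, one_mul, one_mul]
    have h1 : d.degree = N + (d - Finsupp.single 0 N).degree := by
      conv_lhs => rw [← add_tsub_cancel_of_le hd]
      rw [map_add, Finsupp.degree_single]
    rw [h1]
    simp only [add_right_inj]
  · rw [if_neg hd, if_neg hd, ite_self]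

theorem p_PHM : Stmt_PHM := by
  intro R _ _ I P hI hP hle h0 ⟨N, hN⟩ f hf n
  have hJ : HomI (I.map (red R)) := by
    intro g hg m
    have hs : Function.Surjective (red R) :=
      MvPolynomial.map_surjective _ IsLocalRing.residue_surjective
    obtain ⟨g', hg', rfl⟩ := (Ideal.mem_map_iff_of_surjective _ hs).mp hg
    have h1 : homogeneousComponent m (red R g') = red R (homogeneousComponent m g') :=
      PHM.map_comp _ m g'
    rw [h1]
    exact Ideal.mem_map_of_mem _ (hI g' hg' m)
  have h1 := hle (hJ _ (hN f hf) (N + n))
  rw [PHM.mul_comp] at h1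
  exact (hP.mem_or_mem h1).resolve_left fun h2 => h0 (hP.mem_of_pow_mem _ h2)

end Pool.SC
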