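import Pool.Agent.Work.MP_03d391_sc.Interface

/-!
# Block SFN: coordinate functionals (helper95)
-/

set_option autoImplicit false

noncomputable section

open MvPolynomial TensorProduct

namespace Pool.SC

namespace SFN

variable {R E : Type} [CommRing R] [CommRing E] {θ : Pol R →+* E} {r : ℕ} {b : Fin r → E}

theorem uniq (hb : IsB θ b) {l l' : Fin r → Lam R}
    (h : ∑ i, θ (emb R (l i)) * b i = ∑ i, θ (emb R (l' i)) * b i) : l = l' := by
  funext i
  have h1 : ∑ i, θ (emb R (l i - l' i)) * b i = 0 := by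
    have : ∀ i, θ (emb R (l i - l' i)) * b i = θ (emb R (l i)) * b i - θ (emb R (l' i)) * b i := by
      intro i
      rw [map_sub, map_sub, sub_mul]
    rw [Finset.sum_congr rfl (fun i _ => this i), Finset.sum_sub_distrib, h, sub_self]
  exact sub_eq_zero.1 (hb.ind _ h1 i)

/-- the coordinates -/
def co (hb : IsB θ b) (m : E) : Fin r → Lam R := (hb.span m).choose

theorem co_spec (hb : IsB θ b) (m : E) : m = ∑ i, θ (emb R (co hb m i)) * b i :=
  (hb.span m).choose_spec

theorem co_eq (hb : IsB θ b) (l : Fin r → Lam R) :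
    co hb (∑ i, θ (emb R (l i)) * b i) = l :=
  uniq hb (co_spec hb _).symm

theorem co_add (hb : IsB θ b) (x y : E) : co hb (x + y) = co hb x + co hb y := by
  refine uniq hb ?_
  rw [← co_spec hb (x + y)]
  have : ∀ i, θ (emb R ((co hb x + co hb y) i)) * b i =
      θ (emb R (co hb x i)) * b i + θ (emb R (co hb y i)) * b i := by
    intro i
    rw [Pi.add_apply, map_add, map_add, add_mul]
  rw [Finset.sum_congr rfl (fun i _ => this i), Finset.sum_add_distrib, ← co_spec hb x,
    ← co_spec hb y]

theorem co_smul (hb : IsB θ b) (l : Lam R) (x : E) :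
    co hb (θ (emb R l) * x) = fun i => l * co hb x i := by
  refine uniq hb ?_
  rw [← co_spec hb (θ (emb R l) * x)]
  conv_lhs => rw [co_spec hb x, Finset.mul_sum]
  refine Finset.sum_congr rfl (fun i _ => ?_)
  rw [map_mul, map_mul, mul_assoc]

end SFN

theorem p_SFN : Stmt_SFN := by
  intro R E _ _ θ r b hb w
  refine ⟨AddMonoidHom.mk' (fun m => ∑ i, C (w i) * SFN.co hb m i) ?_, ?_, ?_⟩
  · intro x y
    simp only [SFN.co_add, Pi.add_apply, mul_add, Finset.sum_add_distrib]
  · intro l z
    simp only [AddMonoidHom.mk'_apply, SFN.co_smul, Finset.mul_sum]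
    refine Finset.sum_congr rfl (fun i _ => ?_)
    ring
  · intro l
    simp only [AddMonoidHom.mk'_apply, SFN.co_eq]

end Pool.SC
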