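import Pool.Agent.Work.MP_03d391_sc.Interface2

/-! # Block SPN -/

set_option autoImplicit false

noncomputable section

open MvPolynomial TensorProduct

namespace Pool.SC

namespace SPN

/-- `s'` of a linear combination of the `b i`, times `b j`. -/
theorem lin {R E : Type} [CommRing R] [CommRing E] {θ : Pol R →+* E} {s' : E →+ Lam R}
    (hs : ∀ l z, s' (θ (emb R l) * z) = l * s' z) {r : ℕ} (b : Fin r → E) (l : Fin r → Lam R)
    (j : Fin r) :
    s' ((∑ i, θ (emb R (l i)) * b i) * b j) = (Matrix.vecMul l (gram s' b)) j := by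
  rw [Finset.sum_mul, map_sum, Matrix.vecMul, dotProduct]
  refine Finset.sum_congr rfl fun i _ => ?_
  rw [mul_assoc, hs]
  rfl

theorem zero_of {R : Type} [CommRing R] {r : ℕ} (G : Matrix (Fin r) (Fin r) (Lam R))
    (hG : IsUnit G.det) (l : Fin r → Lam R) (h : ∀ j, (Matrix.vecMul l G) j = 0) : l = 0 := by
  have h1 : Matrix.vecMul l G = 0 := funext h
  have h2 : Matrix.vecMul (Matrix.vecMul l G) G⁻¹ = l := by
    rw [Matrix.vecMul_vecMul, Matrix.mul_nonsing_inv G hG, Matrix.vecMul_one]
  rw [← h2, h1, Matrix.zero_vecMul]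

end SPN

theorem p_SPN : Stmt_SPN := by
  intro R E _ _ _ θ s' hs htf r b hdet hdep
  constructor
  · intro u
    set G := gram s' b with hG
    set l : Fin r → Lam R := Matrix.vecMul (fun j => s' (u * b j)) G⁻¹ with hl
    have h1 : Matrix.vecMul l G = fun j => s' (u * b j) := by
      rw [hl, Matrix.vecMul_vecMul, Matrix.nonsing_inv_mul G hdet, Matrix.vecMul_one]
    set u' : E := u - ∑ i, θ (emb R (l i)) * b i with hu'
    have h2 : ∀ j, s' (u' * b j) = 0 := by
      intro j
      rw [hu', sub_mul, map_sub, SPN.lin hs b l j, ← hG, h1]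
      simp
    obtain ⟨μ, hμ, hμ0⟩ := hdep (Fin.cons u' b)
    rw [Fin.sum_univ_succ] at hμ0
    simp only [Fin.cons_zero, Fin.cons_succ] at hμ0
    have h3 : (fun i : Fin r => μ i.succ) = 0 := by
      refine SPN.zero_of G hdet _ fun j => ?_
      rw [hG, ← SPN.lin hs b (fun i : Fin r => μ i.succ) j]
      have h4 : (∑ i : Fin r, θ (emb R (μ i.succ)) * b i) = -(θ (emb R (μ 0)) * u') := by
        linear_combination hμ0
      rw [h4, neg_mul, map_neg, mul_assoc, hs, h2, mul_zero, neg_zero]
    have h5 : ∀ i : Fin r, μ i.succ = 0 := fun i => congrFun h3 i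
    have h6 : μ 0 ≠ 0 := by
      intro h0
      apply hμ
      funext i
      refine Fin.cases h0 (fun a => h5 a) i
    have h7 : θ (emb R (μ 0)) * u' = 0 := by
      have h8 : (∑ i : Fin r, θ (emb R (μ i.succ)) * b i) = 0 :=
        Finset.sum_eq_zero fun i _ => by rw [h5 i]; simp
      rw [h8, add_zero] at hμ0
      exact hμ0
    have h8 : u' = 0 := htf _ _ h6 h7
    refine ⟨l, ?_⟩
    rw [hu', sub_eq_zero] at h8
    exact h8
  · intro l h0 i
    have h1 : l = 0 := by
      refine SPN.zero_of (gram s' b) hdet l fun j => ?_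
      rw [← SPN.lin hs b l j, h0, zero_mul, map_zero]
    rw [h1]
    rfl

end Pool.SC
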