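import Pool.Agent.Work.MP_03d391_sc.Interface2

set_option autoImplicit false

noncomputable section

open MvPolynomial TensorProduct

namespace Pool.SC

theorem emb_X0 (R : Type) [CommRing R] : emb R (X 0) = X 0 := by
  simp [emb]

theorem emb_X1 (R : Type) [CommRing R] : emb R (X 1) = X 1 := by
  simp [emb]

theorem emb_C (R : Type) [CommRing R] (a : R) : emb R (C a) = C a := by
  simp [emb]

theorem HZ.mul {ι R : Type} [CommRing R] {n m : ℤ} {p q : MvPolynomial ι R}
    (hp : HZ n p) (hq : HZ m q) : HZ (n + m) (p * q) := by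
  rcases hp with rfl | ⟨a, rfl, ha⟩
  · left; simp
  rcases hq with rfl | ⟨b, rfl, hb⟩
  · left; simp
  right
  exact ⟨a + b, by push_cast; ring, ha.mul hb⟩

theorem HZ_X_pow {ι R : Type} [CommRing R] (i : ι) (N : ℕ) :
    HZ (N : ℤ) ((X i : MvPolynomial ι R) ^ N) :=
  Or.inr ⟨N, rfl, by simpa using (isHomogeneous_X R i).pow N⟩

theorem HZ_coeff {ι R : Type} [CommRing R] {n : ℤ} {p : MvPolynomial ι R}
    (hp : HZ n p) (e : ι →₀ ℕ) (he : coeff e p ≠ 0) : (e.degree : ℤ) = n := by
  rcases hp with rfl | ⟨a, rfl, ha⟩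
  · simp at he
  · have := ha he
    rw [Finsupp.degree_eq_weight_one]
    exact_mod_cast this

theorem HZ_of_coeff {ι R : Type} [CommRing R] {n : ℤ} {p : MvPolynomial ι R}
    (hp : ∀ e : ι →₀ ℕ, coeff e p ≠ 0 → (e.degree : ℤ) = n) : HZ n p := by
  by_cases h0 : p = 0
  · exact Or.inl h0
  · obtain ⟨e, he⟩ := MvPolynomial.ne_zero_iff.1 h0
    refine Or.inr ⟨e.degree, hp e he, ?_⟩
    intro e' he'
    have h1 := hp e' he'
    have h2 := hp e he
    have h4 : Finsupp.degree e' = Finsupp.degree e := by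
      have h3 := h1.trans h2.symm
      exact_mod_cast h3
    rw [Finsupp.degree_eq_weight_one] at h4 ⊢
    exact h4

theorem HZ_of_X_pow_mul {ι R : Type} [CommRing R] (i : ι) (N : ℕ) {n : ℤ} {p : MvPolynomial ι R}
    (hp : HZ (n + N) ((X i : MvPolynomial ι R) ^ N * p)) : HZ n p := by
  classical
  apply HZ_of_coeff
  intro e he
  have h1 : coeff (Finsupp.single i N + e) ((X i : MvPolynomial ι R) ^ N * p) ≠ 0 := by
    rw [X_pow_eq_monomial, coeff_monomial_mul]
    simpa using he
  have h2 := HZ_coeff hp _ h1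
  rw [map_add] at h2
  have h3 : (Finsupp.single i N).degree = N := by simp
  rw [h3] at h2
  push_cast at h2
  linarith

theorem HZ_zero_eq {ι R : Type} [CommRing R] {p : MvPolynomial ι R} (hp : HZ 0 p) :
    ∃ a, p = C a := by
  classical
  refine ⟨coeff 0 p, ?_⟩
  ext e
  rw [coeff_C]
  split_ifs with h
  · rw [h]
  · by_contra h1
    have h2 := HZ_coeff hp e h1
    have h3 : Finsupp.degree e = 0 := by exact_mod_cast h2
    rw [Finsupp.degree_eq_zero_iff] at h3
    exact h h3.symm

end Pool.SC
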