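import Mathlib

/-!
# MP_03d391_ag, THEOREM SC: definitions

`Pol R = R[x_0,x_1,x_2,x_3]`, `Lam R = R[x_0,x_1]`.
-/

set_option autoImplicit false

noncomputable section

open MvPolynomial TensorProduct

namespace Pool.SC

/-- The polynomial ring in four variables. -/
abbrev Pol (R : Type) [CommRing R] := MvPolynomial (Fin 4) R

/-- The polynomial ring in the two variables `x_0`, `x_1`. -/
abbrev Lam (R : Type) [CommRing R] := MvPolynomial (Fin 2) R

/-- The inclusion `R[x_0,x_1] → R[x_0,x_1,x_2,x_3]`. -/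
def emb (R : Type) [CommRing R] : Lam R →+* Pol R :=
  (rename (![0, 1] : Fin 2 → Fin 4) : Lam R →ₐ[R] Pol R).toRingHom

/-- `p` is homogeneous of degree `n ∈ ℤ` (so `p = 0` if `n < 0`). -/
def HZ {ι R : Type} [CommRing R] (n : ℤ) (p : MvPolynomial ι R) : Prop :=
  p = 0 ∨ ∃ m : ℕ, (m : ℤ) = n ∧ p.IsHomogeneous m

/-- The ideal `I` is homogeneous. -/
def HomI {ι R : Type} [CommRing R] (I : Ideal (MvPolynomial ι R)) : Prop :=
  ∀ f ∈ I, ∀ n : ℕ, homogeneousComponent n f ∈ I

/-- The residue field of a local ring. -/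
abbrev κ (R : Type) [CommRing R] [IsLocalRing R] := IsLocalRing.ResidueField R

/-- Reduction modulo the maximal ideal. -/
def red (R : Type) [CommRing R] [IsLocalRing R] : Pol R →+* Pol (κ R) :=
  MvPolynomial.map (IsLocalRing.residue R)

/-- Reduction modulo the maximal ideal, two variables. -/
def redL (R : Type) [CommRing R] [IsLocalRing R] : Lam R →+* Lam (κ R) :=
  MvPolynomial.map (IsLocalRing.residue R)

/-- Extension of scalars. -/
def toK (R K : Type) [CommRing R] [CommRing K] [Algebra R K] : Pol R →+* Pol K :=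
  MvPolynomial.map (algebraMap R K)

/-- Extension of scalars, two variables. -/
def toKL (R K : Type) [CommRing R] [CommRing K] [Algebra R K] : Lam R →+* Lam K :=
  MvPolynomial.map (algebraMap R K)

/-- The ideal is generated by two homogeneous polynomials. -/
def IsCI {k : Type} [Field k] (P : Ideal (Pol k)) : Prop :=
  ∃ (a b : ℕ) (F G : Pol k), F.IsHomogeneous a ∧ G.IsHomogeneous b ∧ P = Ideal.span {F, G}

/-- The total ring of fractions of `k[x_0,x_1,x_2,x_3]/P`. -/
abbrev FF {k : Type} [Field k] (P : Ideal (Pol k)) := FractionRing (Pol k ⧸ P)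

/-- The map `k[x_0,x_1,x_2,x_3] → FF P`. -/
def cl {k : Type} [Field k] (P : Ideal (Pol k)) : Pol k →+* FF P :=
  (algebraMap (Pol k ⧸ P) (FF P)).comp (Ideal.Quotient.mk P)

/-- The section ring `B = ⊕ H⁰(C, O(n))` of the projective scheme `C` with homogeneous ideal `P`:
the fractions `z` with `x_i^N z ∈ k[x_0,x_1,x_2,x_3]/P` for all `i`, for some `N`. -/
def secRing {k : Type} [Field k] (P : Ideal (Pol k)) : Subalgebra (Pol k) (FF P) where
  carrier := {z | ∃ N : ℕ, ∀ i : Fin 4, ∃ f : Pol k,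
    algebraMap (Pol k) (FF P) (X i) ^ N * z = algebraMap (Pol k) (FF P) f}
  mul_mem' := by
    rintro z w ⟨N, hz⟩ ⟨M, hw⟩
    refine ⟨N + M, fun i => ?_⟩
    obtain ⟨f, hf⟩ := hz i
    obtain ⟨g, hg⟩ := hw i
    exact ⟨f * g, by rw [map_mul, ← hf, ← hg]; ring⟩
  add_mem' := by
    rintro z w ⟨N, hz⟩ ⟨M, hw⟩
    refine ⟨N + M, fun i => ?_⟩
    obtain ⟨f, hf⟩ := hz i
    obtain ⟨g, hg⟩ := hw i
    exact ⟨X i ^ M * f + X i ^ N * g, by
      rw [map_add, map_mul, map_mul, map_pow, map_pow, ← hf, ← hg]; ring⟩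
  algebraMap_mem' := fun f => ⟨0, fun i => ⟨f, by simp⟩⟩

/-- `z` is a section of `O(n)`. -/
def IsSec {k : Type} [Field k] (P : Ideal (Pol k)) (n : ℤ) (z : FF P) : Prop :=
  ∃ N : ℕ, ∀ i : Fin 4, ∃ f : Pol k, HZ (n + N) f ∧
    algebraMap (Pol k) (FF P) (X i) ^ N * z = algebraMap (Pol k) (FF P) f

/-- For homogeneous `x`, `y` in the section ring `B` with `deg x + deg y = e` the differential form
`y dx ∈ Ω(B/k[x_0,..,x_3])` is exact. -/
def ExactDeg {k : Type} [Field k] (P : Ideal (Pol k)) (e : ℤ) : Prop :=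
  ∀ n m : ℤ, n + m = e → ∀ x y : secRing P, IsSec P n (x : FF P) → IsSec P m (y : FF P) →
    ∃ z : secRing P, y • KaehlerDifferential.D (Pol k) (secRing P) x =
      KaehlerDifferential.D (Pol k) (secRing P) z

/-- A flat family of curves in `ℙ³` over a discrete valuation ring with a complete intersection of
type `(a, b)` as generic member and with an integral special member with homogeneous ideal `P`;
the line `x_0 = x_1 = 0` does not meet the special member. -/
structure IsFamily (R : Type) [CommRing R] [IsDomain R] [IsDiscreteValuationRing R]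
    (I : Ideal (Pol R)) (P : Ideal (Pol (κ R))) (a b : ℕ) : Prop where
  hom : HomI I
  flat : ∀ (r : R) (f : Pol R), r ≠ 0 → C r * f ∈ I → f ∈ I
  gen : ∃ F G : Pol (FractionRing R), F.IsHomogeneous a ∧ G.IsHomogeneous b ∧
    I.map (toK R (FractionRing R)) = Ideal.span {F, G}
  prime : P.IsPrime
  le : I.map (red R) ≤ P
  sat : ∃ N : ℕ, ∀ f ∈ P, ∀ i : Fin 4, X i ^ N * f ∈ I.map (red R)
  line : ∃ N : ℕ, X 2 ^ N ∈ I.map (red R) ⊔ Ideal.span {X 0, X 1} ∧
    X 3 ^ N ∈ I.map (red R) ⊔ Ideal.span {X 0, X 1}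

end Pool.SC
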