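import Pool.Agent.Work.MP_03d391_sc.Basic

set_option autoImplicit false

noncomputable section

open MvPolynomial TensorProduct

namespace Pool.SC

theorem cl_eq {k : Type} [Field k] (P : Ideal (Pol k)) (f : Pol k) :
    cl P f = algebraMap (Pol k) (FF P) f := rfl

/-- Output of the first part of the assembly. -/
structure Out1 (R : Type) [CommRing R] [IsDomain R] [IsDiscreteValuationRing R]
    (I : Ideal (Pol R)) (P : Ideal (Pol (κ R))) (d : ℤ) (N : ℕ) (r : ℕ) (β : Fin r → ℤ)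
    (σ : Pol R →+ Lam R) (s : Pol (κ R) →+ Lam (κ R)) : Prop where
  fin2 : X 2 ^ N ∈ I ⊔ Ideal.span {X 0, X 1}
  fin3 : X 3 ^ N ∈ I ⊔ Ideal.span {X 0, X 1}
  fin2' : X 2 ^ N ∈ P ⊔ Ideal.span {X 0, X 1}
  fin3' : X 3 ^ N ∈ P ⊔ Ideal.span {X 0, X 1}
  σl : ∀ (l : Lam R) (f : Pol R), σ (emb R l * f) = l * σ f
  σI : ∀ f ∈ I, σ f = 0
  σh : ∀ (n : ℤ) (f : Pol R), HZ n f → HZ (n - d) (σ f)
  red : ∀ f, s (red R f) = redL R (σ f)
  sl : ∀ (l : Lam (κ R)) (f : Pol (κ R)), s (emb (κ R) l * f) = l * s f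
  sP : ∀ f ∈ P, s f = 0
  sh : ∀ (n : ℤ) (f : Pol (κ R)), HZ n f → HZ (n - d) (s f)
  ne : ∃ f, s f ≠ 0
  x0 : X 0 ∉ P
  x1 : X 1 ∉ P
  hP : HomI P
  sum : 2 * ∑ i, β i = r * d
  hil : ∃ n0 : ℕ, ∀ n ≥ n0, hil P n = ∑ i, ((n : ℤ) - β i + 1)
  tfl : ∀ (l : Lam R) (f : Pol R), l ≠ 0 → emb R l * f ∈ I → f ∈ I
  tmm : ∀ (j : ℕ) (f g : Pol R), X 1 ^ j * f - X 0 ^ j * g ∈ I →
    ∃ (a : R) (h : Pol R), a ≠ 0 ∧ C a * f - X 0 ^ j * h ∈ I
  dep : ∀ f : Fin (r + 1) → Pol R, ∃ μ : Fin (r + 1) → Lam R, μ ≠ 0 ∧ ∑ i, emb R (μ i) * f i ∈ I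

theorem stage1 (hGEN : Stmt_GEN) (hNKR : Stmt_NKR) (hCON : Stmt_CON) (hTRS : Stmt_TRS)
    (hTFL : Stmt_TFL) (hHFL : Stmt_HFL) (hPIN : Stmt_PIN) (hPHM : Stmt_PHM) (hSBR : Stmt_SBR)
    (R : Type) [CommRing R] [IsDomain R] [IsDiscreteValuationRing R]
    (I : Ideal (Pol R)) (P : Ideal (Pol (κ R))) (a b : ℕ) (h : IsFamily R I P a b) :
    ∃ (N r : ℕ) (β : Fin r → ℤ) (σ : Pol R →+ Lam R) (s : Pol (κ R) →+ Lam (κ R)),
      Out1 R I P ((a : ℤ) + b - 2) N r β σ s := by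
  classical
  obtain ⟨F, G, hF, hG, hFG⟩ := h.gen
  obtain ⟨N0, hl2, hl3⟩ := h.line
  obtain ⟨f2, f3⟩ := hNKR R I N0 h.hom hl2 hl3
  obtain ⟨c1, c2, c3, c4⟩ := hCON R (FractionRing R) I h.flat
  have hinj : Function.Injective (toKL R (FractionRing R)) :=
    MvPolynomial.map_injective _ (IsFractionRing.injective R (FractionRing R))
  -- the generic ideal
  have mapspan : (I ⊔ Ideal.span {X 0, X 1} : Ideal (Pol R)).map (toK R (FractionRing R)) =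
      Ideal.span {F, G} ⊔ Ideal.span {X 0, X 1} := by
    rw [Ideal.map_sup, hFG, Ideal.map_span]
    congr 2
    simp [Set.image_pair, toK]
  have g2 : (X 2 : Pol (FractionRing R)) ^ (2 * N0) ∈ Ideal.span {F, G} ⊔ Ideal.span {X 0, X 1} := by
    rw [← mapspan]
    have := Ideal.mem_map_of_mem (toK R (FractionRing R)) f2
    simpa [toK] using this
  have g3 : (X 3 : Pol (FractionRing R)) ^ (2 * N0) ∈ Ideal.span {F, G} ⊔ Ideal.span {X 0, X 1} := by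
    rw [← mapspan]
    have := Ideal.mem_map_of_mem (toK R (FractionRing R)) f3
    simpa [toK] using this
  have hI1 : (1 : Pol R) ∉ I := by
    intro h1
    have h2 : (1 : Pol (κ R)) ∈ P := by
      have := h.le (Ideal.mem_map_of_mem (red R) h1)
      simpa using this
    exact h.prime.ne_top ((Ideal.eq_top_iff_one _).2 h2)
  have hne : Ideal.span {F, G} ≠ ⊤ := by
    intro h1
    apply hI1
    rw [← c4]
    rw [hFG, h1]
    trivial
  obtain ⟨r, β, c, s, hs⟩ := hGEN (FractionRing R) a b (2 * N0) F G hF hG g2 g3 hne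
  have hsne : ∃ f, s f ≠ 0 := by
    by_contra hcon
    push Not at hcon
    apply hne
    rw [Ideal.eq_top_iff_one]
    exact hs.nd 1 (fun g => hcon _)
  obtain ⟨u, σ, hu, hσ1, hσ2, hσ3, f1, e1, hσ4⟩ := hTRS R (FractionRing R) I (2 * N0) h.hom f2 f3
    ((a : ℤ) + b - 2) s hs.lin (by rw [hFG]; exact hs.ker) hs.hs hsne
  have hσI : ∀ f ∈ I, σ f = 0 := by
    intro f hf
    apply hinj
    rw [hσ1, map_zero, hs.ker _ (by rw [← hFG]; exact Ideal.mem_map_of_mem _ hf), mul_zero]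
  obtain ⟨N1, hN1⟩ := h.sat
  obtain ⟨s', hs1, hs2, hs3, hs4⟩ := hSBR R I P N1 (fun f hf => hN1 f hf 0) ((a : ℤ) + b - 2) σ
    hσ2 hσI hσ3
  have hs5 : s' (red R f1) ≠ 0 := by
    rw [hs1]
    intro h0
    have h1 : coeff e1 (redL R (σ f1)) = 0 := by rw [h0]; simp
    rw [redL, coeff_map] at h1
    rw [IsLocalRing.residue_eq_zero_iff] at h1
    exact (IsLocalRing.mem_maximalIdeal _).1 h1 hσ4
  have hx : ∀ l : Lam (κ R), l ≠ 0 → emb (κ R) l ∉ P := by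
    intro l hl hlP
    apply hs5
    have h1 : l * s' (red R f1) = 0 := by
      rw [← hs2]
      exact hs3 _ (P.mul_mem_right _ hlP)
    exact (mul_eq_zero.1 h1).resolve_left hl
  have hx0 : (X 0 : Pol (κ R)) ∉ P := by
    rw [← emb_X0]; exact hx _ (X_ne_zero _)
  have hx1 : (X 1 : Pol (κ R)) ∉ P := by
    rw [← emb_X1]; exact hx _ (X_ne_zero _)
  have hbasis := hs.basis
  rw [← hFG] at hbasis
  obtain ⟨t1, t2, t3⟩ := hTFL R (FractionRing R) I h.flat r c hbasis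
  have hle2 : I.map (red R) ⊔ Ideal.span {X 0, X 1} ≤ P ⊔ Ideal.span {X 0, X 1} :=
    sup_le_sup_right h.le _
  refine ⟨2 * N0, r, β, σ, s', ?_⟩
  refine ⟨f2, f3, ?_, ?_, hσ2, hσI, hσ3, hs1, hs2, hs3, hs4, ⟨_, hs5⟩, hx0, hx1, ?_, hs.sum, ?_,
    t1, t2, t3⟩
  · rw [mul_comm, pow_mul]
    exact Ideal.pow_mem_of_mem _ (hle2 hl2) 2 (by norm_num)
  · rw [mul_comm, pow_mul]
    exact Ideal.pow_mem_of_mem _ (hle2 hl3) 2 (by norm_num)
  · exact hPHM R I P h.hom h.prime h.le hx0 ⟨N1, fun f hf => hN1 f hf 0⟩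
  · have hPh := hPHM R I P h.hom h.prime h.le hx0 ⟨N1, fun f hf => hN1 f hf 0⟩
    obtain ⟨n1, hn1⟩ := hPIN (κ R) (I.map (red R)) P N1 hPh h.le hN1
    obtain ⟨n2, hn2⟩ := hs.hil
    refine ⟨max n1 n2, fun n hn => ?_⟩
    rw [← hn1 n (le_trans (le_max_left _ _) hn), hHFL R (FractionRing R) I h.hom h.flat n, hFG,
      hn2 n (le_trans (le_max_right _ _) hn)]

end Pool.SC
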