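import Pool.Agent.Work.MP_03d391_sc.Final1

set_option autoImplicit false

noncomputable section

open MvPolynomial TensorProduct

namespace Pool.SC

/-- The second part of the assembly: the lifting argument. -/
theorem stage2 (hLOC : Stmt_LOC) (hRHO : Stmt_RHO) (hDUA : Stmt_DUA) (hB01 : Stmt_B01)
    (hGRB : Stmt_GRB) (hHDU : Stmt_HDU) (hLFT : Stmt_LFT) (hLV1 : Stmt_LV1) (hLAL : Stmt_LAL)
    (hFGN : Stmt_FGN)
    (R : Type) [CommRing R] [IsDomain R] [IsDiscreteValuationRing R]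
    (I : Ideal (Pol R)) (P : Ideal (Pol (κ R))) (a b : ℕ) (h : IsFamily R I P a b)
    (N r : ℕ) (β : Fin r → ℤ) (σ : Pol R →+ Lam R) (s : Pol (κ R) →+ Lam (κ R))
    (o : Out1 R I P ((a : ℤ) + b - 2) N r β σ s) (t : R) (ht : Irreducible t)
    (bb : Fin r → secRing P) (s0 : secRing P →+ Lam (κ R))
    (hbb : IsB (algebraMap (Pol (κ R)) (secRing P)) bb)
    (hs0 : ∀ f, s0 (algebraMap (Pol (κ R)) (secRing P) f) = s f)
    (hs0l : ∀ l z, s0 (algebraMap (Pol (κ R)) (secRing P) (emb (κ R) l) * z) = l * s0 z)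
    (hdet : IsUnit (gram s0 bb).det) (hex : ExactDeg P ((a : ℤ) + b - 4)) :
    ∃ (𝔄 F : Type) (_ : CommRing 𝔄) (_ : Field F) (D : Setup R 𝔄 F) (ι : secRing P →+* F),
      D.t = t ∧ D.I = I ∧ D.P = P ∧ Function.Injective ι ∧
      (∀ f : Pol (κ R), ι (algebraMap (Pol (κ R)) (secRing P) f) = D.g f) ∧
      (∀ (n : ℤ) (z : secRing P), IsSec P n (z : FF P) → ∃ y, D.AH 0 n y ∧ D.AH 1 n y ∧
        D.q y = ι z) := by
  classical
  haveI := h.prime
  letI hF : Field (FF P) := FractionRing.field (Pol (κ R) ⧸ P)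
  have hkerP : ∀ f : Pol (κ R), algebraMap (Pol (κ R)) (FF P) f = 0 ↔ f ∈ P := by
    intro f
    rw [IsScalarTower.algebraMap_apply (Pol (κ R)) (Pol (κ R) ⧸ P) (FF P)]
    rw [IsFractionRing.to_map_eq_zero_iff]
    exact Ideal.Quotient.eq_zero_iff_mem
  have hx0 : algebraMap (Pol (κ R)) (FF P) (X 0) ≠ 0 := fun h0 => o.x0 ((hkerP _).1 h0)
  have hx1 : algebraMap (Pol (κ R)) (FF P) (X 1) ≠ 0 := fun h0 => o.x1 ((hkerP _).1 h0)
  have r0 : ∀ f : Pol R, X 0 * f ∈ I → f ∈ I := fun f hf => o.tfl (X 0) f (X_ne_zero _) (by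
    rw [emb_X0]; exact hf)
  have r1 : ∀ f : Pol R, X 1 * f ∈ I → f ∈ I := fun f hf => o.tfl (X 1) f (X_ne_zero _) (by
    rw [emb_X1]; exact hf)
  obtain ⟨𝔄, hA, c, q, hc, u0, u1, fr, hq⟩ := hLOC R (FF P) I
    ((algebraMap (Pol (κ R)) (FF P)).comp (red R))
    (fun f hf => by
      rw [RingHom.comp_apply, hkerP]
      exact h.le (Ideal.mem_map_of_mem _ hf))
    (by
      rw [RingHom.comp_apply]
      have : red R (X 0) = X 0 := by simp [red]
      rw [this]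
      exact isUnit_iff_ne_zero.2 hx0)
    (by
      rw [RingHom.comp_apply]
      have : red R (X 1) = X 1 := by simp [red]
      rw [this]
      exact isUnit_iff_ne_zero.2 hx1) r0 r1
  let D : Setup R 𝔄 (FF P) :=
    { t := t, ht := ht, I := I, P := P, hI := h.hom, hP := o.hP
      flat := fun f hf => h.flat t f ht.ne_zero hf
      le := h.le, sat := h.sat, c := c, hc := hc, u0 := u0, u1 := u1, fr := fr
      g := algebraMap (Pol (κ R)) (FF P), hg := hkerP, x0 := hx0, x1 := hx1, q := q, hq := hq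
      N := N, fin2 := o.fin2, fin3 := o.fin3 }
  obtain ⟨ρ, ρ1, ρ2, ρ3, ρ4, ρ5⟩ := hRHO R 𝔄 (FF P) D ((a : ℤ) + b - 2) σ o.σl o.σI o.σh
  obtain ⟨b1, b2⟩ := hB01 (κ R) P N o.hP o.fin2' o.fin3'
  have hBS : ∀ x : FF P, x ∈ secRing P ↔ D.BS x := b1
  have hBH : ∀ (n : ℤ) (x : FF P), IsSec P n x ↔ D.BH n x := b2
  obtain ⟨ℳ, hM, hM1, hM2, hM3, hM4⟩ := hGRB (κ R) P h.prime o.hP o.x0
  have hdu := hHDU R 𝔄 (FF P) (secRing P) D σ ρ ((secRing P).val : secRing P →+* FF P)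
    (algebraMap (Pol (κ R)) (secRing P)) s0 o.σl ρ5 Subtype.val_injective (fun f => rfl)
    (fun x => by
      rw [← hBS]
      constructor
      · intro hx
        exact ⟨⟨x, hx⟩, rfl⟩
      · rintro ⟨e, rfl⟩
        exact e.2) hs0l
    (fun f => by rw [hs0, o.red])
    (fun v M hv => hDUA (κ R) (secRing P) _ s0 hs0l r bb hbb hdet v M hv)
  have hdec : ∀ x ∈ secRing P, ∃ (S : Finset ℤ) (v : ℤ → FF P), (∀ n, D.BH n (v n)) ∧
      x = ∑ n ∈ S, v n := by
    intro x hx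
    obtain ⟨S, v, hv, hxv⟩ := hM.dec ⟨x, hx⟩
    refine ⟨S, fun n => (v n : FF P), fun n => ?_, ?_⟩
    · rw [← hBH, ← hM1]
      exact hv n
    · have := congrArg (fun z : secRing P => (z : FF P)) hxv
      simpa using this
  have hlev : ∀ n : ℕ, 1 ≤ n → D.Lev n := by
    intro n hn
    induction n, hn using Nat.le_induction with
    | base => exact hLV1 R 𝔄 (FF P) D
    | succ n hn ih =>
      refine hLFT R 𝔄 (FF P) D (secRing P) ((a : ℤ) + b - 2) ρ (fun f => rfl) hBS hdec ?_ ρ1 ρ2 ρ3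
        ρ4 hdu n hn ih
      intro n m hnm x y hx hy
      exact hex n m (by linarith) x y ((hBH _ _).2 hx) ((hBH _ _).2 hy)
  have hlal := hLAL R 𝔄 (FF P) D (fun n f hf => hFGN R I N h.hom o.fin2 o.fin3 n f hf) hlev
  refine ⟨𝔄, FF P, hA, hF, D, ((secRing P).val : secRing P →+* FF P), rfl, rfl, rfl,
    Subtype.val_injective, fun f => rfl, fun n z hz => ?_⟩
  exact hlal n z ((hBH _ _).1 hz)

end Pool.SC
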