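import Pool.Agent.Work.MP_03d391_sc.Final2

set_option autoImplicit false

noncomputable section

open MvPolynomial TensorProduct

namespace Pool.SC

theorem red_X (R : Type) [CommRing R] [IsLocalRing R] (i : Fin 4) : red R (X i) = X i := by
  simp [red]

theorem redL_X (R : Type) [CommRing R] [IsLocalRing R] (i : Fin 2) : redL R (X i) = X i := by
  simp [redL]

/-- The third part of the assembly. -/
theorem stage3 (hEXT : Stmt_EXT) (hDET : Stmt_DET) (hSPN : Stmt_SPN) (hST6 : Stmt_ST6)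
    (hNK2 : Stmt_NK2) (hGO2 : Stmt_GO2) (hGRB : Stmt_GRB)
    (R : Type) [CommRing R] [IsDomain R] [IsDiscreteValuationRing R] (h2 : (2 : κ R) ≠ 0)
    (I : Ideal (Pol R)) (P : Ideal (Pol (κ R))) (a b : ℕ) (h : IsFamily R I P a b)
    (N r : ℕ) (β : Fin r → ℤ) (σ : Pol R →+ Lam R) (s : Pol (κ R) →+ Lam (κ R))
    (o : Out1 R I P ((a : ℤ) + b - 2) N r β σ s) (t : R) (ht : Irreducible t)
    (bb : Fin r → secRing P) (s0 : secRing P →+ Lam (κ R)) (β' : Fin r → ℤ)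
    (hbb : IsB (algebraMap (Pol (κ R)) (secRing P)) bb)
    (hβ' : ∀ i, IsSec P (β' i) (bb i : FF P)) (hsum : 2 * ∑ i, β' i = r * ((a : ℤ) + b - 2))
    (hs0 : ∀ f, s0 (algebraMap (Pol (κ R)) (secRing P) f) = s f)
    (hs0l : ∀ l z, s0 (algebraMap (Pol (κ R)) (secRing P) (emb (κ R) l) * z) = l * s0 z)
    (hdet : IsUnit (gram s0 bb).det)
    (𝔄 F : Type) [CommRing 𝔄] [Field F] (D : Setup R 𝔄 F) (ι : secRing P →+* F)
    (hDt : D.t = t) (hDI : D.I = I) (hDP : D.P = P) (hι : Function.Injective ι)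
    (hιg : ∀ f : Pol (κ R), ι (algebraMap (Pol (κ R)) (secRing P) f) = D.g f)
    (hlift : ∀ (n : ℤ) (z : secRing P), IsSec P n (z : FF P) → ∃ y, D.AH 0 n y ∧ D.AH 1 n y ∧
        D.q y = ι z) : IsCI P := by
  classical
  subst hDt
  subst hDI
  subst hDP
  -- the ring 𝔅
  let BB : Subring 𝔄 := D.A 0 ⊓ D.A 1
  have hcBB : ∀ f, D.c f ∈ BB := fun f => ⟨⟨0, f, by simp⟩, ⟨0, f, by simp⟩⟩
  let θ : Pol R →+* BB := D.c.codRestrict BB hcBB
  have hθ : ∀ f, ((θ f : BB) : 𝔄) = D.c f := fun f => rfl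
  have hθ0 : ∀ f, θ f = 0 ↔ f ∈ D.I := by
    intro f
    rw [← D.hc, ← hθ]
    exact (ZeroMemClass.coe_eq_zero).symm
  have hAHA : ∀ (i : Fin 4) (n : ℤ) (z : 𝔄), D.AH i n z → z ∈ D.A i := by
    rintro i n z ⟨M, f, -, hf⟩
    exact ⟨M, f, hf⟩
  obtain ⟨σ', hσ1, hσ2⟩ := hEXT R BB θ σ o.σl (fun f hf => o.σI f ((hθ0 f).1 hf)) (by
    rintro ⟨z, ⟨M, f, hf⟩, ⟨M', f', hf'⟩⟩
    refine ⟨M + M', X 0 ^ M' * f, X 1 ^ M * f', Subtype.ext ?_, Subtype.ext ?_⟩
    · change D.c (X 0) ^ (M + M') * z = D.c (X 0 ^ M' * f)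
      rw [map_mul, map_pow, ← hf]; ring
    · change D.c (X 1) ^ (M + M') * z = D.c (X 1 ^ M * f')
      rw [map_mul, map_pow, ← hf']; ring)
  -- lifts of the basis
  have hl : ∀ i, ∃ y : BB, D.AH 0 (β' i) y ∧ D.q y = ι (bb i) := by
    intro i
    obtain ⟨y, y0, y1, yq⟩ := hlift (β' i) (bb i) (hβ' i)
    exact ⟨⟨y, hAHA _ _ _ y0, hAHA _ _ _ y1⟩, y0, yq⟩
  choose bh hbh1 hbh2 using hl
  -- compatibility
  have hXpow : ∀ (M : ℕ) (z : BB), σ' (θ (X 0) ^ M * z) = X 0 ^ M * σ' z := by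
    intro M z
    have := hσ2 (X 0 ^ M) z
    rw [map_pow, emb_X0, map_pow] at this
    exact this
  have hXpow0 : ∀ (M : ℕ) (z : secRing D.P),
      s0 (algebraMap (Pol (κ R)) (secRing D.P) (X 0) ^ M * z) = X 0 ^ M * s0 z := by
    intro M z
    have := hs0l (X 0 ^ M) z
    rw [map_pow, emb_X0, map_pow] at this
    exact this
  have hcomp : ∀ (z : BB) (e : secRing D.P), D.q z = ι e → redL R (σ' z) = s0 e := by
    rintro z e hze
    obtain ⟨⟨M, f, hf⟩, -⟩ := z.2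
    have e1 : θ (X 0) ^ M * z = θ f := Subtype.ext hf
    have e2 : X 0 ^ M * σ' z = σ f := by rw [← hXpow, e1, hσ1]
    have e3 : algebraMap (Pol (κ R)) (secRing D.P) (X 0) ^ M * e =
        algebraMap (Pol (κ R)) (secRing D.P) (red R f) := by
      apply hι
      rw [map_mul, map_pow, hιg, hιg, ← hze, ← D.hq, ← hf, map_mul, map_pow, D.hq, red_X]
    have e4 : (X 0 : Lam (κ R)) ^ M * redL R (σ' z) = X 0 ^ M * s0 e := by
      rw [← hXpow0, e3, hs0, o.red, ← e2, map_mul, map_pow, redL_X]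
    exact mul_left_cancel₀ (pow_ne_zero _ (X_ne_zero _)) e4
  have hHZ : ∀ (n : ℤ) (z : BB), D.AH 0 n z → HZ (n - ((a : ℤ) + b - 2)) (σ' z) := by
    rintro n z ⟨M, f, hf1, hf2⟩
    have e1 : θ (X 0) ^ M * z = θ f := Subtype.ext hf2
    have e2 : X 0 ^ M * σ' z = σ f := by rw [← hXpow, e1, hσ1]
    apply HZ_of_X_pow_mul 0 M
    rw [e2]
    have := o.σh _ f hf1
    convert this using 1
    ring
  have hmul : ∀ (n m : ℤ) (z w : 𝔄), D.AH 0 n z → D.AH 0 m w → D.AH 0 (n + m) (z * w) := by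
    rintro n m z w ⟨M, f, hf1, hf2⟩ ⟨M', f', hf1', hf2'⟩
    refine ⟨M + M', f * f', ?_, ?_⟩
    · have := hf1.mul hf1'
      convert this using 1
      push_cast
      ring
    · rw [map_mul, ← hf2, ← hf2']
      ring
  have hgr : (redL R).mapMatrix (gram σ' bh) = gram s0 bb := by
    ext1 i j
    change redL R (σ' (bh i * bh j)) = s0 (bb i * bb j)
    apply hcomp
    change D.q ((bh i : 𝔄) * (bh j : 𝔄)) = _
    rw [map_mul, map_mul, hbh2, hbh2]
  have hdetHZ : HZ (2 * ∑ i, β' i - r * ((a : ℤ) + b - 2)) (gram σ' bh).det := by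
    apply hDET
    intro i j
    exact hHZ _ _ (hmul _ _ _ _ (hbh1 i) (hbh1 j))
  rw [hsum, sub_self] at hdetHZ
  obtain ⟨a0, ha0⟩ := HZ_zero_eq hdetHZ
  have hunit : IsUnit (gram σ' bh).det := by
    rw [ha0]
    have h1 : redL R (gram σ' bh).det = (gram s0 bb).det := by
      rw [← hgr, RingHom.map_det]
    rw [ha0] at h1
    have h2 : redL R (C a0) = C (IsLocalRing.residue R a0) := by simp [redL]
    rw [h2] at h1
    have h3 : IsLocalRing.residue R a0 ≠ 0 := by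
      intro h0
      rw [h0, map_zero] at h1
      rw [← h1] at hdet
      exact not_isUnit_zero hdet
    have h4 : IsUnit a0 := by
      by_contra hcon
      apply h3
      rw [IsLocalRing.residue_eq_zero_iff]
      exact (IsLocalRing.mem_maximalIdeal _).2 hcon
    exact h4.map C
  -- 𝔅 is torsion free of rank r
  have htf0 : ∀ (l : Lam R) (z : 𝔄), l ≠ 0 → D.c (emb R l) * z = 0 → z = 0 := by
    intro l z hl0 hz
    obtain ⟨M, f, hf⟩ := D.fr z
    have h1 : emb R l * f ∈ D.I := by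
      rw [← D.hc, map_mul, ← hf, mul_left_comm, hz, mul_zero]
    have h2 := o.tfl l f hl0 h1
    rw [← D.hc, ← hf] at h2
    exact ((D.u0.mul D.u1).pow M).mul_right_eq_zero.1 h2
  have htf : ∀ (l : Lam R) (z : BB), l ≠ 0 → θ (emb R l) * z = 0 → z = 0 := by
    intro l z hl0 hz
    apply Subtype.ext
    apply htf0 l _ hl0
    have := congrArg (fun z : BB => (z : 𝔄)) hz
    exact this
  have hdep : ∀ v : Fin (r + 1) → BB, ∃ μ : Fin (r + 1) → Lam R, μ ≠ 0 ∧
      ∑ i, θ (emb R (μ i)) * v i = 0 := by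
    intro v
    have h1 : ∀ i, ∃ (M : ℕ) (f : Pol R), (D.c (X 0) * D.c (X 1)) ^ M * (v i : 𝔄) = D.c f :=
      fun i => D.fr _
    choose M f hf using h1
    let S := ∑ i, M i
    have hS : ∀ i, M i ≤ S := fun i => Finset.single_le_sum (fun j _ => Nat.zero_le _)
      (Finset.mem_univ i)
    obtain ⟨μ, hμ0, hμ⟩ := o.dep (fun i => (X 0 * X 1) ^ (S - M i) * f i)
    refine ⟨μ, hμ0, ?_⟩
    apply Subtype.ext
    apply ((D.u0.mul D.u1).pow S).mul_right_eq_zero.1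
    rw [← D.hc, map_sum] at hμ
    rw [← hμ]
    have h3 : ((∑ i, θ (emb R (μ i)) * v i : BB) : 𝔄) = ∑ i, D.c (emb R (μ i)) * (v i : 𝔄) := by
      rw [AddSubmonoidClass.coe_finset_sum]
      rfl
    rw [h3, Finset.mul_sum]
    refine Finset.sum_congr rfl fun i _ => ?_
    rw [map_mul, map_mul, map_pow, map_mul, ← hf]
    have : (D.c (X 0) * D.c (X 1)) ^ S = (D.c (X 0) * D.c (X 1)) ^ (S - M i) *
        (D.c (X 0) * D.c (X 1)) ^ (M i) := by
      rw [← pow_add, Nat.sub_add_cancel (hS i)]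
    rw [this]
    ring
  have hB : IsB θ bh := hSPN R BB θ σ' hσ2 htf r bh hunit hdep
  -- 𝔅 = 𝔖
  have hker : D.I ≤ RingHom.ker θ := fun f hf => (hθ0 f).2 hf
  have hle : D.I ⊔ Ideal.span {X 0, X 1} ≤ RingHom.ker θ ⊔ Ideal.span {X 0, X 1} :=
    sup_le_sup_right hker _
  have hsurj : ∀ u : BB, ∃ f, u = θ f := by
    refine hST6 R BB h2 D.t D.ht θ σ' hσ2 r bh hB hunit N (hle o.fin2) (hle o.fin3) ?_
    intro u
    obtain ⟨⟨M, f, hf⟩, ⟨M', f', hf'⟩⟩ := u.2
    have e0 : D.c (X 0) ^ (M + M') * (u : 𝔄) = D.c (X 0 ^ M' * f) := by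
      rw [map_mul, map_pow, ← hf]; ring
    have e1 : D.c (X 1) ^ (M + M') * (u : 𝔄) = D.c (X 1 ^ M * f') := by
      rw [map_mul, map_pow, ← hf']; ring
    have h3 : X 1 ^ (M + M') * (X 0 ^ M' * f) - X 0 ^ (M + M') * (X 1 ^ M * f') ∈ D.I := by
      rw [← D.hc, map_sub, map_mul D.c (X 1 ^ (M + M')), map_mul D.c (X 0 ^ (M + M')), ← e0, ← e1,
        map_pow, map_pow]
      ring
    obtain ⟨a1, h1, ha1, hh⟩ := o.tmm _ _ _ h3
    have h4 : D.c (C a1) * (u : 𝔄) = D.c h1 := by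
      rw [← D.hc, map_sub, map_mul D.c (C a1), map_mul D.c (X 0 ^ (M + M')), ← e0, map_pow] at hh
      have h5 : D.c (X 0) ^ (M + M') * (D.c (C a1) * (u : 𝔄) - D.c h1) = 0 := by
        rw [← hh]; ring
      exact sub_eq_zero.1 ((D.u0.pow _).mul_right_eq_zero.1 h5)
    obtain ⟨m, w, hw⟩ := IsDiscreteValuationRing.eq_unit_mul_pow_irreducible ha1 D.ht
    have h5 : D.c (C D.t) ^ m * (u : 𝔄) = D.c (C (w⁻¹ : Rˣ).1 * h1) := by
      rw [map_mul, ← h4, ← mul_assoc, ← map_mul, ← map_mul, hw, ← mul_assoc]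
      rw [Units.inv_mul, one_mul, map_pow, map_pow]
    have hrange : ∀ (x : Pol R) (n n' : ℕ), n ≤ n' → θ x ^ n * u ∈ θ.range →
        θ x ^ n' * u ∈ θ.range := by
      intro x n n' hn hx
      have : θ x ^ n' * u = θ x ^ (n' - n) * (θ x ^ n * u) := by
        rw [← mul_assoc, ← pow_add, Nat.sub_add_cancel hn]
      rw [this]
      exact mul_mem (pow_mem (RingHom.mem_range_self θ x) _) hx
    refine ⟨m + (M + M'), ?_, ?_, ?_⟩
    · apply hrange _ m _ (by omega)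
      exact ⟨_, Subtype.ext h5.symm⟩
    · apply hrange _ (M + M') _ (by omega)
      exact ⟨_, Subtype.ext e0.symm⟩
    · apply hrange _ (M + M') _ (by omega)
      exact ⟨_, Subtype.ext e1.symm⟩
  -- the section ring of the special member is S / P
  obtain ⟨ℳ, hM, hM1, -, -, -⟩ := hGRB (κ R) D.P h.prime o.hP o.x0
  have hsec1 : ∀ (n : ℤ) (z : secRing D.P), IsSec D.P n (z : FF D.P) →
      ∃ f, z = algebraMap (Pol (κ R)) (secRing D.P) f := by
    intro n z hz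
    obtain ⟨y, y0, y1, yq⟩ := hlift n z hz
    obtain ⟨f, hf⟩ := hsurj ⟨y, hAHA _ _ _ y0, hAHA _ _ _ y1⟩
    have hf' : y = D.c f := congrArg (fun z : BB => (z : 𝔄)) hf
    refine ⟨red R f, hι ?_⟩
    rw [hιg, ← D.hq, ← hf', yq]
  have hsec : ∀ z : secRing D.P, ∃ f, z = algebraMap (Pol (κ R)) (secRing D.P) f := by
    intro z
    obtain ⟨S, v, hv, hz⟩ := hM.dec z
    have h1 : ∀ n, ∃ f, v n = algebraMap (Pol (κ R)) (secRing D.P) f := fun n =>
      hsec1 n (v n) ((hM1 _ _).1 (hv n))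
    choose f hf using h1
    refine ⟨∑ n ∈ S, f n, ?_⟩
    rw [hz, map_sum]
    exact Finset.sum_congr rfl fun n _ => hf n
  -- conclusion
  have hk : ∀ f : Pol (κ R), algebraMap (Pol (κ R)) (secRing D.P) f = 0 ↔ f ∈ D.P := by
    intro f
    rw [← D.hg, ← hιg]
    constructor
    · intro h0
      rw [h0, map_zero]
    · intro h0
      apply hι
      rw [h0, map_zero]
  have hbf : ∀ i, ∃ f, bb i = algebraMap (Pol (κ R)) (secRing D.P) f := fun i => hsec _
  choose f hf using hbf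
  apply hNK2 (κ R) D.P o.hP
  refine hGO2 (κ R) D.P o.hP h.prime.ne_top r f ?_ s o.sl o.sP ?_
  · constructor
    · intro m
      obtain ⟨m', rfl⟩ := Ideal.Quotient.mk_surjective m
      obtain ⟨l, hl⟩ := hbb.span (algebraMap (Pol (κ R)) (secRing D.P) m')
      refine ⟨l, ?_⟩
      simp only [← map_mul, ← map_sum]
      rw [Ideal.Quotient.mk_eq_mk_iff_sub_mem, ← hk, map_sub, hl, map_sum, sub_eq_zero]
      refine Finset.sum_congr rfl fun i _ => ?_
      rw [map_mul, ← hf]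
    · intro l hl
      apply hbb.ind
      simp only [← map_mul, ← map_sum] at hl
      rw [Ideal.Quotient.eq_zero_iff_mem, ← hk, map_sum] at hl
      rw [← hl]
      refine Finset.sum_congr rfl fun i _ => ?_
      rw [map_mul, ← hf]
  · have : gram s f = gram s0 bb := by
      ext1 i j
      change s (f i * f j) = s0 (bb i * bb j)
      rw [hf i, hf j, ← map_mul, hs0]
    rw [this]
    exact hdet

end Pool.SC
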