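import Pool.Agent.Work.MP_03d391_sc.Final3

set_option autoImplicit false

noncomputable section

open MvPolynomial TensorProduct

namespace Pool.SC

/-- The criterion. -/
theorem criterion (hGEN : Stmt_GEN) (hNKR : Stmt_NKR) (hCON : Stmt_CON) (hTRS : Stmt_TRS)
    (hTFL : Stmt_TFL) (hHFL : Stmt_HFL) (hPIN : Stmt_PIN) (hPHM : Stmt_PHM) (hSBR : Stmt_SBR)
    (hLOC : Stmt_LOC) (hRHO : Stmt_RHO) (hDUA : Stmt_DUA) (hB01 : Stmt_B01)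
    (hGRB : Stmt_GRB) (hHDU : Stmt_HDU) (hLFT : Stmt_LFT) (hLV1 : Stmt_LV1) (hLAL : Stmt_LAL)
    (hFGN : Stmt_FGN) (hEXT : Stmt_EXT) (hDET : Stmt_DET) (hSPN : Stmt_SPN) (hST6 : Stmt_ST6)
    (hNK2 : Stmt_NK2) (hGO2 : Stmt_GO2) (hBBA : Stmt_BBA)
    (R : Type) [CommRing R] [IsDomain R] [IsDiscreteValuationRing R] (h2 : (2 : κ R) ≠ 0)
    (I : Ideal (Pol R)) (P : Ideal (Pol (κ R))) (a b : ℕ) (h : IsFamily R I P a b)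
    (hex : ExactDeg P ((a : ℤ) + b - 4)) : IsCI P := by
  obtain ⟨N, r, β, σ, s, o⟩ := stage1 hGEN hNKR hCON hTRS hTFL hHFL hPIN hPHM hSBR R I P a b h
  obtain ⟨t, ht⟩ := IsDiscreteValuationRing.exists_irreducible R
  obtain ⟨β', bb, s0, q1, q2, q3, q4, q5, q6⟩ := hBBA (κ R) P N h.prime o.hP o.fin2' o.fin3'
    ((a : ℤ) + b - 2) s o.sl o.sP o.sh o.ne r β o.sum o.hil
  obtain ⟨𝔄, F, iA, iF, D, ι, d1, d2, d3, d4, d5, d6⟩ := stage2 hLOC hRHO hDUA hB01 hGRB hHDU hLFT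
    hLV1 hLAL hFGN R I P a b h N r β σ s o t ht bb s0 q1 q4 q5 q6 hex
  exact stage3 hEXT hDET hSPN hST6 hNK2 hGO2 hGRB R h2 I P a b h N r β σ s o t ht bb s0 β' q1 q2 q3
    q4 q5 q6 𝔄 F D ι d1 d2 d3 d4 d5 d6

end Pool.SC
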