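import Pool.Agent.Work.MP_03d391_sc.Defs

/-!
# MP_03d391_ag, THEOREM SC: the blocks

Rules: file `B_X.lean` in this folder, `import Pool.Agent.Work.MP_03d391_sc.Interface`,
`noncomputable section`, `open MvPolynomial TensorProduct`, `namespace Pool.SC`,
`theorem p_X (hA : Stmt_A) (hB : Stmt_B) .. : Stmt_X` with the blocks of the column `uses` as
hypotheses in that order; auxiliary lemmas in the namespace `Pool.SC.X`.

Convention: a pair `(E, θ)`, `θ : Pol R →+* E`, is a ring over `R[x_0,..,x_3]`; `l ∈ Lam R` acts on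
`E` by multiplication with `θ (emb R l)`.
-/

set_option autoImplicit false

noncomputable section

open MvPolynomial TensorProduct

namespace Pool.SC

/-! ## More definitions -/

/-- Koszul: `f`, `g` have only the trivial syzygies. -/
def Kos {Q : Type} [CommRing Q] (f g : Q) : Prop :=
  ∀ u v : Q, u * f + v * g = 0 → ∃ w, u = w * g ∧ v = -(w * f)

/-- `x_0 ↦ 0`, `x_{i+1} ↦ x_i`. -/
def res (n : ℕ) (K : Type) [CommRing K] :
    MvPolynomial (Fin (n + 1)) K →ₐ[K] MvPolynomial (Fin n) K :=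
  aeval (Fin.cases (motive := fun _ => MvPolynomial (Fin n) K) 0 (fun i => X i))

/-- `b` is a basis of `E` over `Lam R`. -/
structure IsB {R E : Type} [CommRing R] [CommRing E] (θ : Pol R →+* E) {r : ℕ} (b : Fin r → E) :
    Prop where
  span : ∀ m : E, ∃ l : Fin r → Lam R, m = ∑ i, θ (emb R (l i)) * b i
  ind : ∀ l : Fin r → Lam R, ∑ i, θ (emb R (l i)) * b i = 0 → ∀ i, l i = 0

/-- `E` is the direct sum of the subgroups `ℳ n`, `n ∈ ℤ`. -/
structure Grd {E : Type} [AddCommGroup E] (ℳ : ℤ → AddSubgroup E) : Prop where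
  dec : ∀ m : E, ∃ (s : Finset ℤ) (v : ℤ → E), (∀ n, v n ∈ ℳ n) ∧ m = ∑ n ∈ s, v n
  ind : ∀ (s : Finset ℤ) (v : ℤ → E), (∀ n, v n ∈ ℳ n) → ∑ n ∈ s, v n = 0 → ∀ n ∈ s, v n = 0

/-- The Gram matrix of `b` for the form `s (x y)`. -/
def gram {R E : Type} [CommRing R] [CommRing E] (s : E →+ Lam R) {r : ℕ} (b : Fin r → E) :
    Matrix (Fin r) (Fin r) (Lam R) := Matrix.of fun i j => s (b i * b j)

/-- `dim_k (k[x_0,..,x_3]/J)_n` for a homogeneous ideal `J`. -/
def hil {k : Type} [Field k] (J : Ideal (Pol k)) (n : ℕ) : ℤ :=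
  (Module.finrank k (homogeneousSubmodule (Fin 4) k n) : ℤ) -
    Module.finrank k ↥(homogeneousSubmodule (Fin 4) k n ⊓ J.restrictScalars k)

/-! ## Part A: complete intersections over a field -/

/-- KO2 (60 lines). Two variables `x = X 0`, `y = X 1`. A common divisor of `f` and `g` divides
`x^N` and `y^N`, so it is a unit (`Lam K` is a UFD, `x`, `y` are non-associated primes):
`IsRelPrime f g`. If `u f + v g = 0` then `g ∣ u f`, so `g ∣ u`, `u = w g`, and `g (w f + v) = 0`;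
if `g ≠ 0` we are done; if `g = 0` then `f` is a unit, `u = 0`, take `w = - v f⁻¹`. -/
def Stmt_KO2 : Prop := ∀ (K : Type) [Field K] (f g : Lam K) (N : ℕ),
  X 0 ^ N ∈ Ideal.span {f, g} → X 1 ^ N ∈ Ideal.span {f, g} → Kos f g

/-- KOS (150 lines). Syzygies lift. Let `u F + v G = 0`. Taking homogeneous components (of total
degree `d`) it is enough: CLAIM(d), `d ∈ ℤ`, `d ≥ -1`: if `HZ (d - a) u`, `HZ (d - b) v` and
`u F + v G = 0` then there is `w` with `HZ (d - a - b) w`, `u = w G`, `v = - w F`. For `d = -1`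
(`d - a < 0`, `d - b < 0`) `u = v = 0`. Step: `res u · res F + res v · res G = 0`, so
`res u = w̄ · res G`, `res v = - w̄ · res F`; we may replace `w̄` by its component of degree
`d - a - b` (`res` preserves homogeneity; if `res F = res G = 0` this is fine too). Let `w` be
`w̄` with the variables shifted (`rename Fin.succ`), so `res w = w̄`, `HZ (d-a-b) w`. Then
`res (u - w G) = 0`, so `u - w G = X 0 * u'` and `v + w F = X 0 * v'` with `HZ (d-1-a) u'`,
`HZ (d-1-b) v'`, and `X 0 * (u' F + v' G) = 0`, so `u' F + v' G = 0`; by CLAIM(d-1) `u' = w' G`,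
`v' = - w' F` and `w + X 0 * w'` is what we want. (The kernel of `res` is `(X 0)`.) -/
def Stmt_KOS : Prop := ∀ (K : Type) [Field K] (n a b : ℕ) (F G : MvPolynomial (Fin (n + 1)) K),
  F.IsHomogeneous a → G.IsHomogeneous b → Kos (res n K F) (res n K G) → Kos F G

/-- RGX (40 lines). `X 0 * h = u F + v G`. Then `res u · res F + res v · res G = 0`, so
`res u = w̄ · res G`, `res v = - w̄ · res F`; lift `w̄` to `w`; the kernel of `res` is `(X 0)`, so
`u = w G + X 0 * u'`, `v = - w F + X 0 * v'` and `X 0 * h = X 0 * (u' F + v' G)`. -/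
def Stmt_RGX : Prop := ∀ (K : Type) [Field K] (n : ℕ) (F G h : MvPolynomial (Fin (n + 1)) K),
  Kos (res n K F) (res n K G) →
  (X 0 : MvPolynomial (Fin (n + 1)) K) * h ∈ Ideal.span {F, G} → h ∈ Ideal.span {F, G}

/-- RES (60 lines). Elementary properties of `res`: it preserves homogeneity, it is surjective, its
kernel is `(X 0)`. -/
def Stmt_RES : Prop := ∀ (K : Type) [Field K] (n : ℕ),
  (∀ (a : ℕ) (F : MvPolynomial (Fin (n + 1)) K), F.IsHomogeneous a → (res n K F).IsHomogeneous a) ∧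
  Function.Surjective (res n K) ∧
  (∀ F : MvPolynomial (Fin (n + 1)) K, res n K F = 0 →
    ∃ h : MvPolynomial (Fin (n + 1)) K, F = X 0 * h)

/-- SOC (200 lines). The socle of `V = K[x,y]/(f,g)`. `f`, `g ≠ 0` and `a, b ≥ 1` (otherwise the
ideal is everything: if `f = 0` then `g` divides `x^N` and `y^N`, so it is a unit; if `a = 0` then
`f` is a constant). Write `f = f₁ x + f₂ y`, `g = g₁ x + g₂ y` (homogeneous parts of degree `a - 1`,
`b - 1`), `Δ = f₁ g₂ - f₂ g₁`, homogeneous of degree `a + b - 2`. `x Δ = g₂ f - f₂ g`,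
`y Δ = f₁ g - g₁ f` are in `J = (f,g)`.
(i) If `x u ∈ J` and `y u ∈ J` then `u ∈ K Δ + J`: `x u = α f + β g`, `y u = γ f + δ g`, so
`(y α - x γ) f + (y β - x δ) g = 0`, by KO2 there is `w` with `y α - x γ = w g`,
`y β - x δ = - w f`, so `y (α - w g₂) = x (γ + w g₁)`, `α = w g₂ + x p`, and
`y (β + w f₂) = x (δ - w f₁)`, `β = - w f₂ + x q`, so `x u = w (g₂ f - f₂ g) + x (p f + q g)` and
`u = w Δ + p f + q g ≡ w(0) Δ`.
(ii) `Δ ∉ J`: if `Δ = p f + q g` then `(x p - g₂) f + (x q + f₂) g = 0` and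
`(y p + g₁) f + (y q - f₁) g = 0`, so `x p - g₂ = w g`, `y p + g₁ = w' g`, hence
`g = g₁ x + g₂ y = (w' g - y p) x + (x p - w g) y = g (w' x - w y)`, so `g = 0`, contradiction.
(iii) The component `J_d` of degree `d = a + b - 2` does not contain `Δ`: there is a linear
functional `s₀` on the space of forms of degree `d` with `s₀ Δ = 1`, zero on `J_d`. Let
`s h = s₀ (component of degree d of h)`; it kills `J` (homogeneous ideal).
(iv) Nondegenerate: if `h ∉ J`, all monomials of degree `≥ 2N` are in `J`, so there is a monomial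
`m` of maximal degree with `h m ∉ J`; then `x h m, y h m ∈ J`, so `h m ≡ c Δ mod J` with `c ∈ K`,
`c ≠ 0`, and `s (h m) = c ≠ 0`. -/
def Stmt_SOC : Prop := ∀ (K : Type) [Field K] (a b N : ℕ) (f g : Lam K),
  f.IsHomogeneous a → g.IsHomogeneous b →
  X 0 ^ N ∈ Ideal.span {f, g} → X 1 ^ N ∈ Ideal.span {f, g} → Ideal.span {f, g} ≠ ⊤ →
  ∃ s : Lam K →ₗ[K] K, (∀ h ∈ Ideal.span {f, g}, s h = 0) ∧
    (∀ (m : ℤ) (h : Lam K), HZ m h → m ≠ a + b - 2 → s h = 0) ∧
    (∀ h, (∀ h', s (h * h') = 0) → h ∈ Ideal.span {f, g})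

/-- DET (80 lines). The determinant of a matrix of forms of degrees `β_i + β_j - d` is a form of
degree `2 Σ β_i - r d`: every product in the Leibniz formula is one (`Σ β_(σ i) = Σ β_i`). -/
def Stmt_DET : Prop := ∀ (R : Type) [CommRing R] (r : ℕ) (β : Fin r → ℤ) (d : ℤ)
  (M : Matrix (Fin r) (Fin r) (Lam R)),
  (∀ i j, HZ (β i + β j - d) (M i j)) → HZ (2 * ∑ i, β i - r * d) M.det

/-- QGR (80 lines). The quotient by a homogeneous ideal is graded, by the classes of the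
homogeneous polynomials. (`AddSubgroup.map` of the subgroup of forms; independence: a finite sum
of forms `f_n` of different degrees is in `I`, take components.) -/
def Stmt_QGR : Prop := ∀ (K : Type) [CommRing K] (I : Ideal (Pol K)), HomI I →
  ∃ ℳ : ℤ → AddSubgroup (Pol K ⧸ I), Grd ℳ ∧
    ∀ n z, z ∈ ℳ n ↔ ∃ f, HZ n f ∧ Ideal.Quotient.mk I f = z

/-- GFR (250 lines). A finitely generated graded module over `Λ = K[x_0,x_1]` on which `x_0, x_1`
is a regular sequence has a homogeneous basis. Proof. `M̄ = E/(x_0,x_1)E` is a finite dimensional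
`K`-vector space spanned by the classes of homogeneous elements (`Grd.dec`); choose homogeneous
`b_i ∈ ℳ (β_i)` whose classes are a basis (`exists_linearIndependent`).
Independence: let `Σ l_i b_i = 0`, not all `l_i = 0`. Dividing by a power of `X 0` (regular on `E`)
some `l_i ∉ (X 0)`. Let `l̄_i ∈ K[x_1]` be the restriction to `x_0 = 0`: `Σ l̄_i b_i ∈ X 0 E`, not
all `l̄_i = 0`. Dividing by a power of `X 1` (if `x_1 m ∈ x_0 E` then `m ∈ x_0 E`) some
`l̄_i(0) ≠ 0`, and modulo `x_1`: `Σ l̄_i(0) b_i ∈ (x_0,x_1)E`. Contradiction.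
Spanning (graded Nakayama): the generators may be replaced by their homogeneous components, so
`ℳ n = 0` for `n < n_0`. Let `m ∈ ℳ n`; `m = Σ c_i b_i + x_0 m_0 + x_1 m_1`, `c_i ∈ K`; comparing the
components of degree `n` (`Grd.ind`) we may take the `c_i` with `β_i = n` only and
`m_0, m_1 ∈ ℳ (n-1)`. Induction on `n - n_0`.
Last assertion: if `m = Σ l_i b_i ∈ ℳ n`, decompose the `l_i` in forms; the sum of the terms of
degree `n' ≠ n` is `0` by `Grd.ind`, so by independence `l_i` is its component of degree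
`n - β_i`. -/
def Stmt_GFR : Prop := ∀ (K : Type) [Field K] (E : Type) [CommRing E] (θ : Pol K →+* E)
  (ℳ : ℤ → AddSubgroup E), Grd ℳ →
  (∀ (n j : ℤ) (p : Lam K) (m : E), HZ j p → m ∈ ℳ n → θ (emb K p) * m ∈ ℳ (n + j)) →
  (∃ (s : ℕ) (c : Fin s → E), ∀ m, ∃ l : Fin s → Lam K, m = ∑ i, θ (emb K (l i)) * c i) →
  (∀ m : E, θ (X 0) * m = 0 → m = 0) →
  (∀ m m' : E, θ (X 1) * m = θ (X 0) * m' → ∃ m'', m = θ (X 0) * m'') →
  ∃ (r : ℕ) (β : Fin r → ℤ) (b : Fin r → E), IsB θ b ∧ (∀ i, b i ∈ ℳ (β i)) ∧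
    ∀ (n : ℤ) (l : Fin r → Lam K), ∑ i, θ (emb K (l i)) * b i ∈ ℳ n → ∀ i, HZ (n - β i) (l i)

/-- HFX (150 lines). Hilbert function of a free graded module. Let `E_n = {θ f : HZ n f}`, a
`k`-vector space; `dim E_n = dim (forms of degree n) - dim (forms of degree n in ker θ) = hil`.
By the hypotheses `(l_i) ↦ Σ l_i b_i` is a bijection of `⊕ (forms of degree n - β_i in two
variables)` onto `E_n`, and the forms of degree `m ≥ 0` in two variables have dimension `m + 1`. -/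
def Stmt_HFX : Prop := ∀ (k : Type) [Field k] (E : Type) [CommRing E] (θ : Pol k →+* E) (r : ℕ)
  (β : Fin r → ℤ) (b : Fin r → E) (n : ℕ), (∀ i, β i ≤ n) →
  (∀ l : Fin r → Lam k, ∑ i, θ (emb k (l i)) * b i = 0 → ∀ i, l i = 0) →
  (∀ f, HZ n f → ∃ l : Fin r → Lam k, (∀ i, HZ (n - β i) (l i)) ∧
    θ f = ∑ i, θ (emb k (l i)) * b i) →
  (∀ l : Fin r → Lam k, (∀ i, HZ (n - β i) (l i)) → ∃ f, HZ n f ∧
    θ f = ∑ i, θ (emb k (l i)) * b i) →
  hil (RingHom.ker θ) n = ∑ i, ((n : ℤ) - β i + 1)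

/-- SFN (40 lines). Coordinate functionals: `s m = Σ C (w_i) l_i` for `m = Σ l_i b_i` (the `l_i`
are unique). -/
def Stmt_SFN : Prop := ∀ (R E : Type) [CommRing R] [CommRing E] (θ : Pol R →+* E) (r : ℕ)
  (b : Fin r → E), IsB θ b → ∀ w : Fin r → R, ∃ s : E →+ Lam R,
    (∀ l z, s (θ (emb R l) * z) = l * s z) ∧
    ∀ l : Fin r → Lam R, s (∑ i, θ (emb R (l i)) * b i) = ∑ i, C (w i) * l i

/-- FGN (200 lines). `Pol R / I` is finite over `R[x_0,x_1]`, generated by `x_2^i x_3^j`,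
`i, j < N`, in a homogeneous way. Induction on `n` (`n < 0`: `f = 0`). The form `f` is an
`R`-combination of monomials `X 0^a X 1^b X 2^c X 3^e` of degree `n`. If `c, e < N` the monomial is of
the desired form. If `c ≥ N`: `X 2^N = p + X 0 u + X 1 v` with `p ∈ I`; taking components of degree
`N` we may suppose `u`, `v` homogeneous of degree `N - 1`, so the monomial is
`≡ X 0 u' + X 1 v' mod I` with `u'`, `v'` homogeneous of degree `n - 1`; use the induction
hypothesis for `u'`, `v'` and multiply the coefficients by `X 0`, `X 1`. Same for `e ≥ N`. -/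
def Stmt_FGN : Prop := ∀ (R : Type) [CommRing R] (I : Ideal (Pol R)) (N : ℕ), HomI I →
  X 2 ^ N ∈ I ⊔ Ideal.span {X 0, X 1} → X 3 ^ N ∈ I ⊔ Ideal.span {X 0, X 1} →
  ∀ (n : ℤ) (f : Pol R), HZ n f → ∃ g : Fin N → Fin N → Lam R,
    (∀ i j : Fin N, HZ (n - (i : ℕ) - (j : ℕ)) (g i j)) ∧
    f - ∑ i : Fin N, ∑ j : Fin N, emb R (g i j) * (X 2 ^ (i : ℕ) * X 3 ^ (j : ℕ)) ∈ I

/-- The output of part A: `K[x_0,..,x_3]/I` is free over `K[x_0,x_1]` with homogeneous basis `b_i` of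
degrees `β_i`, with a perfect pairing `s (f g)`, `s` of degree `-d`. -/
structure GenOut {K : Type} [Field K] (I : Ideal (Pol K)) (d : ℤ) (r : ℕ) (β : Fin r → ℤ)
    (b : Fin r → Pol K) (s : Pol K →+ Lam K) : Prop where
  hom : ∀ i, HZ (β i) (b i)
  basis : IsB (Ideal.Quotient.mk I) (fun i => Ideal.Quotient.mk I (b i))
  lin : ∀ (l : Lam K) (f : Pol K), s (emb K l * f) = l * s f
  ker : ∀ f ∈ I, s f = 0
  hs : ∀ (n : ℤ) (f : Pol K), HZ n f → HZ (n - d) (s f)
  nd : ∀ f : Pol K, (∀ g, s (f * g) = 0) → f ∈ I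
  pos : 1 ≤ r
  sum : 2 * ∑ i, β i = r * d
  hil : ∃ n0 : ℕ, ∀ n ≥ n0, hil I n = ∑ i, ((n : ℤ) - β i + 1)

/-- GRG (80 lines), from KO2, KOS, RGX, RES. Let `f = res (res F)`, `g = res (res G)` in two
variables; `res (res (X 2)) = X 0`, `res (res (X 3)) = X 1`, `res (res (X 0)) = res (res (X 1)) = 0`,
so `X 0 ^ N, X 1 ^ N ∈ (f, g)`. KO2: `Kos f g`; KOS for `n = 2`: `Kos (res F) (res G)`. First
assertion: RGX for `n = 3`. Second: applying `res`, `X 0 * res h ∈ (res F, res G)` (three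
variables), so by RGX for `n = 2` `res h = u res F + v res G`; lift `u`, `v`; the kernel of `res` is
`(X 0)`. Third: `1 ∈ (f, g)` lifts to `1 ∈ (F, G) + (X 0, X 1)`; `(F, G)` is homogeneous, take the
components of degree `0`: `1 ∈ (F, G)`. Fourth: apply `res ∘ res`. Fifth: lift coefficients. -/
def Stmt_GRG : Prop := ∀ (K : Type) [Field K] (a b N : ℕ) (F G : Pol K), F.IsHomogeneous a →
  G.IsHomogeneous b → X 2 ^ N ∈ Ideal.span {F, G} ⊔ Ideal.span {X 0, X 1} →
  X 3 ^ N ∈ Ideal.span {F, G} ⊔ Ideal.span {X 0, X 1} → Ideal.span {F, G} ≠ ⊤ →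
  (∀ h : Pol K, X 0 * h ∈ Ideal.span {F, G} → h ∈ Ideal.span {F, G}) ∧
  (∀ h h' : Pol K, X 1 * h - X 0 * h' ∈ Ideal.span {F, G} →
    ∃ h'' : Pol K, h - X 0 * h'' ∈ Ideal.span {F, G}) ∧
  Ideal.span {res 2 K (res 3 K F), res 2 K (res 3 K G)} ≠ ⊤ ∧
  (X 0 ^ N ∈ Ideal.span {res 2 K (res 3 K F), res 2 K (res 3 K G)} ∧
    X 1 ^ N ∈ Ideal.span {res 2 K (res 3 K F), res 2 K (res 3 K G)}) ∧
  (∀ h : Pol K, res 2 K (res 3 K h) ∈ Ideal.span {res 2 K (res 3 K F), res 2 K (res 3 K G)} →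
    ∃ u v : Pol K, h - X 0 * u - X 1 * v ∈ Ideal.span {F, G})

/-- HID (30 lines). An ideal generated by forms is homogeneous. -/
def Stmt_HID : Prop := ∀ (K : Type) [CommRing K] (a b : ℕ) (F G : Pol K), F.IsHomogeneous a →
  G.IsHomogeneous b → HomI (Ideal.span {F, G})

/-- GEN (250 lines), from GRG, HID, RES, SOC, DET, QGR, GFR, HFX, SFN, FGN. Let `I = (F, G)`,
`d = a + b - 2`, `f, g` as in GRG.
(1) GFR for `E = Pol K / I`, `θ = mk`, the grading of QGR; generators: FGN; regularity: GRG. It gives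
`r`, `β` and a homogeneous basis `b̄_i = mk (b_i)`, `HZ (β_i) (b_i)` (`z ∈ ℳ n` means `z = mk f` with
`HZ n f`).
(2) Let `τ : Lam K → K` be the functional of SOC for `f, g` and `w_i = τ (res (res b_i))`; it is `0`
unless `β_i = d`. Let `s` be the functional of SFN with these `w_i`, composed with `mk`.
`hs`: for `HZ n f`, `f ≡ Σ l_i b_i` with `HZ (n - β_i) (l_i)` (last assertion of GFR), and
`s f = Σ w_i l_i` is a sum of terms with `β_i = d`.
(3) `constantCoeff (s f) = τ (res (res f))`: `f ≡ Σ l_i b_i mod I`, `res (res (emb l)) = C (l(0))`.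
(4) `D = det (s (b_i b_j))` has `HZ (2 Σ β_i - r d) D` by DET and (2), and its constant coefficient
is the determinant of `(τ (b̄_i b̄_j))`, which is not `0`: if `Σ_j τ (b̄_i b̄_j) c_j = 0` for all `i`,
put `v = Σ c_j b_j`; every `h ∈ Lam K` is `≡ Σ c'_i res (res b_i)` mod `(f, g)` with `c'_i ∈ K` (lift
`h` to `Pol K`, expand in the basis, apply `res ∘ res`), so `τ (res (res v) h) = 0` for all `h`, so
`res (res v) ∈ (f, g)`, so by GRG `v ≡ X 0 u + X 1 v' mod I`; expand `u`, `v'` in the basis: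
`c_j = X 0 * _ + X 1 * _`, `c_j = 0`. So `D` is a form with nonzero constant coefficient:
`2 Σ β_i = r d` and `D` is a nonzero constant, a unit.
(5) `nd`: if `s (f g) = 0` for all `g`, `f ≡ Σ l_j b_j`, then `Σ_j s (b_i b_j) l_j = 0`, so `l = 0`.
(6) `1 ≤ r` because `1 ∉ I`. `hil`: HFX with `E = Pol K / I` (`ker mk = I`), `n0 ≥ β_i`. -/
def Stmt_GEN : Prop := ∀ (K : Type) [Field K] (a b N : ℕ) (F G : Pol K), F.IsHomogeneous a →
  G.IsHomogeneous b → X 2 ^ N ∈ Ideal.span {F, G} ⊔ Ideal.span {X 0, X 1} →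
  X 3 ^ N ∈ Ideal.span {F, G} ⊔ Ideal.span {X 0, X 1} → Ideal.span {F, G} ≠ ⊤ →
  ∃ (r : ℕ) (β : Fin r → ℤ) (c : Fin r → Pol K) (s : Pol K →+ Lam K),
    GenOut (Ideal.span {F, G}) ((a : ℤ) + b - 2) r β c s

/-! ## Part B: the family -/

/-- NKR (100 lines). Let `J = I ⊔ (X 0, X 1)`, a homogeneous ideal, `n = 2N`, `A_n` the forms of
degree `n`, a finitely generated `R`-module (`homogeneousSubmodule`). Every monomial `m` of degree
`2N` is in `J` or is `X 2^a X 3^b`, `a + b = 2N`, so `a ≥ N` or `b ≥ N` and its reduction is in the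
image of `J`: `m ∈ J + 𝔪 Pol R`; taking components of degree `n`, `A_n ≤ (J ∩ A_n) + 𝔪 A_n`. By
Nakayama (`Submodule.le_of_le_smul_of_le_jacobson_bot`) `A_n ≤ J`. (The kernel of `red` consists of the
polynomials with coefficients in `𝔪`; the image of an ideal under the surjective map `red` is
`Ideal.map`.) -/
def Stmt_NKR : Prop := ∀ (R : Type) [CommRing R] [IsLocalRing R] (I : Ideal (Pol R)) (N : ℕ),
  HomI I → X 2 ^ N ∈ I.map (red R) ⊔ Ideal.span {X 0, X 1} →
  X 3 ^ N ∈ I.map (red R) ⊔ Ideal.span {X 0, X 1} →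
  X 2 ^ (2 * N) ∈ I ⊔ Ideal.span {X 0, X 1} ∧ X 3 ^ (2 * N) ∈ I ⊔ Ideal.span {X 0, X 1}

/-- CON (80 lines). Clearing denominators: elements of `I.map (toK R K)` and of `Pol K`. For the last
assertion: `toK f ∈ I K[x]`, so `C r * toK f = toK g` with `g ∈ I`, `r ≠ 0`; `toK` is injective,
so `C r * f = g ∈ I` and `f ∈ I`. -/
def Stmt_CON : Prop := ∀ (R K : Type) [CommRing R] [IsDomain R] [Field K] [Algebra R K]
  [IsFractionRing R K] (I : Ideal (Pol R)),
  (∀ (r : R) (f : Pol R), r ≠ 0 → C r * f ∈ I → f ∈ I) →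
  (∀ g : Pol K, ∃ (r : R) (f : Pol R), r ≠ 0 ∧ toK R K f = C (algebraMap R K r) * g) ∧
  (∀ g : Lam K, ∃ (r : R) (f : Lam R), r ≠ 0 ∧ toKL R K f = C (algebraMap R K r) * g) ∧
  (∀ g ∈ I.map (toK R K), ∃ (r : R) (f : Pol R), r ≠ 0 ∧ f ∈ I ∧
    toK R K f = C (algebraMap R K r) * g) ∧
  (∀ f : Pol R, toK R K f ∈ I.map (toK R K) ↔ f ∈ I)

/-- TRS (150 lines), from FGN. Scaling. By FGN every `f ∈ Pol R` is `≡ Σ emb (g_ij) x_2^i x_3^j`
mod `I` (`f` is a sum of forms), so `s (toK f) = Σ g_ij s (x_2^i x_3^j)`. The `N²` polynomials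
`s (x_2^i x_3^j) ∈ Lam K` have finitely many coefficients, not all `0` (otherwise `s ∘ toK = 0`, and
`s = 0` by clearing denominators, `lin` for constants). Let `u ∈ K`, `u ≠ 0`, be such that all
`u c`, `c` a coefficient, are in `R` and one of them is a unit of `R` (`u` = inverse of a coefficient
of minimal valuation). Then `C u * s (toK f) ∈ Lam R` for all `f`: this defines `σ` (`toKL` is
injective). Homogeneity, linearity are checked after `toKL`. -/
def Stmt_TRS : Prop := ∀ (R K : Type) [CommRing R] [IsDomain R] [IsDiscreteValuationRing R]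
  [Field K] [Algebra R K] [IsFractionRing R K] (I : Ideal (Pol R)) (N : ℕ), HomI I →
  X 2 ^ N ∈ I ⊔ Ideal.span {X 0, X 1} → X 3 ^ N ∈ I ⊔ Ideal.span {X 0, X 1} →
  ∀ (d : ℤ) (s : Pol K →+ Lam K), (∀ l f, s (emb K l * f) = l * s f) →
  (∀ f ∈ I.map (toK R K), s f = 0) → (∀ n f, HZ n f → HZ (n - d) (s f)) → (∃ f, s f ≠ 0) →
  ∃ (u : K) (σ : Pol R →+ Lam R), u ≠ 0 ∧ (∀ f, toKL R K (σ f) = C u * s (toK R K f)) ∧
    (∀ l f, σ (emb R l * f) = l * σ f) ∧ (∀ n f, HZ n f → HZ (n - d) (σ f)) ∧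
    ∃ f e, IsUnit (coeff e (σ f))

/-- TFL (100 lines), from CON. Consequences of the basis over `K` for `Pol R / I`. (1) If
`emb l * f ∈ I` and `l ≠ 0`: over `K`, `f ≡ Σ m_i b_i`, `l m_i = 0`, so `m_i = 0` and `f ∈ I` by
CON. (2) If `X 1^j f - X 0^j g ∈ I`: `f ≡ Σ m_i b_i`, `g ≡ Σ n_i b_i` over `K`, so
`X 1^j m_i = X 0^j n_i`, so `m_i = X 0^j p_i`, `f ≡ X 0^j h` with `h = Σ p_i b_i`; clear
denominators (CON). (3) `r + 1` elements are dependent: `f_i ≡ Σ_j m_ij b_j` over `K`; there is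
`μ ∈ (Lam K)^(r+1)`, `μ ≠ 0`, with `Σ_i μ_i m_ij = 0` for all `j`
(`Matrix.exists_vecMul_eq_zero_iff` for a square matrix with a zero column, or linear algebra over
the fraction field); clear denominators of `μ`; then `Σ emb (μ_i) f_i ∈ I` by CON. -/
def Stmt_TFL : Prop := ∀ (R K : Type) [CommRing R] [IsDomain R] [Field K] [Algebra R K]
  [IsFractionRing R K] (I : Ideal (Pol R)),
  (∀ (r : R) (f : Pol R), r ≠ 0 → C r * f ∈ I → f ∈ I) →
  ∀ (r : ℕ) (b : Fin r → Pol K), IsB (Ideal.Quotient.mk (I.map (toK R K)))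
    (fun i => Ideal.Quotient.mk (I.map (toK R K)) (b i)) →
  (∀ (l : Lam R) (f : Pol R), l ≠ 0 → emb R l * f ∈ I → f ∈ I) ∧
  (∀ (j : ℕ) (f g : Pol R), X 1 ^ j * f - X 0 ^ j * g ∈ I →
    ∃ (a : R) (h : Pol R), a ≠ 0 ∧ C a * f - X 0 ^ j * h ∈ I) ∧
  (∀ f : Fin (r + 1) → Pol R, ∃ μ : Fin (r + 1) → Lam R, μ ≠ 0 ∧ ∑ i, emb R (μ i) * f i ∈ I)

/-- HFL (200 lines). Flatness. Let `A_n` be the free `R`-module of forms of degree `n`,
`I_n = I ∩ A_n`. `A_n / I_n` is finitely generated and torsion free over the principal ideal domain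
`R`, so it is free and `A_n = I_n ⊕ C_n`, all free of finite rank; let `g_1..g_l` be a basis of
`I_n` and `f_1..f_h` one of `C_n`. Their reductions are a basis of the forms of degree `n` over the
residue field, and the reductions of the `g_i` span the degree `n` part of `I.map (red R)` (an element
of it is the reduction of an element of `I`, take components): both sides are `h`. The same for
`K`. -/
def Stmt_HFL : Prop := ∀ (R K : Type) [CommRing R] [IsDomain R] [IsDiscreteValuationRing R]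
  [Field K] [Algebra R K] [IsFractionRing R K] (I : Ideal (Pol R)), HomI I →
  (∀ (r : R) (f : Pol R), r ≠ 0 → C r * f ∈ I → f ∈ I) →
  ∀ n : ℕ, hil (I.map (red R)) n = hil (I.map (toK R K)) n

/-- PIN (100 lines). `P` is generated by forms `p_1..p_m` (Hilbert's basis theorem, components). A form
`f ∈ P` of degree `n` is `Σ h_j p_j` with `h_j` homogeneous of degree `n - deg p_j`; if this is
`≥ 4N` then every monomial of `h_j` is divisible by some `X i ^ N`, so `f ∈ J`. Hence the forms of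
degree `n` in `J` and in `P` are the same and `hil J n = hil P n`. -/
def Stmt_PIN : Prop := ∀ (k : Type) [Field k] (J P : Ideal (Pol k)) (N : ℕ), HomI P → J ≤ P →
  (∀ f ∈ P, ∀ i : Fin 4, X i ^ N * f ∈ J) → ∃ n0 : ℕ, ∀ n ≥ n0, hil J n = hil P n

/-- PHM (40 lines). The image `J` of the homogeneous ideal `I` in `Pol k` is homogeneous, and
`P = {f : X 0 ^ N * f ∈ J for some N}` (`⊆` by the hypothesis, `⊇` because `P ⊇ J` is prime and
`X 0 ∉ P`), so `P` is homogeneous. -/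
def Stmt_PHM : Prop := ∀ (R : Type) [CommRing R] [IsLocalRing R] (I : Ideal (Pol R))
  (P : Ideal (Pol (κ R))), HomI I → P.IsPrime → I.map (red R) ≤ P → X 0 ∉ P →
  (∃ N : ℕ, ∀ f ∈ P, X 0 ^ N * f ∈ I.map (red R)) → HomI P

/-- SBR (80 lines). Reduction of `σ`. `red` is surjective with kernel the multiples of `C t`, `t` a
uniformizer, and `σ (C t * f) = C t * σ f`, so `s (red f) = redL (σ f)` defines `s`. Linear,
homogeneous: lift. If `f ∈ P`, `X 0^N f = red g` with `g ∈ I`, so `X 0^N s f = redL (σ g) = 0`. -/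
def Stmt_SBR : Prop := ∀ (R : Type) [CommRing R] [IsDomain R] [IsDiscreteValuationRing R]
  (I : Ideal (Pol R)) (P : Ideal (Pol (κ R))) (N : ℕ),
  (∀ f ∈ P, X 0 ^ N * f ∈ I.map (red R)) →
  ∀ (d : ℤ) (σ : Pol R →+ Lam R), (∀ l f, σ (emb R l * f) = l * σ f) → (∀ f ∈ I, σ f = 0) →
  (∀ n f, HZ n f → HZ (n - d) (σ f)) →
  ∃ s : Pol (κ R) →+ Lam (κ R), (∀ f, s (red R f) = redL R (σ f)) ∧
    (∀ l f, s (emb (κ R) l * f) = l * s f) ∧ (∀ f ∈ P, s f = 0) ∧
    (∀ n f, HZ n f → HZ (n - d) (s f))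

/-! ## Part C: the special member -/

/-- EXT (100 lines). Extension of a functional to the section ring. For `z ∈ E` with
`θ(X 0)^N z = θ f`, `θ(X 1)^N z = θ g` we have `X 1^N f - X 0^N g ∈ ker θ`, so
`X 1^N s f = X 0^N s g` and `X 0^N` divides `s f`: put `s' z = s f / X 0^N`. Well defined: if also
`θ(X 0)^M z = θ h` then `X 0^M f - X 0^N h ∈ ker θ`, so `X 0^M s f = X 0^N s h`. Additive and linear
clear (`X 0` is regular in `Lam R`). -/
def Stmt_EXT : Prop := ∀ (R E : Type) [CommRing R] [CommRing E] (θ : Pol R →+* E)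
  (s : Pol R →+ Lam R), (∀ l f, s (emb R l * f) = l * s f) → (∀ f, θ f = 0 → s f = 0) →
  (∀ z : E, ∃ (N : ℕ) (f g : Pol R), θ (X 0) ^ N * z = θ f ∧ θ (X 1) ^ N * z = θ g) →
  ∃ s' : E →+ Lam R, (∀ f, s' (θ f) = s f) ∧ ∀ l z, s' (θ (emb R l) * z) = l * s' z

/-- B01 (150 lines). Membership in the section ring can be tested with `x_0`, `x_1`. Let
`X 2^M = p + X 0 a + X 1 b`, `p ∈ P`, and `x_0^N z = f`, `x_1^N z = g` in `FF P`
(same `N`). Then `X 2^(2NM)` is in `P + (X 0, X 1)^(2N)`, so in `P + (X 0^N, X 1^N)`, and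
`x_2^(2NM) z` is the class of a polynomial; the same for `X 3`. Homogeneous version: `P` is
homogeneous, so everything can be chosen homogeneous (take components of `X 2^(2NM)`). Conversely
clear. -/
def Stmt_B01 : Prop := ∀ (k : Type) [Field k] (P : Ideal (Pol k)) (M : ℕ), HomI P →
  X 2 ^ M ∈ P ⊔ Ideal.span {X 0, X 1} → X 3 ^ M ∈ P ⊔ Ideal.span {X 0, X 1} →
  (∀ z : FF P, z ∈ secRing P ↔ (∃ (N : ℕ) (f : Pol k), cl P (X 0) ^ N * z = cl P f) ∧
    ∃ (N : ℕ) (f : Pol k), cl P (X 1) ^ N * z = cl P f) ∧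
  (∀ (n : ℤ) (z : FF P), IsSec P n z ↔
    (∃ (N : ℕ) (f : Pol k), HZ (n + N) f ∧ cl P (X 0) ^ N * z = cl P f) ∧
    ∃ (N : ℕ) (f : Pol k), HZ (n + N) f ∧ cl P (X 1) ^ N * z = cl P f)

/-- GRB (150 lines). The section ring is graded. `IsSec P n` is closed under addition and negation
and contained in `secRing P`. Decomposition: let `x_i^N z = f_i` (same `N` for all `i`). As `P` is
homogeneous, `X j^N f_i - X i^N f_j ∈ P` holds for the components. The element
`z_n = (component of degree n + N of f_0) / x_0^N` (`x_0 ≠ 0` in the field `FF P`) satisfies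
`x_i^N z_n = component of degree n + N of f_i`, and `z = Σ z_n` (finite sum, `n ≥ -N`).
Independence: `Σ z_n = 0`, multiply by a common power `x_0^N`: `Σ f_n ∈ P` with `HZ (n + N) f_n`, so
`f_n ∈ P`, `z_n = 0`. Products: multiply. -/
def Stmt_GRB : Prop := ∀ (k : Type) [Field k] (P : Ideal (Pol k)), P.IsPrime → HomI P →
  X 0 ∉ P → ∃ ℳ : ℤ → AddSubgroup (secRing P), Grd ℳ ∧
    (∀ n (z : secRing P), z ∈ ℳ n ↔ IsSec P n (z : FF P)) ∧
    (∀ (n m : ℤ) (z w : FF P), IsSec P n z → IsSec P m w → IsSec P (n + m) (z * w)) ∧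
    (∀ (n : ℤ) (f : Pol k), HZ n f → IsSec P n (algebraMap (Pol k) (FF P) f)) ∧
    (∀ (n : ℤ) (z : FF P), IsSec P n z → z ∈ secRing P)

/-- BFN (100 lines). The section ring is finite over `Lam k`. Let `c_1..c_m` be the classes of the
`x_2^i x_3^j`. The map `E → (Lam k)^m`, `y ↦ (s0 (c_i y))_i` is linear. Injective: let
`s0 (c_i y) = 0` for all `i`, so `s0 (θ f y) = 0` for all `f`; suppose `y ≠ 0`. `θ(X 0)^N y = θ h ≠ 0`
is integral over `Lam k` (`θ(Pol k)` is finite over `Lam k`) and `E` is a domain, so there is `h'`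
with `θ h' θ h = θ (emb l)`, `l ≠ 0` (if `p(x) = 0` is an integral equation of minimal degree, the
constant term is not `0` and is a multiple of `x`). Then `l s0 (θ f) = s0 (θ(f h' h)) =
X 0^N s0 (θ (f h') y) = 0` for all `f`, so `s0 (θ f) = 0` for all `f`, contradiction. (`θ ∘ emb` is
injective: if `θ (emb l) = 0` then `l s0 (z) = 0` for all `z`.) `Lam k` is noetherian
(`isNoetherian_of_injective`). -/
def Stmt_BFN : Prop := ∀ (k : Type) [Field k] (E : Type) [CommRing E] [IsDomain E]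
  (θ : Pol k →+* E) (s0 : E →+ Lam k), (∀ l z, s0 (θ (emb k l) * z) = l * s0 z) →
  (∃ f, s0 (θ f) ≠ 0) →
  (∃ N : ℕ, ∀ f, ∃ g : Fin N → Fin N → Lam k,
    θ f = ∑ i : Fin N, ∑ j : Fin N, θ (emb k (g i j)) * θ (X 2 ^ (i : ℕ) * X 3 ^ (j : ℕ))) →
  (∀ z : E, ∃ (N : ℕ) (f : Pol k), θ (X 0) ^ N * z = θ f) →
  ∃ (s : ℕ) (c : Fin s → E), ∀ m, ∃ l : Fin s → Lam k, m = ∑ i, θ (emb k (l i)) * c i

/-- DNZ (80 lines). `E` is a domain, finite over `Lam k`, `s0 ≠ 0`: the Gram determinant is not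
`0`. Otherwise there is `l ≠ 0` with `Σ_j s0 (b_i b_j) l_j = 0` for all `i`
(`Matrix.exists_mulVec_eq_zero_iff`), `u = Σ l_j b_j ≠ 0`, `s0 (u y) = 0` for all `y ∈ E`. As `E` is
a domain and integral over `Lam k`, `u v = θ (emb m)` for some `v` and `m ≠ 0`, so
`m s0 (y) = s0 (u v y) = 0` for all `y`. Contradiction. -/
def Stmt_DNZ : Prop := ∀ (k : Type) [Field k] (E : Type) [CommRing E] [IsDomain E]
  (θ : Pol k →+* E) (s0 : E →+ Lam k), (∀ l z, s0 (θ (emb k l) * z) = l * s0 z) →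
  (∃ z, s0 z ≠ 0) → ∀ (r : ℕ) (b : Fin r → E), IsB θ b → (gram s0 b).det ≠ 0

/-- BLG (100 lines). In large degrees the sections are forms. Let `N` be such that
`x_0^N b_i = h_i`, `x_1^N b_i = h_i'` with `HZ (β_i + N)`. If `n ≥ β_i + 2N` for all `i` and
`z = Σ l_i b_i` with `HZ (n - β_i) (l_i)`, every monomial of `l_i` is divisible by `X 0^N` or
`X 1^N`, so `l_i b_i` is the class of a form of degree `n`. -/
def Stmt_BLG : Prop := ∀ (k : Type) [Field k] (P : Ideal (Pol k)) (r : ℕ) (β : Fin r → ℤ)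
  (b : Fin r → secRing P), (∀ i, IsSec P (β i) (b i : FF P)) →
  ∃ n0 : ℕ, ∀ n : ℕ, n0 ≤ n → ∀ l : Fin r → Lam k, (∀ i, HZ (n - β i) (l i)) →
    ∃ f, HZ n f ∧ algebraMap (Pol k) (secRing P) f =
      ∑ i, algebraMap (Pol k) (secRing P) (emb k (l i)) * b i

/-- BBA (200 lines), from EXT, B01, GRB, BFN, GFR, DNZ, BLG, HFX, DET, FGN. The section ring `B` is
free over `Lam k` and the pairing is perfect: SERRE DUALITY. `P` is prime, `X 0, X 1 ∉ P` (otherwise
`X 0 s f = s (X 0 f) = 0` for all `f`, and `s = 0`), so `FF P` is a field and `B` is a domain, and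
`θ = algebraMap (Pol k) B` has kernel `P`.
(1) EXT gives `s0 : B → Lam k` extending `s` (by B01 with a common exponent `N`).
(2) BFN (generators from FGN applied to the components of `f`): `B` is finite over `Lam k`.
(3) GFR with the grading of GRB; `x_0` is regular (domain, `X 0 ∉ P`); if `x_1 m = x_0 m'`, put
`u = m / x_0 = m' / x_1 ∈ FF P`; `x_0 u, x_1 u ∈ B`, so `u ∈ B` by B01. It gives a homogeneous basis
`b : Fin r' → B` of degrees `β'`.
(4) HFX for `θ` and large `n`: third hypothesis: `θ f ∈ ℳ n`, GFR's last assertion; fourth: BLG. So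
`hil P n = Σ (n - β'_i + 1)` for large `n`, and `= Σ (n - β_i + 1)` by hypothesis; comparing `n` and
`n + 1`: `r' = r`, `Σ β' = Σ β`.
(5) `s0` is homogeneous: if `IsSec P n z` then `HZ (n - d) (s0 z)` (`X 0^N s0 z = s f`,
`HZ (n + N) f`). By DET `D = det (s0 (b_i b_j))` has degree `2 Σ β' - r d = 0`, so it is a constant,
not `0` by DNZ: a unit. -/
def Stmt_BBA : Prop := ∀ (k : Type) [Field k] (P : Ideal (Pol k)) (N : ℕ), P.IsPrime → HomI P →
  X 2 ^ N ∈ P ⊔ Ideal.span {X 0, X 1} → X 3 ^ N ∈ P ⊔ Ideal.span {X 0, X 1} →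
  ∀ (d : ℤ) (s : Pol k →+ Lam k), (∀ l f, s (emb k l * f) = l * s f) → (∀ f ∈ P, s f = 0) →
  (∀ n f, HZ n f → HZ (n - d) (s f)) → (∃ f, s f ≠ 0) →
  ∀ (r : ℕ) (β : Fin r → ℤ), 2 * ∑ i, β i = r * d →
  (∃ n0 : ℕ, ∀ n ≥ n0, hil P n = ∑ i, ((n : ℤ) - β i + 1)) →
  ∃ (β' : Fin r → ℤ) (b : Fin r → secRing P) (s0 : secRing P →+ Lam k),
    IsB (algebraMap (Pol k) (secRing P)) b ∧ (∀ i, IsSec P (β' i) (b i : FF P)) ∧
    2 * ∑ i, β' i = r * d ∧
    (∀ f, s0 (algebraMap (Pol k) (secRing P) f) = s f) ∧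
    (∀ l z, s0 (algebraMap (Pol k) (secRing P) (emb k l) * z) = l * s0 z) ∧
    IsUnit (gram s0 b).det

/-- DUA (80 lines). Let `b*_i` be the dual basis, `s0 (b_i b*_j) = δ_ij` (inverse of the Gram
matrix). `v = Σ g_i b*_i` with `g_i = s0 (b_i v)`. For `p, q ≤ N` the hypothesis for
`y = x_0^p x_1^q b_i` says that the coefficient of `X 0^(N-p) X 1^(N-q)` in `g_i` is `0`. So every
monomial of `g_i` is divisible by `X 0^(N+1)` or `X 1^(N+1)`. -/
def Stmt_DUA : Prop := ∀ (k : Type) [Field k] (E : Type) [CommRing E] (θ : Pol k →+* E)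
  (s0 : E →+ Lam k), (∀ l z, s0 (θ (emb k l) * z) = l * s0 z) → ∀ (r : ℕ) (b : Fin r → E),
  IsB θ b → IsUnit (gram s0 b).det → ∀ (v : E) (N : ℕ),
  (∀ y : E, coeff (Finsupp.single 0 N + Finsupp.single 1 N) (s0 (y * v)) = 0) →
  ∃ u w : E, v = θ (X 0) ^ (N + 1) * u + θ (X 1) ^ (N + 1) * w

end Pool.SC
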