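import Pool.Agent.Work.MP_03d391_sc.Interface

/-!
# MP_03d391_ag, THEOREM SC: the blocks, part 2

Rules as in `Interface.lean`; file `B_X.lean`,
`import Pool.Agent.Work.MP_03d391_sc.Interface2`.

`Setup R 𝔄 F`: `R` a discrete valuation ring with uniformizer `t`, `𝔖 = R[x_0,..,x_3]/I`,
`𝔄 = 𝔖[1/(x_0 x_1)]` (the map `c : Pol R → 𝔄`), `F` a field containing `S/P` (the map
`g : Pol k → F`), `q : 𝔄 → F` the reduction modulo `t`. `A i = 𝔖[1/x_i]`.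
-/

set_option autoImplicit false

noncomputable section

open MvPolynomial TensorProduct

namespace Pool.SC

structure Setup (R 𝔄 F : Type) [CommRing R] [IsDomain R] [IsDiscreteValuationRing R]
    [CommRing 𝔄] [Field F] where
  t : R
  ht : Irreducible t
  I : Ideal (Pol R)
  P : Ideal (Pol (κ R))
  hI : HomI I
  hP : HomI P
  flat : ∀ f : Pol R, C t * f ∈ I → f ∈ I
  le : I.map (red R) ≤ P
  sat : ∃ N : ℕ, ∀ f ∈ P, ∀ i : Fin 4, X i ^ N * f ∈ I.map (red R)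
  c : Pol R →+* 𝔄
  hc : ∀ f, c f = 0 ↔ f ∈ I
  u0 : IsUnit (c (X 0))
  u1 : IsUnit (c (X 1))
  fr : ∀ z, ∃ (N : ℕ) (f : Pol R), (c (X 0) * c (X 1)) ^ N * z = c f
  g : Pol (κ R) →+* F
  hg : ∀ f, g f = 0 ↔ f ∈ P
  x0 : g (X 0) ≠ 0
  x1 : g (X 1) ≠ 0
  q : 𝔄 →+* F
  hq : ∀ f, q (c f) = g (red R f)
  N : ℕ
  fin2 : X 2 ^ N ∈ I ⊔ Ideal.span {X 0, X 1}
  fin3 : X 3 ^ N ∈ I ⊔ Ideal.span {X 0, X 1}

variable {R 𝔄 F : Type} [CommRing R] [IsDomain R] [IsDiscreteValuationRing R]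
    [CommRing 𝔄] [Field F]

/-- `𝔄_i = 𝔖[1/x_i]`. -/
def Setup.A (D : Setup R 𝔄 F) (i : Fin 4) : Subring 𝔄 where
  carrier := {z | ∃ (N : ℕ) (f : Pol R), D.c (X i) ^ N * z = D.c f}
  mul_mem' := by
    rintro z w ⟨N, f, hz⟩ ⟨M, h, hw⟩
    exact ⟨N + M, f * h, by rw [map_mul, ← hz, ← hw]; ring⟩
  one_mem' := ⟨0, 1, by simp⟩
  add_mem' := by
    rintro z w ⟨N, f, hz⟩ ⟨M, h, hw⟩
    exact ⟨N + M, X i ^ M * f + X i ^ N * h, by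
      rw [map_add, map_mul, map_mul, map_pow, map_pow, ← hz, ← hw]; ring⟩
  zero_mem' := ⟨0, 0, by simp⟩
  neg_mem' := by
    rintro z ⟨N, f, hz⟩
    exact ⟨N, -f, by rw [map_neg, ← hz]; ring⟩

/-- `z ∈ 𝔄_i` is homogeneous of degree `n`. -/
def Setup.AH (D : Setup R 𝔄 F) (i : Fin 4) (n : ℤ) (z : 𝔄) : Prop :=
  ∃ (N : ℕ) (f : Pol R), HZ (n + N) f ∧ D.c (X i) ^ N * z = D.c f

/-- `z ∈ 𝔄` is homogeneous of degree `n`. -/
def Setup.GH (D : Setup R 𝔄 F) (n : ℤ) (z : 𝔄) : Prop :=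
  ∃ (N : ℕ) (f : Pol R), HZ (n + 2 * N) f ∧ (D.c (X 0) * D.c (X 1)) ^ N * z = D.c f

/-- `x ∈ F` is in the section ring. -/
def Setup.BS (D : Setup R 𝔄 F) (x : F) : Prop :=
  (∃ (N : ℕ) (f : Pol (κ R)), D.g (X 0) ^ N * x = D.g f) ∧
    ∃ (N : ℕ) (f : Pol (κ R)), D.g (X 1) ^ N * x = D.g f

/-- `x ∈ F` is a homogeneous element of degree `n` of the section ring. -/
def Setup.BH (D : Setup R 𝔄 F) (n : ℤ) (x : F) : Prop :=
  (∃ (N : ℕ) (f : Pol (κ R)), HZ (n + N) f ∧ D.g (X 0) ^ N * x = D.g f) ∧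
    ∃ (N : ℕ) (f : Pol (κ R)), HZ (n + N) f ∧ D.g (X 1) ^ N * x = D.g f

/-- All homogeneous `x` have lifts which agree modulo `t^n`. -/
def Setup.Lev (D : Setup R 𝔄 F) (n : ℕ) : Prop :=
  ∀ (j : ℤ) (x : F), D.BH j x → ∃ z0 z1 w : 𝔄, D.AH 0 j z0 ∧ D.AH 1 j z1 ∧ D.GH j w ∧
    D.q z0 = x ∧ D.q z1 = x ∧ z0 - z1 = D.c (C D.t) ^ n * w

/-! ## Part D: the lifting argument -/

/-- LOC (80 lines). `𝔄 = Localization.Away (mk (X 0 * X 1))` of `Pol R / I`; `c f = 0` iff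
`(X 0 * X 1)^n f ∈ I` for some `n` iff `f ∈ I`. `q` by the universal property. -/
def Stmt_LOC : Prop := ∀ (R F : Type) [CommRing R] [CommRing F] (I : Ideal (Pol R))
  (g : Pol R →+* F), (∀ f ∈ I, g f = 0) → IsUnit (g (X 0)) → IsUnit (g (X 1)) →
  (∀ f, X 0 * f ∈ I → f ∈ I) → (∀ f, X 1 * f ∈ I → f ∈ I) →
  ∃ (𝔄 : Type) (_ : CommRing 𝔄) (c : Pol R →+* 𝔄) (q : 𝔄 →+* F), (∀ f, c f = 0 ↔ f ∈ I) ∧
    IsUnit (c (X 0)) ∧ IsUnit (c (X 1)) ∧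
    (∀ z, ∃ (N : ℕ) (f : Pol R), (c (X 0) * c (X 1)) ^ N * z = c f) ∧ ∀ f, q (c f) = g f

/-- AL1 (120 lines). (a) `t` is regular on `𝔄` (`flat`, `fr`, units). (b) The kernel of `q` is
`t 𝔄`: if `(x_0 x_1)^N z = c f` and `q z = 0` then `red f ∈ P`, so `X 0^M red f ∈ I.map red`,
so `X 0^M f = p + C t * h` with `p ∈ I` (kernel of `red` = multiples of `C t`) and
`x_0^M (x_0 x_1)^N z = t c h`. (c) If `t z ∈ A i`, `i = 0, 1`, then `z ∈ A i`: let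
`(x_0 x_1)^N z = c f`, `x_0^M t z = c h`; then `C t * (X 0^M f) - (X 0 X 1)^N h ∈ I`, so modulo `t`,
`(X 0 X 1)^N red h ∈ P` (use `le`), so `g (red h) = 0` as `x0, x1 ≠ 0`, `red h ∈ P`,
`X 0^L h = p + C t * h'`, `p ∈ I`, and `x_0^(L+M) t z = t c h'`, `x_0^(L+M) z = c h'`. -/
def Stmt_AL1 : Prop := ∀ (R 𝔄 F : Type) [CommRing R] [IsDomain R] [IsDiscreteValuationRing R]
  [CommRing 𝔄] [Field F] (D : Setup R 𝔄 F),
  (∀ z, D.c (C D.t) * z = 0 → z = 0) ∧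
  (∀ z, D.q z = 0 ↔ ∃ w, z = D.c (C D.t) * w) ∧
  (∀ z, D.c (C D.t) * z ∈ D.A 0 → z ∈ D.A 0) ∧
  (∀ z, D.c (C D.t) * z ∈ D.A 1 → z ∈ D.A 1)

/-- AL2 (120 lines). Homogeneous version of the kernel of `q`. As in AL1 (b), with
`HZ (n + 2N) f` resp. `HZ (n + N) f`: `X 0^M f = p + C t * h`, `p ∈ I`; take the components of the
degree of `X 0^M f` (`I` is homogeneous). For `AH 0`: `x_0^(N+M) z = t c h`, `h` homogeneous of
degree `n + N + M`. For `AH 1` use `X 1`. -/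
def Stmt_AL2 : Prop := ∀ (R 𝔄 F : Type) [CommRing R] [IsDomain R] [IsDiscreteValuationRing R]
  [CommRing 𝔄] [Field F] (D : Setup R 𝔄 F) (n : ℤ) (z : 𝔄), D.q z = 0 →
  (D.GH n z → ∃ w, D.GH n w ∧ z = D.c (C D.t) * w) ∧
  (D.AH 0 n z → ∃ w, D.AH 0 n w ∧ z = D.c (C D.t) * w) ∧
  (D.AH 1 n z → ∃ w, D.AH 1 n w ∧ z = D.c (C D.t) * w)

/-- AL3 (150 lines). Elementary closure properties and lifting of fractions (`red` is surjective,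
also on forms of a given degree; `u0`, `u1`). -/
def Stmt_AL3 : Prop := ∀ (R 𝔄 F : Type) [CommRing R] [IsDomain R] [IsDiscreteValuationRing R]
  [CommRing 𝔄] [Field F] (D : Setup R 𝔄 F),
  (∀ i : Fin 4, i = 0 ∨ i = 1 → ∀ x : F, (∃ (N : ℕ) (f : Pol (κ R)), D.g (X i) ^ N * x = D.g f) ↔
    ∃ z ∈ D.A i, D.q z = x) ∧
  (∀ i : Fin 4, i = 0 ∨ i = 1 → ∀ (n : ℤ) (x : F),
    (∃ (N : ℕ) (f : Pol (κ R)), HZ (n + N) f ∧ D.g (X i) ^ N * x = D.g f) →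
    ∃ z, D.AH i n z ∧ D.q z = x) ∧
  (∀ (i : Fin 4) (n : ℤ) (z w : 𝔄), D.AH i n z → D.AH i n w → D.AH i n (z + w)) ∧
  (∀ (i : Fin 4) (n : ℤ) (z : 𝔄) (a : R), D.AH i n z → D.AH i n (D.c (C a) * z)) ∧
  (∀ (i : Fin 4) (n : ℤ) (z : 𝔄), D.AH i n z → D.AH i n (-z)) ∧
  (∀ (n : ℤ) (z w : 𝔄), D.GH n z → D.GH n w → D.GH n (z + w)) ∧
  (∀ (n : ℤ) (z : 𝔄) (a : R), D.GH n z → D.GH n (D.c (C a) * z)) ∧
  (∀ (n : ℤ) (z : 𝔄), D.GH n z → D.GH n (-z)) ∧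
  (∀ (n m : ℤ) (z w : 𝔄), D.GH n z → D.GH m w → D.GH (n + m) (z * w)) ∧
  (∀ (i : Fin 4) (n : ℤ) (z : 𝔄), D.AH i n z → z ∈ D.A i) ∧
  (∀ i : Fin 4, i = 0 ∨ i = 1 → ∀ (n : ℤ) (z : 𝔄), D.AH i n z → D.GH n z)

/-- RHO (150 lines). The residue: `ρ z` = coefficient of `X 0^N X 1^N` in `σ f` if
`(x_0 x_1)^(N+1) z = c f` (the coefficient of `1/(x_0 x_1)` of `σ z`). Well defined: if also
`(x_0 x_1)^(M+1) z = c h`, then `(X 0 X 1)^(M+1) f - (X 0 X 1)^(N+1) h ∈ I` and `σ` kills `I`.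
If `x_0^M z = c h` then `(x_0 x_1)^(M+1) z = c (X 0 X 1^(M+1) h)` and every monomial of
`X 0 X 1^(M+1) σ h` has `X 1`-exponent `> M`. If `HZ (n + 2N + 2) f` then `HZ (n + 2N + 2 - d) (σ f)`
and the monomial `X 0^N X 1^N` has degree `2N`. -/
def Stmt_RHO : Prop := ∀ (R 𝔄 F : Type) [CommRing R] [IsDomain R] [IsDiscreteValuationRing R]
  [CommRing 𝔄] [Field F] (D : Setup R 𝔄 F) (d : ℤ) (σ : Pol R →+ Lam R),
  (∀ l f, σ (emb R l * f) = l * σ f) → (∀ f ∈ D.I, σ f = 0) →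
  (∀ n f, HZ n f → HZ (n - d) (σ f)) →
  ∃ ρ : 𝔄 →+ R, (∀ a z, ρ (D.c (C a) * z) = a * ρ z) ∧ (∀ z ∈ D.A 0, ρ z = 0) ∧
    (∀ z ∈ D.A 1, ρ z = 0) ∧ (∀ n z, D.GH n z → n ≠ d - 2 → ρ z = 0) ∧
    (∀ (N : ℕ) (f : Pol R) (z : 𝔄), (D.c (X 0) * D.c (X 1)) ^ (N + 1) * z = D.c f →
      ρ z = coeff (Finsupp.single 0 N + Finsupp.single 1 N) (σ f))

/-- LV1 (60 lines), from AL2, AL3. `Lev 1`: lift `x` to `z0`, `z1` (AL3); `z0 - z1` is in the kernel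
of `q` and homogeneous: AL2. -/
def Stmt_LV1 : Prop := ∀ (R 𝔄 F : Type) [CommRing R] [IsDomain R] [IsDiscreteValuationRing R]
  [CommRing 𝔄] [Field F] (D : Setup R 𝔄 F), D.Lev 1

/-- HST (120 lines), from AL2, AL3. Let `(x_0 x_1)^N w = c f`, `HZ (j + 2N) f`,
`x_0^M u0 = c h0`, `x_1^M u1 = c h1`. Then
`X 0^M X 1^M f - X 1^M (X 0 X 1)^N h0 - X 0^M (X 0 X 1)^N h1` has reduction in `P`; `P` is
homogeneous: the same holds with `h0`, `h1` replaced by their components of degree `j + M` (`0` if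
`j + M < 0`). Let `u0'` = (component of `h0`) / `x_0^M`, `u1'` similarly. Then
`w - u0' - u1'` is homogeneous of degree `j` and killed by `q`: AL2. -/
def Stmt_HST : Prop := ∀ (R 𝔄 F : Type) [CommRing R] [IsDomain R] [IsDiscreteValuationRing R]
  [CommRing 𝔄] [Field F] (D : Setup R 𝔄 F) (j : ℤ) (w : 𝔄), D.GH j w →
  (∃ u0 ∈ D.A 0, ∃ u1 ∈ D.A 1, D.q w = D.q u0 + D.q u1) →
  ∃ u0 u1 w' : 𝔄, D.AH 0 j u0 ∧ D.AH 1 j u1 ∧ D.GH j w' ∧ w = u0 + u1 + D.c (C D.t) * w'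

/-- DER (200 lines). THE OBSTRUCTION IS A DERIVATION. Let `D_i = q(A_i)`, `B = D_0 ∩ D_1`.
`N = D_0 + D_1` is a `B`-submodule of `F`.
(W) If `a0 ∈ A0`, `a1 ∈ A1`, `a0 - a1 = t^m w`, `m < n`, then `q w ∈ D_0 + D_1`. Induction on `m`;
`m = 0`: `w = a0 - a1`. `m ≥ 1`: `q a0 = q a1 =: x ∈ B`; by hypothesis there are `z0 ∈ A0`,
`z1 ∈ A1` with `q z0 = q z1 = x`, `z0 - z1 = t^n w'`; `a0 - z0 = t c0`, `a1 - z1 = t c1`, with
`c0 ∈ A0`, `c1 ∈ A1` (hypotheses on `t`), and `t (c0 - c1) = t^m w - t^n w'`, so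
`c0 - c1 = t^(m-1) (w - t^(n-m) w')`; induction: `q (w - t^(n-m) w') = q w ∈ D_0 + D_1`.
Define `o : B → F/N`, `o x = class of q w` for lifts `z0, z1` of `x` with `z0 - z1 = t^n w`. Well
defined: for two choices `z0 - z0' = t c0`, `z1 - z1' = t c1`, `c0 - c1 = t^(n-1) (w - w')`, use (W)
for `m = n - 1`. Additive. Leibniz: `z0 z0' - z1 z1' = z0 (z0' - z1') + (z0 - z1) z1'`. It kills the
image of `S` (choose `z0 = z1`). So `o` is a derivation of `B` over `S` with values in the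
`B`-module `F/N`, and it factors through `Ω`: if `y • D x = D z` then `y • o x = o z`. -/
def Stmt_DER : Prop := ∀ (S 𝔄 F : Type) [CommRing S] [CommRing 𝔄] [Field F] [Algebra S F]
  (q : 𝔄 →+* F) (t : 𝔄) (A0 A1 : Subring 𝔄) (B : Subalgebra S F) (n : ℕ),
  (∀ z, t * z = 0 → z = 0) → (∀ z, q z = 0 ↔ ∃ w, z = t * w) →
  (∀ z, t * z ∈ A0 → z ∈ A0) → (∀ z, t * z ∈ A1 → z ∈ A1) →
  (∀ x, x ∈ B ↔ (∃ z ∈ A0, q z = x) ∧ ∃ z ∈ A1, q z = x) →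
  (∀ s : S, ∃ z, z ∈ A0 ∧ z ∈ A1 ∧ q z = algebraMap S F s) → 1 ≤ n →
  (∀ x ∈ B, ∃ z0 ∈ A0, ∃ z1 ∈ A1, ∃ w, q z0 = x ∧ q z1 = x ∧ z0 - z1 = t ^ n * w) →
  ∀ x y z : B, y • KaehlerDifferential.D S B x = KaehlerDifferential.D S B z →
  ∀ z0 ∈ A0, ∀ z1 ∈ A1, ∀ w, q z0 = x → q z1 = x → z0 - z1 = t ^ n * w →
  ∀ z0' ∈ A0, ∀ z1' ∈ A1, ∀ w', q z0' = z → q z1' = z → z0' - z1' = t ^ n * w' →
  ∃ u0 ∈ A0, ∃ u1 ∈ A1, (y : F) * q w - q w' = q u0 + q u1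

/-- HDU (120 lines), from AL1, AL3. Duality for `𝔄`. `E` is the section ring with
`ι : E → F`, `θ : Pol k → E`. Let `(x_0 x_1)^(N+1) w = c f`, `v = θ (red f)`. Claim: for
`y ∈ E` the coefficient of `X 0^N X 1^N` in `s0 (y v)` is `0`. Let `y' ∈ A 0` be a lift of `ι y`
(AL3), `x_0^M y' = c h`. Then `(x_0 x_1)^(N+M+1) (y' w) = c (X 1^M h f)`, so
`ρ (y' w)` = coefficient of `X 0^(N+M) X 1^(N+M)` in `X 1^M σ (h f)` = coefficient of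
`X 0^(N+M) X 1^N` in `σ (h f)`; it is in `(t)`. Its residue is the coefficient of
`X 0^(N+M) X 1^N` in `redL (σ (h f)) = s0 (θ (red h) v)`; and
`ι (θ (red h)) = q (c h) = x_0^M ι y`, so `θ (red h) = θ(X 0)^M y` and it is the coefficient of
`X 0^N X 1^N` in `s0 (y v)`. By the hypothesis (duality, DUA)
`v = θ(X 0)^(N+1) u + θ(X 1)^(N+1) u'`, so `q w = ι u / x_1^(N+1) + ι u' / x_0^(N+1)`, and
`ι u / x_1^(N+1) ∈ q (A 1)`, `ι u' / x_0^(N+1) ∈ q (A 0)` by AL3. -/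
def Stmt_HDU : Prop := ∀ (R 𝔄 F E : Type) [CommRing R] [IsDomain R] [IsDiscreteValuationRing R]
  [CommRing 𝔄] [Field F] [CommRing E] (D : Setup R 𝔄 F) (σ : Pol R →+ Lam R) (ρ : 𝔄 →+ R)
  (ι : E →+* F) (θ : Pol (κ R) →+* E) (s0 : E →+ Lam (κ R)),
  (∀ l f, σ (emb R l * f) = l * σ f) →
  (∀ (N : ℕ) (f : Pol R) (z : 𝔄), (D.c (X 0) * D.c (X 1)) ^ (N + 1) * z = D.c f →
      ρ z = coeff (Finsupp.single 0 N + Finsupp.single 1 N) (σ f)) →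
  Function.Injective ι → (∀ f, ι (θ f) = D.g f) → (∀ x, D.BS x ↔ ∃ e, ι e = x) →
  (∀ l z, s0 (θ (emb (κ R) l) * z) = l * s0 z) → (∀ f, s0 (θ (red R f)) = redL R (σ f)) →
  (∀ (v : E) (N : ℕ),
    (∀ y : E, coeff (Finsupp.single 0 N + Finsupp.single 1 N) (s0 (y * v)) = 0) →
    ∃ u w : E, v = θ (X 0) ^ (N + 1) * u + θ (X 1) ^ (N + 1) * w) →
  ∀ w : 𝔄, (∀ y : 𝔄, D.BS (D.q y) → ∃ a, ρ (y * w) = D.t * a) →
    ∃ u0 ∈ D.A 0, ∃ u1 ∈ D.A 1, D.q w = D.q u0 + D.q u1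

/-- LFT (250 lines), from AL1, AL2, AL3, HST, DER. THE INDUCTION STEP. Every `x ∈ B` has lifts
`z0 ∈ A 0`, `z1 ∈ A 1` with `z0 - z1 ∈ t^n 𝔄`: decompose `x` in homogeneous elements and add the
lifts of `Lev n`. So DER applies with `t = c (C t)` (`c (C t) ∈ A i`).
Let `BH j x` and `z0, z1, w` as in `Lev n`. CLAIM: for `y ∈ 𝔄`, `BS (q y)`, `ρ (y w) ∈ (t)`. Note
`ρ` of a multiple of `c (C t)` is in `(t)`, so `ρ (y w)` mod `t` depends only on `q y` and only on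
`q w`, additively. Decompose `q y = Σ v_m`, `BH m (v_m)`, and let `y_m` be lifts with
`AH 0 m (y_m)` (AL3): `y - Σ y_m ∈ ker q`. If `m + j ≠ d - 2` then `y_m w` is homogeneous of degree
`m + j`, so `ρ (y_m w) = 0`. If `m + j = d - 2`, by hypothesis there is `z ∈ B` with
`v_m • D x = D z`; let `z0', z1', w'` be lifts of `z` (as above). By DER
`v_m q w - q w' = q u0 + q u1`, so `y_m w - w' - u0 - u1 ∈ ker q`, and modulo `t`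
`ρ (y_m w) = ρ w' + ρ u0 + ρ u1 = ρ w'`, and `t^n ρ w' = ρ (z0') - ρ (z1') = 0`, so `ρ w' = 0`.
By the duality hypothesis and HST `w = u0 + u1 + t w'`, homogeneous. Then
`z0 - t^n u0`, `z1 + t^n u1` are the new lifts (`n ≥ 1`, so `q` is unchanged). -/
def Stmt_LFT : Prop := ∀ (R 𝔄 F : Type) [CommRing R] [IsDomain R] [IsDiscreteValuationRing R]
  [CommRing 𝔄] [Field F] (D : Setup R 𝔄 F) [Algebra (Pol (κ R)) F]
  (B : Subalgebra (Pol (κ R)) F) (d : ℤ) (ρ : 𝔄 →+ R),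
  (∀ f, algebraMap (Pol (κ R)) F f = D.g f) → (∀ x, x ∈ B ↔ D.BS x) →
  (∀ x ∈ B, ∃ (s : Finset ℤ) (v : ℤ → F), (∀ n, D.BH n (v n)) ∧ x = ∑ n ∈ s, v n) →
  (∀ n m : ℤ, n + m = d - 2 → ∀ x y : B, D.BH n x → D.BH m y →
    ∃ z : B, y • KaehlerDifferential.D (Pol (κ R)) B x =
      KaehlerDifferential.D (Pol (κ R)) B z) →
  (∀ a z, ρ (D.c (C a) * z) = a * ρ z) → (∀ z ∈ D.A 0, ρ z = 0) → (∀ z ∈ D.A 1, ρ z = 0) →
  (∀ n z, D.GH n z → n ≠ d - 2 → ρ z = 0) →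
  (∀ w : 𝔄, (∀ y : 𝔄, D.BS (D.q y) → ∃ a, ρ (y * w) = D.t * a) →
    ∃ u0 ∈ D.A 0, ∃ u1 ∈ D.A 1, D.q w = D.q u0 + D.q u1) →
  ∀ n : ℕ, 1 ≤ n → D.Lev n → D.Lev (n + 1)

/-- SEP (250 lines), from AL3. Krull. Let `G_j = {w : GH j w}` and `U_j = {u0 + u1}`,
`AH 0 j u0`, `AH 1 j u1`, two `R`-submodules of `𝔄` (`U_j ≤ G_j`). CLAIM: `G_j / U_j` is a finitely
generated `R`-module. Let `(x_0 x_1)^M w = c f`, `HZ (j + 2M) f`; by FGN (hypothesis `fgn`)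
`f ≡ Σ emb (g_ab) X 2^a X 3^b` mod `I`, `a, b < N`, `HZ (j + 2M - a - b) (g_ab)`, so `w` is an
`R`-combination of elements `x_0^p x_1^q x_2^a x_3^b` with `p, q ∈ ℤ`, `p, q ≥ -M`,
`p + q + a + b = j`; those with `q ≥ 0` are in `AH 0 j` (denominator a power of `x_0`), those with
`p ≥ 0` in `AH 1 j`; the remaining ones (`p, q < 0`, `p + q = j - a - b`, `a, b < N`) are finitely
many, independently of `w`. Then by Krull's intersection theorem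
(`Ideal.iInf_pow_smul_eq_bot_of_isLocalRing`, `R` noetherian local) an element of `G_j / U_j` which is
in `t^n (G_j / U_j)` for all `n` is `0`. -/
def Stmt_SEP : Prop := ∀ (R 𝔄 F : Type) [CommRing R] [IsDomain R] [IsDiscreteValuationRing R]
  [CommRing 𝔄] [Field F] (D : Setup R 𝔄 F),
  (∀ (n : ℤ) (f : Pol R), HZ n f → ∃ g : Fin D.N → Fin D.N → Lam R,
    (∀ i j : Fin D.N, HZ (n - (i : ℕ) - (j : ℕ)) (g i j)) ∧
    f - ∑ i : Fin D.N, ∑ j : Fin D.N, emb R (g i j) * (X 2 ^ (i : ℕ) * X 3 ^ (j : ℕ)) ∈ D.I) →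
  ∀ (j : ℤ) (w : 𝔄), D.GH j w →
  (∀ n : ℕ, ∃ u0 u1 w' : 𝔄, D.AH 0 j u0 ∧ D.AH 1 j u1 ∧ D.GH j w' ∧
    w = u0 + u1 + D.c (C D.t) ^ n * w') →
  ∃ u0 u1 : 𝔄, D.AH 0 j u0 ∧ D.AH 1 j u1 ∧ w = u0 + u1

/-- LAL (80 lines), from AL1, AL2, AL3, SEP. If all `Lev n` hold, homogeneous elements of `B` lift to
`A 0 ∩ A 1`. Let `z0 - z1 = t w` (`Lev 1`). For every `n`: `Lev (n+1)` gives `z0', z1', w'` with
`z0' - z1' = t^(n+1) w'`; by AL2 `z0 - z0' = t c0`, `z1 - z1' = t c1` with `AH 0 j c0`, `AH 1 j c1`,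
so `w = c0 - c1 + t^n w'`. By SEP `w = u0 + u1`, and `z = z0 - t u0 = z1 + t u1`. -/
def Stmt_LAL : Prop := ∀ (R 𝔄 F : Type) [CommRing R] [IsDomain R] [IsDiscreteValuationRing R]
  [CommRing 𝔄] [Field F] (D : Setup R 𝔄 F),
  (∀ (n : ℤ) (f : Pol R), HZ n f → ∃ g : Fin D.N → Fin D.N → Lam R,
    (∀ i j : Fin D.N, HZ (n - (i : ℕ) - (j : ℕ)) (g i j)) ∧
    f - ∑ i : Fin D.N, ∑ j : Fin D.N, emb R (g i j) * (X 2 ^ (i : ℕ) * X 3 ^ (j : ℕ)) ∈ D.I) →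
  (∀ n : ℕ, 1 ≤ n → D.Lev n) →
  ∀ (j : ℤ) (x : F), D.BH j x → ∃ z, D.AH 0 j z ∧ D.AH 1 j z ∧ D.q z = x

/-! ## Part E: the end -/

/-- SPN (100 lines). `E` has rank `r` and the Gram determinant of `b` is a unit: `b` is a basis.
Independent: apply `s'(· b_j)`. Let `u ∈ E`. Subtract a combination of the `b_i` (inverse of the Gram
matrix): we may suppose `s' (u b_j) = 0` for all `j`. By `dep` for `u, b_1, .., b_r`:
`μ u = Σ μ_i b_i`, `(μ, μ_i) ≠ 0`; applying `s' (· b_j)` gives `Σ μ_i s' (b_i b_j) = 0`, so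
`μ_i = 0`, `μ ≠ 0`, and `μ u = 0`, so `u = 0` by `tf`. -/
def Stmt_SPN : Prop := ∀ (R E : Type) [CommRing R] [IsDomain R] [CommRing E] (θ : Pol R →+* E)
  (s' : E →+ Lam R), (∀ l z, s' (θ (emb R l) * z) = l * s' z) →
  (∀ (l : Lam R) (z : E), l ≠ 0 → θ (emb R l) * z = 0 → z = 0) →
  ∀ (r : ℕ) (b : Fin r → E), IsUnit (gram s' b).det →
  (∀ v : Fin (r + 1) → E, ∃ μ : Fin (r + 1) → Lam R, μ ≠ 0 ∧
    ∑ i, θ (emb R (μ i)) * v i = 0) →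
  IsB θ b

/-- NIL (300 lines). THE KOSZUL ARGUMENT. `T = B ⊗ B`, `D_x = x ⊗ 1 - 1 ⊗ x`, `D_y`,
`w = u ⊗ 1 - 1 ⊗ u`. For `s ∈ Λ[x,y]` `s ⊗ 1 - 1 ⊗ s ∈ (D_x, D_y)` (induction), so by `h4`
`π_i w = D_x α_i + D_y β_i`. Put `c_ij = α_i β_j - α_j β_i`. Then
`π_j w α_i - π_i w α_j = D_y c_ij`, `π_j w β_i - π_i w β_j = - D_x c_ij` (insert `π_j w`). Hence
`k = π_2 c_01 - π_1 c_02 + π_0 c_12` satisfies `D_x k = D_y k = 0` (alternating sum). Then `k` is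
killed by `s ⊗ 1 - 1 ⊗ s`, `s ∈ Λ[x,y]`, so by `π_0 (v ⊗ 1 - 1 ⊗ v)`, `v ∈ B`, so by
`v ⊗ 1 - 1 ⊗ v` (`π_0` is regular on `T`, which is free over `Λ`). Let `b*` be the dual basis,
`Δ = Σ b_i ⊗ b*_i`; `(v ⊗ 1) Δ = (1 ⊗ v) Δ`; `(id ⊗ σ) Δ = Σ σ(b*_i) b_i = 1`. If `k` commutes in
this sense then `k = (c ⊗ 1) Δ` with `c = (id ⊗ σ) k` (write `k = Σ k_i ⊗ b*_i`; then
`k_i = (id ⊗ σ)((1 ⊗ b_i) k) = (id ⊗ σ)((b_i ⊗ 1) k) = b_i c`). The map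
`p v = ((id ⊗ σ) v ⊗ 1) Δ` is `Λ`-linear, `p k = k`, `D_x p v = D_y p v = 0`. Put
`c'_ij = c_ij - p c_ij`: the same formulas with `D_x c'_ij = D_x c_ij`, and
`π_2 c'_01 - π_1 c'_02 + π_0 c'_12 = k - p k = 0`. By `h3` (regularity on the free module `T`)
`c'_01 = π_0 m + π_1 n`. So `π_1 (w α_0 - n D_y) = π_0 (w α_1 + m D_y)` and
`π_1 (w β_0 + n D_x) = π_0 (w β_1 - m D_x)`; by `h2` `w α_0 - n D_y = π_0 V`,
`w β_0 + n D_x = π_0 V'`. Multiply by `D_x`, `D_y` and add: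
`w (D_x α_0 + D_y β_0) = π_0 w² = π_0 (D_x V + D_y V')`, so `w² = D_x V + D_y V'` by `h1`. -/
def Stmt_NIL : Prop := ∀ (Λ B : Type) [CommRing Λ] [CommRing B] [Algebra Λ B] (r : ℕ)
  (b : Module.Basis (Fin r) Λ B) (σ : B →ₗ[Λ] Λ),
  IsUnit (Matrix.of fun i j => σ (b i * b j)).det → ∀ (x y : B) (π : Fin 3 → Λ),
  (∀ a : Λ, π 0 * a = 0 → a = 0) →
  (∀ a c : Λ, π 1 * a = π 0 * c → ∃ e, a = π 0 * e) →
  (∀ a c e : Λ, π 2 * a = π 0 * c + π 1 * e → ∃ m n, a = π 0 * m + π 1 * n) →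
  (∀ (i : Fin 3) (u : B), π i • u ∈ Algebra.adjoin Λ {x, y}) → ∀ u : B,
  (u ⊗ₜ[Λ] (1 : B) - (1 : B) ⊗ₜ[Λ] u) ^ 2 ∈
    Ideal.span {x ⊗ₜ[Λ] (1 : B) - (1 : B) ⊗ₜ[Λ] x, y ⊗ₜ[Λ] (1 : B) - (1 : B) ⊗ₜ[Λ] y}

/-- END (120 lines). Let `W = {algebraMap a + j : j ∈ J}` and suppose `u ∉ W`. `B / W` is a vector
space over `κ = Λ / ker ε`, so there is an additive map `ℓ : B → κ` with `ℓ (a v) = ε(a) ℓ (v)`,
`ℓ (W) = 0` (so `ℓ(1) = 0`), `ℓ (u) = 1`. The additive map `τ (v ⊗ w) = ℓ(v) ℓ(w)` on `B ⊗ B` is well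
defined (`TensorProduct.liftAddHom` or `κ` as a `Λ`-module via `ε`); it kills
`(x ⊗ 1 - 1 ⊗ x)(v ⊗ w)` because `x v, x w ∈ J`, the same for `y`; and
`τ ((u ⊗ 1 - 1 ⊗ u)²) = τ (u² ⊗ 1 - 2 u ⊗ u + 1 ⊗ u²) = -2 ≠ 0`. Contradiction. -/
def Stmt_END : Prop := ∀ (Λ B k : Type) [CommRing Λ] [CommRing B] [Algebra Λ B] [Field k]
  (ε : Λ →+* k), Function.Surjective ε → (2 : k) ≠ 0 → ∀ (x y : B) (J : Ideal B), x ∈ J → y ∈ J →
  (∀ a, ε a = 0 → algebraMap Λ B a ∈ J) → ∀ u : B,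
  (u ⊗ₜ[Λ] (1 : B) - (1 : B) ⊗ₜ[Λ] u) ^ 2 ∈
    Ideal.span {x ⊗ₜ[Λ] (1 : B) - (1 : B) ⊗ₜ[Λ] x, y ⊗ₜ[Λ] (1 : B) - (1 : B) ⊗ₜ[Λ] y} →
  ∃ a : Λ, u - algebraMap Λ B a ∈ J

/-- FNI (60 lines). Let `Q_j` be the additive subgroup generated by the products `m_(i_1) .. m_(i_j) v`,
`v ∈ B`. By induction on `j`, `B = S + Q_j`: `v = s + Σ m_i v_i`, so
`m_(i_1) .. m_(i_j) v = (element of S) + Σ_i m_(i_1) .. m_(i_j) m_i v_i`. For `j = n e` every product of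
`j` of the `m_i` contains some `m_i^e` (pigeonhole), so `Q_j ⊆ S` (if `n = 0` the hypothesis gives
`u ∈ S` directly). -/
def Stmt_FNI : Prop := ∀ (B : Type) [CommRing B] (S : Subring B) (n e : ℕ) (m : Fin n → B),
  (∀ i, m i ∈ S) → (∀ i (u : B), m i ^ e * u ∈ S) →
  (∀ u : B, ∃ s ∈ S, u - s ∈ Ideal.span (Set.range m)) → ∀ u : B, u ∈ S

/-- UEX (100 lines). Uniform exponents. Every `b_i` has such an exponent (take the maximum); for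
`u = Σ l_i b_i` the same exponent works. For `X 2`: `X 2^N = p + X 0 v + X 1 w` with
`θ p = 0`, so `θ(X 2)^(2 N e) ∈ θ(X 0)^e E' + θ(X 1)^e E'` with `E' = θ (Pol R)`, and
`θ(X 2)^(2 N e) u ∈ E'`. The same for `X 3`. Take the largest exponent (multiplying by more powers is
harmless as `θ (X i) ∈ E'`). -/
def Stmt_UEX : Prop := ∀ (R E : Type) [CommRing R] [CommRing E] (θ : Pol R →+* E) (t : R) (N : ℕ)
  (r : ℕ) (b : Fin r → E), IsB θ b →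
  X 2 ^ N ∈ RingHom.ker θ ⊔ Ideal.span {X 0, X 1} →
  X 3 ^ N ∈ RingHom.ker θ ⊔ Ideal.span {X 0, X 1} →
  (∀ u : E, ∃ n : ℕ, θ (C t) ^ n * u ∈ θ.range ∧ θ (X 0) ^ n * u ∈ θ.range ∧
    θ (X 1) ^ n * u ∈ θ.range) →
  ∃ e : ℕ, 1 ≤ e ∧ ∀ u : E, θ (C t) ^ e * u ∈ θ.range ∧ ∀ i : Fin 4, θ (X i) ^ e * u ∈ θ.range

/-- RG3 (60 lines). `t^e, x_0^e, x_1^e` is a regular sequence in `R[x_0,x_1]`, `R` a domain: compare
coefficients. First: `Lam R` is a domain. Second: `X 0^e a ∈ t^e Lam R` means that `t^e` divides all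
coefficients of `X 0^e a`, which are those of `a`. Third: the coefficients of `X 0^i X 1^j` in `a` with
`i < e` are divisible by `t^e` (coefficient of `X 0^i X 1^(j+e)`). -/
def Stmt_RG3 : Prop := ∀ (R : Type) [CommRing R] [IsDomain R] (t : R) (e : ℕ), t ≠ 0 → 1 ≤ e →
  (∀ a : Lam R, C t ^ e * a = 0 → a = 0) ∧
  (∀ a c : Lam R, X 0 ^ e * a = C t ^ e * c → ∃ m : Lam R, a = C t ^ e * m) ∧
  (∀ a c m : Lam R, X 1 ^ e * a = C t ^ e * c + X 0 ^ e * m →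
    ∃ n n' : Lam R, a = C t ^ e * n + X 0 ^ e * n')

/-- ST6 (200 lines), from NIL, END, FNI, UEX, RG3. `E` is an algebra over `Λ = Lam R` via
`θ ∘ emb` (`RingHom.toAlgebra`), `b` is a basis, `s'` is linear. With `e` of UEX,
`π = (C t^e, X 0^e, X 1^e)`, `x = θ (X 2)`, `y = θ (X 3)`: the range of `θ` is contained in
`Algebra.adjoin Λ {x, y}` (induction on polynomials), so NIL applies. END with
`ε : Lam R → κ R`, `ε = residue ∘ constantCoeff`, `J` = ideal generated by `θ (C t)`, `θ (X i)`,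
`i = 0..3` (`ε a = 0` means that the constant coefficient is a multiple of `t`). So every `u ∈ E` is
`θ (emb a) + j`, `j ∈ J`, and FNI with `S = θ.range`, `m = (θ (C t), θ (X i))` gives `u ∈ θ.range`. -/
def Stmt_ST6 : Prop := ∀ (R E : Type) [CommRing R] [IsDomain R] [IsDiscreteValuationRing R]
  [CommRing E], (2 : κ R) ≠ 0 → ∀ (t : R), Irreducible t → ∀ (θ : Pol R →+* E) (s' : E →+ Lam R),
  (∀ l z, s' (θ (emb R l) * z) = l * s' z) → ∀ (r : ℕ) (b : Fin r → E), IsB θ b →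
  IsUnit (gram s' b).det → ∀ N : ℕ, X 2 ^ N ∈ RingHom.ker θ ⊔ Ideal.span {X 0, X 1} →
  X 3 ^ N ∈ RingHom.ker θ ⊔ Ideal.span {X 0, X 1} →
  (∀ u : E, ∃ n : ℕ, θ (C t) ^ n * u ∈ θ.range ∧ θ (X 0) ^ n * u ∈ θ.range ∧
    θ (X 1) ^ n * u ∈ θ.range) →
  ∀ u : E, ∃ f, u = θ f

/-- NK2 (150 lines). Graded Nakayama. `P / 𝔪P` is spanned by classes of forms in `P` (`P` is
homogeneous) and has dimension at most two: choose forms `F`, `G ∈ P` whose classes span it (some may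
be `0`). Then every form `f ∈ P` of degree `n` is `a F + b G + p`, `a, b ∈ k`, `p ∈ 𝔪P`; taking
components (`𝔪P` is homogeneous) the constants only appear in the right degree and
`p = Σ X_i p_i` with forms `p_i ∈ P` of degree `n - 1`; induction on `n`: `P = (F, G)`. -/
def Stmt_NK2 : Prop := ∀ (k : Type) [Field k] (P : Ideal (Pol k)), HomI P →
  (∀ p : Fin 3 → Pol k, (∀ i, p i ∈ P) → ∃ a : Fin 3 → k, a ≠ 0 ∧
    ∑ i, C (a i) * p i ∈ Ideal.span (Set.range (X : Fin 4 → Pol k)) * P) → IsCI P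

/-- GO2 (250 lines). A Gorenstein quotient in codimension two. `S = Pol k`, `V = S/(P + (X 0, X 1))`,
a `k`-vector space with basis `b̄_i` (dimension `r`): the classes span; independent: if
`Σ a_i b_i ∈ P + (X 0, X 1)`, expand the cofactors in the basis over `Lam k`: `a_i ∈ (X 0, X 1)`, so
`a_i = 0`. The functional `s̄ f = constantCoeff (s f)` is well defined on `V` and its Gram determinant
is not `0`: the pairing on `V` is perfect. Let `𝔪 = (X_0, .., X_3)`. `V/𝔪V = k`: `P ⊆ 𝔪` because `P`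
is homogeneous and proper, so `dim 𝔪V = r - 1`; the socle `{v : x_2 v = x_3 v = 0}` is the orthogonal
of `𝔪V = x_2 V + x_3 V`, so it has dimension `1`. So `Z = {(v, v') ∈ V² : x_2 v + x_3 v' = 0}` has
dimension `2r - (r-1) = r + 1` and `Y = {(x_3 w, - x_2 w)}` has dimension `r - 1`; `dim Z/Y = 2`.
Given three elements `p_1, p_2, p_3 ∈ P ⊆ 𝔪`, write `p = Σ X_j p^j` and map `p` to
`(p^2, p^3) ∈ Z`. There are `a ∈ k³`, `a ≠ 0`, with `Σ a_i (p_i^2, p_i^3) ∈ Y`. For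
`p = Σ a_i p_i`, `p^2 = X 3 w + j_2 + (X 0, X 1)`, `p^3 = - X 2 w + j_3 + (X 0, X 1)`, `j_2, j_3 ∈ P`,
so `p - X 2 j_2 - X 3 j_3 = X 0 u + X 1 v ∈ P`. Expand `u`, `v` in the basis, `u ≡ Σ l_i b_i`,
`v ≡ Σ m_i b_i` mod `P`: `X 0 l_i + X 1 m_i = 0`, `l_i = X 1 n_i`, `m_i = - X 0 n_i`; with
`w' = Σ n_i b_i`, `u - X 1 w' ∈ P`, `v + X 0 w' ∈ P` and
`X 0 u + X 1 v = X 0 (u - X 1 w') + X 1 (v + X 0 w') ∈ 𝔪P`. -/
def Stmt_GO2 : Prop := ∀ (k : Type) [Field k] (P : Ideal (Pol k)), HomI P → P ≠ ⊤ →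
  ∀ (r : ℕ) (b : Fin r → Pol k), IsB (Ideal.Quotient.mk P) (fun i => Ideal.Quotient.mk P (b i)) →
  ∀ s : Pol k →+ Lam k, (∀ l f, s (emb k l * f) = l * s f) → (∀ f ∈ P, s f = 0) →
  IsUnit (gram s b).det →
  ∀ p : Fin 3 → Pol k, (∀ i, p i ∈ P) → ∃ a : Fin 3 → k, a ≠ 0 ∧
    ∑ i, C (a i) * p i ∈ Ideal.span (Set.range (X : Fin 4 → Pol k)) * P

/-! ## Part F: exact forms -/

/-- EX3 (100 lines), from GRB. Let `x`, `y` be homogeneous of degrees `n`, `m`, `n + m = e`. By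
hypothesis and `Grd` `x = u_0 + Σ u_i ε_i`, `y = v_0 + Σ v_i ε_i` with `u_i`, `v_i` forms of degree
`n - δ_i`, `m - δ_i`. `y dx = Σ_i v_0 u_i dε_i + Σ_(i,j) u_i v_j ε_j dε_i`; for `i ≠ j` `u_i v_j` is
a form of degree `e - δ_i - δ_j < 0`, so it is `0`; `u_i v_i ε_i dε_i = d (u_i v_i ε_i² / 2)`,
`v_0 u_i dε_i = d (v_0 u_i ε_i)`. -/
def Stmt_EX3 : Prop := ∀ (k : Type) [Field k] (P : Ideal (Pol k)) (e : ℤ), P.IsPrime → HomI P →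
  X 0 ∉ P → (2 : k) ≠ 0 → ∀ (m : ℕ) (δ : Fin m → ℤ) (ε : Fin m → secRing P),
  (∀ i, IsSec P (δ i) (ε i : FF P)) → (∀ i j, i ≠ j → e < δ i + δ j) →
  (∀ z : secRing P, ∃ (f : Pol k) (g : Fin m → Pol k), z = algebraMap (Pol k) (secRing P) f +
    ∑ i, algebraMap (Pol k) (secRing P) (g i) * ε i) →
  ExactDeg P e

/-- EX2 (200 lines), from GRB. Let `x`, `y` be homogeneous, `deg x + deg y = e`. `x` is a sum of
terms `f ε^α` with `f` a form of degree `deg x - Σ α_i δ_i` (`Grd`); it is enough to consider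
`x = f ε^α`; `y dx = Σ_i (α_i f y ε^(α - 1_i)) dε_i` (`f ∈ S`, `df = 0`), and
`z_i = α_i f y ε^(α-1_i)` is homogeneous of degree `e - δ_i < δ_j` for `j ≠ i`; `z_i` is a sum of
terms `h ε^γ`, `h` a form, of degree `e - δ_i`; if `γ_j > 0` for some `j ≠ i` the degree is
`≥ δ_j` (as `δ ≥ 0`, `h = 0` or `deg h ≥ 0`), so `h = 0`. Hence `z_i` is a polynomial in `ε_i` with
coefficients in `S` and `z_i dε_i` is exact (characteristic `0`). -/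
def Stmt_EX2 : Prop := ∀ (k : Type) [Field k] [CharZero k] (P : Ideal (Pol k)) (e : ℤ),
  P.IsPrime → HomI P → X 0 ∉ P → ∀ (m : ℕ) (δ : Fin m → ℤ) (ε : Fin m → secRing P),
  (∀ i, 0 ≤ δ i) → (∀ i, IsSec P (δ i) (ε i : FF P)) → (∀ i j, i ≠ j → e < δ i + δ j) →
  Algebra.adjoin (Pol k) (Set.range ε) = ⊤ → ExactDeg P e

/-- EX4 (30 lines). If `deg x + deg y = e` then `2 deg x ≤ e` or `2 deg y ≤ e`; so `x ∈ S` and
`dx = 0`, or `y ∈ S` and `y dx = d (y x)`. -/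
def Stmt_EX4 : Prop := ∀ (k : Type) [Field k] (P : Ideal (Pol k)) (e : ℤ),
  (∀ (n : ℤ) (z : FF P), 2 * n ≤ e → IsSec P n z → ∃ f, z = algebraMap (Pol k) (FF P) f) →
  ExactDeg P e

end Pool.SC
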